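import Pool.Agent.H52.V.S8.H38R2.CG.Stubs
import Pool.Agent.H52.V.S8.H38R2.CG.SZ

set_option autoImplicit false

namespace Pool.Agent.H38R2.CG

open Finset Filter
open scoped Classical

namespace TB5h

/-! ### divisors -/

open Pointwise in
theorem card_div_mul (m n : ℕ) : (m * n).divisors.card ≤ m.divisors.card * n.divisors.card := by
  rw [Nat.divisors_mul]
  exact Finset.card_mul_le

theorem dsum (W : ℕ) : (∑ v ∈ Finset.Icc 1 W, (v.divisors.card : ℝ)) ≤ W * (1 + Real.log W) := by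
  have h1 : ∀ v ∈ Finset.Icc 1 W, (v.divisors.card : ℝ) =
      ∑ a ∈ Finset.Icc 1 W, if a ∣ v then (1:ℝ) else 0 := by
    intro v hv
    rw [Finset.mem_Icc] at hv
    rw [Finset.sum_boole]
    congr 2
    ext a
    rw [Nat.mem_divisors, Finset.mem_filter, Finset.mem_Icc]
    constructor
    · rintro ⟨h, h0⟩
      exact ⟨⟨Nat.pos_of_dvd_of_pos h (by omega), (Nat.le_of_dvd (by omega) h).trans hv.2⟩, h⟩
    · rintro ⟨_, h⟩
      exact ⟨h, by omega⟩
  rw [Finset.sum_congr rfl h1, Finset.sum_comm]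
  have h2 : ∀ a ∈ Finset.Icc 1 W, (∑ v ∈ Finset.Icc 1 W, if a ∣ v then (1:ℝ) else 0) ≤
      (W : ℝ) * (a : ℝ)⁻¹ := by
    intro a ha
    rw [Finset.sum_boole]
    have : (Finset.Icc 1 W).filter (fun v => a ∣ v) = (Finset.Ioc 0 W).filter (fun v => a ∣ v) := by
      rfl
    rw [this, Nat.Ioc_filter_dvd_card_eq_div, ← div_eq_mul_inv]
    exact Nat.cast_div_le
  refine (Finset.sum_le_sum h2).trans ?_
  rw [← Finset.mul_sum]
  refine mul_le_mul_of_nonneg_left ?_ (Nat.cast_nonneg _)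
  have h3 := harmonic_le_one_add_log W
  rw [harmonic_eq_sum_Icc] at h3
  push_cast at h3
  exact h3

theorem gsum (g V : ℕ) (hg : 1 ≤ g) (hV : 1 ≤ V) :
    (∑ v ∈ Finset.Icc 1 V, (v.divisors.card : ℝ) * (Nat.gcd g v : ℝ)) ≤
      (g.divisors.card : ℝ) ^ 2 * (V * (1 + Real.log V)) := by
  have h1 : ∀ v ∈ Finset.Icc 1 V, (v.divisors.card : ℝ) * (Nat.gcd g v : ℝ) ≤
      ∑ e ∈ g.divisors, (e : ℝ) * (if e ∣ v then (v.divisors.card : ℝ) else 0) := by
    intro v hv
    have hm : Nat.gcd g v ∈ g.divisors := Nat.mem_divisors.mpr ⟨Nat.gcd_dvd_left _ _, by omega⟩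
    refine le_trans ?_ (Finset.single_le_sum (f := fun e : ℕ =>
      (e : ℝ) * (if e ∣ v then (v.divisors.card : ℝ) else 0)) (fun e _ => by positivity) hm)
    rw [if_pos (Nat.gcd_dvd_right g v), mul_comm]
  refine (Finset.sum_le_sum h1).trans ?_
  rw [Finset.sum_comm]
  have hlogV : 0 ≤ Real.log V := Real.log_natCast_nonneg V
  have h2 : ∀ e ∈ g.divisors, (∑ v ∈ Finset.Icc 1 V,
      (e : ℝ) * (if e ∣ v then (v.divisors.card : ℝ) else 0)) ≤
      (g.divisors.card : ℝ) * (V * (1 + Real.log V)) := by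
    intro e he
    have heg := Nat.dvd_of_mem_divisors he
    have he0 : 0 < e := Nat.pos_of_mem_divisors he
    rw [← Finset.mul_sum, ← Finset.sum_filter]
    have h3 : (∑ v ∈ (Finset.Icc 1 V).filter (fun v => e ∣ v), (v.divisors.card : ℝ)) =
        ∑ v' ∈ Finset.Icc 1 (V / e), ((e * v').divisors.card : ℝ) := by
      refine Finset.sum_nbij' (fun v => v / e) (fun v' => e * v') ?_ ?_ ?_ ?_ ?_
      · intro v hv
        rw [Finset.mem_filter, Finset.mem_Icc] at hv
        obtain ⟨⟨h4, h5⟩, h6⟩ := hv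
        rw [Finset.mem_Icc]
        exact ⟨Nat.div_pos (Nat.le_of_dvd (by omega) h6) he0, Nat.div_le_div_right h5⟩
      · intro v' hv'
        rw [Finset.mem_Icc] at hv'
        rw [Finset.mem_filter, Finset.mem_Icc]
        refine ⟨⟨Nat.mul_pos he0 (by omega), ?_⟩, Dvd.intro _ rfl⟩
        calc e * v' ≤ e * (V / e) := Nat.mul_le_mul_left e hv'.2
          _ ≤ V := Nat.mul_div_le V e
      · intro v hv
        rw [Finset.mem_filter] at hv
        exact Nat.mul_div_cancel' hv.2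
      · intro v' _
        exact Nat.mul_div_cancel_left v' he0
      · intro v hv
        rw [Finset.mem_filter] at hv
        rw [Nat.mul_div_cancel' hv.2]
    rw [h3]
    have h4 : (∑ v' ∈ Finset.Icc 1 (V / e), ((e * v').divisors.card : ℝ)) ≤
        (e.divisors.card : ℝ) * (((V / e : ℕ) : ℝ) * (1 + Real.log ((V / e : ℕ) : ℝ))) := by
      refine le_trans (Finset.sum_le_sum (g := fun v' => (e.divisors.card : ℝ) *
        (v'.divisors.card : ℝ)) (fun v' _ => by exact_mod_cast card_div_mul e v')) ?_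
      rw [← Finset.mul_sum]
      exact mul_le_mul_of_nonneg_left (dsum _) (Nat.cast_nonneg _)
    have h5 : (e.divisors.card : ℝ) ≤ g.divisors.card := by
      exact_mod_cast Finset.card_le_card (Nat.divisors_subset_of_dvd (by omega) heg)
    have h6 : (e : ℝ) * ((V / e : ℕ) : ℝ) ≤ V := by
      exact_mod_cast Nat.mul_div_le V e
    have h7 : (1 + Real.log ((V / e : ℕ) : ℝ)) ≤ 1 + Real.log V := by
      rcases Nat.eq_zero_or_pos (V / e) with h | h
      · rw [h]; simpa using hlogV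
      · have := Real.log_le_log (by exact_mod_cast h)
          (show (((V / e : ℕ)) : ℝ) ≤ V by exact_mod_cast Nat.div_le_self V e)
        linarith
    have h8 : 0 ≤ 1 + Real.log ((V / e : ℕ) : ℝ) := by
      have := Real.log_natCast_nonneg (V / e)
      linarith
    calc (e : ℝ) * ∑ v' ∈ Finset.Icc 1 (V / e), ((e * v').divisors.card : ℝ)
        ≤ e * ((e.divisors.card : ℝ) * (((V / e : ℕ) : ℝ) * (1 + Real.log ((V / e : ℕ) : ℝ)))) :=
          mul_le_mul_of_nonneg_left h4 (Nat.cast_nonneg _)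
      _ = (e.divisors.card : ℝ) * ((e * ((V / e : ℕ) : ℝ)) * (1 + Real.log ((V / e : ℕ) : ℝ))) := by
          ring
      _ ≤ (g.divisors.card : ℝ) * (V * (1 + Real.log V)) := by
          refine mul_le_mul h5 (mul_le_mul h6 h7 h8 (Nat.cast_nonneg _)) ?_ (Nat.cast_nonneg _)
          positivity
  refine (Finset.sum_le_sum h2).trans ?_
  rw [Finset.sum_const, nsmul_eq_mul]
  exact le_of_eq (by ring)

theorem card_div_prod (u : Finset ℕ) (hu : ∀ p ∈ u, p.Prime) :
    (prodS u).divisors.card ≤ 2 ^ u.card := by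
  induction u using Finset.induction_on with
  | empty => simp [prodS]
  | insert p u hp ih =>
    unfold prodS at ih ⊢
    rw [Finset.prod_insert hp, Finset.card_insert_of_notMem hp, pow_succ, mul_comm]
    refine (card_div_mul _ _).trans (Nat.mul_le_mul (ih fun q hq => hu q (Finset.mem_insert_of_mem hq)) ?_)
    rw [(hu p (Finset.mem_insert_self p u)).divisors]
    exact Finset.card_le_two

theorem sqf_prod (u : Finset ℕ) (hu : ∀ p ∈ u, p.Prime) : Squarefree (prodS u) := by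
  induction u using Finset.induction_on with
  | empty => simp [prodS]
  | insert p u hp ih =>
    unfold prodS at ih ⊢
    rw [Finset.prod_insert hp]
    have h1 := hu p (Finset.mem_insert_self p u)
    have h2 : ∀ q ∈ u, q.Prime := fun q hq => hu q (Finset.mem_insert_of_mem hq)
    have hcop : Nat.Coprime p (∏ q ∈ u, q) := by
      refine Nat.Coprime.prod_right (fun q hq => ?_)
      exact (Nat.coprime_primes h1 (h2 q hq)).mpr (fun h => hp (h ▸ hq))
    exact (Nat.squarefree_mul hcop).mpr ⟨h1.squarefree, ih h2⟩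

theorem sqf_fact (s t : Finset ℕ) (hs : ∀ p ∈ s, p.Prime) (ht : ∀ p ∈ t, p.Prime) :
    prodS s * prodS t = (prodS (s ∩ t)) ^ 2 * prodS ((s \ t) ∪ (t \ s)) ∧
      Squarefree (prodS ((s \ t) ∪ (t \ s))) := by
  constructor
  · have h1 : prodS s = prodS (s ∩ t) * prodS (s \ t) := by
      unfold prodS
      rw [Finset.prod_inter_mul_prod_sdiff]
    have h2 : prodS t = prodS (s ∩ t) * prodS (t \ s) := by
      unfold prodS
      rw [Finset.inter_comm, Finset.prod_inter_mul_prod_sdiff]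
    have h3 : prodS ((s \ t) ∪ (t \ s)) = prodS (s \ t) * prodS (t \ s) := by
      unfold prodS
      rw [Finset.prod_union]
      rw [Finset.disjoint_left]
      intro x hx hy
      rw [Finset.mem_sdiff] at hx hy
      exact hx.2 hy.1
    rw [h3, h1, h2]
    ring
  · refine sqf_prod _ (fun p hp => ?_)
    rw [Finset.mem_union, Finset.mem_sdiff, Finset.mem_sdiff] at hp
    rcases hp with h | h
    · exact hs p h.1
    · exact ht p h.1

/-! ### the inner sum -/

theorem Qz_pos (z : ℕ) : 0 < Qz z := by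
  unfold Qz
  refine Nat.mul_pos (by norm_num) (Finset.prod_pos (fun l hl => ?_))
  have := (Finset.mem_filter.mp hl).2.pos
  positivity

theorem inner (hTB2 : P_TB2) (hTB3a : P_TB3a) (z r X : ℕ) (η : ℝ) (hη : 0 < η) (hη1 : η ≤ 1)
    (hX : 4 ≤ X) (s t : Finset ℕ) (hs : ∀ p ∈ s, p.Prime) (ht : ∀ p ∈ t, p.Prime)
    (hn : ((prodS s * prodS t : ℕ) : ℝ) ≤ (X : ℝ) ^ 2) :
    ∑ v ∈ Finset.Icc 1 ⌊2 * √(((prodS s * prodS t : ℕ) : ℝ) / X)⌋₊,
        (rho z r (prodS s * prodS t) v : ℝ) * (om X η v (prodS s * prodS t : ℕ) / Qz z) ≤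
      8 * √(X : ℝ) * (1 + Real.log X) * 4 ^ ((s ∩ t).card) := by
  set n := prodS s * prodS t with hnd
  set V := ⌊2 * √((n : ℝ) / X)⌋₊ with hV
  have hX0 : (0:ℝ) < X := by exact_mod_cast (by omega : 0 < X)
  have hlogX : 0 ≤ Real.log X := Real.log_natCast_nonneg X
  have hn1 : 1 ≤ n := by
    rw [hnd]
    unfold prodS
    exact Nat.mul_pos (Finset.prod_pos fun p hp => (hs p hp).pos)
      (Finset.prod_pos fun p hp => (ht p hp).pos)
  have hn0 : (0:ℝ) < n := by exact_mod_cast hn1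
  have hsn : 0 < √(n : ℝ) := Real.sqrt_pos.mpr hn0
  have hsX : 0 < √(X : ℝ) := Real.sqrt_pos.mpr hX0
  have hQ : (0:ℝ) < Qz z := by exact_mod_cast Qz_pos z
  rcases Nat.eq_zero_or_pos V with hV0 | hV1
  · rw [hV0]
    simp only [Finset.Icc_eq_empty_of_lt (show 0 < 1 by norm_num), Finset.sum_empty]
    positivity
  obtain ⟨hfac, hsq⟩ := sqf_fact s t hs ht
  set g := prodS (s ∩ t) with hg
  have hg1 : 1 ≤ g := by
    rw [hg]
    unfold prodS
    exact Finset.prod_pos fun p hp => (hs p (Finset.mem_inter.mp hp).1).pos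
  have hterm : ∀ v ∈ Finset.Icc 1 V,
      (rho z r n v : ℝ) * (om X η v n / Qz z) ≤
        (4 * X / √(n : ℝ)) * ((v.divisors.card : ℝ) * (Nat.gcd g v : ℝ)) := by
    intro v hv
    rw [Finset.mem_Icc] at hv
    have h1 : (rho z r n v : ℝ) ≤ 16 * Qz z * v.divisors.card * Nat.gcd g v := by
      exact_mod_cast hTB3a z r n v g _ (by rw [hnd]; exact hfac) hsq hg1 hv.1
    obtain ⟨-, hom0, hom1, -, -⟩ := hTB2 X η (by omega) hη hη1 n hn0
    have h2 : om X η v n ≤ X / (4 * √(n : ℝ)) := by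
      refine (hom1 v).trans ?_
      refine div_le_div_of_nonneg_right ?_ (by positivity)
      nlinarith
    calc (rho z r n v : ℝ) * (om X η v n / Qz z)
        ≤ (16 * Qz z * v.divisors.card * Nat.gcd g v) * (X / (4 * √(n : ℝ)) / Qz z) := by
          refine mul_le_mul h1 (div_le_div_of_nonneg_right h2 hQ.le) ?_ (by positivity)
          exact div_nonneg (hom0 v) hQ.le
      _ = (4 * X / √(n : ℝ)) * ((v.divisors.card : ℝ) * (Nat.gcd g v : ℝ)) := by
          field_simp
          ring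
  have hVle : (V : ℝ) ≤ 2 * √((n : ℝ) / X) := Nat.floor_le (by positivity)
  have hVX : (V : ℝ) ≤ X := by
    refine hVle.trans ?_
    have h3 : (n : ℝ) / X ≤ X := by
      rw [div_le_iff₀ hX0, ← sq]
      exact hn
    have h4 : √((n : ℝ) / X) ≤ √(X : ℝ) := Real.sqrt_le_sqrt h3
    have h5 : 2 ≤ √(X : ℝ) := by
      rw [show (2:ℝ) = √4 by rw [show (4:ℝ) = 2 ^ 2 by norm_num, Real.sqrt_sq (by norm_num)]]
      exact Real.sqrt_le_sqrt (by exact_mod_cast hX)
    have h6 : √(X : ℝ) * √(X : ℝ) = X := Real.mul_self_sqrt hX0.le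
    nlinarith
  have hlogV : Real.log V ≤ Real.log X := Real.log_le_log (by exact_mod_cast hV1) hVX
  have hlogV0 : 0 ≤ Real.log V := Real.log_natCast_nonneg V
  have hd : (g.divisors.card : ℝ) ^ 2 ≤ 4 ^ ((s ∩ t).card) := by
    have h1 : (g.divisors.card : ℝ) ≤ 2 ^ ((s ∩ t).card) := by
      exact_mod_cast card_div_prod (s ∩ t) (fun p hp => hs p (Finset.mem_inter.mp hp).1)
    calc (g.divisors.card : ℝ) ^ 2 ≤ (2 ^ ((s ∩ t).card)) ^ 2 :=
          pow_le_pow_left₀ (Nat.cast_nonneg _) h1 2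
      _ = 4 ^ ((s ∩ t).card) := by rw [← pow_mul, mul_comm, pow_mul]; norm_num
  calc ∑ v ∈ Finset.Icc 1 V, (rho z r n v : ℝ) * (om X η v n / Qz z)
      ≤ ∑ v ∈ Finset.Icc 1 V, (4 * X / √(n : ℝ)) * ((v.divisors.card : ℝ) * (Nat.gcd g v : ℝ)) :=
        Finset.sum_le_sum hterm
    _ = (4 * X / √(n : ℝ)) * ∑ v ∈ Finset.Icc 1 V, ((v.divisors.card : ℝ) * (Nat.gcd g v : ℝ)) := by
        rw [Finset.mul_sum]
    _ ≤ (4 * X / √(n : ℝ)) * ((g.divisors.card : ℝ) ^ 2 * (V * (1 + Real.log V))) :=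
        mul_le_mul_of_nonneg_left (gsum g V hg1 hV1) (by positivity)
    _ ≤ (4 * X / √(n : ℝ)) * (4 ^ ((s ∩ t).card) * ((2 * √((n : ℝ) / X)) * (1 + Real.log X))) := by
        refine mul_le_mul_of_nonneg_left ?_ (by positivity)
        refine mul_le_mul hd ?_ (by positivity) (by positivity)
        exact mul_le_mul hVle (by linarith) (by positivity) (by positivity)
    _ = 8 * √(X : ℝ) * (1 + Real.log X) * 4 ^ ((s ∩ t).card) := by
        rw [Real.sqrt_div' _ hX0.le]
        have h6 : √(X : ℝ) * √(X : ℝ) = X := Real.mul_self_sqrt hX0.le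
        have h7 : (4 * (X : ℝ) / √(n : ℝ)) * (2 * (√(n : ℝ) / √(X : ℝ))) = 8 * √(X : ℝ) := by
          field_simp
          rw [sq, h6]
          ring
        calc _ = (4 * (X : ℝ) / √(n : ℝ)) * (2 * (√(n : ℝ) / √(X : ℝ))) *
              (1 + Real.log X) * 4 ^ ((s ∩ t).card) := by ring
          _ = _ := by rw [h7]

/-! ### counting -/

theorem choose_ratio (N K : ℕ) (hK : K ≤ N) (hN : 0 < N) (a : ℕ) (ha : a ≤ K) :
    ((N - a).choose (K - a) : ℝ) ≤ (N.choose K : ℝ) * ((K : ℝ) / N) ^ a := by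
  induction a with
  | zero => simp
  | succ a ih =>
    have ih' := ih (by omega)
    obtain ⟨n, hn⟩ : ∃ n, N - a = n + 1 := ⟨N - a - 1, by omega⟩
    obtain ⟨k, hk⟩ : ∃ k, K - a = k + 1 := ⟨K - a - 1, by omega⟩
    have e1 : N - (a + 1) = n := by omega
    have e2 : K - (a + 1) = k := by omega
    rw [e1, e2]
    rw [hn, hk] at ih'
    have h1 : ((n + 1 : ℕ) : ℝ) * (n.choose k : ℝ) = ((n + 1).choose (k + 1) : ℝ) * ((k + 1 : ℕ) : ℝ) := by
      exact_mod_cast Nat.add_one_mul_choose_eq n k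
    have hN0 : (0:ℝ) < N := by exact_mod_cast hN
    have hn0 : (0:ℝ) < ((n + 1 : ℕ) : ℝ) := by positivity
    have h2 : (n.choose k : ℝ) = ((n + 1).choose (k + 1) : ℝ) * (((k + 1 : ℕ) : ℝ) / ((n + 1 : ℕ) : ℝ)) := by
      field_simp
      linarith
    have h3 : ((k + 1 : ℕ) : ℝ) / ((n + 1 : ℕ) : ℝ) ≤ (K : ℝ) / N := by
      rw [div_le_div_iff₀ hn0 hN0]
      have : (k + 1) * N ≤ K * (n + 1) := by
        have e3 : k + 1 = K - a := hk.symm
        have e4 : n + 1 = N - a := hn.symm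
        rw [e3, e4, Nat.sub_mul, Nat.mul_sub]
        have : K * a ≤ a * N := by rw [mul_comm K a]; exact Nat.mul_le_mul_left a hK
        omega
      exact_mod_cast this
    rw [h2, pow_succ, ← mul_assoc]
    exact mul_le_mul ih' h3 (by positivity) (by positivity)

theorem card_super (P u : Finset ℕ) (K : ℕ) (hu : u ⊆ P) :
    ((P.powersetCard K).filter (fun t => u ⊆ t)).card ≤ (P.card - u.card).choose (K - u.card) := by
  have h : ((P.powersetCard K).filter (fun t => u ⊆ t)).card ≤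
      ((P \ u).powersetCard (K - u.card)).card := by
    refine Finset.card_le_card_of_injOn (fun t => t \ u) ?_ ?_
    · intro t ht
      rw [Finset.mem_coe, Finset.mem_filter, Finset.mem_powersetCard] at ht
      rw [Finset.mem_coe, Finset.mem_powersetCard]
      refine ⟨Finset.sdiff_subset_sdiff ht.1.1 (Finset.Subset.refl u), ?_⟩
      rw [Finset.card_sdiff_of_subset ht.2, ht.1.2]
    · intro t ht t' ht' h
      rw [Finset.mem_coe, Finset.mem_filter] at ht ht'
      simp only at h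
      rw [← Finset.sdiff_union_of_subset ht.2, h, Finset.sdiff_union_of_subset ht'.2]
  rw [Finset.card_powersetCard, Finset.card_sdiff_of_subset hu] at h
  exact h

theorem count (P : Finset ℕ) (K : ℕ) (s : Finset ℕ) (hsP : s ⊆ P) (hsK : s.card = K)
    (hK : K ≤ P.card) (hP : 0 < P.card) (h7 : 7 * (K : ℝ) ^ 2 ≤ P.card) :
    ∑ t ∈ (P.powersetCard K).filter (fun t => ¬ Disjoint s t), (8:ℝ) ^ ((s ∩ t).card) ≤
      16 * ((K : ℝ) ^ 2 / P.card) * (P.card.choose K : ℝ) := by
  have hP0 : (0:ℝ) < P.card := by exact_mod_cast hP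
  set x : ℝ := (K : ℝ) / P.card with hx
  have hx0 : 0 ≤ x := by positivity
  -- total sum
  have htot : ∑ t ∈ P.powersetCard K, (8:ℝ) ^ ((s ∩ t).card) ≤
      (P.card.choose K : ℝ) * (1 + 7 * x) ^ K := by
    have h1 : ∀ t ∈ P.powersetCard K, (8:ℝ) ^ ((s ∩ t).card) =
        ∑ u ∈ s.powerset, if u ⊆ t then (7:ℝ) ^ u.card else 0 := by
      intro t _
      have h2 := Finset.sum_pow_mul_eq_add_pow (7:ℝ) 1 (s ∩ t)
      simp only [one_pow, mul_one] at h2
      rw [show (8:ℝ) = 7 + 1 by norm_num, ← h2, ← Finset.sum_filter]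
      refine Finset.sum_congr ?_ (fun _ _ => rfl)
      ext u
      rw [Finset.mem_powerset, Finset.mem_filter, Finset.mem_powerset, Finset.subset_inter_iff]
    rw [Finset.sum_congr rfl h1, Finset.sum_comm]
    have h3 : ∀ u ∈ s.powerset, (∑ t ∈ P.powersetCard K, if u ⊆ t then (7:ℝ) ^ u.card else 0) ≤
        (P.card.choose K : ℝ) * ((7 * x) ^ u.card * 1 ^ (s.card - u.card)) := by
      intro u hu
      rw [Finset.mem_powerset] at hu
      rw [← Finset.sum_filter, Finset.sum_const, nsmul_eq_mul]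
      have huc : u.card ≤ K := by rw [← hsK]; exact Finset.card_le_card hu
      have h4 : (((P.powersetCard K).filter (fun t => u ⊆ t)).card : ℝ) ≤
          ((P.card - u.card).choose (K - u.card) : ℝ) := by
        exact_mod_cast card_super P u K (hu.trans hsP)
      have h5 := h4.trans (choose_ratio P.card K hK hP u.card huc)
      calc (((P.powersetCard K).filter (fun t => u ⊆ t)).card : ℝ) * 7 ^ u.card
          ≤ ((P.card.choose K : ℝ) * ((K : ℝ) / P.card) ^ u.card) * 7 ^ u.card :=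
            mul_le_mul_of_nonneg_right h5 (by positivity)
        _ = (P.card.choose K : ℝ) * ((7 * x) ^ u.card * 1 ^ (s.card - u.card)) := by
            rw [one_pow, mul_one, mul_pow, hx]; ring
    refine (Finset.sum_le_sum h3).trans ?_
    rw [← Finset.mul_sum, Finset.sum_pow_mul_eq_add_pow, hsK, add_comm (7 * x) 1]
  have hy : 7 * x * K ≤ 1 := by
    rw [hx]
    have : 7 * ((K : ℝ) / P.card) * K = 7 * (K : ℝ) ^ 2 / P.card := by ring
    rw [this, div_le_one hP0]
    exact h7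
  have hy0 : 0 ≤ 7 * x * K := by positivity
  have hexp : (1 + 7 * x) ^ K ≤ 1 + 2 * (7 * x * K) := by
    have h1 : (1 + 7 * x) ^ K ≤ Real.exp (7 * x * K) := by
      have h2 : 1 + 7 * x ≤ Real.exp (7 * x) := by
        have := Real.add_one_le_exp (7 * x)
        linarith
      calc (1 + 7 * x) ^ K ≤ (Real.exp (7 * x)) ^ K := pow_le_pow_left₀ (by positivity) h2 K
        _ = Real.exp (7 * x * K) := by rw [← Real.exp_nat_mul]; congr 1; ring
    have h3 := Real.abs_exp_sub_one_sub_id_le (x := 7 * x * K) (by rw [abs_of_nonneg hy0]; exact hy)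
    have h4 := (le_abs_self _).trans h3
    nlinarith
  have hall : ∑ t ∈ P.powersetCard K, ((8:ℝ) ^ ((s ∩ t).card) - 1) ≤
      14 * ((K : ℝ) ^ 2 / P.card) * (P.card.choose K : ℝ) := by
    rw [Finset.sum_sub_distrib, Finset.sum_const, Finset.card_powersetCard, nsmul_eq_mul, mul_one]
    have h1 : (P.card.choose K : ℝ) * (1 + 7 * x) ^ K ≤
        (P.card.choose K : ℝ) * (1 + 2 * (7 * x * K)) :=
      mul_le_mul_of_nonneg_left hexp (Nat.cast_nonneg _)
    have h2 : 2 * (7 * x * K) = 14 * ((K : ℝ) ^ 2 / P.card) := by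
      rw [hx]; ring
    rw [h2] at h1
    linarith
  have hpos : ∀ t : Finset ℕ, (0:ℝ) ≤ (8:ℝ) ^ ((s ∩ t).card) - 1 := by
    intro t
    have : (1:ℝ) ≤ (8:ℝ) ^ ((s ∩ t).card) := one_le_pow₀ (by norm_num)
    linarith
  calc ∑ t ∈ (P.powersetCard K).filter (fun t => ¬ Disjoint s t), (8:ℝ) ^ ((s ∩ t).card)
      ≤ ∑ t ∈ (P.powersetCard K).filter (fun t => ¬ Disjoint s t),
          (8 / 7) * ((8:ℝ) ^ ((s ∩ t).card) - 1) := by
        refine Finset.sum_le_sum (fun t ht => ?_)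
        rw [Finset.mem_filter] at ht
        have h1 : 1 ≤ (s ∩ t).card := by
          rw [Finset.one_le_card, Finset.not_disjoint_iff_nonempty_inter.symm]
          exact ht.2
        have h2 : (8:ℝ) ≤ (8:ℝ) ^ ((s ∩ t).card) := by
          calc (8:ℝ) = 8 ^ 1 := by norm_num
            _ ≤ _ := pow_le_pow_right₀ (by norm_num) h1
        linarith
    _ ≤ ∑ t ∈ P.powersetCard K, (8 / 7) * ((8:ℝ) ^ ((s ∩ t).card) - 1) := by
        refine Finset.sum_le_sum_of_subset_of_nonneg (Finset.filter_subset _ _) (fun t _ _ => ?_)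
        have := hpos t
        positivity
    _ = (8 / 7) * ∑ t ∈ P.powersetCard K, ((8:ℝ) ^ ((s ∩ t).card) - 1) := by rw [Finset.mul_sum]
    _ ≤ (8 / 7) * (14 * ((K : ℝ) ^ 2 / P.card) * (P.card.choose K : ℝ)) :=
        mul_le_mul_of_nonneg_left hall (by norm_num)
    _ = 16 * ((K : ℝ) ^ 2 / P.card) * (P.card.choose K : ℝ) := by ring

/-! ### window -/

theorem phi_nonneg (t : ℝ) : 0 ≤ phi t := le_max_left _ _

theorem phi_le_one (t : ℝ) : phi t ≤ 1 := by
  unfold phi
  refine max_le (by norm_num) ?_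
  have := abs_nonneg t
  linarith

theorem win_nonneg (η' : ℝ) (j : ℤ) (s : Finset ℕ) : 0 ≤ win η' j s := phi_nonneg _

theorem win_le_one (η' : ℝ) (j : ℤ) (s : Finset ℕ) : win η' j s ≤ 1 := phi_le_one _

/-! ### sizes -/

theorem sizes (hNB : P_NB) (B : ℝ) : ∀ᶠ X : ℕ in atTop, B ≤ Real.log X ∧ 1 ≤ Real.log X ∧
    1 ≤ (kk X : ℝ) ∧ (kk X : ℝ) ≤ Real.log X ∧ 7 * (Real.log X) ^ 5 ≤ ((PX X).card : ℝ) ∧ 4 ≤ X := by
  obtain ⟨-, y0, hy0⟩ := hNB
  have hy : ∀ᶠ X : ℕ in atTop, y0 ≤ yy X := by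
    have := SZh.tendsto_yy.eventually_ge_atTop (y0 : ℝ)
    filter_upwards [this] with X hX
    exact_mod_cast hX
  filter_upwards [SZh.ev, SZh.tendsto_log.eventually_ge_atTop B,
    SZh.tendsto_log.eventually_ge_atTop 10, hy, eventually_ge_atTop 4] with X h1 h2 h3 h4 h5
  obtain ⟨a1, a2, a3⟩ := h1
  set L := Real.log (X : ℝ) with hL
  set l := Real.log (yy X : ℝ) with hl
  have hkk : (kk X : ℝ) ≤ 13 / 20 * L / l + 1 := by
    unfold kk
    push_cast
    have : (⌊(13 / 20 : ℝ) * Real.log X / Real.log (yy X)⌋₊ : ℝ) ≤ 13 / 20 * L / l :=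
      Nat.floor_le (by positivity)
    linarith
  have hkL : 13 / 20 * L / l ≤ 13 / 20 * L / 60 :=
    div_le_div_of_nonneg_left (by positivity) (by norm_num) a1
  have hcard := (hy0 (yy X) h4).1
  have hyl : (Real.log X) ^ 6 / 4 - 1 ≤ (yy X : ℝ) := by
    have := Nat.lt_floor_add_one ((Real.log X) ^ 6 / 4)
    unfold yy
    linarith
  refine ⟨h2, by linarith, ?_, by linarith, ?_, h5⟩
  · unfold kk
    push_cast
    have : (0:ℝ) ≤ (⌊(13 / 20 : ℝ) * Real.log X / Real.log (yy X)⌋₊ : ℝ) := Nat.cast_nonneg _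
    linarith
  · unfold PX
    refine le_trans ?_ hcard
    have hl2 : l ≤ L / 120 := by
      have := Real.log_pos (show (1:ℝ) < 2 by norm_num)
      linarith
    have hl0 : 0 < l := by linarith
    rw [le_div_iff₀ hl0]
    have h6 : 7 * L ^ 5 * l ≤ 7 * L ^ 5 * (L / 120) :=
      mul_le_mul_of_nonneg_left hl2 (by positivity)
    have h7 : 7 * L ^ 5 * (L / 120) = 7 * L ^ 6 / 120 := by ring
    have h8 : (10:ℝ) ^ 6 ≤ L ^ 6 := pow_le_pow_left₀ (by norm_num) h3 6
    have h9 : L ^ 6 / 4 - 1 ≤ (yy X : ℝ) := hyl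
    rw [h7] at h6
    linarith

end TB5h

open TB5h in
theorem T_TB5 : P_SZ → P_NB → P_TB2 → P_TB3a → P_TB5 := by
  intro hSZ hNB hTB2 hTB3a z r hr η hη hη1 η' hη' hη'1 δ ε hδ hε
  obtain ⟨X1, hX1⟩ := hSZ
  obtain ⟨X2, hX2⟩ := Filter.eventually_atTop.mp (sizes hNB (256 / (7 * δ * ε)))
  refine ⟨max X1 X2, fun X hX j hj => ?_⟩
  have hsz := hX1 X ((le_max_left _ _).trans hX)
  obtain ⟨b1, b2, b3, b4, b5, b6⟩ := hX2 X ((le_max_right _ _).trans hX)
  set L := Real.log (X : ℝ) with hL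
  set k : ℝ := (kk X : ℝ) with hk
  set π : ℝ := ((PX X).card : ℝ) with hπ
  have hX0 : (0:ℝ) < X := by exact_mod_cast (by omega : 0 < X)
  have hπ0 : 0 < π := lt_of_lt_of_le (by positivity) b5
  have hL5 : L ^ 2 ≤ L ^ 5 := pow_le_pow_right₀ b2 (by norm_num)
  have hLL : L ≤ L ^ 5 := by
    calc L = L ^ 1 := (pow_one L).symm
      _ ≤ L ^ 5 := pow_le_pow_right₀ b2 (by norm_num)
  have hkπ : kk X ≤ (PX X).card := by
    have : (kk X : ℝ) ≤ ((PX X).card : ℝ) := by
      have h0 : 0 ≤ L ^ 5 := by positivity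
      linarith
    exact_mod_cast this
  have hk2 : 7 * k ^ 2 ≤ π := by
    have : k ^ 2 ≤ L ^ 2 := pow_le_pow_left₀ (by positivity) b4 2
    linarith
  have hprime : ∀ s ∈ SX X, ∀ p ∈ s, p.Prime := by
    intro s hs p hp
    unfold SX PX PP at hs
    rw [Finset.mem_powersetCard] at hs
    exact (Finset.mem_filter.mp (hs.1 hp)).2
  set S1v := S1 X η' j with hS1
  have hS1nn : 0 ≤ S1v := by
    rw [hS1]
    exact Finset.sum_nonneg (fun s _ => win_nonneg η' j s)
  have hNXle : NX X ≤ k / δ * S1v := by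
    have h1 : δ / k * NX X ≤ S1v := hj
    have hk0 : 0 < k := by linarith
    calc NX X = k / δ * (δ / k * NX X) := by field_simp
      _ ≤ k / δ * S1v := mul_le_mul_of_nonneg_left h1 (by positivity)
  -- the sum over t
  have hsumt : ∀ s ∈ SX X, (∑ t ∈ (SX X).filter (fun t => ¬ Disjoint s t),
      win η' j s * win η' j t * 2 ^ ((s ∩ t).card) *
      ∑ v ∈ Finset.Icc 1 ⌊2 * √(((prodS s * prodS t : ℕ) : ℝ) / X)⌋₊,
        (rho z r (prodS s * prodS t) v : ℝ) * (om X η v (prodS s * prodS t : ℕ) / Qz z)) ≤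
      win η' j s * (8 * √(X : ℝ) * (1 + L) * (16 * (k ^ 2 / π) * NX X)) := by
    intro s hs
    have h1 : ∀ t ∈ (SX X).filter (fun t => ¬ Disjoint s t),
        win η' j s * win η' j t * 2 ^ ((s ∩ t).card) *
        (∑ v ∈ Finset.Icc 1 ⌊2 * √(((prodS s * prodS t : ℕ) : ℝ) / X)⌋₊,
        (rho z r (prodS s * prodS t) v : ℝ) * (om X η v (prodS s * prodS t : ℕ) / Qz z)) ≤
        win η' j s * (8 * √(X : ℝ) * (1 + L)) * (8:ℝ) ^ ((s ∩ t).card) := by
      intro t ht
      have ht' := (Finset.mem_filter.mp ht).1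
      have hn : ((prodS s * prodS t : ℕ) : ℝ) ≤ (X : ℝ) ^ 2 := by
        push_cast
        have h3 := (hsz s hs).2
        have h4 := (hsz t ht').2
        have h5 : (X : ℝ) ^ (2 / 3 : ℝ) ≤ X := by
          calc (X : ℝ) ^ (2 / 3 : ℝ) ≤ (X : ℝ) ^ (1 : ℝ) :=
                Real.rpow_le_rpow_of_exponent_le (by exact_mod_cast (by omega : 1 ≤ X)) (by norm_num)
            _ = X := Real.rpow_one _
        calc (prodS s : ℝ) * prodS t ≤ X * X :=
              mul_le_mul (h3.trans h5) (h4.trans h5) (Nat.cast_nonneg _) hX0.le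
          _ = (X : ℝ) ^ 2 := by ring
      have hin := inner hTB2 hTB3a z r X η hη hη1 b6 s t (hprime s hs) (hprime t ht') hn
      have hw1 := win_nonneg η' j s
      have hw2 := win_nonneg η' j t
      have hw3 := win_le_one η' j t
      calc _ ≤ win η' j s * win η' j t * 2 ^ ((s ∩ t).card) *
            (8 * √(X : ℝ) * (1 + L) * 4 ^ ((s ∩ t).card)) :=
            mul_le_mul_of_nonneg_left hin (by positivity)
        _ ≤ win η' j s * 1 * 2 ^ ((s ∩ t).card) *
            (8 * √(X : ℝ) * (1 + L) * 4 ^ ((s ∩ t).card)) := by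
            refine mul_le_mul_of_nonneg_right ?_ (by positivity)
            refine mul_le_mul_of_nonneg_right ?_ (by positivity)
            exact mul_le_mul_of_nonneg_left hw3 hw1
        _ = win η' j s * (8 * √(X : ℝ) * (1 + L)) * (8:ℝ) ^ ((s ∩ t).card) := by
            rw [show (8:ℝ) ^ ((s ∩ t).card) = 2 ^ ((s ∩ t).card) * 4 ^ ((s ∩ t).card) by
              rw [← mul_pow]; norm_num]
            ring
    refine (Finset.sum_le_sum h1).trans ?_
    rw [← Finset.mul_sum]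
    have hs' := hs
    unfold SX at hs'
    rw [Finset.mem_powersetCard] at hs'
    have hπ1 : (0:ℝ) < ((PX X).card : ℝ) := hπ0
    have hc := count (PX X) (kk X) s hs'.1 hs'.2 hkπ (Nat.cast_pos.mp hπ1) hk2
    have hw1 := win_nonneg η' j s
    calc _ ≤ win η' j s * (8 * √(X : ℝ) * (1 + L)) *
          (16 * ((kk X : ℝ) ^ 2 / (PX X).card) * ((PX X).card.choose (kk X) : ℝ)) :=
          mul_le_mul_of_nonneg_left hc (by positivity)
      _ = _ := by
          unfold NX
          ring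
  refine (Finset.sum_le_sum hsumt).trans ?_
  rw [← Finset.sum_mul]
  have hS1' : ∑ s ∈ SX X, win η' j s = S1v := rfl
  rw [hS1']
  have hcore : 128 * (1 + L) * k ^ 3 / (δ * π) ≤ ε := by
    have hk3 : k ^ 3 ≤ L ^ 3 := pow_le_pow_left₀ (by positivity) b4 3
    rw [div_le_iff₀ (by positivity)]
    have h1 : 128 * (1 + L) * k ^ 3 ≤ 128 * (2 * L) * L ^ 3 :=
      mul_le_mul (by linarith) hk3 (by positivity) (by positivity)
    have h2 : 256 ≤ L * (7 * δ * ε) := by
      rw [div_le_iff₀ (by positivity)] at b1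
      exact b1
    have h3 : ε * (δ * (7 * L ^ 5)) ≤ ε * (δ * π) :=
      mul_le_mul_of_nonneg_left (mul_le_mul_of_nonneg_left b5 hδ.le) hε.le
    have h4 : 256 * L ^ 4 ≤ L * (7 * δ * ε) * L ^ 4 :=
      mul_le_mul_of_nonneg_right h2 (by positivity)
    calc 128 * (1 + L) * k ^ 3 ≤ 128 * (2 * L) * L ^ 3 := h1
      _ = 256 * L ^ 4 := by ring
      _ ≤ L * (7 * δ * ε) * L ^ 4 := h4
      _ = ε * (δ * (7 * L ^ 5)) := by ring
      _ ≤ ε * (δ * π) := h3
  calc S1v * (8 * √(X : ℝ) * (1 + L) * (16 * (k ^ 2 / π) * NX X))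
      ≤ S1v * (8 * √(X : ℝ) * (1 + L) * (16 * (k ^ 2 / π) * (k / δ * S1v))) := by
        refine mul_le_mul_of_nonneg_left ?_ hS1nn
        refine mul_le_mul_of_nonneg_left ?_ (by positivity)
        exact mul_le_mul_of_nonneg_left hNXle (by positivity)
    _ = (128 * (1 + L) * k ^ 3 / (δ * π)) * (√(X : ℝ) * S1v ^ 2) := by
        field_simp
        ring
    _ ≤ ε * (√(X : ℝ) * S1v ^ 2) := mul_le_mul_of_nonneg_right hcore (by positivity)
    _ = ε * √(X : ℝ) * S1v ^ 2 := by ring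

end Pool.Agent.H38R2.CG
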