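import Pool.Agent.H52.V.S8.H38R2.CG.Stubs

/-!
# LM2: cancellation of Jacobi symbols over fundamental discriminants in a residue class
-/

set_option autoImplicit false

namespace Pool.Agent.H38R2.CG

open Finset Filter
open scoped Classical

namespace LM2h

/-- the Jacobi symbol modulo `M` as a Dirichlet character -/
noncomputable def jch (M : ℕ) [NeZero M] : DirichletCharacter ℂ M where
  toFun a := ((jacobiSym (a.val : ℤ) M : ℤ) : ℂ)
  map_one' := by
    have h : ((1 : ZMod M).val : ℤ) = (1 % M : ℕ) := by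
      rw [ZMod.val_one_eq_one_mod]
    rw [h]
    push_cast
    rw [← jacobiSym.mod_left, jacobiSym.one_left]
    norm_num
  map_mul' a b := by
    rw [ZMod.val_mul]
    push_cast
    rw [← jacobiSym.mod_left, jacobiSym.mul_left]
    push_cast
    rfl
  map_nonunit' a ha := by
    have h1 : jacobiSym (a.val : ℤ) M = 0 := by
      rw [jacobiSym.eq_zero_iff_not_coprime]
      intro h
      apply ha
      have h2 : Nat.Coprime a.val M := by
        rw [Nat.Coprime]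
        have := h
        rwa [Int.gcd_natCast_natCast] at this
      have h3 := (ZMod.isUnit_iff_coprime a.val M).mpr h2
      rwa [ZMod.natCast_zmod_val] at h3
    rw [h1]
    norm_num

lemma jch_apply (M : ℕ) [NeZero M] (n : ℕ) :
    jch M (n : ZMod M) = ((jacobiSym (n : ℤ) M : ℤ) : ℂ) := by
  have : jch M (n : ZMod M) = ((jacobiSym (((n : ZMod M).val : ℕ) : ℤ) M : ℤ) : ℂ) := rfl
  rw [this, ZMod.val_natCast]
  push_cast
  rw [← jacobiSym.mod_left]

lemma abs_jac (a : ℤ) (M : ℕ) : |((jacobiSym a M : ℤ) : ℝ)| ≤ 1 := by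
  rcases jacobiSym.trichotomy a M with h | h | h <;> rw [h] <;> norm_num

lemma exists_neg (m : ℕ) (hodd : Odd m) (hsq : ¬ IsSquare m) :
    ∃ a : ℕ, jacobiSym (a : ℤ) m = -1 := by
  obtain ⟨a, b, hab, hsf⟩ := Nat.sq_mul_squarefree m
  have hm0 : m ≠ 0 := by rintro rfl; simp at hodd
  have ha0 : a ≠ 0 := by rintro rfl; simp at hab; omega
  have hb0 : b ≠ 0 := by rintro rfl; simp at hab; omega
  have ha1 : a ≠ 1 := by
    rintro rfl
    exact hsq ⟨b, by rw [← hab]; ring⟩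
  obtain ⟨l, hl, hla⟩ := Nat.exists_prime_and_dvd ha1
  obtain ⟨a', rfl⟩ := hla
  have hcop : Nat.Coprime l a' := Nat.coprime_of_squarefree_mul hsf
  obtain ⟨j, b', hb', hbj⟩ := Nat.exists_eq_pow_mul_and_not_dvd hb0 l hl.ne_one
  have hm : m = l ^ (2 * j + 1) * (b' ^ 2 * a') := by rw [← hab, hbj]; ring
  have hcop' : Nat.Coprime l (b' ^ 2 * a') := by
    apply Nat.Coprime.mul_right _ hcop
    exact Nat.Coprime.pow_right 2 ((Nat.Prime.coprime_iff_not_dvd hl).2 hb')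
  have hm'0 : b' ^ 2 * a' ≠ 0 := by
    intro h
    rw [hm, h] at hm0
    simp at hm0
  have hl2 : l ≠ 2 := by
    rintro rfl
    have h2 : 2 ∣ m := by
      rw [hm]
      exact Dvd.dvd.mul_right (dvd_pow_self 2 (by omega)) _
    rw [Nat.odd_iff] at hodd
    omega
  have hF : Fact l.Prime := ⟨hl⟩
  have hchar : ringChar (ZMod l) ≠ 2 := by
    rw [ZMod.ringChar_zmod_n]
    exact hl2
  obtain ⟨r, hr⟩ := quadraticChar_exists_neg_one hchar
  obtain ⟨a, ha1, ha2⟩ := Nat.chineseRemainder hcop' r.val 1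
  refine ⟨a, ?_⟩
  have : NeZero l := ⟨hl.ne_zero⟩
  have : NeZero (b' ^ 2 * a') := ⟨hm'0⟩
  have : NeZero (l ^ (2 * j + 1)) := ⟨pow_ne_zero _ hl.ne_zero⟩
  rw [hm, jacobiSym.mul_right, jacobiSym.pow_right]
  have e1 : jacobiSym a l = -1 := by
    rw [← jacobiSym.legendreSym.to_jacobiSym]
    unfold legendreSym
    have e : (((a : ℕ) : ℤ) : ZMod l) = r := by
      rw [Int.cast_natCast, (ZMod.natCast_eq_natCast_iff _ _ _).mpr ha1, ZMod.natCast_zmod_val]
    rw [e]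
    exact hr
  have e2 : jacobiSym a (b' ^ 2 * a') = 1 := by
    have h3 : ((a : ℕ) : ℤ) % ((b' ^ 2 * a' : ℕ) : ℤ) = 1 % ((b' ^ 2 * a' : ℕ) : ℤ) := by
      exact_mod_cast ha2
    rw [jacobiSym.mod_left, h3, ← jacobiSym.mod_left, jacobiSym.one_left]
  rw [e1, e2, Odd.neg_one_pow ⟨j, rfl⟩]
  norm_num

lemma jch_ne_one (m : ℕ) [NeZero m] (hodd : Odd m) (hsq : ¬ IsSquare m) : jch m ≠ 1 := by
  intro h
  obtain ⟨a, ha⟩ := exists_neg m hodd hsq
  have h1 := jch_apply m a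
  rw [h, ha] at h1
  have h2 : IsUnit (a : ZMod m) := by
    rw [ZMod.isUnit_iff_coprime]
    by_contra hc
    have : jacobiSym (a : ℤ) m = 0 := by
      rw [jacobiSym.eq_zero_iff_not_coprime, Int.gcd_natCast_natCast]
      exact hc
    rw [this] at ha
    norm_num at ha
  rw [MulChar.one_apply h2] at h1
  norm_num at h1

/-- sum of Jacobi symbols over an arithmetic progression of modulus coprime to `m` -/
lemma ap_sum (C : ℝ) (hPV : ∀ (q : ℕ) (χ : DirichletCharacter ℂ q), 2 ≤ q → χ ≠ 1 →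
    ∀ a b : ℕ, ‖∑ n ∈ Finset.Ioc a b, χ (n : ZMod q)‖ ≤ C * √(q : ℝ) * Real.log q)
    (m : ℕ) (hodd : Odd m) (hsq : ¬ IsSquare m) (W c : ℕ) (hc : c < W)
    (hco : W.Coprime m) (A B : ℕ) (hAB : A ≤ B) :
    |∑ D ∈ (Ioc A B).filter (fun D => D % W = c), ((jacobiSym (D : ℤ) m : ℤ) : ℝ)| ≤
      C * √(m : ℝ) * Real.log m := by
  have hm0 : m ≠ 0 := by rintro rfl; simp at hodd
  have hm2 : 2 ≤ m := by
    by_contra h
    have : m = 1 := by omega
    exact hsq (this ▸ ⟨1, rfl⟩)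
  have hW : 0 < W := by omega
  have : NeZero m := ⟨hm0⟩
  have hχ1 : jch m ≠ 1 := jch_ne_one m hodd hsq
  obtain ⟨t, ht⟩ := Nat.exists_mul_mod_eq_one_of_coprime hco (by omega : 1 < m)
  obtain ⟨k, hk⟩ : ∃ k, k = t * c + m := ⟨_, rfl⟩
  have hk1 : 1 ≤ k := by omega
  have hkW : (W * k) ≡ c [MOD m] := by
    have h1 : W * t ≡ 1 [MOD m] := by
      rw [Nat.ModEq, ht.2, Nat.mod_eq_of_lt (by omega)]
    have h2 : W * k = W * t * c + W * m := by rw [hk]; ring
    have h3 : W * t * c + W * m ≡ 1 * c + 0 [MOD m] :=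
      Nat.ModEq.add (h1.mul_right c) ((Nat.modEq_zero_iff_dvd).2 (dvd_mul_left m W))
    rw [h2]
    simpa using h3
  have hJ : ∀ i : ℕ, jacobiSym ((c + W * i : ℕ) : ℤ) m =
      jacobiSym (W : ℤ) m * jacobiSym ((k + i : ℕ) : ℤ) m := by
    intro i
    rw [← jacobiSym.mul_left]
    have h : ((c + W * i : ℕ) : ℤ) % m = ((W : ℤ) * ((k + i : ℕ) : ℤ)) % m := by
      have h4 : c + W * i ≡ W * (k + i) [MOD m] := by
        rw [mul_add]
        exact Nat.ModEq.add_right _ hkW.symm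
      have h5 : (c + W * i) % m = (W * (k + i)) % m := h4
      exact_mod_cast congrArg (Nat.cast : ℕ → ℤ) h5
    rw [jacobiSym.mod_left, h, ← jacobiSym.mod_left]
  have hKlt : ∀ n i : ℕ, i < (n + W - c) / W ↔ c + W * i ≤ n := by
    intro n i
    rw [Nat.lt_iff_add_one_le, Nat.le_div_iff_mul_le hW, add_mul, one_mul, mul_comm i W]
    omega
  have hKm : (A + W - c) / W ≤ (B + W - c) / W := Nat.div_le_div_right (by omega)
  have hre : ∑ D ∈ (Ioc A B).filter (fun D => D % W = c), ((jacobiSym (D : ℤ) m : ℤ) : ℝ) =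
      ∑ i ∈ Ico ((A + W - c) / W) ((B + W - c) / W),
        ((jacobiSym ((c + W * i : ℕ) : ℤ) m : ℤ) : ℝ) := by
    apply Finset.sum_nbij' (fun D => D / W) (fun i => c + W * i)
    · intro D hD
      rw [mem_filter, mem_Ioc] at hD
      rw [mem_Ico]
      have h1 := Nat.div_add_mod D W
      rw [hD.2] at h1
      constructor
      · by_contra hh
        push Not at hh
        rw [hKlt] at hh
        omega
      · rw [hKlt]
        omega
    · intro i hi
      rw [mem_Ico] at hi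
      rw [mem_filter, mem_Ioc]
      refine ⟨⟨?_, ?_⟩, ?_⟩
      · by_contra hh
        push Not at hh
        rw [← hKlt] at hh
        omega
      · rw [← hKlt]
        exact hi.2
      · rw [Nat.add_mul_mod_self_left, Nat.mod_eq_of_lt hc]
    · intro D hD
      rw [mem_filter, mem_Ioc] at hD
      have h1 := Nat.div_add_mod D W
      rw [hD.2] at h1
      omega
    · intro i _
      rw [Nat.add_mul_div_left _ _ hW, Nat.div_eq_of_lt hc, zero_add]
    · intro D hD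
      rw [mem_filter, mem_Ioc] at hD
      have h1 := Nat.div_add_mod D W
      rw [hD.2] at h1
      rw [add_comm c, h1]
  rw [hre]
  have hre2 : ∑ i ∈ Ico ((A + W - c) / W) ((B + W - c) / W),
        ((jacobiSym ((c + W * i : ℕ) : ℤ) m : ℤ) : ℝ) =
      ((jacobiSym (W : ℤ) m : ℤ) : ℝ) *
        ∑ n ∈ Ioc ((A + W - c) / W + (k - 1)) ((B + W - c) / W + (k - 1)),
        ((jacobiSym ((n : ℕ) : ℤ) m : ℤ) : ℝ) := by
    rw [mul_sum]
    apply Finset.sum_nbij' (fun i => k + i) (fun n => n - k)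
    · intro i hi
      rw [mem_Ico] at hi
      rw [mem_Ioc]
      omega
    · intro n hn
      rw [mem_Ioc] at hn
      rw [mem_Ico]
      generalize (A + W - c) / W = a at hn ⊢
      generalize (B + W - c) / W = b at hn ⊢
      omega
    · intro i _
      simp
    · intro n hn
      rw [mem_Ioc] at hn
      generalize (A + W - c) / W = a at hn ⊢
      omega
    · intro i _
      rw [hJ]
      push_cast
      ring
  rw [hre2, abs_mul]
  have h5 := hPV m (jch m) hm2 hχ1 ((A + W - c) / W + (k - 1)) ((B + W - c) / W + (k - 1))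
  have h6 : ∑ n ∈ Ioc ((A + W - c) / W + (k - 1)) ((B + W - c) / W + (k - 1)),
      jch m (n : ZMod m) = ((∑ n ∈ Ioc ((A + W - c) / W + (k - 1)) ((B + W - c) / W + (k - 1)),
        ((jacobiSym ((n : ℕ) : ℤ) m : ℤ) : ℝ) : ℝ) : ℂ) := by
    push_cast
    apply sum_congr rfl
    intro n _
    rw [jch_apply]
  rw [h6, Complex.norm_real, Real.norm_eq_abs] at h5
  calc _ ≤ 1 * |∑ n ∈ Ioc ((A + W - c) / W + (k - 1)) ((B + W - c) / W + (k - 1)),
        ((jacobiSym ((n : ℕ) : ℤ) m : ℤ) : ℝ)| :=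
        mul_le_mul_of_nonneg_right (abs_jac _ _) (abs_nonneg _)
    _ ≤ _ := by rw [one_mul]; exact h5

lemma dvd16 (z : ℕ) : 16 ∣ Qz z := Dvd.intro _ rfl

lemma Qz_pos (z : ℕ) : 0 < Qz z := by
  unfold Qz
  apply Nat.mul_pos (by norm_num)
  apply Finset.prod_pos
  intro l hl
  rw [mem_filter] at hl
  exact pow_pos hl.2.pos 2

lemma sq_dvd_Qz {z l : ℕ} (hl : l.Prime) (h : l ∣ Qz z) (h2 : l ≠ 2) :
    l ∈ (Finset.Icc 3 z).filter Nat.Prime ∧ l ^ 2 ∣ Qz z := by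
  have h1 : l ∈ (Finset.Icc 3 z).filter Nat.Prime := by
    unfold Qz at h
    rcases (Nat.Prime.dvd_mul hl).1 h with h3 | h3
    · exfalso
      have : l ∣ 2 ^ 4 := by simpa using h3
      have := (Nat.prime_dvd_prime_iff_eq hl Nat.prime_two).1 (hl.dvd_of_dvd_pow this)
      exact h2 this
    · rw [Prime.dvd_finsetProd_iff hl.prime] at h3
      obtain ⟨l', hl', h4⟩ := h3
      have h5 := hl'
      rw [mem_filter] at h5
      have := (Nat.prime_dvd_prime_iff_eq hl h5.2).1 (hl.dvd_of_dvd_pow h4)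
      rw [this]
      exact hl'
  refine ⟨h1, ?_⟩
  unfold Qz
  exact Dvd.dvd.mul_left (Finset.dvd_prod_of_mem (fun l => l ^ 2) h1) 16

lemma isFund_iff {z r : ℕ} (hr : FundRes z r) {D : ℕ} (hD : D % Qz z = r) (hD1 : 1 < D) :
    IsFund D ↔ ∀ l : ℕ, l.Prime → ¬ l ∣ Qz z → ¬ l ^ 2 ∣ D := by
  obtain ⟨hr1, hr2, hr3⟩ := hr
  have h16 : D % 16 = r % 16 := by
    rw [← hD, Nat.mod_mod_of_dvd _ (dvd16 z)]
  have h2Q : 2 ∣ Qz z := dvd_trans (by norm_num) (dvd16 z)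
  have hodd : ∀ l : ℕ, l.Prime → l ∣ Qz z → l ≠ 2 → ¬ l ^ 2 ∣ D := by
    intro l hl hlQ hl2 hlD
    obtain ⟨h1, h2⟩ := sq_dvd_Qz hl hlQ hl2
    apply hr3 l h1
    rw [← hD]
    exact (Nat.dvd_mod_iff h2).2 hlD
  constructor
  · rintro ⟨_, ⟨_, hsf⟩ | ⟨m, hm, _, hsf⟩⟩ l hl hlQ hlD
    · rw [Nat.squarefree_iff_prime_squarefree] at hsf
      exact hsf l hl (by rwa [← sq])
    · have hl2 : l ≠ 2 := by
        rintro rfl
        exact hlQ h2Q
      have hc : Nat.Coprime (l ^ 2) 4 := by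
        have : Nat.Coprime (l ^ 2) (2 ^ 2) :=
          Nat.Coprime.pow 2 2 ((Nat.coprime_primes hl Nat.prime_two).2 hl2)
        simpa using this
      rw [hm] at hlD
      have h5 := hc.dvd_of_dvd_mul_left hlD
      rw [Nat.squarefree_iff_prime_squarefree] at hsf
      exact hsf l hl (by rwa [← sq])
  · intro h
    refine ⟨hD1, ?_⟩
    rcases hr2 with h4 | h8
    · left
      have hD4 : D % 4 = 1 := by omega
      refine ⟨hD4, ?_⟩
      rw [Nat.squarefree_iff_prime_squarefree]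
      intro l hl hlD
      rw [← sq] at hlD
      by_cases hlQ : l ∣ Qz z
      · by_cases hl2 : l = 2
        · subst hl2
          omega
        · exact hodd l hl hlQ hl2 hlD
      · exact h l hl hlQ hlD
    · right
      have h4D : D = 4 * (D / 4) := by omega
      refine ⟨D / 4, h4D, by omega, ?_⟩
      rw [Nat.squarefree_iff_prime_squarefree]
      intro l hl hlD
      rw [← sq] at hlD
      have hlD' : l ^ 2 ∣ D := by
        rw [h4D]
        exact Dvd.dvd.mul_left hlD 4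
      by_cases hlQ : l ∣ Qz z
      · by_cases hl2 : l = 2
        · subst hl2
          omega
        · exact hodd l hl hlQ hl2 hlD'
      · exact h l hl hlQ hlD'

lemma moebius_id (Q D N : ℕ) (hD : D ≠ 0) (hN : ∀ e, e ^ 2 ∣ D → e ≤ N) :
    ∑ e ∈ (Icc 1 N).filter (fun e => e.Coprime Q ∧ e ^ 2 ∣ D), ArithmeticFunction.moebius e =
      if (∀ l : ℕ, l.Prime → ¬ l ∣ Q → ¬ l ^ 2 ∣ D) then 1 else 0 := by
  obtain ⟨T, hT⟩ : ∃ T, T = D.primeFactors.filter (fun p => ¬ p ∣ Q ∧ p ^ 2 ∣ D) := ⟨_, rfl⟩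
  have hTp : ∀ p ∈ T, p.Prime ∧ ¬ p ∣ Q ∧ p ^ 2 ∣ D := by
    intro p hp
    rw [hT, mem_filter] at hp
    exact ⟨Nat.prime_of_mem_primeFactors hp.1, hp.2⟩
  have hTm : ∀ p : ℕ, p.Prime → ¬ p ∣ Q → p ^ 2 ∣ D → p ∈ T := by
    intro p hp h1 h2
    rw [hT, mem_filter, Nat.mem_primeFactors]
    exact ⟨⟨hp, dvd_trans (dvd_pow_self p (by norm_num)) h2, hD⟩, h1, h2⟩
  obtain ⟨R, hR⟩ : ∃ R, R = ∏ p ∈ T, p := ⟨_, rfl⟩
  have hR0 : R ≠ 0 := by
    rw [hR]
    exact Finset.prod_ne_zero_iff.2 (fun p hp => (hTp p hp).1.ne_zero)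
  have hRQ : Nat.Coprime R Q := by
    rw [hR]
    apply Nat.Coprime.prod_left
    intro p hp
    exact (Nat.Prime.coprime_iff_not_dvd (hTp p hp).1).2 (hTp p hp).2.1
  have hRD : R ^ 2 ∣ D := by
    rw [hR, ← Finset.prod_pow]
    apply Finset.prod_dvd_of_isRelPrime
    · intro p hp q hq hpq
      have h1 : Nat.Coprime (p ^ 2) (q ^ 2) :=
        Nat.Coprime.pow 2 2 ((Nat.coprime_primes (hTp p hp).1 (hTp q hq).1).2 hpq)
      exact Nat.coprime_iff_isRelPrime.1 h1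
    · intro p hp
      exact (hTp p hp).2.2
  have hsub : R.divisors ⊆ (Icc 1 N).filter (fun e => e.Coprime Q ∧ e ^ 2 ∣ D) := by
    intro e he
    rw [Nat.mem_divisors] at he
    have h1 : e ^ 2 ∣ D := dvd_trans (pow_dvd_pow_of_dvd he.1 2) hRD
    rw [mem_filter, mem_Icc]
    refine ⟨⟨Nat.pos_of_dvd_of_pos he.1 (Nat.pos_of_ne_zero hR0), hN e h1⟩, ?_, h1⟩
    exact Nat.Coprime.coprime_dvd_left he.1 hRQ
  rw [← Finset.sum_subset hsub]
  · have h1 : ∑ e ∈ R.divisors, ArithmeticFunction.moebius e =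
        if R = 1 then (1 : ℤ) else 0 := by
      rw [← ArithmeticFunction.coe_mul_zeta_apply, ArithmeticFunction.moebius_mul_coe_zeta,
        ArithmeticFunction.one_apply]
    rw [h1]
    by_cases h2 : ∀ l : ℕ, l.Prime → ¬ l ∣ Q → ¬ l ^ 2 ∣ D
    · rw [if_pos h2, if_pos]
      have : T = ∅ := by
        apply Finset.eq_empty_of_forall_notMem
        intro p hp
        exact h2 p (hTp p hp).1 (hTp p hp).2.1 (hTp p hp).2.2
      rw [hR, this, Finset.prod_empty]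
    · rw [if_neg h2, if_neg]
      push Not at h2
      obtain ⟨l, hl, hlQ, hlD⟩ := h2
      intro hR1
      have h3 : l ∣ R := by
        rw [hR]
        exact Finset.dvd_prod_of_mem (fun p => p) (hTm l hl hlQ hlD)
      rw [hR1, Nat.dvd_one] at h3
      exact hl.ne_one h3
  · intro e he hnR
    rw [mem_filter, mem_Icc] at he
    apply ArithmeticFunction.moebius_eq_zero_of_not_squarefree
    intro hsf
    apply hnR
    rw [Nat.mem_divisors]
    refine ⟨?_, hR0⟩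
    rw [← Nat.prod_primeFactors_of_squarefree hsf, hR]
    apply Finset.prod_dvd_prod_of_subset
    intro p hp
    have hp1 := Nat.prime_of_mem_primeFactors hp
    have hp2 := Nat.dvd_of_mem_primeFactors hp
    apply hTm p hp1
    · intro h
      have := Nat.Coprime.eq_one_of_dvd (Nat.Coprime.coprime_dvd_left hp2 he.2.1) h
      exact hp1.ne_one this
    · exact dvd_trans (pow_dvd_pow_of_dvd hp2 2) he.2.2

lemma e_bound (C : ℝ) (hC : 0 < C)
    (hPV : ∀ (q : ℕ) (χ : DirichletCharacter ℂ q), 2 ≤ q → χ ≠ 1 →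
    ∀ a b : ℕ, ‖∑ n ∈ Finset.Ioc a b, χ (n : ZMod q)‖ ≤ C * √(q : ℝ) * Real.log q)
    (m : ℕ) (hodd : Odd m) (hsq : ¬ IsSquare m) (Q r e : ℕ) (hrQ : r < Q) (he : 1 ≤ e)
    (heQ : e.Coprime Q) (hmQ : m.Coprime Q) (A B : ℕ) (hAB : A ≤ B) :
    |∑ D ∈ ((Ioc A B).filter (fun D => D % Q = r)).filter (fun D => e ^ 2 ∣ D),
      ((jacobiSym (D : ℤ) m : ℤ) : ℝ)| ≤ C * √(m : ℝ) * Real.log m := by
  have hm0 : m ≠ 0 := by rintro rfl; simp at hodd
  by_cases hem : e.Coprime m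
  · have hco : Q.Coprime (e ^ 2) := Nat.Coprime.pow_right 2 heQ.symm
    obtain ⟨c, hc1, hc2⟩ := Nat.chineseRemainder hco r 0
    have hW0 : 0 < Q * e ^ 2 := Nat.mul_pos (by omega) (pow_pos he 2)
    have hcW : c % (Q * e ^ 2) < Q * e ^ 2 := Nat.mod_lt _ hW0
    have hWm : (Q * e ^ 2).Coprime m :=
      Nat.Coprime.mul_left hmQ.symm (Nat.Coprime.pow_left 2 hem)
    have h1 := ap_sum C hPV m hodd hsq (Q * e ^ 2) (c % (Q * e ^ 2)) hcW hWm A B hAB
    have h2 : ((Ioc A B).filter (fun D => D % Q = r)).filter (fun D => e ^ 2 ∣ D) =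
        (Ioc A B).filter (fun D => D % (Q * e ^ 2) = c % (Q * e ^ 2)) := by
      rw [Finset.filter_filter]
      apply Finset.filter_congr
      intro D _
      have h3 : D % (Q * e ^ 2) = c % (Q * e ^ 2) ↔ D ≡ c [MOD Q * e ^ 2] := Iff.rfl
      rw [h3, ← Nat.modEq_and_modEq_iff_modEq_mul hco]
      have h4 : D % Q = r ↔ D ≡ r [MOD Q] := by
        unfold Nat.ModEq
        rw [Nat.mod_eq_of_lt hrQ]
      rw [h4, ← Nat.modEq_zero_iff_dvd]
      constructor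
      · rintro ⟨h5, h6⟩
        exact ⟨h5.trans hc1.symm, h6.trans hc2.symm⟩
      · rintro ⟨h5, h6⟩
        exact ⟨h5.trans hc1, h6.trans hc2⟩
    rw [h2]
    exact h1
  · have h1 : ∑ D ∈ ((Ioc A B).filter (fun D => D % Q = r)).filter (fun D => e ^ 2 ∣ D),
      ((jacobiSym (D : ℤ) m : ℤ) : ℝ) = 0 := by
      apply Finset.sum_eq_zero
      intro D hD
      rw [mem_filter] at hD
      have : NeZero m := ⟨hm0⟩
      have h2 : jacobiSym (D : ℤ) m = 0 := by
        rw [jacobiSym.eq_zero_iff_not_coprime, Int.gcd_natCast_natCast]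
        intro h3
        apply hem
        have h4 : e ∣ D := dvd_trans (dvd_pow_self e (by norm_num)) hD.2
        exact Nat.Coprime.coprime_dvd_left h4 h3
      rw [h2]
      norm_num
    rw [h1, abs_zero]
    have : 0 ≤ Real.log (m : ℝ) := Real.log_natCast_nonneg m
    positivity

lemma e_bound2 (Q r e X m A B : ℕ) (he : 1 ≤ e) (hB : B ≤ 2 * X) :
    |∑ D ∈ ((Ioc A B).filter (fun D => D % Q = r)).filter (fun D => e ^ 2 ∣ D),
      ((jacobiSym (D : ℤ) m : ℤ) : ℝ)| ≤ 2 * X * ((e : ℝ) ^ 2)⁻¹ := by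
  refine (Finset.abs_sum_le_sum_abs _ _).trans ?_
  refine (Finset.sum_le_card_nsmul _ _ 1 (fun D _ => abs_jac _ _)).trans ?_
  rw [nsmul_eq_mul, mul_one]
  have h1 : (((Ioc A B).filter (fun D => D % Q = r)).filter (fun D => e ^ 2 ∣ D)).card ≤
      ((Ioc 0 B).filter (fun D => e ^ 2 ∣ D)).card := by
    apply Finset.card_le_card
    intro D hD
    rw [mem_filter, mem_filter, mem_Ioc] at hD
    rw [mem_filter, mem_Ioc]
    exact ⟨⟨by omega, hD.1.1.2⟩, hD.2⟩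
  rw [Nat.Ioc_filter_dvd_card_eq_div] at h1
  have h2 : ((B / e ^ 2 : ℕ) : ℝ) ≤ (B : ℝ) / ((e ^ 2 : ℕ) : ℝ) := Nat.cast_div_le
  have h3 : (B : ℝ) ≤ 2 * X := by exact_mod_cast hB
  have he0 : (0 : ℝ) < e := by exact_mod_cast he
  calc ((((Ioc A B).filter (fun D => D % Q = r)).filter (fun D => e ^ 2 ∣ D)).card : ℝ) ≤
      ((B / e ^ 2 : ℕ) : ℝ) := by exact_mod_cast h1
    _ ≤ (B : ℝ) / ((e ^ 2 : ℕ) : ℝ) := h2
    _ ≤ 2 * X * ((e : ℝ) ^ 2)⁻¹ := by
        push_cast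
        rw [div_eq_mul_inv]
        apply mul_le_mul_of_nonneg_right h3
        positivity

/-- growth -/
lemma growth (C : ℝ) (hC : 0 < C) : ∃ X0 : ℕ, ∀ X ≥ X0, 2 ≤ X ∧
    C * Real.log (X : ℝ) + 4 ≤ (X : ℝ) ^ (1 / 20 : ℝ) := by
  have h1 : Tendsto (fun x : ℝ => x ^ (1 / 20 : ℝ)) atTop atTop :=
    tendsto_rpow_atTop (by norm_num)
  have h2 := (isLittleO_log_rpow_atTop (by norm_num : (0 : ℝ) < 1 / 20)).bound
    (show (0 : ℝ) < 1 / (2 * C) by positivity)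
  have h3 : ∀ᶠ x : ℝ in atTop, C * Real.log x + 4 ≤ x ^ (1 / 20 : ℝ) := by
    filter_upwards [h2, h1.eventually_ge_atTop 8, eventually_ge_atTop (1 : ℝ)] with x hx hx8 hx1
    rw [Real.norm_eq_abs, Real.norm_eq_abs, abs_of_nonneg (Real.log_nonneg hx1),
      abs_of_nonneg (by positivity)] at hx
    have h4 : C * Real.log x ≤ C * (1 / (2 * C) * x ^ (1 / 20 : ℝ)) :=
      mul_le_mul_of_nonneg_left hx hC.le
    have h5 : C * (1 / (2 * C) * x ^ (1 / 20 : ℝ)) = x ^ (1 / 20 : ℝ) / 2 := by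
      field_simp
    linarith
  have h4 := (tendsto_natCast_atTop_atTop (R := ℝ)).eventually h3
  obtain ⟨X0, hX0⟩ := eventually_atTop.1 h4
  refine ⟨max X0 2, fun X hX => ⟨le_trans (le_max_right _ _) hX,
    hX0 X (le_trans (le_max_left _ _) hX)⟩⟩

end LM2h

open LM2h in
theorem T_LM2 : P_PV → P_LM2 := by
  rintro ⟨C, hC, hPV⟩ z r hr η hη hη1
  obtain ⟨X0, hX0⟩ := growth C hC
  refine ⟨X0, fun X hX m hm1 hmX hmQ hsq => ?_⟩
  obtain ⟨hX2, hgrow⟩ := hX0 X hX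
  obtain ⟨B, hB⟩ : ∃ B, B = ⌊(1 + η) * X⌋₊ := ⟨_, rfl⟩
  have hXr : (2 : ℝ) ≤ X := by exact_mod_cast hX2
  have hXB : X ≤ B := by
    rw [hB]
    apply Nat.le_floor
    nlinarith
  have hB2 : B ≤ 2 * X := by
    have h1 : (B : ℝ) ≤ (1 + η) * X := by
      rw [hB]
      exact Nat.floor_le (by positivity)
    have h2 : (B : ℝ) ≤ 2 * X := by nlinarith
    exact_mod_cast h2
  have hodd : Odd m := by
    have h2Q : 2 ∣ Qz z := dvd_trans (by norm_num) (dvd16 z)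
    have := Nat.Coprime.coprime_dvd_right h2Q hmQ
    exact Nat.coprime_two_right.1 this
  have hQ0 := Qz_pos z
  have hrQ := hr.1
  -- opening the condition
  have hsum : ∑ D ∈ FD z r X η, ((jacobiSym (D : ℤ) m : ℤ) : ℝ) =
      ∑ e ∈ (Icc 1 (2 * X)).filter (fun e => e.Coprime (Qz z)),
        ((ArithmeticFunction.moebius e : ℤ) : ℝ) *
        ∑ D ∈ ((Ioc X B).filter (fun D => D % Qz z = r)).filter (fun D => e ^ 2 ∣ D),
          ((jacobiSym (D : ℤ) m : ℤ) : ℝ) := by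
    unfold FD DD
    rw [← hB, Finset.sum_filter]
    have h1 : ∀ D ∈ (Ioc X B).filter (fun D => D % Qz z = r),
        (if IsFund D then ((jacobiSym (D : ℤ) m : ℤ) : ℝ) else 0) =
        ∑ e ∈ (Icc 1 (2 * X)).filter (fun e => e.Coprime (Qz z)),
          if e ^ 2 ∣ D then ((ArithmeticFunction.moebius e : ℤ) : ℝ) *
            ((jacobiSym (D : ℤ) m : ℤ) : ℝ) else 0 := by
      intro D hD
      rw [mem_filter, mem_Ioc] at hD
      have h2 := isFund_iff hr hD.2 (by omega)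
      have h3 := moebius_id (Qz z) D (2 * X) (by omega) (fun e he => by
        have h4 := Nat.le_of_dvd (by omega) he
        have h5 : e ≤ e ^ 2 := Nat.le_self_pow (by norm_num) e
        omega)
      rw [← Finset.sum_filter, ← Finset.sum_mul, Finset.filter_filter]
      have h6 : (∑ e ∈ (Icc 1 (2 * X)).filter (fun e => e.Coprime (Qz z) ∧ e ^ 2 ∣ D),
          ((ArithmeticFunction.moebius e : ℤ) : ℝ)) =
          (((if (∀ l : ℕ, l.Prime → ¬ l ∣ Qz z → ¬ l ^ 2 ∣ D) then 1 else 0 : ℤ)) : ℝ) := by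
        rw [← h3]
        push_cast
        rfl
      rw [h6]
      by_cases h7 : IsFund D
      · rw [if_pos h7, if_pos (h2.1 h7)]
        norm_num
      · rw [if_neg h7, if_neg (fun h8 => h7 (h2.2 h8))]
        norm_num
    rw [Finset.sum_congr rfl h1, Finset.sum_comm]
    apply Finset.sum_congr rfl
    intro e _
    rw [Finset.mul_sum, Finset.sum_filter (fun D => e ^ 2 ∣ D)]
  rw [hsum]
  obtain ⟨Y, hY⟩ : ∃ Y, Y = ⌊(X : ℝ) ^ (7 / 20 : ℝ)⌋₊ := ⟨_, rfl⟩
  have hX0' : (0 : ℝ) < X := by linarith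
  have hX1' : (1 : ℝ) ≤ X := by linarith
  have hp1 : (1 : ℝ) ≤ (X : ℝ) ^ (7 / 20 : ℝ) := Real.one_le_rpow hX1' (by norm_num)
  have hY1 : 1 ≤ Y := by
    rw [hY]
    exact Nat.le_floor (by simpa using hp1)
  have hYle : (Y : ℝ) ≤ (X : ℝ) ^ (7 / 20 : ℝ) := by
    rw [hY]
    exact Nat.floor_le (by positivity)
  have hYge : (X : ℝ) ^ (7 / 20 : ℝ) ≤ 2 * Y := by
    have h1 : (X : ℝ) ^ (7 / 20 : ℝ) < Y + 1 := by
      rw [hY]
      exact Nat.lt_floor_add_one _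
    have h2 : (1 : ℝ) ≤ Y := by exact_mod_cast hY1
    linarith
  have hYX : Y ≤ 2 * X := by
    have h1 : (Y : ℝ) ≤ X := by
      refine hYle.trans ?_
      calc (X : ℝ) ^ (7 / 20 : ℝ) ≤ (X : ℝ) ^ (1 : ℝ) :=
            Real.rpow_le_rpow_of_exponent_le hX1' (by norm_num)
        _ = X := Real.rpow_one _
    have h2 : Y ≤ X := by exact_mod_cast h1
    omega
  obtain ⟨S, hS⟩ : ∃ S : ℕ → ℝ, S = fun e => |∑ D ∈ ((Ioc X B).filter
    (fun D => D % Qz z = r)).filter (fun D => e ^ 2 ∣ D), ((jacobiSym (D : ℤ) m : ℤ) : ℝ)| :=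
    ⟨_, rfl⟩
  have hS0 : ∀ e, 0 ≤ S e := fun e => by rw [hS]; exact abs_nonneg _
  have hb1 : |∑ e ∈ (Icc 1 (2 * X)).filter (fun e => e.Coprime (Qz z)),
        ((ArithmeticFunction.moebius e : ℤ) : ℝ) *
        ∑ D ∈ ((Ioc X B).filter (fun D => D % Qz z = r)).filter (fun D => e ^ 2 ∣ D),
          ((jacobiSym (D : ℤ) m : ℤ) : ℝ)| ≤
      ∑ e ∈ (Icc 1 (2 * X)).filter (fun e => e.Coprime (Qz z)), S e := by
    refine (Finset.abs_sum_le_sum_abs _ _).trans ?_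
    apply Finset.sum_le_sum
    intro e _
    rw [abs_mul, hS]
    have h1 : |((ArithmeticFunction.moebius e : ℤ) : ℝ)| ≤ 1 := by
      exact_mod_cast ArithmeticFunction.abs_moebius_le_one
    calc _ ≤ 1 * |∑ D ∈ ((Ioc X B).filter (fun D => D % Qz z = r)).filter
          (fun D => e ^ 2 ∣ D), ((jacobiSym (D : ℤ) m : ℤ) : ℝ)| :=
          mul_le_mul_of_nonneg_right h1 (abs_nonneg _)
      _ = _ := one_mul _
  refine hb1.trans ?_
  obtain ⟨P, hP⟩ : ∃ P : ℝ, P = C * √(m : ℝ) * Real.log m := ⟨_, rfl⟩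
  have hlogm : 0 ≤ Real.log (m : ℝ) := Real.log_natCast_nonneg m
  have hP0 : 0 ≤ P := by rw [hP]; positivity
  have hb2 : ∑ e ∈ (Icc 1 (2 * X)).filter (fun e => e.Coprime (Qz z)), S e ≤
      ∑ e ∈ Ioc 0 Y, P + ∑ e ∈ Ioc Y (2 * X), 2 * (X : ℝ) * ((e : ℝ) ^ 2)⁻¹ := by
    have h1 : (Icc 1 (2 * X)) = Ioc 0 Y ∪ Ioc Y (2 * X) := by
      rw [Finset.Ioc_union_Ioc_eq_Ioc (Nat.zero_le _) hYX]
      rfl
    have h2 : Disjoint (Ioc 0 Y) (Ioc Y (2 * X)) := by
      rw [Finset.disjoint_left]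
      intro a ha hb
      rw [mem_Ioc] at ha hb
      omega
    rw [h1, Finset.filter_union, Finset.sum_union (Finset.disjoint_filter_filter h2)]
    apply add_le_add
    · calc ∑ e ∈ (Ioc 0 Y).filter (fun e => e.Coprime (Qz z)), S e ≤
          ∑ e ∈ (Ioc 0 Y).filter (fun e => e.Coprime (Qz z)), P := by
            apply Finset.sum_le_sum
            intro e he
            rw [mem_filter, mem_Ioc] at he
            rw [hS, hP]
            exact e_bound C hC hPV m hodd hsq (Qz z) r e hrQ he.1.1 he.2 hmQ X B hXB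
        _ ≤ ∑ e ∈ Ioc 0 Y, P :=
            Finset.sum_le_sum_of_subset_of_nonneg (Finset.filter_subset _ _) (fun _ _ _ => hP0)
    · calc ∑ e ∈ (Ioc Y (2 * X)).filter (fun e => e.Coprime (Qz z)), S e ≤
          ∑ e ∈ (Ioc Y (2 * X)).filter (fun e => e.Coprime (Qz z)),
            2 * (X : ℝ) * ((e : ℝ) ^ 2)⁻¹ := by
            apply Finset.sum_le_sum
            intro e he
            rw [mem_filter, mem_Ioc] at he
            rw [hS]
            exact e_bound2 (Qz z) r e X m X B (by omega) hB2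
        _ ≤ ∑ e ∈ Ioc Y (2 * X), 2 * (X : ℝ) * ((e : ℝ) ^ 2)⁻¹ :=
            Finset.sum_le_sum_of_subset_of_nonneg (Finset.filter_subset _ _)
              (fun _ _ _ => by positivity)
  refine hb2.trans ?_
  rw [Finset.sum_const, Nat.card_Ioc, ← Finset.mul_sum, nsmul_eq_mul, Nat.sub_zero]
  have hb3 : ∑ e ∈ Ioc Y (2 * X), ((e : ℝ) ^ 2)⁻¹ ≤ (Y : ℝ)⁻¹ := by
    refine (sum_Ioc_inv_sq_le_sub (by omega) hYX).trans ?_
    have : (0 : ℝ) ≤ (((2 * X : ℕ) : ℝ))⁻¹ := by positivity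
    linarith
  have hYpos : (0 : ℝ) < Y := by exact_mod_cast hY1
  have hb4 : 2 * (X : ℝ) * ∑ e ∈ Ioc Y (2 * X), ((e : ℝ) ^ 2)⁻¹ ≤
      4 * (X : ℝ) ^ (13 / 20 : ℝ) := by
    calc 2 * (X : ℝ) * ∑ e ∈ Ioc Y (2 * X), ((e : ℝ) ^ 2)⁻¹ ≤ 2 * (X : ℝ) * (Y : ℝ)⁻¹ :=
          mul_le_mul_of_nonneg_left hb3 (by positivity)
      _ ≤ 4 * (X : ℝ) ^ (13 / 20 : ℝ) := by
          rw [← div_eq_mul_inv, div_le_iff₀ hYpos]
          have h1 : (X : ℝ) = (X : ℝ) ^ (13 / 20 : ℝ) * (X : ℝ) ^ (7 / 20 : ℝ) := by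
            rw [← Real.rpow_add hX0']
            norm_num
          have h2 : (0 : ℝ) < (X : ℝ) ^ (13 / 20 : ℝ) := by positivity
          calc 2 * (X : ℝ) = 2 * ((X : ℝ) ^ (13 / 20 : ℝ) * (X : ℝ) ^ (7 / 20 : ℝ)) := by
                rw [← h1]
            _ ≤ 2 * ((X : ℝ) ^ (13 / 20 : ℝ) * (2 * Y)) := by
                apply mul_le_mul_of_nonneg_left _ (by norm_num)
                exact mul_le_mul_of_nonneg_left hYge h2.le
            _ = 4 * (X : ℝ) ^ (13 / 20 : ℝ) * Y := by ring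
  have hm0' : (0 : ℝ) < m := by exact_mod_cast hm1
  have hsm : √(m : ℝ) ≤ (X : ℝ) ^ (3 / 10 : ℝ) := by
    rw [Real.sqrt_le_left (by positivity)]
    calc (m : ℝ) ≤ (X : ℝ) ^ (3 / 5 : ℝ) := hmX
      _ = ((X : ℝ) ^ (3 / 10 : ℝ)) ^ 2 := by
          rw [← Real.rpow_natCast, ← Real.rpow_mul hX0'.le]
          norm_num
  have hlm : Real.log m ≤ Real.log X := by
    apply Real.log_le_log hm0'
    refine hmX.trans ?_
    calc (X : ℝ) ^ (3 / 5 : ℝ) ≤ (X : ℝ) ^ (1 : ℝ) :=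
          Real.rpow_le_rpow_of_exponent_le hX1' (by norm_num)
      _ = X := Real.rpow_one _
  have hb5 : (Y : ℝ) * P ≤ (X : ℝ) ^ (13 / 20 : ℝ) * (C * Real.log X) := by
    rw [hP]
    have h1 : (X : ℝ) ^ (13 / 20 : ℝ) = (X : ℝ) ^ (7 / 20 : ℝ) * (X : ℝ) ^ (3 / 10 : ℝ) := by
      rw [← Real.rpow_add hX0']
      norm_num
    calc (Y : ℝ) * (C * √(m : ℝ) * Real.log m) ≤
        (X : ℝ) ^ (7 / 20 : ℝ) * (C * (X : ℝ) ^ (3 / 10 : ℝ) * Real.log X) := by
          gcongr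
      _ = _ := by rw [h1]; ring
  calc (Y : ℝ) * P + 2 * (X : ℝ) * ∑ e ∈ Ioc Y (2 * X), ((e : ℝ) ^ 2)⁻¹ ≤
      (X : ℝ) ^ (13 / 20 : ℝ) * (C * Real.log X) + 4 * (X : ℝ) ^ (13 / 20 : ℝ) :=
        add_le_add hb5 hb4
    _ = (X : ℝ) ^ (13 / 20 : ℝ) * (C * Real.log X + 4) := by ring
    _ ≤ (X : ℝ) ^ (13 / 20 : ℝ) * (X : ℝ) ^ (1 / 20 : ℝ) :=
        mul_le_mul_of_nonneg_left hgrow (by positivity)
    _ = (X : ℝ) ^ (7 / 10 : ℝ) := by
        rw [← Real.rpow_add hX0']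
        norm_num

end Pool.Agent.H38R2.CG
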