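import Pool.Agent.H52.V.S8.H38R2.CG.Stubs

/-!
# First moment of the ideal counts over fundamental discriminants, lower bound
-/

set_option autoImplicit false

namespace Pool.Agent.H38R2.CG

open Finset Filter
open scoped Classical

namespace M1Lh

lemma sum_shift (F : ℕ → ℝ) (N : ℕ) (hF : ∀ n, F (n + N) = F n) (A : ℕ) :
    ∑ i ∈ range N, F (A + i) = ∑ i ∈ range N, F i := by
  induction A with
  | zero => simp
  | succ A ih =>
    rw [← ih]
    have h1 : ∑ i ∈ range (N+1), F (A + i) = ∑ i ∈ range N, F (A + i) + F (A + N) :=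
      sum_range_succ _ _
    have h2 : ∑ i ∈ range (N+1), F (A + i) = ∑ i ∈ range N, F (A + (i + 1)) + F (A + 0) :=
      sum_range_succ' _ _
    have h3 := hF A
    have h4 : ∑ i ∈ range N, F (A + 1 + i) = ∑ i ∈ range N, F (A + (i + 1)) := by
      refine sum_congr rfl fun i _ => ?_
      congr 1; ring
    rw [h4]
    simp only [add_zero] at h2
    linarith

lemma sum_blocks (F : ℕ → ℝ) (N : ℕ) (hF : ∀ n, F (n + N) = F n) (A m : ℕ) :
    ∑ i ∈ range (m * N), F (A + i) = m * ∑ i ∈ range N, F i := by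
  induction m with
  | zero => simp
  | succ m ih =>
    have : (m + 1) * N = m * N + N := by ring
    rw [this, sum_range_add, ih]
    have h := sum_shift F N hF (A + m * N)
    have h4 : ∑ i ∈ range N, F (A + (m * N + i)) = ∑ i ∈ range N, F (A + m * N + i) := by
      refine sum_congr rfl fun i _ => ?_
      congr 1; ring
    rw [h4, h]
    push_cast; ring

lemma sum_Ioc_range (F : ℕ → ℝ) (A B : ℕ) :
    ∑ D ∈ Ioc A B, F D = ∑ i ∈ range (B - A), F (A + 1 + i) := by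
  have h : Ioc A B = Ico (A+1) (B+1) := by ext x; simp
  rw [h, sum_Ico_eq_sum_range, Nat.add_sub_add_right]

lemma sum_Ioc_bounds (F : ℕ → ℝ) (N : ℕ) (hN : 0 < N) (hF : ∀ n, F (n + N) = F n)
    (h0 : ∀ n, 0 ≤ F n) (A B : ℕ) (hAB : A ≤ B) :
    ((B:ℝ) - A) / N * (∑ i ∈ range N, F i) - (∑ i ∈ range N, F i) ≤ ∑ D ∈ Ioc A B, F D ∧
    ∑ D ∈ Ioc A B, F D ≤ ((B:ℝ) - A) / N * (∑ i ∈ range N, F i) + (∑ i ∈ range N, F i) := by
  rw [sum_Ioc_range]
  set T := ∑ i ∈ range N, F i with hT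
  have hT0 : 0 ≤ T := sum_nonneg fun i _ => h0 i
  set L := B - A with hL
  have hLr : ((B:ℝ) - A) = L := by rw [hL, Nat.cast_sub hAB]
  rw [hLr]
  have hNr : (0:ℝ) < N := by exact_mod_cast hN
  have hdm := Nat.div_add_mod L N
  have hlt := Nat.mod_lt L hN
  have e1 := sum_blocks F N hF (A+1) (L / N)
  have e2 := sum_blocks F N hF (A+1) (L / N + 1)
  have l1 : ∑ i ∈ range (L / N * N), F (A + 1 + i) ≤ ∑ i ∈ range L, F (A + 1 + i) := by
    apply sum_le_sum_of_subset_of_nonneg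
    · apply range_subset_range.2; exact Nat.div_mul_le_self L N
    · intro i _ _; exact h0 _
  have l2 : ∑ i ∈ range L, F (A + 1 + i) ≤ ∑ i ∈ range ((L / N + 1) * N), F (A + 1 + i) := by
    apply sum_le_sum_of_subset_of_nonneg
    · apply range_subset_range.2
      have : (L/N + 1) * N = N * (L/N) + N := by ring
      omega
    · intro i _ _; exact h0 _
  have q1 : (L:ℝ) / N - 1 ≤ ((L / N : ℕ) : ℝ) := by
    rw [sub_le_iff_le_add, div_le_iff₀ hNr]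
    have : (L:ℝ) = N * ((L/N : ℕ):ℝ) + ((L % N : ℕ):ℝ) := by exact_mod_cast hdm.symm
    have h2 : ((L % N : ℕ):ℝ) < N := by exact_mod_cast hlt
    nlinarith
  have q2 : ((L / N : ℕ) : ℝ) ≤ (L:ℝ) / N := Nat.cast_div_le
  constructor
  · calc (L:ℝ) / N * T - T = ((L:ℝ) / N - 1) * T := by ring
      _ ≤ ((L / N : ℕ) : ℝ) * T := mul_le_mul_of_nonneg_right q1 hT0
      _ ≤ _ := by rw [← e1]; exact l1
  · calc _ ≤ ∑ i ∈ range ((L / N + 1) * N), F (A + 1 + i) := l2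
      _ = (((L / N : ℕ) : ℝ) + 1) * T := by rw [e2]; push_cast; ring
      _ ≤ ((L:ℝ) / N + 1) * T := mul_le_mul_of_nonneg_right (by linarith) hT0
      _ = _ := by ring

lemma sum_crt (F G : ℕ → ℝ) (m n : ℕ) (hm : 0 < m) (hn : 0 < n) (hmn : m.Coprime n)
    (hF : ∀ x, F (x % m) = F x) (hG : ∀ x, G (x % n) = G x) :
    ∑ x ∈ range (m*n), F x * G x = (∑ x ∈ range m, F x) * ∑ x ∈ range n, G x := by
  rw [sum_mul_sum, ← sum_product']
  refine sum_nbij' (i := fun x => (x % m, x % n))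
    (j := fun p => (Nat.chineseRemainder hmn p.1 p.2 : ℕ)) ?_ ?_ ?_ ?_ ?_
  · intro x _
    simp only [mem_product, mem_range]
    exact ⟨Nat.mod_lt _ hm, Nat.mod_lt _ hn⟩
  · intro p _
    simp only [mem_range]
    exact Nat.chineseRemainder_lt_mul hmn _ _ hm.ne' hn.ne'
  · intro x hx
    simp only [mem_range] at hx
    have h := Nat.chineseRemainder_modEq_unique hmn (a := x % m) (b := x % n) (z := x)
      (Nat.mod_modEq x m).symm (Nat.mod_modEq x n).symm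
    exact (h.eq_of_lt_of_lt hx (Nat.chineseRemainder_lt_mul hmn _ _ hm.ne' hn.ne')).symm
  · intro p hp
    simp only [mem_product, mem_range] at hp
    have h := (Nat.chineseRemainder hmn p.1 p.2).2
    ext
    · simp only
      rw [h.1, Nat.mod_eq_of_lt hp.1]
    · simp only
      rw [h.2, Nat.mod_eq_of_lt hp.2]
  · intro x _
    simp only [hF, hG]

lemma chi_odd (p : ℕ) (hp : p.Prime) (h2 : p ≠ 2) (D : ℤ) : chi D p = jacobiSym D p := by
  unfold chi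
  have h : padicValNat 2 p = 0 := by
    apply padicValNat.eq_zero_of_not_dvd
    intro h
    exact h2 ((Nat.prime_dvd_prime_iff_eq Nat.prime_two hp).1 h).symm
  rw [h]; simp

noncomputable def g (s : Finset ℕ) (D : ℕ) : ℝ := ∏ p ∈ s, (1 + (chi D p : ℝ))

lemma jac_bound (a : ℤ) (b : ℕ) : -1 ≤ jacobiSym a b ∧ jacobiSym a b ≤ 1 := by
  rcases jacobiSym.trichotomy a b with h | h | h <;> rw [h] <;> norm_num

lemma fac_bounds (p : ℕ) (hp : p.Prime) (h2 : p ≠ 2) (D : ℕ) :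
    0 ≤ (1 + (chi D p : ℝ)) ∧ (1 + (chi D p : ℝ)) ≤ 2 := by
  rw [chi_odd p hp h2]
  obtain ⟨h1, h3⟩ := jac_bound (D:ℤ) p
  have h1' : (-1:ℝ) ≤ (jacobiSym (D:ℤ) p : ℝ) := by exact_mod_cast h1
  have h3' : (jacobiSym (D:ℤ) p : ℝ) ≤ 1 := by exact_mod_cast h3
  constructor <;> linarith

lemma g_nonneg (s : Finset ℕ) (hs : ∀ p ∈ s, p.Prime ∧ p ≠ 2) (D : ℕ) : 0 ≤ g s D :=
  prod_nonneg fun p hp => (fac_bounds p (hs p hp).1 (hs p hp).2 D).1

lemma g_le (s : Finset ℕ) (hs : ∀ p ∈ s, p.Prime ∧ p ≠ 2) (D : ℕ) : g s D ≤ 2 ^ s.card := by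
  unfold g
  calc ∏ p ∈ s, (1 + (chi D p : ℝ)) ≤ ∏ _p ∈ s, (2:ℝ) :=
        prod_le_prod (fun p hp => (fac_bounds p (hs p hp).1 (hs p hp).2 D).1)
          (fun p hp => (fac_bounds p (hs p hp).1 (hs p hp).2 D).2)
    _ = _ := by simp

lemma fac_mod (p : ℕ) (hp : p.Prime) (h2 : p ≠ 2) (D m : ℕ) (hm : p ∣ m) :
    (1 + (chi ((D % m : ℕ) : ℤ) p : ℝ)) = (1 + (chi (D : ℤ) p : ℝ)) := by
  rw [chi_odd p hp h2, chi_odd p hp h2]
  congr 2
  rw [jacobiSym.mod_left ((D % m : ℕ) : ℤ), jacobiSym.mod_left (D : ℤ)]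
  congr 1
  have : D % m % p = D % p := Nat.mod_mod_of_dvd D hm
  exact_mod_cast this

lemma g_mod (s : Finset ℕ) (hs : ∀ p ∈ s, p.Prime ∧ p ≠ 2) (D m : ℕ) (hm : ∀ p ∈ s, p ∣ m) :
    g s (D % m) = g s D :=
  prod_congr rfl fun p hp => fac_mod p (hs p hp).1 (hs p hp).2 D m (hm p hp)

lemma sum_fac (p : ℕ) (hp : p.Prime) (h2 : p ≠ 2) :
    ∑ D ∈ range p, (1 + (chi (D : ℤ) p : ℝ)) = p := by
  have : Fact p.Prime := ⟨hp⟩
  have h1 : ∑ D ∈ range p, (chi (D : ℤ) p : ℤ) = 0 := by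
    have h3 : ∑ a : ZMod p, quadraticChar (ZMod p) a = 0 :=
      quadraticChar_sum_zero (by rw [ZMod.ringChar_zmod_n]; exact h2)
    rw [← h3]
    refine sum_nbij' (i := fun x => (x : ZMod p)) (j := fun a => a.val) ?_ ?_ ?_ ?_ ?_
    · intro a _; simp
    · intro a _; simp only [mem_range]; exact ZMod.val_lt a
    · intro a ha; simp only [mem_range] at ha; exact ZMod.val_cast_of_lt ha
    · intro a _; simp
    · intro a _
      rw [chi_odd p hp h2, ← jacobiSym.legendreSym.to_jacobiSym, legendreSym]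
      simp
  rw [sum_add_distrib]
  have : ∑ D ∈ range p, (chi (D : ℤ) p : ℝ) = 0 := by exact_mod_cast h1
  rw [this]; simp

lemma prodS_pos (s : Finset ℕ) (hs : ∀ p ∈ s, p.Prime ∧ p ≠ 2) : 0 < prodS s :=
  prod_pos fun p hp => (hs p hp).1.pos

lemma dvd_prodS (s : Finset ℕ) (p : ℕ) (hp : p ∈ s) : p ∣ prodS s := dvd_prod_of_mem _ hp

lemma sum_g (s : Finset ℕ) (hs : ∀ p ∈ s, p.Prime ∧ p ≠ 2) :
    ∑ D ∈ range (prodS s), g s D = prodS s := by
  induction s using Finset.induction_on with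
  | empty => simp [prodS, g]
  | insert p s hps ih =>
    have hs' : ∀ q ∈ s, q.Prime ∧ q ≠ 2 := fun q hq => hs q (mem_insert_of_mem hq)
    have hp := hs p (mem_insert_self p s)
    have e1 : prodS (insert p s) = p * prodS s := by unfold prodS; rw [prod_insert hps]
    rw [e1]
    have hco : p.Coprime (prodS s) := by
      apply Nat.Coprime.prod_right
      intro q hq
      rw [Nat.coprime_primes hp.1 (hs' q hq).1]
      rintro rfl; exact hps hq
    have e2 : ∀ D, g (insert p s) D = (1 + (chi (D : ℤ) p : ℝ)) * g s D := by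
      intro D; unfold g; rw [prod_insert hps]
    simp_rw [e2]
    rw [sum_crt (fun D => (1 + (chi (D : ℤ) p : ℝ))) (g s) p (prodS s) hp.1.pos
      (prodS_pos s hs') hco (fun x => fac_mod p hp.1 hp.2 x p dvd_rfl)
      (fun x => g_mod s hs' x _ (fun q hq => dvd_prodS s q hq)), sum_fac p hp.1 hp.2, ih hs']
    push_cast; ring

/-- The main counting lemma. -/
lemma main_count (W : ℕ → ℝ) (q : ℕ) (hq : 0 < q) (hW : ∀ x, W (x % q) = W x)
    (hW0 : ∀ x, 0 ≤ W x) (hW1 : ∑ x ∈ range q, W x = 1) (s : Finset ℕ)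
    (hs : ∀ p ∈ s, p.Prime ∧ p ≠ 2) (hco : q.Coprime (prodS s)) (A B : ℕ) (hAB : A ≤ B) :
    ((B:ℝ) - A) / q - prodS s ≤ ∑ D ∈ Ioc A B, W D * g s D ∧
    ∑ D ∈ Ioc A B, W D * g s D ≤ ((B:ℝ) - A) / q + prodS s := by
  have hpos := prodS_pos s hs
  have hT : ∑ x ∈ range (q * prodS s), W x * g s x = prodS s := by
    rw [sum_crt W (g s) q (prodS s) hq hpos hco hW
      (fun x => g_mod s hs x _ (fun q hq => dvd_prodS s q hq)), hW1, sum_g s hs, one_mul]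
  have hper : ∀ n, W (n + q * prodS s) * g s (n + q * prodS s) = W n * g s n := by
    intro n
    have h1 : W (n + q * prodS s) = W n := by
      rw [← hW (n + q * prodS s), Nat.add_mul_mod_self_left, hW]
    have h2 : g s (n + q * prodS s) = g s n := by
      rw [← g_mod s hs (n + q * prodS s) (prodS s) (fun q hq => dvd_prodS s q hq),
        Nat.add_mul_mod_self_right, g_mod s hs n (prodS s) (fun q hq => dvd_prodS s q hq)]
    rw [h1, h2]
  have hb := sum_Ioc_bounds (fun D => W D * g s D) (q * prodS s) (Nat.mul_pos hq hpos) hper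
    (fun n => mul_nonneg (hW0 n) (g_nonneg s hs n)) A B hAB
  simp only [hT] at hb
  have e : ((B:ℝ) - A) / ((q * prodS s : ℕ) : ℝ) * (prodS s : ℝ) = ((B:ℝ) - A) / q := by
    have h1 : (q:ℝ) ≠ 0 := by exact_mod_cast hq.ne'
    have h2 : (prodS s:ℝ) ≠ 0 := by exact_mod_cast hpos.ne'
    push_cast
    field_simp
  rw [e] at hb
  exact hb

noncomputable def ind (Q r : ℕ) (D : ℕ) : ℝ := if D % Q = r then 1 else 0
noncomputable def ind0 (m : ℕ) (D : ℕ) : ℝ := if m ∣ D then 1 else 0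

lemma ind_sum (Q r : ℕ) (h : r < Q) : ∑ x ∈ range Q, ind Q r x = 1 := by
  unfold ind
  have : ∀ x ∈ range Q, (if x % Q = r then (1:ℝ) else 0) = if x = r then 1 else 0 := by
    intro x hx
    rw [Nat.mod_eq_of_lt (mem_range.1 hx)]
  rw [sum_congr rfl this]
  simp [h]

lemma ind0_sum (m : ℕ) (h : 0 < m) : ∑ x ∈ range m, ind0 m x = 1 := by
  unfold ind0
  have : ∀ x ∈ range m, (if m ∣ x then (1:ℝ) else 0) = if x = 0 then 1 else 0 := by
    intro x hx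
    have hx' := mem_range.1 hx
    congr 1
    simp only [eq_iff_iff]
    constructor
    · intro hd; exact Nat.eq_zero_of_dvd_of_lt hd hx'
    · rintro rfl; exact dvd_zero m
  rw [sum_congr rfl this]
  simp [h]

lemma ind_nonneg (Q r D : ℕ) : 0 ≤ ind Q r D := by unfold ind; split_ifs <;> norm_num
lemma ind0_nonneg (m D : ℕ) : 0 ≤ ind0 m D := by unfold ind0; split_ifs <;> norm_num

lemma ind_mod (Q r m x : ℕ) (h : Q ∣ m) : ind Q r (x % m) = ind Q r x := by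
  unfold ind; rw [Nat.mod_mod_of_dvd x h]

lemma ind0_mod (q m x : ℕ) (h : q ∣ m) : ind0 q (x % m) = ind0 q x := by
  unfold ind0
  congr 1
  simp only [eq_iff_iff]
  exact Nat.dvd_mod_iff h

lemma Q_pos (z : ℕ) : 0 < Qz z := by
  unfold Qz
  apply Nat.mul_pos (by norm_num)
  apply prod_pos
  intro l hl
  exact pow_pos (mem_filter.1 hl).2.pos 2

lemma prime_dvd_Q (z p : ℕ) (hz : 2 ≤ z) (hp : p.Prime) (h : p ∣ Qz z) : p ≤ z := by
  unfold Qz at h
  rcases (Nat.Prime.dvd_mul hp).1 h with h | h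
  · have : p ∣ 2 ^ 4 := by simpa using h
    have := (Nat.prime_dvd_prime_iff_eq hp Nat.prime_two).1 (hp.dvd_of_dvd_pow this)
    omega
  · rw [Prime.dvd_finsetProd_iff hp.prime] at h
    obtain ⟨l, hl, hd⟩ := h
    have h2 := (Nat.prime_dvd_prime_iff_eq hp (mem_filter.1 hl).2).1 (hp.dvd_of_dvd_pow hd)
    have h3 := (mem_Icc.1 (mem_filter.1 hl).1).2
    omega

lemma copr (z q : ℕ) (hz : 2 ≤ z) (s : Finset ℕ) (hs : ∀ p ∈ s, p.Prime ∧ z < p)
    (hq : ∀ p, p.Prime → p ∣ q → p ∉ s) : (Qz z * q).Coprime (prodS s) := by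
  apply Nat.Coprime.symm
  apply Nat.Coprime.prod_left
  intro p hp
  rw [Nat.Prime.coprime_iff_not_dvd (hs p hp).1]
  intro h
  rcases (Nat.Prime.dvd_mul (hs p hp).1).1 h with h | h
  · have := prime_dvd_Q z p hz (hs p hp).1 h
    have := (hs p hp).2
    omega
  · exact hq p (hs p hp).1 h hp

lemma sum_DD (z r X : ℕ) (η : ℝ) (f : ℕ → ℝ) :
    ∑ D ∈ DD z r X η, f D = ∑ D ∈ Ioc X ⌊(1 + η) * X⌋₊, ind (Qz z) r D * f D := by
  unfold DD ind
  rw [sum_filter]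
  refine sum_congr rfl fun D _ => ?_
  split_ifs <;> simp

lemma floor_bounds (X : ℕ) (η : ℝ) (h0 : 0 < η) :
    X ≤ ⌊(1 + η) * X⌋₊ ∧ η * X - 1 ≤ ((⌊(1 + η) * X⌋₊ : ℕ) : ℝ) - X ∧
    ((⌊(1 + η) * X⌋₊ : ℕ) : ℝ) - X ≤ η * X := by
  have hX : (0:ℝ) ≤ X := Nat.cast_nonneg X
  have h1 : (0:ℝ) ≤ (1 + η) * X := by positivity
  refine ⟨?_, ?_, ?_⟩
  · apply Nat.le_floor; nlinarith
  · have := (Nat.lt_floor_add_one ((1 + η) * X)).le
    linarith
  · have := Nat.floor_le h1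
    linarith

lemma lowerA (z r X : ℕ) (η : ℝ) (h0 : 0 < η) (hz : 2 ≤ z) (hr : r < Qz z) (s : Finset ℕ)
    (hs : ∀ p ∈ s, p.Prime ∧ z < p) :
    η * X / Qz z - 1 - prodS s ≤ ∑ D ∈ DD z r X η, g s D := by
  rw [sum_DD]
  obtain ⟨f1, f2, f3⟩ := floor_bounds X η h0
  have hs' : ∀ p ∈ s, p.Prime ∧ p ≠ 2 := fun p hp => ⟨(hs p hp).1, by have := (hs p hp).2; omega⟩
  have hco : (Qz z).Coprime (prodS s) := by
    have := copr z 1 hz s hs (fun p hp h => absurd (Nat.dvd_one.1 h) hp.one_lt.ne')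
    simpa using this
  have h := (main_count (ind (Qz z) r) (Qz z) (Q_pos z) (fun x => ind_mod _ _ _ _ dvd_rfl)
    (ind_nonneg _ _) (ind_sum _ _ hr) s hs' hco X ⌊(1 + η) * X⌋₊ f1).1
  refine le_trans ?_ h
  have hQ : (1:ℝ) ≤ (Qz z : ℝ) := by exact_mod_cast Q_pos z
  have : η * X / Qz z - 1 ≤ (((⌊(1 + η) * X⌋₊ : ℕ) : ℝ) - X) / Qz z := by
    calc η * X / Qz z - 1 ≤ η * X / Qz z - 1 / Qz z := by
          have : 1 / (Qz z : ℝ) ≤ 1 := by rw [div_le_one (by linarith)]; exact hQ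
          linarith
      _ = (η * X - 1) / Qz z := by ring
      _ ≤ _ := by gcongr
  linarith

lemma upperB (z r X : ℕ) (η : ℝ) (h0 : 0 < η) (hz : 2 ≤ z) (hr : r < Qz z) (s : Finset ℕ)
    (hs : ∀ p ∈ s, p.Prime ∧ z < p) (l : ℕ) (hl : l.Prime) (hzl : z < l) :
    ∑ D ∈ (DD z r X η).filter (fun D => l ^ 2 ∣ D), g s D ≤
      η * X / Qz z * ((l:ℝ) ^ 2)⁻¹ + prodS s := by
  obtain ⟨f1, f2, f3⟩ := floor_bounds X η h0
  -- reduce to a set not containing l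
  set s' := s.erase l with hs'
  have hS' : ∀ p ∈ s', p.Prime ∧ z < p := fun p hp => hs p (mem_of_mem_erase hp)
  have hS2 : ∀ p ∈ s', p.Prime ∧ p ≠ 2 := fun p hp =>
    ⟨(hS' p hp).1, by have := (hS' p hp).2; omega⟩
  have hg : ∀ D ∈ (DD z r X η).filter (fun D => l ^ 2 ∣ D), g s D = g s' D := by
    intro D hD
    have hd := (mem_filter.1 hD).2
    by_cases hls : l ∈ s
    · unfold g
      rw [← mul_prod_erase s _ hls]
      have : chi (D:ℤ) l = 0 := by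
        rw [chi_odd l hl (by omega)]
        have hne : l ≠ 0 := hl.ne_zero
        rw [jacobiSym.eq_zero_iff]
        refine ⟨hne, ?_⟩
        intro h
        have h1 : (l:ℤ) ∣ (D:ℤ) := by
          exact_mod_cast (dvd_trans (dvd_pow_self l two_ne_zero) hd)
        have h2 : Int.gcd (D:ℤ) (l:ℤ) = l := by
          rw [Int.gcd_comm]
          have := (Int.gcd_eq_left_iff_dvd (a := (l:ℤ)) (b := (D:ℤ)) (by positivity)).2 h1
          exact_mod_cast this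
        rw [h2] at h
        exact hl.one_lt.ne' h
      rw [this]; simp [hs']
    · rw [hs', erase_eq_of_notMem hls]
  rw [sum_congr rfl hg]
  have hle : prodS s' ≤ prodS s := by
    apply Nat.le_of_dvd
    · exact prod_pos fun p hp => (hs p hp).1.pos
    · exact prod_dvd_prod_of_subset _ _ _ (erase_subset l s)
  have hle' : (prodS s' : ℝ) ≤ prodS s := by exact_mod_cast hle
  have hcoQ : (Qz z).Coprime (l ^ 2) := by
    apply Nat.Coprime.pow_right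
    rw [Nat.coprime_comm, Nat.Prime.coprime_iff_not_dvd hl]
    intro h
    have := prime_dvd_Q z l hz hl h
    omega
  have hl2 : 0 < l ^ 2 := pow_pos hl.pos 2
  have hco : (Qz z * l ^ 2).Coprime (prodS s') := by
    apply copr z (l^2) hz s' hS'
    intro p hp hd
    have := (Nat.prime_dvd_prime_iff_eq hp hl).1 (hp.dvd_of_dvd_pow hd)
    rw [this, hs']; simp
  have h := (main_count (fun D => ind (Qz z) r D * ind0 (l^2) D) (Qz z * l ^ 2)
    (Nat.mul_pos (Q_pos z) hl2)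
    (fun x => by
      rw [ind_mod _ _ _ _ (dvd_mul_right _ _), ind0_mod _ _ _ (dvd_mul_left _ _)])
    (fun x => mul_nonneg (ind_nonneg _ _ _) (ind0_nonneg _ _))
    (by
      rw [sum_crt (ind (Qz z) r) (ind0 (l^2)) (Qz z) (l^2) (Q_pos z) hl2 hcoQ
        (fun x => ind_mod _ _ _ _ dvd_rfl) (fun x => ind0_mod _ _ _ dvd_rfl),
        ind_sum _ _ hr, ind0_sum _ hl2, one_mul]) s' hS2 hco X ⌊(1 + η) * X⌋₊ f1).2
  have e : ∑ D ∈ (DD z r X η).filter (fun D => l ^ 2 ∣ D), g s' D =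
      ∑ D ∈ Ioc X ⌊(1 + η) * X⌋₊, (ind (Qz z) r D * ind0 (l^2) D) * g s' D := by
    rw [sum_filter, sum_DD]
    refine sum_congr rfl fun D _ => ?_
    unfold ind0
    split_ifs <;> ring
  rw [e]
  refine le_trans h ?_
  have hQ : (0:ℝ) < (Qz z : ℝ) := by exact_mod_cast Q_pos z
  have hlr : (0:ℝ) < (l:ℝ) := by exact_mod_cast hl.pos
  have : (((⌊(1 + η) * X⌋₊ : ℕ) : ℝ) - X) / ((Qz z * l ^ 2 : ℕ) : ℝ) ≤
      η * X / Qz z * ((l:ℝ) ^ 2)⁻¹ := by
    calc (((⌊(1 + η) * X⌋₊ : ℕ) : ℝ) - X) / ((Qz z * l ^ 2 : ℕ) : ℝ)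
        ≤ (η * X) / ((Qz z * l ^ 2 : ℕ) : ℝ) := by gcongr
      _ = _ := by push_cast; field_simp
  linarith

lemma upperC (z r X : ℕ) (η : ℝ) (h0 : 0 < η) (h1 : η ≤ 1) (s : Finset ℕ)
    (hs : ∀ p ∈ s, p.Prime ∧ p ≠ 2) (l : ℕ) :
    ∑ D ∈ (DD z r X η).filter (fun D => l ^ 2 ∣ D), g s D ≤
      2 ^ s.card * (2 * X) * ((l:ℝ) ^ 2)⁻¹ := by
  have hsub : (DD z r X η).filter (fun D => l ^ 2 ∣ D) ⊆
      (Ioc 0 ⌊(1 + η) * X⌋₊).filter (fun D => l ^ 2 ∣ D) := by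
    intro D hD
    simp only [DD, mem_filter, mem_Ioc] at hD ⊢
    exact ⟨⟨by omega, hD.1.1.2⟩, hD.2⟩
  have hcard : ((DD z r X η).filter (fun D => l ^ 2 ∣ D)).card ≤ ⌊(1 + η) * X⌋₊ / (l^2) := by
    refine (card_le_card hsub).trans (le_of_eq ?_)
    exact Nat.Ioc_filter_dvd_card_eq_div _ _
  have hcr : (((DD z r X η).filter (fun D => l ^ 2 ∣ D)).card : ℝ) ≤ (2 * X) * ((l:ℝ) ^ 2)⁻¹ := by
    calc (((DD z r X η).filter (fun D => l ^ 2 ∣ D)).card : ℝ)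
        ≤ ((⌊(1 + η) * X⌋₊ / (l^2) : ℕ) : ℝ) := by exact_mod_cast hcard
      _ ≤ ((⌊(1 + η) * X⌋₊ : ℕ) : ℝ) / ((l^2 : ℕ) : ℝ) := Nat.cast_div_le
      _ ≤ (2 * X) / ((l^2 : ℕ) : ℝ) := by
          gcongr
          have hX : (0:ℝ) ≤ X := Nat.cast_nonneg X
          have := Nat.floor_le (show (0:ℝ) ≤ (1 + η) * X by positivity)
          nlinarith
      _ = _ := by push_cast; rw [div_eq_mul_inv]
  calc ∑ D ∈ (DD z r X η).filter (fun D => l ^ 2 ∣ D), g s D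
      ≤ ∑ _D ∈ (DD z r X η).filter (fun D => l ^ 2 ∣ D), (2:ℝ) ^ s.card :=
        sum_le_sum fun D _ => g_le s hs D
    _ = 2 ^ s.card * (((DD z r X η).filter (fun D => l ^ 2 ∣ D)).card : ℝ) := by
        rw [sum_const, nsmul_eq_mul]; ring
    _ ≤ 2 ^ s.card * ((2 * X) * ((l:ℝ) ^ 2)⁻¹) := by gcongr
    _ = _ := by ring

lemma sq_dvd_of_not_fund (z r D : ℕ) (hr : FundRes z r) (hD : D % Qz z = r) (h1 : 1 < D)
    (hn : ¬ IsFund D) : ∃ l, l.Prime ∧ z < l ∧ l ^ 2 ∣ D := by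
  obtain ⟨_, hr2, hr3⟩ := hr
  have h16 : 16 ∣ Qz z := dvd_mul_right _ _
  have hmod16 : D % 16 = r % 16 := by rw [← hD, Nat.mod_mod_of_dvd D h16]
  -- a prime with l^2 | D, odd, is > z
  have key : ∀ l : ℕ, l.Prime → l ≠ 2 → l ^ 2 ∣ D → z < l := by
    intro l hl h2 hd
    by_contra hcon
    have h3 : 3 ≤ l := by have := hl.two_le; omega
    have hmem : l ∈ (Finset.Icc 3 z).filter Nat.Prime := by
      simp only [mem_filter, mem_Icc]; exact ⟨⟨h3, by omega⟩, hl⟩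
    have hdQ : l ^ 2 ∣ Qz z := dvd_mul_of_dvd_right (dvd_prod_of_mem (fun l => l^2) hmem) _
    apply hr3 l hmem
    rw [← hD]
    exact (Nat.dvd_mod_iff hdQ).2 hd
  have fin : ∀ m : ℕ, ¬ Squarefree m → m ∣ D → m % 4 ≠ 0 → ∃ l, l.Prime ∧ z < l ∧ l ^ 2 ∣ D := by
    intro m hm hmD hm4
    rw [Nat.squarefree_iff_prime_squarefree] at hm
    push Not at hm
    obtain ⟨l, hl, hd⟩ := hm
    have hl2 : l ≠ 2 := by
      rintro rfl
      apply hm4
      omega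
    have hd2 : l ^ 2 ∣ D := by rw [pow_two]; exact hd.trans hmD
    exact ⟨l, hl, key l hl hl2 hd2, hd2⟩
  rcases hr2 with h | h | h
  · have hD4 : D % 4 = 1 := by omega
    have : ¬ Squarefree D := fun hs => hn ⟨h1, Or.inl ⟨hD4, hs⟩⟩
    exact fin D this dvd_rfl (by omega)
  · have hD4 : D = 4 * (D / 4) := by omega
    have hm : (D / 4) % 4 = 2 := by omega
    have : ¬ Squarefree (D / 4) := fun hs => hn ⟨h1, Or.inr ⟨D / 4, hD4, Or.inl hm, hs⟩⟩
    exact fin (D / 4) this ⟨4, by omega⟩ (by omega)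
  · have hD4 : D = 4 * (D / 4) := by omega
    have hm : (D / 4) % 4 = 3 := by omega
    have : ¬ Squarefree (D / 4) := fun hs => hn ⟨h1, Or.inr ⟨D / 4, hD4, Or.inr hm, hs⟩⟩
    exact fin (D / 4) this ⟨4, by omega⟩ (by omega)

lemma nonfund (z r X : ℕ) (η : ℝ) (h1 : η ≤ 1) (hr : FundRes z r) (hX : 1 ≤ X)
    (s : Finset ℕ) (hs : ∀ p ∈ s, p.Prime ∧ p ≠ 2) :
    ∑ D ∈ DD z r X η, g s D ≤ ∑ D ∈ FD z r X η, g s D +
      ∑ l ∈ (Ioc z (2 * X)).filter Nat.Prime,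
        ∑ D ∈ (DD z r X η).filter (fun D => l ^ 2 ∣ D), g s D := by
  have hsplit := sum_filter_add_sum_filter_not (DD z r X η) IsFund (g s)
  rw [← hsplit]
  unfold FD
  gcongr
  simp_rw [sum_filter (fun D => (_ ^ 2) ∣ D)]
  rw [sum_comm, sum_filter]
  apply sum_le_sum
  intro D hD
  have hnn : ∀ l ∈ (Ioc z (2 * X)).filter Nat.Prime, 0 ≤ if l ^ 2 ∣ D then g s D else 0 := by
    intro l _; split_ifs
    · exact g_nonneg s hs D
    · exact le_rfl
  by_cases hn : IsFund D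
  · simp only [hn, not_true_eq_false, if_false]
    exact sum_nonneg hnn
  · simp only [hn, not_false_eq_true, if_true]
    simp only [DD, mem_filter, mem_Ioc] at hD
    obtain ⟨l, hl, hzl, hd⟩ := sq_dvd_of_not_fund z r D hr hD.2 (by omega) hn
    have hDle : D ≤ 2 * X := by
      have h2 : (D:ℝ) ≤ (1 + η) * X := by
        have := hD.1.2
        exact (Nat.le_floor_iff' (by omega)).1 this
      have hX0 : (0:ℝ) ≤ X := Nat.cast_nonneg X
      have h3 : (D:ℝ) ≤ 2 * X := by nlinarith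
      exact_mod_cast h3
    have hll : l ≤ 2 * X := by
      have h4 : l ^ 2 ≤ D := Nat.le_of_dvd (by omega) hd
      nlinarith [hl.one_lt]
    have hmem : l ∈ (Ioc z (2 * X)).filter Nat.Prime := by
      simp only [mem_filter, mem_Ioc]; exact ⟨⟨hzl, hll⟩, hl⟩
    have := single_le_sum hnn hmem
    simpa [hd] using this

lemma sum_bound (z r X L : ℕ) (η : ℝ) (h0 : 0 < η) (h1 : η ≤ 1) (hz : 2 ≤ z) (hr : r < Qz z)
    (hL : 1 ≤ L) (s : Finset ℕ) (hs : ∀ p ∈ s, p.Prime ∧ z < p) :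
    ∑ l ∈ (Ioc z (2 * X)).filter Nat.Prime,
        ∑ D ∈ (DD z r X η).filter (fun D => l ^ 2 ∣ D), g s D ≤
      η * X / Qz z * (1 / z) + L * prodS s + 2 ^ s.card * (2 * X) / L := by
  have hs2 : ∀ p ∈ s, p.Prime ∧ p ≠ 2 := fun p hp => ⟨(hs p hp).1, by have := (hs p hp).2; omega⟩
  have hQ : (0:ℝ) < (Qz z : ℝ) := by exact_mod_cast Q_pos z
  have hsq : ∀ m n : ℕ, 1 ≤ m → ∑ l ∈ Ioc m n, ((l:ℝ)^2)⁻¹ ≤ (m:ℝ)⁻¹ := by
    intro m n hm
    rcases le_or_gt m n with h | h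
    · have := sum_Ioc_inv_sq_le_sub (α := ℝ) (k := m) (n := n) (by omega) h
      have h2 : (0:ℝ) ≤ (n:ℝ)⁻¹ := by positivity
      linarith
    · rw [Ioc_eq_empty (by omega)]; simp
  have hterm : ∀ l ∈ (Ioc z (2 * X)).filter Nat.Prime,
      ∑ D ∈ (DD z r X η).filter (fun D => l ^ 2 ∣ D), g s D ≤
        η * X / Qz z * ((l:ℝ) ^ 2)⁻¹ + (if l ≤ L then (prodS s : ℝ) else 0) +
        (if l ≤ L then 0 else 2 ^ s.card * (2 * X) * ((l:ℝ) ^ 2)⁻¹) := by
    intro l hl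
    simp only [mem_filter, mem_Ioc] at hl
    have hnn : (0:ℝ) ≤ η * X / Qz z * ((l:ℝ) ^ 2)⁻¹ := by positivity
    split_ifs with hlL
    · have := upperB z r X η h0 hz hr s hs l hl.2 hl.1.1
      linarith
    · have := upperC z r X η h0 h1 s hs2 l
      linarith
  refine (sum_le_sum hterm).trans ?_
  have hext : ∀ f : ℕ → ℝ, (∀ l, 0 ≤ f l) → ∑ l ∈ (Ioc z (2 * X)).filter Nat.Prime, f l ≤
      ∑ l ∈ Ioc z (2 * X), f l := by
    intro f hf
    exact sum_le_sum_of_subset_of_nonneg (filter_subset _ _) fun l _ _ => hf l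
  rw [sum_add_distrib, sum_add_distrib]
  have b1 : ∑ l ∈ (Ioc z (2 * X)).filter Nat.Prime, η * X / Qz z * ((l:ℝ) ^ 2)⁻¹ ≤
      η * X / Qz z * (1 / z) := by
    refine (hext _ (fun l => by positivity)).trans ?_
    rw [← mul_sum]
    have := hsq z (2*X) (by omega)
    rw [one_div]
    gcongr
  have b2 : ∑ l ∈ (Ioc z (2 * X)).filter Nat.Prime, (if l ≤ L then (prodS s : ℝ) else 0) ≤
      L * prodS s := by
    refine (hext _ (fun l => by split_ifs <;> positivity)).trans ?_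
    rw [← sum_filter, sum_const, nsmul_eq_mul]
    gcongr
    have : (Ioc z (2 * X)).filter (fun l => l ≤ L) ⊆ Ioc 0 L := by
      intro l hl; simp only [mem_filter, mem_Ioc] at hl ⊢; omega
    refine (card_le_card this).trans ?_
    simp
  have b3 : ∑ l ∈ (Ioc z (2 * X)).filter Nat.Prime,
      (if l ≤ L then 0 else 2 ^ s.card * (2 * X) * ((l:ℝ) ^ 2)⁻¹) ≤
      2 ^ s.card * (2 * X) / L := by
    refine (hext _ (fun l => by split_ifs <;> positivity)).trans ?_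
    have e : ∑ l ∈ Ioc z (2 * X), (if l ≤ L then (0:ℝ) else 2 ^ s.card * (2 * X) * ((l:ℝ) ^ 2)⁻¹)
        ≤ ∑ l ∈ Ioc L (2 * X), 2 ^ s.card * (2 * X) * ((l:ℝ) ^ 2)⁻¹ := by
      have e1 : ∑ l ∈ Ioc z (2 * X),
          (if l ≤ L then (0:ℝ) else 2 ^ s.card * (2 * X) * ((l:ℝ) ^ 2)⁻¹) =
          ∑ l ∈ (Ioc z (2 * X)).filter (fun l => ¬ l ≤ L),
            2 ^ s.card * (2 * X) * ((l:ℝ) ^ 2)⁻¹ := by
        rw [sum_filter]
        refine sum_congr rfl fun l _ => ?_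
        split_ifs <;> rfl
      rw [e1]
      apply sum_le_sum_of_subset_of_nonneg
      · intro l hl; simp only [mem_filter, mem_Ioc] at hl ⊢; omega
      · intro l _ _; positivity
    refine e.trans ?_
    rw [← mul_sum, div_eq_mul_inv]
    have := hsq L (2*X) hL
    gcongr
  linarith

lemma pow_card_le (y : ℕ) (s : Finset ℕ) (hs : ∀ p ∈ s, y ≤ p) : y ^ s.card ≤ prodS s := by
  unfold prodS
  exact pow_card_le_prod s _ _ hs

end M1Lh

open M1Lh in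
theorem T_M1L : P_SZ → P_M1L := by
  rintro ⟨X1, hX1⟩ z r hz hr η h0 h1 ε hε
  have hQ : (0:ℝ) < (Qz z : ℝ) := by exact_mod_cast Q_pos z
  -- yy X tends to infinity
  have hyy : Tendsto yy atTop atTop := by
    unfold yy
    apply tendsto_nat_floor_atTop.comp
    apply Tendsto.atTop_div_const (by norm_num)
    exact (tendsto_pow_atTop (by norm_num)).comp
      (Real.tendsto_log_atTop.comp tendsto_natCast_atTop_atTop)
  obtain ⟨X2, hX2⟩ := (tendsto_atTop.1 hyy (max (2^14) z)).exists_forall_of_atTop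
  have hrp : Tendsto (fun X : ℕ => (X:ℝ) ^ (1/20 : ℝ)) atTop atTop :=
    (tendsto_rpow_atTop (by norm_num)).comp tendsto_natCast_atTop_atTop
  obtain ⟨X3, hX3⟩ := (tendsto_atTop.1 hrp (7 * Qz z / (ε * η))).exists_forall_of_atTop
  refine ⟨max (max X1 X2) (max X3 1), fun X hX s hs => ?_⟩
  have hXa : X1 ≤ X := le_trans (le_trans (le_max_left _ _) (le_max_left _ _)) hX
  have hXb : X2 ≤ X := le_trans (le_trans (le_max_right _ _) (le_max_left _ _)) hX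
  have hXc : X3 ≤ X := le_trans (le_trans (le_max_left _ _) (le_max_right _ _)) hX
  have hXd : 1 ≤ X := le_trans (le_trans (le_max_right _ _) (le_max_right _ _)) hX
  have hXr : (1:ℝ) ≤ X := by exact_mod_cast hXd
  have hX0 : (0:ℝ) < X := by linarith
  have hy := hX2 X hXb
  have hsz := (hX1 X hXa s hs).2
  have hbig := hX3 X hXc
  simp only [SX, PX, PP, mem_powersetCard] at hs
  have hs1 : ∀ p ∈ s, p.Prime ∧ yy X < p := fun p hp => by
    have := hs.1 hp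
    simp only [mem_filter, mem_Ioc] at this
    exact ⟨this.2, this.1.1⟩
  have hzy : z ≤ yy X := le_trans (le_max_right _ _) hy
  have h14 : 2 ^ 14 ≤ yy X := le_trans (le_max_left _ _) hy
  have hs2 : ∀ p ∈ s, p.Prime ∧ z < p := fun p hp => ⟨(hs1 p hp).1, lt_of_le_of_lt hzy (hs1 p hp).2⟩
  have hs3 : ∀ p ∈ s, p.Prime ∧ p ≠ 2 := fun p hp =>
    ⟨(hs2 p hp).1, by have := (hs2 p hp).2; omega⟩
  -- the bound for 2^k
  have hk : (2:ℝ) ^ s.card ≤ (X:ℝ) ^ (1/20 : ℝ) := by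
    have e1 : (2 ^ 14) ^ s.card ≤ prodS s := pow_card_le (2^14) s fun p hp =>
      le_trans h14 (hs1 p hp).2.le
    have e2 : (((2:ℝ) ^ s.card) ^ 14) ≤ ((X:ℝ) ^ (1/20 : ℝ)) ^ 14 := by
      calc (((2:ℝ) ^ s.card) ^ 14) = (((2 ^ 14) ^ s.card : ℕ) : ℝ) := by
            push_cast; rw [← pow_mul, mul_comm s.card 14, pow_mul]; norm_num
        _ ≤ (prodS s : ℝ) := by exact_mod_cast e1
        _ ≤ (X:ℝ) ^ (2/3 : ℝ) := hsz
        _ ≤ (X:ℝ) ^ (7/10 : ℝ) := Real.rpow_le_rpow_of_exponent_le hXr (by norm_num)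
        _ = ((X:ℝ) ^ (1/20 : ℝ)) ^ 14 := by
            rw [← Real.rpow_natCast, ← Real.rpow_mul hX0.le]; norm_num
    exact le_of_pow_le_pow_left₀ (by norm_num) (by positivity) e2
  set L := ⌊(X:ℝ) ^ (1/10 : ℝ)⌋₊ with hLdef
  have hXp : (1:ℝ) ≤ (X:ℝ) ^ (1/10 : ℝ) := Real.one_le_rpow hXr (by norm_num)
  have hL1 : 1 ≤ L := Nat.le_floor (by simpa using hXp)
  have hLu : (L:ℝ) ≤ (X:ℝ) ^ (1/10 : ℝ) := Nat.floor_le (by positivity)
  have hLl : (X:ℝ) ^ (1/10 : ℝ) ≤ 2 * L := by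
    have h2 := (Nat.lt_floor_add_one ((X:ℝ) ^ (1/10 : ℝ))).le
    have h3 : (1:ℝ) ≤ L := by exact_mod_cast hL1
    linarith
  have hA := lowerA z r X η h0 hz hr.1 s hs2
  have hB := nonfund z r X η h1 hr hXd s hs3
  have hC := sum_bound z r X L η h0 h1 hz hr.1 hL1 s hs2
  have c1 : (2:ℝ) ^ s.card * (2 * X) / L ≤ 4 * (X:ℝ) ^ (19/20 : ℝ) := by
    have hLpos : (0:ℝ) < L := by exact_mod_cast hL1
    rw [div_le_iff₀ hLpos]
    calc (2:ℝ) ^ s.card * (2 * X) ≤ (X:ℝ) ^ (1/20 : ℝ) * (2 * X) := by gcongr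
      _ = 2 * ((X:ℝ) ^ (19/20 : ℝ) * (X:ℝ) ^ (1/10 : ℝ)) := by
          rw [← Real.rpow_add hX0]
          have : (X:ℝ) ^ (1/20 : ℝ) * (2 * X) = 2 * ((X:ℝ) ^ (1/20 : ℝ) * (X:ℝ) ^ (1:ℝ)) := by
            rw [Real.rpow_one]; ring
          rw [this, ← Real.rpow_add hX0]; norm_num
      _ ≤ 2 * ((X:ℝ) ^ (19/20 : ℝ) * (2 * L)) := by gcongr
      _ = _ := by ring
  have c2 : (L:ℝ) * prodS s ≤ (X:ℝ) ^ (19/20 : ℝ) := by
    calc (L:ℝ) * prodS s ≤ (X:ℝ) ^ (1/10 : ℝ) * (X:ℝ) ^ (2/3 : ℝ) := by gcongr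
      _ = (X:ℝ) ^ (1/10 + 2/3 : ℝ) := by rw [← Real.rpow_add hX0]
      _ ≤ _ := Real.rpow_le_rpow_of_exponent_le hXr (by norm_num)
  have c3 : (prodS s : ℝ) ≤ (X:ℝ) ^ (19/20 : ℝ) :=
    hsz.trans (Real.rpow_le_rpow_of_exponent_le hXr (by norm_num))
  have c4 : (1:ℝ) ≤ (X:ℝ) ^ (19/20 : ℝ) := Real.one_le_rpow hXr (by norm_num)
  have c5 : 7 * (X:ℝ) ^ (19/20 : ℝ) ≤ ε * (η * X / Qz z) := by
    rw [div_le_iff₀ (by positivity)] at hbig
    have e : (X:ℝ) = (X:ℝ) ^ (19/20 : ℝ) * (X:ℝ) ^ (1/20 : ℝ) := by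
      rw [← Real.rpow_add hX0]; norm_num
    have e2 : ε * (η * X / Qz z) = (ε * η * ((X:ℝ) ^ (19/20 : ℝ) * (X:ℝ) ^ (1/20 : ℝ))) / Qz z := by
      rw [← e]; ring
    rw [e2, le_div_iff₀ hQ]
    have hp : (0:ℝ) ≤ (X:ℝ) ^ (19/20 : ℝ) := by positivity
    nlinarith
  have hgoal : ∑ D ∈ FD z r X η, ∏ p ∈ s, (1 + (chi D p : ℝ)) = ∑ D ∈ FD z r X η, g s D := rfl
  rw [hgoal]
  have e3 : (1 - ε - 1 / (z:ℝ)) * (η * X / Qz z) =
    η * X / Qz z - ε * (η * X / Qz z) - η * X / Qz z * (1 / z) := by ring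
  rw [e3]
  linarith

end Pool.Agent.H38R2.CG
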