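import Pool.Agent.H52.V.S8.H38R2.CG.Stubs

set_option autoImplicit false

namespace Pool.Agent.H38R2.CG

open Finset Filter
open scoped Classical

namespace MLOWh

/-! ## Character sums -/

lemma chi_prime (D : ℤ) {p : ℕ} (hp : p.Prime) (h2 : p ≠ 2) : chi D p = jacobiSym D p := by
  have h : padicValNat 2 p = 0 := by
    apply padicValNat.eq_zero_of_not_dvd
    intro h
    exact h2 ((Nat.prime_dvd_prime_iff_eq Nat.prime_two hp).1 h).symm
  unfold chi
  rw [h]; simp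

lemma leg_sum_zero {p : ℕ} [Fact p.Prime] (h2 : p ≠ 2) (r Q : ZMod p) (hQ : Q ≠ 0) :
    ∑ x : ZMod p, quadraticChar (ZMod p) (r + Q * x) = 0 := by
  have hb : Function.Bijective (fun x : ZMod p => r + Q * x) := by
    constructor
    · intro x y h
      simp only at h
      have := add_left_cancel h
      exact mul_left_cancel₀ hQ this
    · intro y
      refine ⟨Q⁻¹ * (y - r), ?_⟩
      simp only
      rw [← mul_assoc, mul_inv_cancel₀ hQ]; ring
  have h1 : ∑ x : ZMod p, quadraticChar (ZMod p) (r + Q * x) =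
      ∑ x : ZMod p, quadraticChar (ZMod p) x :=
    Function.Bijective.sum_comp hb (fun x => quadraticChar (ZMod p) x)
  rw [h1]
  apply quadraticChar_sum_zero
  rw [ZMod.ringChar_zmod_n]
  exact h2

lemma range_sum_zmod {N : ℕ} [NeZero N] (g : ZMod N → ℤ) :
    ∑ i ∈ Finset.range N, g (i : ZMod N) = ∑ x : ZMod N, g x := by
  refine Finset.sum_nbij' (fun i => (i : ZMod N)) (fun x => x.val) ?_ ?_ ?_ ?_ ?_
  · intro i _; exact Finset.mem_univ _
  · intro x _; exact Finset.mem_range.2 (ZMod.val_lt x)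
  · intro i hi; exact ZMod.val_cast_of_lt (Finset.mem_range.1 hi)
  · intro x _; exact ZMod.natCast_zmod_val x
  · intro i _; rfl

/-- full period sum -/
lemma period_sum {p q : ℕ} (hp : p.Prime) (hq : q.Prime) (hpq : p ≠ q) (hq2 : q ≠ 2)
    (r Q : ℕ) (hqQ : ¬ q ∣ Q) :
    ∑ i ∈ Finset.range (p * q), jacobiSym ((r + Q * i : ℕ) : ℤ) p *
      jacobiSym ((r + Q * i : ℕ) : ℤ) q = 0 := by
  have : Fact p.Prime := ⟨hp⟩
  have : Fact q.Prime := ⟨hq⟩
  have hco : Nat.Coprime p q := (Nat.coprime_primes hp hq).2 hpq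
  have : NeZero (p * q) := ⟨Nat.mul_ne_zero hp.ne_zero hq.ne_zero⟩
  let e := ZMod.chineseRemainder hco
  let G : ZMod p × ZMod q → ℤ := fun z => quadraticChar (ZMod p) ((r : ZMod p) + (Q : ZMod p) * z.1) *
    quadraticChar (ZMod q) ((r : ZMod q) + (Q : ZMod q) * z.2)
  have h1 : ∀ i : ℕ, jacobiSym ((r + Q * i : ℕ) : ℤ) p * jacobiSym ((r + Q * i : ℕ) : ℤ) q =
      G (e (i : ZMod (p * q))) := by
    intro i
    rw [← jacobiSym.legendreSym.to_jacobiSym p, ← jacobiSym.legendreSym.to_jacobiSym q]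
    have he : e (i : ZMod (p * q)) = ((i : ZMod p), (i : ZMod q)) := by
      rw [map_natCast]; rfl
    simp only [G, he, legendreSym]
    push_cast
    rfl
  rw [Finset.sum_congr rfl (fun i _ => h1 i), range_sum_zmod (fun x => G (e x))]
  have h2 : ∑ x : ZMod (p * q), G (e x) = ∑ z : ZMod p × ZMod q, G z :=
    Equiv.sum_comp e.toEquiv G
  rw [h2, Fintype.sum_prod_type]
  have h3 : ∀ x : ZMod p, ∑ y : ZMod q, G (x, y) = 0 := by
    intro x
    simp only [G]
    rw [← Finset.mul_sum, leg_sum_zero hq2 _ _ (by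
      rw [Ne, ZMod.natCast_eq_zero_iff]; exact hqQ), mul_zero]
  simp [h3]

lemma window_sum (h : ℕ → ℤ) (N : ℕ) (hper : ∀ i, h (i + N) = h i)
    (h0 : ∑ i ∈ Finset.range N, h i = 0) (a : ℕ) : ∑ i ∈ Finset.Ico a (a + N), h i = 0 := by
  induction a with
  | zero => rw [Nat.zero_add, ← Finset.range_eq_Ico]; exact h0
  | succ a ih =>
    rcases Nat.eq_zero_or_pos N with rfl | hN
    · simp
    · have h1 : ∑ i ∈ Finset.Ico a (a + N + 1), h i = ∑ i ∈ Finset.Ico a (a + N), h i + h (a + N) :=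
        Finset.sum_Ico_succ_top (by omega) _
      have h2 : ∑ i ∈ Finset.Ico a (a + N + 1), h i = h a + ∑ i ∈ Finset.Ico (a + 1) (a + N + 1), h i :=
        Finset.sum_eq_sum_Ico_succ_bot (by omega) _
      have h3 := hper a
      rw [show a + 1 + N = a + N + 1 by ring]
      linarith

lemma interval_bound (h : ℕ → ℤ) (N : ℕ) (hN : 0 < N) (hper : ∀ i, h (i + N) = h i)
    (h0 : ∑ i ∈ Finset.range N, h i = 0) (hb : ∀ i, |h i| ≤ 1) (n : ℕ) :
    ∀ a b : ℕ, b - a ≤ n → |∑ i ∈ Finset.Ico a b, h i| ≤ N := by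
  induction n using Nat.strong_induction_on with
  | _ n ih =>
    intro a b hab
    rcases lt_or_ge (b - a) N with hlt | hge
    · calc |∑ i ∈ Finset.Ico a b, h i| ≤ ∑ i ∈ Finset.Ico a b, |h i| := Finset.abs_sum_le_sum_abs _ _
        _ ≤ ∑ i ∈ Finset.Ico a b, 1 := Finset.sum_le_sum fun i _ => hb i
        _ = ((b - a : ℕ) : ℤ) := by simp
        _ ≤ N := by exact_mod_cast hlt.le
    · have h1 : ∑ i ∈ Finset.Ico a b, h i =
          ∑ i ∈ Finset.Ico a (a + N), h i + ∑ i ∈ Finset.Ico (a + N) b, h i :=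
        (Finset.sum_Ico_consecutive _ (by omega) (by omega)).symm
      rw [h1, window_sum h N hper h0 a, zero_add]
      exact ih (b - (a + N)) (by omega) (a + N) b le_rfl

/-- the progression in an interval -/
lemma DD_sum (z r X : ℕ) (η : ℝ) (hr : r < Qz z) (hX : Qz z ≤ X) (hη : 0 < η) (g : ℕ → ℤ) :
    ∑ D ∈ DD z r X η, g D =
      ∑ i ∈ Finset.Ico ((X - r) / Qz z + 1) ((⌊(1 + η) * X⌋₊ - r) / Qz z + 1), g (r + Qz z * i) := by
  have hQ : 0 < Qz z := lt_of_le_of_lt (Nat.zero_le _) hr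
  have hM : X ≤ ⌊(1 + η) * X⌋₊ := by
    apply Nat.le_floor
    have : (0 : ℝ) ≤ X := Nat.cast_nonneg _
    nlinarith
  set M := ⌊(1 + η) * X⌋₊ with hMdef
  refine Finset.sum_nbij' (fun D => D / Qz z) (fun i => r + Qz z * i) ?_ ?_ ?_ ?_ ?_
  · intro D hD
    simp only [DD, Finset.mem_filter, Finset.mem_Ioc] at hD
    obtain ⟨⟨h1, h2⟩, h3⟩ := hD
    have h4 := Nat.div_add_mod D (Qz z)
    rw [Finset.mem_Ico]
    constructor
    · rw [Nat.succ_le_iff, Nat.div_lt_iff_lt_mul hQ]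
      have : Qz z * (D / Qz z) = D - r := by omega
      rw [mul_comm, this]; omega
    · rw [Nat.lt_succ_iff, Nat.le_div_iff_mul_le hQ]
      have : Qz z * (D / Qz z) = D - r := by omega
      rw [mul_comm, this]; omega
  · intro i hi
    rw [Finset.mem_Ico] at hi
    obtain ⟨h1, h2⟩ := hi
    rw [Nat.succ_le_iff, Nat.div_lt_iff_lt_mul hQ] at h1
    rw [Nat.lt_succ_iff, Nat.le_div_iff_mul_le hQ] at h2
    rw [mul_comm] at h1 h2
    simp only [DD, Finset.mem_filter, Finset.mem_Ioc]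
    refine ⟨⟨by omega, by omega⟩, ?_⟩
    rw [Nat.add_mul_mod_self_left, Nat.mod_eq_of_lt hr]
  · intro D hD
    simp only [DD, Finset.mem_filter, Finset.mem_Ioc] at hD
    have h4 := Nat.div_add_mod D (Qz z)
    omega
  · intro i _
    rw [Nat.add_mul_div_left _ _ hQ, Nat.div_eq_of_lt hr, zero_add]
  · intro D hD
    simp only [DD, Finset.mem_filter, Finset.mem_Ioc] at hD
    have h4 := Nat.div_add_mod D (Qz z)
    congr 1
    omega

lemma DD_card (z r X : ℕ) (η : ℝ) (hr : r < Qz z) (hX : Qz z ≤ X) (hη : 0 < η) :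
    ((DD z r X η).card : ℝ) ≤ η * X / Qz z + 1 := by
  have hQ : 0 < Qz z := lt_of_le_of_lt (Nat.zero_le _) hr
  have hQR : (0 : ℝ) < Qz z := by exact_mod_cast hQ
  have h1 := DD_sum z r X η hr hX hη (fun _ => 1)
  simp only [Finset.sum_const, nsmul_eq_mul, mul_one, Nat.card_Ico] at h1
  have h2 : (DD z r X η).card = (⌊(1 + η) * X⌋₊ - r) / Qz z + 1 - ((X - r) / Qz z + 1) := by
    exact_mod_cast h1
  rw [h2]
  have hM : X ≤ ⌊(1 + η) * X⌋₊ := by
    apply Nat.le_floor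
    have : (0 : ℝ) ≤ X := Nat.cast_nonneg _
    nlinarith
  have hMle : (⌊(1 + η) * X⌋₊ : ℝ) ≤ (1 + η) * X := Nat.floor_le (by positivity)
  set M := ⌊(1 + η) * X⌋₊ with hMdef
  have h3 : (((M - r) / Qz z : ℕ) : ℝ) ≤ ((M : ℝ) - r) / Qz z := by
    have := @Nat.cast_div_le ℝ _ _ _ (M - r) (Qz z)
    rw [Nat.cast_sub (by omega)] at this
    exact this
  have h4 : ((X : ℝ) - r) / Qz z < (((X - r) / Qz z : ℕ) : ℝ) + 1 := by
    rw [div_lt_iff₀ hQR]
    have h5 := Nat.lt_mul_div_succ (X - r) hQ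
    have h6 : (((X - r : ℕ)) : ℝ) < (Qz z : ℝ) * ((((X - r) / Qz z : ℕ) : ℝ) + 1) := by
      exact_mod_cast h5
    rw [Nat.cast_sub (by omega)] at h6
    linarith
  have h5 : ((M - r) / Qz z + 1 - ((X - r) / Qz z + 1) : ℕ) ≤ (M - r) / Qz z - (X - r) / Qz z := by
    omega
  have h6 : (X - r) / Qz z ≤ (M - r) / Qz z := Nat.div_le_div_right (by omega)
  calc (((M - r) / Qz z + 1 - ((X - r) / Qz z + 1) : ℕ) : ℝ)
      ≤ (((M - r) / Qz z - (X - r) / Qz z : ℕ) : ℝ) := by exact_mod_cast h5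
    _ = (((M - r) / Qz z : ℕ) : ℝ) - (((X - r) / Qz z : ℕ) : ℝ) := by
        rw [Nat.cast_sub h6]
    _ ≤ ((M : ℝ) - r) / Qz z - (((X : ℝ) - r) / Qz z - 1) := by linarith
    _ = ((M : ℝ) - X) / Qz z + 1 := by ring
    _ ≤ η * X / Qz z + 1 := by
        gcongr
        linarith

lemma jac_abs (a : ℤ) (n : ℕ) : |jacobiSym a n| ≤ 1 := by
  rcases jacobiSym.trichotomy a n with h | h | h <;> rw [h] <;> simp

/-- cross terms -/
lemma cross (z r X : ℕ) (η : ℝ) (hr : r < Qz z) (hX : Qz z ≤ X) (hη : 0 < η)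
    {p q : ℕ} (hp : p.Prime) (hq : q.Prime) (hpq : p ≠ q) (hq2 : q ≠ 2) (hqQ : ¬ q ∣ Qz z) :
    |∑ D ∈ DD z r X η, jacobiSym (D : ℤ) p * jacobiSym (D : ℤ) q| ≤ (p * q : ℕ) := by
  rw [DD_sum z r X η hr hX hη (fun D => jacobiSym (D : ℤ) p * jacobiSym (D : ℤ) q)]
  refine interval_bound (fun i => jacobiSym ((r + Qz z * i : ℕ) : ℤ) p *
    jacobiSym ((r + Qz z * i : ℕ) : ℤ) q) (p * q) (Nat.mul_pos hp.pos hq.pos) ?_
    (period_sum hp hq hpq hq2 r (Qz z) hqQ) ?_ _ _ _ le_rfl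
  · intro i
    have h1 : jacobiSym ((r + Qz z * (i + p * q) : ℕ) : ℤ) p = jacobiSym ((r + Qz z * i : ℕ) : ℤ) p := by
      apply jacobiSym.mod_left'
      push_cast
      rw [show (r : ℤ) + Qz z * (i + p * q) = (r + Qz z * i) + p * (Qz z * q) by ring]
      exact Int.add_mul_emod_self_left _ _ _
    have h2 : jacobiSym ((r + Qz z * (i + p * q) : ℕ) : ℤ) q = jacobiSym ((r + Qz z * i : ℕ) : ℤ) q := by
      apply jacobiSym.mod_left'
      push_cast
      rw [show (r : ℤ) + Qz z * (i + p * q) = (r + Qz z * i) + q * (Qz z * p) by ring]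
      exact Int.add_mul_emod_self_left _ _ _
    simp only [h1, h2]
  · intro i
    rw [abs_mul]
    calc |jacobiSym ((r + Qz z * i : ℕ) : ℤ) p| * |jacobiSym ((r + Qz z * i : ℕ) : ℤ) q| ≤ 1 * 1 := by
          gcongr
          · exact jac_abs _ _
          · exact jac_abs _ _
      _ = 1 := one_mul _

/-! ## Second moment -/

/-- the sum over the primes -/
def TT (P : Finset ℕ) (D : ℕ) : ℤ := ∑ p ∈ P, jacobiSym (D : ℤ) p

lemma second_moment (z r X : ℕ) (η : ℝ) (hr : r < Qz z) (hX : Qz z ≤ X) (hη : 0 < η)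
    (P : Finset ℕ) (hP : ∀ p ∈ P, p.Prime ∧ p ≠ 2 ∧ ¬ p ∣ Qz z) (B : ℕ) (hB : ∀ p ∈ P, p ≤ B) :
    ∑ D ∈ DD z r X η, (TT P D) ^ 2 ≤
      (P.card : ℤ) * (DD z r X η).card + (P.card : ℤ) ^ 2 * (B : ℤ) ^ 2 := by
  have h1 : ∀ D : ℕ, (TT P D) ^ 2 = ∑ p ∈ P, ∑ q ∈ P, jacobiSym (D : ℤ) p * jacobiSym (D : ℤ) q := by
    intro D
    rw [TT, sq, Finset.sum_mul_sum]
  have h2 : ∑ D ∈ DD z r X η, (TT P D) ^ 2 =
      ∑ p ∈ P, ∑ q ∈ P, ∑ D ∈ DD z r X η, jacobiSym (D : ℤ) p * jacobiSym (D : ℤ) q := by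
    rw [Finset.sum_congr rfl (fun D _ => h1 D), Finset.sum_comm]
    refine Finset.sum_congr rfl fun p _ => ?_
    rw [Finset.sum_comm]
  rw [h2]
  have h3 : ∀ p ∈ P, ∀ q ∈ P, ∑ D ∈ DD z r X η, jacobiSym (D : ℤ) p * jacobiSym (D : ℤ) q ≤
      (if p = q then ((DD z r X η).card : ℤ) else 0) + (B : ℤ) ^ 2 := by
    intro p hp q hq
    by_cases hpq : p = q
    · subst hpq
      rw [if_pos rfl]
      have h4 : ∑ D ∈ DD z r X η, jacobiSym (D : ℤ) p * jacobiSym (D : ℤ) p ≤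
          ∑ D ∈ DD z r X η, 1 := by
        refine Finset.sum_le_sum fun D _ => ?_
        rcases jacobiSym.trichotomy (D : ℤ) p with h | h | h <;> rw [h] <;> simp
      have h5 : ∑ D ∈ DD z r X η, (1 : ℤ) = ((DD z r X η).card : ℤ) := by simp
      have h6 : (0 : ℤ) ≤ (B : ℤ) ^ 2 := by positivity
      linarith
    · rw [if_neg hpq, zero_add]
      have h4 := cross z r X η hr hX hη (hP p hp).1 (hP q hq).1 hpq (hP q hq).2.1 (hP q hq).2.2
      have h5 := le_of_abs_le h4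
      have h6 : ((p * q : ℕ) : ℤ) ≤ (B : ℤ) ^ 2 := by
        rw [sq]
        exact_mod_cast Nat.mul_le_mul (hB p hp) (hB q hq)
      linarith
  calc ∑ p ∈ P, ∑ q ∈ P, ∑ D ∈ DD z r X η, jacobiSym (D : ℤ) p * jacobiSym (D : ℤ) q
      ≤ ∑ p ∈ P, ∑ q ∈ P, ((if p = q then ((DD z r X η).card : ℤ) else 0) + (B : ℤ) ^ 2) :=
        Finset.sum_le_sum fun p hp => Finset.sum_le_sum fun q hq => h3 p hp q hq
    _ = ∑ p ∈ P, (((DD z r X η).card : ℤ) + P.card * (B : ℤ) ^ 2) := by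
        refine Finset.sum_congr rfl fun p hp => ?_
        rw [Finset.sum_add_distrib, Finset.sum_ite_eq, if_pos hp]
        simp
    _ = (P.card : ℤ) * (DD z r X η).card + (P.card : ℤ) ^ 2 * (B : ℤ) ^ 2 := by
        rw [Finset.sum_const, nsmul_eq_mul]; ring

lemma chebyshev (z r X : ℕ) (η : ℝ) (hr : r < Qz z) (hX : Qz z ≤ X) (hη : 0 < η)
    (P : Finset ℕ) (hP : ∀ p ∈ P, p.Prime ∧ p ≠ 2 ∧ ¬ p ∣ Qz z) (B : ℕ) (hB : ∀ p ∈ P, p ≤ B)
    (θ : ℝ) (hθ : 0 < θ) :
    (((DD z r X η).filter (fun D => θ ≤ |(TT P D : ℝ)|)).card : ℝ) * θ ^ 2 ≤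
      (P.card : ℝ) * (η * X / Qz z + 1) + (P.card : ℝ) ^ 2 * (B : ℝ) ^ 2 := by
  have h1 := second_moment z r X η hr hX hη P hP B hB
  have h2 : ∑ D ∈ DD z r X η, (TT P D : ℝ) ^ 2 ≤
      (P.card : ℝ) * (DD z r X η).card + (P.card : ℝ) ^ 2 * (B : ℝ) ^ 2 := by
    exact_mod_cast h1
  have h3 := DD_card z r X η hr hX hη
  calc (((DD z r X η).filter (fun D => θ ≤ |(TT P D : ℝ)|)).card : ℝ) * θ ^ 2
      = ∑ D ∈ (DD z r X η).filter (fun D => θ ≤ |(TT P D : ℝ)|), θ ^ 2 := by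
        rw [Finset.sum_const, nsmul_eq_mul]
    _ ≤ ∑ D ∈ (DD z r X η).filter (fun D => θ ≤ |(TT P D : ℝ)|), (TT P D : ℝ) ^ 2 := by
        refine Finset.sum_le_sum fun D hD => ?_
        have := (Finset.mem_filter.1 hD).2
        rw [← sq_abs (TT P D : ℝ)]
        exact pow_le_pow_left₀ hθ.le this 2
    _ ≤ ∑ D ∈ DD z r X η, (TT P D : ℝ) ^ 2 :=
        Finset.sum_le_sum_of_subset_of_nonneg (Finset.filter_subset _ _) fun _ _ _ => sq_nonneg _
    _ ≤ _ := h2
    _ ≤ _ := by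
        have h4 : (0 : ℝ) ≤ P.card := Nat.cast_nonneg _
        nlinarith

/-! ## Lower bound for `MD` -/

lemma MD_lower (P : Finset ℕ) (hP : ∀ p ∈ P, p.Prime ∧ p ≠ 2) (k D : ℕ) :
    (2 : ℝ) ^ k * ((P.filter (fun p => jacobiSym (D : ℤ) p = 1)).card.choose k : ℝ) ≤
      MD D (P.powersetCard k) (fun _ => 1) := by
  unfold MD
  have h0 : ∀ s ∈ P.powersetCard k, (0 : ℝ) ≤ 1 * ∏ p ∈ s, (1 + (chi D p : ℝ)) := by
    intro s hs
    rw [one_mul]
    refine Finset.prod_nonneg fun p hp => ?_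
    have hpP := (Finset.mem_powersetCard.1 hs).1 hp
    rw [chi_prime _ (hP p hpP).1 (hP p hpP).2]
    have := neg_le_of_abs_le (jac_abs (D : ℤ) p)
    have h : (-1 : ℝ) ≤ (jacobiSym (D : ℤ) p : ℝ) := by exact_mod_cast this
    linarith
  set P1 := P.filter (fun p => jacobiSym (D : ℤ) p = 1) with hP1
  have hsub : P1.powersetCard k ⊆ P.powersetCard k :=
    Finset.powersetCard_mono (Finset.filter_subset _ _)
  calc (2 : ℝ) ^ k * (P1.card.choose k : ℝ) = ∑ s ∈ P1.powersetCard k, (2 : ℝ) ^ k := by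
        rw [Finset.sum_const, Finset.card_powersetCard, nsmul_eq_mul, mul_comm]
    _ = ∑ s ∈ P1.powersetCard k, 1 * ∏ p ∈ s, (1 + (chi D p : ℝ)) := by
        refine Finset.sum_congr rfl fun s hs => ?_
        rw [one_mul]
        have h1 : ∀ p ∈ s, (1 + (chi D p : ℝ)) = 2 := by
          intro p hp
          have h2 := (Finset.mem_powersetCard.1 hs).1 hp
          rw [hP1, Finset.mem_filter] at h2
          rw [chi_prime _ (hP p h2.1).1 (hP p h2.1).2, h2.2]
          norm_num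
        rw [Finset.prod_congr rfl h1, Finset.prod_const, (Finset.mem_powersetCard.1 hs).2]
    _ ≤ ∑ s ∈ P.powersetCard k, 1 * ∏ p ∈ s, (1 + (chi D p : ℝ)) :=
        Finset.sum_le_sum_of_subset_of_nonneg hsub fun s hs _ => h0 s hs

lemma key_choose (S k n : ℕ) (x : ℝ) (hx1 : x ≤ 1)
    (h : (1 - x) * n ≤ 2 * ((S : ℝ) - k)) :
    (1 - k * x) * (n.choose k : ℝ) ≤ 2 ^ k * (S.choose k : ℝ) := by
  rcases le_or_gt (1 - k * x) 0 with hneg | hpos
  · have h1 : (1 - k * x) * (n.choose k : ℝ) ≤ 0 :=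
      mul_nonpos_of_nonpos_of_nonneg hneg (Nat.cast_nonneg _)
    have h2 : (0 : ℝ) ≤ 2 ^ k * (S.choose k : ℝ) := by positivity
    linarith
  · have hb : 1 - k * x ≤ (1 - x) ^ k := by
      have := one_add_mul_le_pow (a := -x) (by linarith) k
      calc 1 - k * x = 1 + k * (-x) := by ring
        _ ≤ (1 + -x) ^ k := this
        _ = (1 - x) ^ k := by ring
    have hfac : (0 : ℝ) < (k.factorial : ℝ) := by exact_mod_cast Nat.factorial_pos k
    have h1 : ((k.factorial : ℝ)) * (n.choose k : ℝ) ≤ (n : ℝ) ^ k := by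
      have := Nat.descFactorial_le_pow n k
      rw [Nat.descFactorial_eq_factorial_mul_choose] at this
      exact_mod_cast this
    have h2 : (((S + 1 - k : ℕ)) : ℝ) ^ k ≤ (k.factorial : ℝ) * (S.choose k : ℝ) := by
      have := Nat.pow_sub_le_descFactorial S k
      rw [Nat.descFactorial_eq_factorial_mul_choose] at this
      exact_mod_cast this
    have h3 : (1 - x) * n ≤ 2 * (((S + 1 - k : ℕ)) : ℝ) := by
      have h4 : (S : ℝ) - k ≤ (((S + 1 - k : ℕ)) : ℝ) := by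
        have : S ≤ (S + 1 - k) + k := by omega
        have h5 : (S : ℝ) ≤ (((S + 1 - k : ℕ)) : ℝ) + k := by exact_mod_cast this
        linarith
      linarith
    have h4 : ((1 - x) * n) ^ k ≤ (2 * (((S + 1 - k : ℕ)) : ℝ)) ^ k := by
      apply pow_le_pow_left₀ _ h3
      have : (0 : ℝ) ≤ 1 - x := by linarith
      positivity
    rw [mul_pow, mul_pow] at h4
    have h5 : (k.factorial : ℝ) * ((1 - k * x) * (n.choose k : ℝ)) ≤
        (k.factorial : ℝ) * (2 ^ k * (S.choose k : ℝ)) := by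
      calc (k.factorial : ℝ) * ((1 - k * x) * (n.choose k : ℝ))
          = (1 - k * x) * ((k.factorial : ℝ) * (n.choose k : ℝ)) := by ring
        _ ≤ (1 - k * x) * (n : ℝ) ^ k := by gcongr
        _ ≤ (1 - x) ^ k * (n : ℝ) ^ k := by gcongr
        _ ≤ 2 ^ k * (((S + 1 - k : ℕ)) : ℝ) ^ k := h4
        _ ≤ 2 ^ k * ((k.factorial : ℝ) * (S.choose k : ℝ)) := by gcongr
        _ = _ := by ring
    exact le_of_mul_le_mul_left h5 hfac

/-- few primes of `P` divide `D` -/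
lemma ramified (P : Finset ℕ) (y D : ℕ) (hP : ∀ p ∈ P, p.Prime ∧ y < p) (hD : 0 < D) :
    y ^ (P.filter (fun p => jacobiSym (D : ℤ) p = 0)).card ≤ D := by
  set P0 := P.filter (fun p => jacobiSym (D : ℤ) p = 0) with hP0
  have h1 : ∏ p ∈ P0, p ∣ D := by
    apply Finset.prod_primes_dvd
    · intro p hp
      exact (hP p (Finset.mem_filter.1 hp).1).1.prime
    · intro p hp
      obtain ⟨hpP, hj⟩ := Finset.mem_filter.1 hp
      have hpp := (hP p hpP).1
      rw [jacobiSym.eq_zero_iff] at hj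
      have h2 : Nat.gcd D p ≠ 1 := by
        have := hj.2
        simpa [Int.gcd] using this
      by_contra hnd
      exact h2 (Nat.Coprime.symm ((Nat.Prime.coprime_iff_not_dvd hpp).2 hnd))
  calc y ^ P0.card = ∏ p ∈ P0, y := by rw [Finset.prod_const]
    _ ≤ ∏ p ∈ P0, p := Finset.prod_le_prod' fun p hp => (hP p (Finset.mem_filter.1 hp).1).2.le
    _ ≤ D := Nat.le_of_dvd hD h1

lemma split_count (P : Finset ℕ) (D : ℕ) :
    2 * ((P.filter (fun p => jacobiSym (D : ℤ) p = 1)).card : ℤ) =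
      P.card - (P.filter (fun p => jacobiSym (D : ℤ) p = 0)).card + TT P D := by
  have h1 : ((P.filter (fun p => jacobiSym (D : ℤ) p = 1)).card : ℤ) =
      ∑ p ∈ P, if jacobiSym (D : ℤ) p = 1 then 1 else 0 := by
    rw [Finset.card_filter]; push_cast; rfl
  have h2 : ((P.filter (fun p => jacobiSym (D : ℤ) p = 0)).card : ℤ) =
      ∑ p ∈ P, if jacobiSym (D : ℤ) p = 0 then 1 else 0 := by
    rw [Finset.card_filter]; push_cast; rfl
  have h3 : (P.card : ℤ) = ∑ p ∈ P, 1 := by simp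
  rw [h1, h2, h3, TT, Finset.mul_sum, ← Finset.sum_sub_distrib, ← Finset.sum_add_distrib]
  refine Finset.sum_congr rfl fun p _ => ?_
  rcases jacobiSym.trichotomy (D : ℤ) p with h | h | h <;> rw [h] <;> norm_num

lemma log_le_sqrt' {y : ℝ} (hy : 0 < y) : Real.log y ≤ √y := by
  have h1 : (√(√y)) ^ 2 = √y := Real.sq_sqrt (Real.sqrt_nonneg _)
  have h2 : (√y) ^ 2 = y := Real.sq_sqrt hy.le
  have h3 : 0 < √y := Real.sqrt_pos.2 hy
  have h4 : 0 < √(√y) := Real.sqrt_pos.2 h3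
  have h5 : Real.log y = 4 * Real.log (√(√y)) := by
    have : y = (√(√y)) ^ 4 := by
      calc y = (√y) ^ 2 := h2.symm
        _ = ((√(√y)) ^ 2) ^ 2 := by rw [h1]
        _ = _ := by ring
    calc Real.log y = Real.log ((√(√y)) ^ 4) := by rw [← this]
      _ = 4 * Real.log (√(√y)) := by rw [Real.log_pow]; norm_num
  have h6 := Real.log_le_sub_one_of_pos h4
  nlinarith [sq_nonneg (√(√y) - 2)]

/-- numerical facts for large `X` -/
lemma facts (z r : ℕ) (hr : r < Qz z) (η : ℝ) (hη : 0 < η) (ε : ℝ) (hε : 0 < ε) (y0 : ℕ) :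
    ∀ᶠ X : ℕ in atTop, Qz z ≤ X ∧ 2 ≤ X ∧ y0 ≤ yy X ∧ z ≤ yy X ∧ 2 ≤ yy X ∧
      1 ≤ Real.log (yy X) ∧ 3 ≤ Real.log X ∧ (kk X : ℝ) ≤ Real.log X ∧
      (Real.log X) ^ 3 / 4 ≤ √(yy X : ℝ) ∧ 160 / ε ^ 3 ≤ Real.log X ∧ 80 / (3 * ε) ≤ Real.log X ∧
      1 + 4 * (yy X : ℝ) ^ 3 ≤ η * X / Qz z := by
  have hQ : 0 < Qz z := lt_of_le_of_lt (Nat.zero_le _) hr
  have hQR : (0 : ℝ) < Qz z := by exact_mod_cast hQ
  set c : ℝ := η / Qz z with hc
  have hcpos : 0 < c := div_pos hη hQR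
  have hlog : Tendsto (fun X : ℕ => Real.log X) atTop atTop :=
    Real.tendsto_log_atTop.comp tendsto_natCast_atTop_atTop
  have hlit : ∀ᶠ X : ℕ in atTop, (Real.log X) ^ 18 ≤ (c / 2) * X := by
    have h1 := (Real.isLittleO_pow_log_id_atTop (n := 18)).comp_tendsto
      (tendsto_natCast_atTop_atTop (R := ℝ))
    have h2 := h1.def (half_pos hcpos)
    filter_upwards [h2, eventually_ge_atTop 1] with X hX h1X
    simp only [Function.comp_apply, id_eq, norm_pow, Real.norm_eq_abs, Nat.abs_cast] at hX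
    have hL : 0 ≤ Real.log (X : ℝ) := Real.log_natCast_nonneg X
    rwa [abs_of_nonneg hL] at hX
  filter_upwards [hlit, hlog.eventually_ge_atTop (3 + (y0 : ℝ) + z + 160 / ε ^ 3 + 80 / (3 * ε)),
    eventually_ge_atTop (Qz z), eventually_ge_atTop 2, eventually_ge_atTop ⌈2 / c⌉₊] with
    X h18 hL hXQ hX2 hXc
  have e1 : (0 : ℝ) ≤ y0 := Nat.cast_nonneg _
  have e2 : (0 : ℝ) ≤ z := Nat.cast_nonneg _
  have e3 : 0 < 160 / ε ^ 3 := by positivity
  have e4 : 0 < 80 / (3 * ε) := by positivity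
  set L := Real.log (X : ℝ) with hLdef
  have hL3 : 3 ≤ L := by linarith
  have hyle : (yy X : ℝ) ≤ L ^ 6 / 4 := by
    unfold yy
    exact Nat.floor_le (by positivity)
  have hygt : L ^ 6 / 4 < (yy X : ℝ) + 1 := by
    unfold yy
    exact Nat.lt_floor_add_one _
  have hL6 : L * 243 ≤ L ^ 6 := by
    have h1 : (3 : ℝ) ^ 5 ≤ L ^ 5 := pow_le_pow_left₀ (by norm_num) hL3 5
    calc L * 243 = L * 3 ^ 5 := by norm_num
      _ ≤ L * L ^ 5 := by gcongr
      _ = L ^ 6 := by ring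
  have hyge : L ^ 6 / 16 ≤ (yy X : ℝ) := by nlinarith
  have hyL : L ≤ (yy X : ℝ) := by nlinarith
  have hy3 : (3 : ℝ) ≤ (yy X : ℝ) := hL3.trans hyL
  have hlogy : 1 ≤ Real.log (yy X) := by
    rw [Real.le_log_iff_exp_le (by linarith)]
    have := Real.exp_one_lt_d9
    linarith
  refine ⟨hXQ, hX2, ?_, ?_, ?_, hlogy, hL3, ?_, ?_, ?_, ?_, ?_⟩
  · have : (y0 : ℝ) ≤ (yy X : ℝ) := by linarith
    exact_mod_cast this
  · have : (z : ℝ) ≤ (yy X : ℝ) := by linarith
    exact_mod_cast this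
  · have : (2 : ℝ) ≤ (yy X : ℝ) := by linarith
    exact_mod_cast this
  · unfold kk
    push_cast
    have h1 : (0 : ℝ) ≤ (13 / 20 : ℝ) * Real.log X / Real.log (yy X) := by
      apply div_nonneg _ (by linarith)
      apply mul_nonneg (by norm_num) (by linarith)
    have h2 := Nat.floor_le h1
    have h3 : (13 / 20 : ℝ) * Real.log X / Real.log (yy X) ≤ (13 / 20 : ℝ) * Real.log X := by
      apply div_le_self _ hlogy
      apply mul_nonneg (by norm_num) (by linarith)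
    rw [← hLdef] at h2 h3
    linarith
  · apply Real.le_sqrt_of_sq_le
    calc (L ^ 3 / 4) ^ 2 = L ^ 6 / 16 := by ring
      _ ≤ _ := hyge
  · linarith
  · linarith
  · have h1 : (yy X : ℝ) ^ 3 ≤ (L ^ 6 / 4) ^ 3 := pow_le_pow_left₀ (Nat.cast_nonneg _) hyle 3
    have h2 : (L ^ 6 / 4) ^ 3 = L ^ 18 / 64 := by ring
    have h3 : 2 / c ≤ X := by
      calc 2 / c ≤ (⌈2 / c⌉₊ : ℝ) := Nat.le_ceil _
        _ ≤ X := by exact_mod_cast hXc
    have h4 : 2 ≤ c * X := by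
      rw [div_le_iff₀ hcpos] at h3; linarith
    have h5 : η * X / Qz z = c * X := by rw [hc]; ring
    rw [h5]
    have h6 : L ^ 18 / 64 ≤ (c / 2 * X) / 64 := by gcongr
    have h7 : 0 ≤ c * X := by positivity
    nlinarith

lemma main (hNB : P_NB) (z r : ℕ) (hr : r < Qz z) (η : ℝ) (hη : 0 < η) (hη1 : η ≤ 1)
    (ε : ℝ) (hε : 0 < ε) (hε1 : ε ≤ 1) : ∀ᶠ X : ℕ in atTop,
    (((DD z r X η).filter (fun D => MD D (SX X) (fun _ => 1) < (1 - ε) * NX X)).card : ℝ) ≤
      ε * (η * X / Qz z) := by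
  obtain ⟨_, y0, hy0⟩ := hNB
  filter_upwards [facts z r hr η hη ε hε y0] with X hX
  obtain ⟨hXQ, hX2, hyy0, hyz, hy2, hlogy, hL3, hkL, hsq, hL160, hL80, hW⟩ := hX
  have hQ : 0 < Qz z := lt_of_le_of_lt (Nat.zero_le _) hr
  have hQR : (0 : ℝ) < Qz z := by exact_mod_cast hQ
  set L := Real.log (X : ℝ) with hLdef
  set y := yy X with hy
  set k := kk X with hk
  set P := PX X with hPdef
  have hk1 : (1 : ℝ) ≤ k := by
    have : 1 ≤ k := by rw [hk]; unfold kk; omega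
    exact_mod_cast this
  have hmem : ∀ p ∈ P, p.Prime ∧ y < p ∧ p ≤ 2 * y := by
    intro p hp
    simp only [hPdef, PX, PP, Finset.mem_filter, Finset.mem_Ioc] at hp
    exact ⟨hp.2, hp.1.1, hp.1.2⟩
  have hnd : ∀ p ∈ P, ¬ p ∣ Qz z := by
    intro p hp hdvd
    obtain ⟨hpp, hpy, _⟩ := hmem p hp
    unfold Qz at hdvd
    rcases (Nat.Prime.dvd_mul hpp).1 hdvd with h | h
    · have h2 : p ∣ 2 := by
        have : p ∣ 2 ^ 4 := by simpa using h
        exact hpp.dvd_of_dvd_pow this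
      have := Nat.le_of_dvd (by norm_num) h2
      omega
    · obtain ⟨l, hl, hpl⟩ := (Prime.dvd_finsetProd_iff hpp.prime _).1 h
      have hl' := (Finset.mem_filter.1 hl).1
      rw [Finset.mem_Icc] at hl'
      have h2 : p ∣ l := hpp.dvd_of_dvd_pow hpl
      have := Nat.le_of_dvd (by omega) h2
      omega
  have hcardP : P.card ≤ y := by
    calc P.card ≤ (Finset.Ioc y (2 * y)).card := Finset.card_filter_le _ _
      _ = y := by rw [Nat.card_Ioc]; omega
  have hyR : (0 : ℝ) < y := by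
    have : (2 : ℝ) ≤ (y : ℝ) := by exact_mod_cast hy2
    linarith
  have hpi : L ^ 3 / 5 ≤ (P.card : ℝ) := by
    have h1 := (hy0 y hyy0).1
    have h2 : (9 / 10 : ℝ) * √(y : ℝ) ≤ (9 / 10 : ℝ) * y / Real.log y := by
      rw [le_div_iff₀ (by linarith)]
      have h3 := log_le_sqrt' hyR
      have h4 : √(y : ℝ) * √(y : ℝ) = y := Real.mul_self_sqrt hyR.le
      have h5 : 0 ≤ √(y : ℝ) := Real.sqrt_nonneg _
      nlinarith
    have h3 : (P.card : ℝ) = ((PP y).card : ℝ) := rfl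
    rw [h3]
    have h4 : 0 ≤ L ^ 3 := by positivity
    linarith
  have hpipos : (0 : ℝ) < P.card := by
    have : 0 < L ^ 3 / 5 := by positivity
    linarith
  set W := η * X / Qz z with hWdef
  have hWpos : 0 < W := by
    have : (0 : ℝ) ≤ (y : ℝ) ^ 3 := by positivity
    linarith
  set θ : ℝ := P.card * ε / (4 * k) with hθ
  have hθpos : 0 < θ := by positivity
  -- the bad set
  have hcheb := chebyshev z r X η hr hXQ hη P (fun p hp => ⟨(hmem p hp).1, by
    have := (hmem p hp).2.1; omega, hnd p hp⟩) (2 * y) (fun p hp => (hmem p hp).2.2) θ hθpos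
  have htot : (P.card : ℝ) * (η * X / Qz z + 1) + (P.card : ℝ) ^ 2 * ((2 * y : ℕ) : ℝ) ^ 2 ≤
      2 * P.card * W := by
    rw [← hWdef]
    push_cast
    have h1 : (P.card : ℝ) ≤ y := by exact_mod_cast hcardP
    have h2 : (P.card : ℝ) * (y : ℝ) ^ 2 ≤ (y : ℝ) ^ 3 := by
      calc (P.card : ℝ) * (y : ℝ) ^ 2 ≤ y * (y : ℝ) ^ 2 := by gcongr
        _ = _ := by ring
    have h3 : 1 + 4 * ((P.card : ℝ) * (y : ℝ) ^ 2) ≤ W := by linarith
    nlinarith
  have hbadcard : (((DD z r X η).filter (fun D => θ ≤ |(TT P D : ℝ)|)).card : ℝ) ≤ ε * W := by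
    set b : ℝ := (((DD z r X η).filter (fun D => θ ≤ |(TT P D : ℝ)|)).card : ℝ) with hb
    have h1 : b * θ ^ 2 ≤ 2 * P.card * W := hcheb.trans htot
    have h2 : 32 * (k : ℝ) ^ 2 ≤ ε ^ 3 * P.card := by
      have h3 : 160 ≤ L * ε ^ 3 := by
        rw [div_le_iff₀ (by positivity)] at hL160; exact hL160
      have h4 : (k : ℝ) ^ 2 ≤ L ^ 2 := pow_le_pow_left₀ (by linarith) hkL 2
      have h5 : ε ^ 3 * (L ^ 3 / 5) ≤ ε ^ 3 * P.card := by gcongr
      have h6 : 32 * L ^ 2 ≤ ε ^ 3 * (L ^ 3 / 5) := by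
        have : 160 * L ^ 2 ≤ (L * ε ^ 3) * L ^ 2 := by gcongr
        nlinarith
      linarith
    have h3 : b * θ ^ 2 = b * ((P.card : ℝ) ^ 2 * ε ^ 2) / (16 * (k : ℝ) ^ 2) := by
      rw [hθ]; field_simp; ring
    rw [h3, div_le_iff₀ (by positivity)] at h1
    have h4 : b * (P.card : ℝ) * ε ^ 2 ≤ ε ^ 3 * P.card * W := by
      have h5 : (P.card : ℝ) * (b * (P.card : ℝ) * ε ^ 2) ≤
          (P.card : ℝ) * (32 * (k : ℝ) ^ 2 * W) := by
        calc (P.card : ℝ) * (b * (P.card : ℝ) * ε ^ 2) = b * ((P.card : ℝ) ^ 2 * ε ^ 2) := by ring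
          _ ≤ 2 * P.card * W * (16 * (k : ℝ) ^ 2) := h1
          _ = _ := by ring
      have h6 := le_of_mul_le_mul_left h5 hpipos
      have h7 : 32 * (k : ℝ) ^ 2 * W ≤ ε ^ 3 * P.card * W := by gcongr
      linarith
    have h5 : ((P.card : ℝ) * ε ^ 2) * b ≤ ((P.card : ℝ) * ε ^ 2) * (ε * W) := by
      calc ((P.card : ℝ) * ε ^ 2) * b = b * (P.card : ℝ) * ε ^ 2 := by ring
        _ ≤ ε ^ 3 * P.card * W := h4
        _ = _ := by ring
    exact le_of_mul_le_mul_left h5 (by positivity)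
  refine le_trans ?_ hbadcard
  have hsub : (DD z r X η).filter (fun D => MD D (SX X) (fun _ => 1) < (1 - ε) * NX X) ⊆
      (DD z r X η).filter (fun D => θ ≤ |(TT P D : ℝ)|) := by
    intro D hD
    rw [Finset.mem_filter] at hD ⊢
    refine ⟨hD.1, ?_⟩
    by_contra hlt
    push Not at hlt
    have hDD := hD.1
    simp only [DD, Finset.mem_filter, Finset.mem_Ioc] at hDD
    have hDX : X < D := hDD.1.1
    have hDle : (D : ℝ) ≤ 2 * X := by
      have h1 : (D : ℝ) ≤ (⌊(1 + η) * X⌋₊ : ℝ) := by exact_mod_cast hDD.1.2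
      have h2 : (⌊(1 + η) * X⌋₊ : ℝ) ≤ (1 + η) * X := Nat.floor_le (by positivity)
      have h3 : (0 : ℝ) ≤ X := Nat.cast_nonneg _
      nlinarith
    apply absurd hD.2
    push Not
    set S := (P.filter (fun p => jacobiSym (D : ℤ) p = 1)).card with hS
    set R := (P.filter (fun p => jacobiSym (D : ℤ) p = 0)).card with hR
    have hcount := split_count P D
    rw [← hS, ← hR] at hcount
    have hcountR : 2 * (S : ℝ) = P.card - R + (TT P D : ℝ) := by exact_mod_cast hcount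
    have hram := ramified P y D (fun p hp => ⟨(hmem p hp).1, (hmem p hp).2.1⟩) (by omega)
    rw [← hR] at hram
    have hRL : (R : ℝ) ≤ 2 * L := by
      have h1 : ((y : ℝ)) ^ R ≤ (D : ℝ) := by exact_mod_cast hram
      have h2 : Real.log ((y : ℝ) ^ R) ≤ Real.log (2 * X) := by
        apply Real.log_le_log (by positivity)
        exact h1.trans hDle
      rw [Real.log_pow, Real.log_mul (by norm_num) (by positivity)] at h2
      have h3 : Real.log 2 ≤ 1 := by
        have := Real.log_two_lt_d9; linarith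
      have h4 : (R : ℝ) * 1 ≤ R * Real.log y := by gcongr
      rw [← hLdef] at h2
      linarith
    set x : ℝ := (R + 2 * k + θ) / P.card with hx
    have hkx : k * x ≤ ε := by
      have h1 : k * x = k * (R + 2 * k) / P.card + ε / 4 := by
        rw [hx, hθ]; field_simp
      rw [h1]
      have h2 : k * (R + 2 * k) / P.card ≤ 3 * ε / 4 := by
        rw [div_le_iff₀ hpipos]
        have h3 : (k : ℝ) * (R + 2 * k) ≤ L * (2 * L + 2 * L) := by gcongr
        have h4 : 80 ≤ L * (3 * ε) := by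
          rw [div_le_iff₀ (by positivity)] at hL80; exact hL80
        have h5 : 3 * ε / 4 * (L ^ 3 / 5) ≤ 3 * ε / 4 * P.card := by gcongr
        have h6 : 80 * L ^ 2 ≤ (L * (3 * ε)) * L ^ 2 := by gcongr
        nlinarith
      linarith
    have hx0 : 0 ≤ x := by positivity
    have hx1 : x ≤ 1 := by
      have : 1 * x ≤ k * x := by gcongr
      linarith
    have hTlow : -θ ≤ (TT P D : ℝ) := (abs_le.1 hlt.le).1
    have hcond : (1 - x) * (P.card : ℝ) ≤ 2 * ((S : ℝ) - k) := by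
      have h1 : (1 - x) * (P.card : ℝ) = P.card - (R + 2 * k + θ) := by
        rw [hx]; field_simp
      rw [h1]
      linarith
    have hkey := key_choose S k P.card x hx1 hcond
    have hMD := MD_lower P (fun p hp => ⟨(hmem p hp).1, by
      have := (hmem p hp).2.1; omega⟩) k D
    rw [← hS] at hMD
    have hNX : NX X = (P.card.choose k : ℝ) := rfl
    have hSX : SX X = P.powersetCard k := rfl
    rw [hNX, hSX]
    calc (1 - ε) * (P.card.choose k : ℝ) ≤ (1 - k * x) * (P.card.choose k : ℝ) := by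
          gcongr
      _ ≤ 2 ^ k * (S.choose k : ℝ) := hkey
      _ ≤ _ := hMD
  exact_mod_cast Finset.card_le_card hsub

end MLOWh

theorem T_MLOW : P_NB → P_MLOW := by
  intro hNB z r hr η hη hη1 ε hε
  set e := min ε 1 with he
  have he0 : 0 < e := lt_min hε one_pos
  have heε : e ≤ ε := min_le_left _ _
  obtain ⟨X0, hX0⟩ := eventually_atTop.1 (MLOWh.main hNB z r hr η hη hη1 e he0 (min_le_right _ _))
  refine ⟨X0, fun X hX => ?_⟩
  have h := hX0 X hX
  have hNX : 0 ≤ NX X := Nat.cast_nonneg _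
  have hsub : (DD z r X η).filter (fun D => MD D (SX X) (fun _ => 1) < (1 - ε) * NX X) ⊆
      (DD z r X η).filter (fun D => MD D (SX X) (fun _ => 1) < (1 - e) * NX X) := by
    intro D hD
    rw [Finset.mem_filter] at hD ⊢
    refine ⟨hD.1, lt_of_lt_of_le hD.2 ?_⟩
    gcongr
  calc (((DD z r X η).filter (fun D => MD D (SX X) (fun _ => 1) < (1 - ε) * NX X)).card : ℝ)
      ≤ (((DD z r X η).filter (fun D => MD D (SX X) (fun _ => 1) < (1 - e) * NX X)).card : ℝ) := by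
        exact_mod_cast Finset.card_le_card hsub
    _ ≤ e * (η * X / Qz z) := h
    _ ≤ ε * (η * X / Qz z) := by gcongr

end Pool.Agent.H38R2.CG
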