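import Pool.Agent.H52.V.S8.H38R2.CG.Stubs

/-! TB2: properties of `om` (helper903). -/

open Filter Topology

namespace Pool.Agent.H38R2.CG

namespace TB2h

theorem phi_nonneg (t : ℝ) : 0 ≤ phi t := le_max_left _ _

theorem phi_le_one (t : ℝ) : phi t ≤ 1 := by
  unfold phi
  exact max_le zero_le_one (by linarith [abs_nonneg t])

theorem phi_anti {s t : ℝ} (hs : 0 ≤ s) (hst : s ≤ t) : phi t ≤ phi s := by
  unfold phi
  rw [abs_of_nonneg hs, abs_of_nonneg (hs.trans hst)]
  exact max_le_max le_rfl (by linarith)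

theorem phi_cont : Continuous phi := by
  unfold phi
  fun_prop

/-- the integrand -/
noncomputable def F (n v x : ℝ) : ℝ :=
  phi (2 * Real.arsinh (v * √x / (2 * √n))) * (1 / 2) / √(4 * n + x * v ^ 2)

/-- a globally continuous version of the integrand -/
noncomputable def G (n v x : ℝ) : ℝ :=
  phi (2 * Real.arsinh (v * √x / (2 * √n))) * (1 / 2) / √(4 * n + max x 0 * v ^ 2)

theorem FG {n v x : ℝ} (hx : 0 ≤ x) : F n v x = G n v x := by
  unfold F G
  rw [max_eq_left hx]

theorem G_cont {n : ℝ} (hn : 0 < n) : Continuous (Function.uncurry (G n)) := by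
  unfold G Function.uncurry
  have h1 : Continuous fun a : ℝ × ℝ => phi (2 * Real.arsinh (a.1 * √a.2 / (2 * √n))) :=
    phi_cont.comp (continuous_const.mul (Real.continuous_arsinh.comp (by fun_prop)))
  refine (h1.mul continuous_const).div (by fun_prop) ?_
  intro a
  refine (Real.sqrt_pos.2 ?_).ne'
  have := mul_nonneg (le_max_right a.2 0) (sq_nonneg a.1)
  linarith

theorem swap (H : ℝ → ℝ → ℝ) (hH : Continuous (Function.uncurry H)) (a b c d : ℝ) (hab : a ≤ b)
    (hcd : c ≤ d) :
    ∫ v in a..b, ∫ x in c..d, H v x = ∫ x in c..d, ∫ v in a..b, H v x := by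
  have hI : MeasureTheory.IntegrableOn (Function.uncurry H) (Set.Icc a b ×ˢ Set.Icc c d)
      (MeasureTheory.volume : MeasureTheory.Measure (ℝ × ℝ)) :=
    hH.continuousOn.integrableOn_compact (isCompact_Icc.prod isCompact_Icc)
  have hJ := hI.mono_set (Set.prod_mono (Set.Ioc_subset_Icc_self (a := a) (b := b))
    (Set.Ioc_subset_Icc_self (a := c) (b := d)))
  rw [MeasureTheory.Measure.volume_eq_prod] at hJ
  simp only [intervalIntegral.integral_of_le hab, intervalIntegral.integral_of_le hcd]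
  refine MeasureTheory.integral_integral_swap ?_
  rw [MeasureTheory.Measure.prod_restrict]
  exact hJ

theorem contx (H : ℝ → ℝ → ℝ) (hH : Continuous (Function.uncurry H)) (a b : ℝ) :
    Continuous fun x => ∫ v in a..b, H v x := by
  have : Continuous (Function.uncurry fun x v => H v x) := hH.comp continuous_swap
  exact intervalIntegral.continuous_parametric_intervalIntegral_of_continuous' this a b

theorem slice (H : ℝ → ℝ → ℝ) (hH : Continuous (Function.uncurry H)) (v : ℝ) :
    Continuous fun x => H v x := hH.uncurry_left v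

theorem F_int {n v a b : ℝ} (hn : 0 < n) (ha : 0 ≤ a) (hab : a ≤ b) :
    IntervalIntegrable (fun x => F n v x) MeasureTheory.volume a b := by
  have h1 : Continuous fun x => G n v x := slice (G n) (G_cont hn) v
  refine (h1.intervalIntegrable a b).congr ?_
  intro x hx
  rw [Set.uIoc_of_le hab] at hx
  exact (FG (ha.trans hx.1.le)).symm

theorem F_nonneg (n v x : ℝ) : 0 ≤ F n v x := by
  unfold F
  have := phi_nonneg (2 * Real.arsinh (v * √x / (2 * √n)))
  positivity

theorem F_anti {n v₁ v₂ x : ℝ} (hn : 0 < n) (h1 : 0 ≤ v₁) (h12 : v₁ ≤ v₂) (hx : 0 ≤ x) :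
    F n v₂ x ≤ F n v₁ x := by
  unfold F
  have hs : 0 < √n := Real.sqrt_pos.2 hn
  have hq : v₁ ^ 2 ≤ v₂ ^ 2 := pow_le_pow_left₀ h1 h12 2
  have hpos : 0 < 4 * n + x * v₁ ^ 2 := by positivity
  refine div_le_div₀ ?_ ?_ (Real.sqrt_pos.2 hpos) ?_
  · exact mul_nonneg (phi_nonneg _) (by norm_num)
  · refine mul_le_mul_of_nonneg_right (phi_anti ?_ ?_) (by norm_num)
    · exact mul_nonneg (by norm_num) (Real.arsinh_nonneg_iff.2 (by positivity))
    · refine mul_le_mul_of_nonneg_left (Real.arsinh_le_arsinh.2 ?_) (by norm_num)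
      gcongr
  · refine Real.sqrt_le_sqrt ?_
    have := mul_le_mul_of_nonneg_left hq hx
    linarith

theorem F_le {n v x : ℝ} (hn : 0 < n) (hx : 0 ≤ x) : F n v x ≤ 1 / (4 * √n) := by
  unfold F
  have hs : 0 < √n := Real.sqrt_pos.2 hn
  have h4 : √(4 * n) = 2 * √n := by
    rw [Real.sqrt_mul (by norm_num), show (4 : ℝ) = 2 ^ 2 by norm_num,
      Real.sqrt_sq (by norm_num)]
  have h5 : 2 * √n ≤ √(4 * n + x * v ^ 2) := by
    rw [← h4]
    refine Real.sqrt_le_sqrt ?_
    have : 0 ≤ x * v ^ 2 := by positivity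
    linarith
  calc phi (2 * Real.arsinh (v * √x / (2 * √n))) * (1 / 2) / √(4 * n + x * v ^ 2) ≤
      (1 / 2) / (2 * √n) := by
        refine div_le_div₀ (by norm_num) ?_ (by positivity) h5
        have := phi_le_one (2 * Real.arsinh (v * √x / (2 * √n)))
        linarith
    _ = 1 / (4 * √n) := by
        field_simp
        norm_num

theorem int_phi (a : ℝ) (_ha : 0 ≤ a) : ∫ t in (0 : ℝ)..a, phi t ≤ 1 / 2 := by
  have h1 : ∫ t in (0 : ℝ)..1, phi t = 1 / 2 := by
    have : ∫ t in (0 : ℝ)..1, phi t = ∫ t in (0 : ℝ)..1, (1 - t) := by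
      refine intervalIntegral.integral_congr fun t ht => ?_
      rw [Set.uIcc_of_le zero_le_one] at ht
      simp only [phi]
      rw [abs_of_nonneg ht.1, max_eq_right (by linarith [ht.2])]
    rw [this, intervalIntegral.integral_sub (by simp) (by simp)]
    simp
    norm_num
  have h2 : ∫ t in (0 : ℝ)..(max a 1), phi t = 1 / 2 := by
    rw [← intervalIntegral.integral_add_adjacent_intervals (b := 1)
      (phi_cont.intervalIntegrable _ _) (phi_cont.intervalIntegrable _ _), h1]
    have : ∫ t in (1 : ℝ)..(max a 1), phi t = 0 := by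
      rw [← intervalIntegral.integral_zero (a := (1 : ℝ)) (b := max a 1)
        (μ := MeasureTheory.volume) (E := ℝ)]
      refine intervalIntegral.integral_congr fun t ht => ?_
      rw [Set.uIcc_of_le (le_max_right a 1)] at ht
      simp only [phi]
      rw [abs_of_nonneg (by linarith [ht.1]), max_eq_left (by linarith [ht.1])]
    rw [this, add_zero]
  have h3 : ∫ t in (0 : ℝ)..a, phi t ≤ ∫ t in (0 : ℝ)..(max a 1), phi t := by
    rw [← intervalIntegral.integral_add_adjacent_intervals (a := 0) (b := a) (c := max a 1)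
      (phi_cont.intervalIntegrable _ _) (phi_cont.intervalIntegrable _ _)]
    have := intervalIntegral.integral_nonneg (f := phi) (μ := MeasureTheory.volume)
      (le_max_left a 1) (fun t _ => phi_nonneg t)
    linarith
  rw [h2] at h3
  exact h3

theorem inner_der {n x : ℝ} (hn : 0 < n) (hx : 0 < x) (v : ℝ) :
    HasDerivAt (fun v => 2 * Real.arsinh (v * √x / (2 * √n)))
      (2 * √x / √(4 * n + x * v ^ 2)) v := by
  have hsn : 0 < √n := Real.sqrt_pos.2 hn
  have hsx : 0 < √x := Real.sqrt_pos.2 hx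
  have h4 : √(4 * n) = 2 * √n := by
    rw [Real.sqrt_mul (by norm_num), show (4 : ℝ) = 2 ^ 2 by norm_num,
      Real.sqrt_sq (by norm_num)]
  have hpos : 0 < 4 * n + x * v ^ 2 := by positivity
  have h1 : HasDerivAt (fun v : ℝ => v * √x / (2 * √n)) (√x / (2 * √n)) v := by
    have := ((hasDerivAt_id v).mul_const (√x)).div_const (2 * √n)
    simpa using this
  have h2 := (h1.arsinh).const_mul 2
  have e : 1 + (v * √x / (2 * √n)) ^ 2 = (4 * n + x * v ^ 2) / (4 * n) := by
    rw [div_pow, mul_pow, mul_pow, Real.sq_sqrt hn.le, Real.sq_sqrt hx.le]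
    field_simp
    ring
  rw [e, Real.sqrt_div' _ (by positivity), h4] at h2
  have hq := (Real.sqrt_pos.2 hpos).ne'
  have e2 : 2 * √x / √(4 * n + x * v ^ 2) =
      2 * ((√(4 * n + x * v ^ 2) / (2 * √n))⁻¹ • (√x / (2 * √n))) := by
    rw [smul_eq_mul, inv_div]
    field_simp
  rw [e2]
  exact h2

/-- the integral over `v` for fixed `x` -/
theorem inner_int {n x V : ℝ} (hn : 0 < n) (hx : 0 < x) (hV : 0 ≤ V) :
    ∫ v in (0 : ℝ)..V, F n v x ≤ 1 / (8 * √x) := by
  have hsn : 0 < √n := Real.sqrt_pos.2 hn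
  have hsx : 0 < √x := Real.sqrt_pos.2 hx
  have h4 : √(4 * n) = 2 * √n := by
    rw [Real.sqrt_mul (by norm_num), show (4 : ℝ) = 2 ^ 2 by norm_num,
      Real.sqrt_sq (by norm_num)]
  have hpos : ∀ v : ℝ, 0 < 4 * n + x * v ^ 2 := fun v => by positivity
  have hder : ∀ v : ℝ, HasDerivAt (fun v => 2 * Real.arsinh (v * √x / (2 * √n)))
      (2 * √x / √(4 * n + x * v ^ 2)) v := fun v => inner_der hn hx v
  have hcv : ∫ v in (0 : ℝ)..V, (phi ∘ fun v => 2 * Real.arsinh (v * √x / (2 * √n))) v *
      (2 * √x / √(4 * n + x * v ^ 2)) = ∫ t in (2 * Real.arsinh (0 * √x / (2 * √n)))..(2 *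
        Real.arsinh (V * √x / (2 * √n))), phi t := by
    refine intervalIntegral.integral_comp_mul_deriv (fun v _ => hder v) ?_ phi_cont
    refine ContinuousOn.div (by fun_prop) (by fun_prop) fun v _ => (Real.sqrt_pos.2 (hpos v)).ne'
  have hF : ∀ v : ℝ, F n v x = (1 / (4 * √x)) *
      ((phi ∘ fun v => 2 * Real.arsinh (v * √x / (2 * √n))) v *
      (2 * √x / √(4 * n + x * v ^ 2))) := by
    intro v
    unfold F
    have := (Real.sqrt_pos.2 (hpos v)).ne'
    simp only [Function.comp]
    field_simp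
    ring
  have hle : ∫ t in (2 * Real.arsinh (0 * √x / (2 * √n)))..(2 *
        Real.arsinh (V * √x / (2 * √n))), phi t ≤ 1 / 2 := by
    rw [zero_mul, zero_div, Real.arsinh_zero, mul_zero]
    exact int_phi _ (mul_nonneg (by norm_num) (Real.arsinh_nonneg_iff.2 (by positivity)))
  simp_rw [hF]
  rw [intervalIntegral.integral_const_mul, hcv]
  calc (1 / (4 * √x)) * _ ≤ (1 / (4 * √x)) * (1 / 2) :=
      mul_le_mul_of_nonneg_left hle (by positivity)
    _ = 1 / (8 * √x) := by field_simp; norm_num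

end TB2h

theorem T_TB2 : P_TB2 := by
  intro X η hX hη hη1 n hn
  have hX1 : (1 : ℝ) ≤ X := by exact_mod_cast hX
  have hX0 : (0 : ℝ) < X := by linarith
  have hab : (X : ℝ) ≤ (1 + η) * X := by nlinarith
  have hx0 : ∀ x ∈ Set.Icc (X : ℝ) ((1 + η) * X), 0 ≤ x := fun x hx => hX0.le.trans hx.1
  have hom : ∀ v m : ℝ, om X η v m = ∫ x in (X : ℝ)..((1 + η) * X), TB2h.F m v x :=
    fun v m => rfl
  refine ⟨?_, ?_, ?_, ?_, ?_⟩
  · intro v₁ h1 v₂ _ h12
    simp only [hom]
    refine intervalIntegral.integral_mono_on hab (TB2h.F_int hn hX0.le hab)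
      (TB2h.F_int hn hX0.le hab) fun x hx => ?_
    exact TB2h.F_anti hn h1 h12 (hx0 x hx)
  · intro v
    rw [hom]
    exact intervalIntegral.integral_nonneg hab fun x _ => TB2h.F_nonneg n v x
  · intro v
    rw [hom]
    calc ∫ x in (X : ℝ)..((1 + η) * X), TB2h.F n v x ≤
        ∫ x in (X : ℝ)..((1 + η) * X), 1 / (4 * √n) := by
          refine intervalIntegral.integral_mono_on hab (TB2h.F_int hn hX0.le hab)
            (by simp) fun x hx => ?_
          exact TB2h.F_le hn (hx0 x hx)
      _ = η * X / (4 * √n) := by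
          rw [intervalIntegral.integral_const, smul_eq_mul]
          ring
  · intro V hV
    have e1 : ∫ v in (0 : ℝ)..V, om X η v n =
        ∫ v in (0 : ℝ)..V, ∫ x in (X : ℝ)..((1 + η) * X), TB2h.G n v x := by
      congr 1
      funext v
      rw [hom]
      refine intervalIntegral.integral_congr fun x hx => ?_
      rw [Set.uIcc_of_le hab] at hx
      exact TB2h.FG (hx0 x hx)
    rw [e1, TB2h.swap (TB2h.G n) (TB2h.G_cont hn) 0 V X ((1 + η) * X) hV hab]
    have hcontx : Continuous fun x => ∫ v in (0 : ℝ)..V, TB2h.G n v x :=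
      TB2h.contx (TB2h.G n) (TB2h.G_cont hn) 0 V
    calc ∫ x in (X : ℝ)..((1 + η) * X), ∫ v in (0 : ℝ)..V, TB2h.G n v x ≤
        ∫ x in (X : ℝ)..((1 + η) * X), 1 / (8 * √(X : ℝ)) := by
          refine intervalIntegral.integral_mono_on hab (hcontx.intervalIntegrable _ _)
            (by simp) fun x hx => ?_
          have hxp : 0 < x := hX0.trans_le hx.1
          have e2 : ∫ v in (0 : ℝ)..V, TB2h.G n v x = ∫ v in (0 : ℝ)..V, TB2h.F n v x := by
            refine intervalIntegral.integral_congr fun v _ => ?_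
            exact (TB2h.FG hxp.le).symm
          rw [e2]
          refine (TB2h.inner_int hn hxp hV).trans ?_
          have h1 : √(X : ℝ) ≤ √x := Real.sqrt_le_sqrt hx.1
          have h2 : 0 < √(X : ℝ) := Real.sqrt_pos.2 hX0
          exact one_div_le_one_div_of_le (by positivity) (by linarith)
      _ = η * √(X : ℝ) / 8 := by
          rw [intervalIntegral.integral_const, smul_eq_mul]
          have h2 : 0 < √(X : ℝ) := Real.sqrt_pos.2 hX0
          have h3 : (X : ℝ) = √(X : ℝ) * √(X : ℝ) := (Real.mul_self_sqrt hX0.le).symm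
          have h4 : (1 + η) * (X : ℝ) - X = η * (√(X : ℝ) * √(X : ℝ)) := by
            rw [← h3]; ring
          rw [h4]
          field_simp
  · intro v hv n' η' hn' hη' hlog
    rw [hom, hom, ← intervalIntegral.integral_const_mul]
    have hle := abs_le.1 hlog
    have h1 : n' ≤ n * Real.exp η' ^ 2 := by
      rw [← Real.exp_log hn', ← Real.exp_log hn, ← Real.exp_nat_mul, ← Real.exp_add]
      refine Real.exp_le_exp.2 ?_
      push_cast
      linarith [hle.2]
    have h2 : n ≤ n' * Real.exp η' ^ 2 := by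
      rw [← Real.exp_log hn', ← Real.exp_log hn, ← Real.exp_nat_mul, ← Real.exp_add]
      refine Real.exp_le_exp.2 ?_
      push_cast
      linarith [hle.1]
    set E := Real.exp η' with hE
    have hE0 : 0 < E := Real.exp_pos _
    have hE1 : 1 ≤ E := Real.one_le_exp hη'
    have hEi : Real.exp (-η') = E⁻¹ := Real.exp_neg η'
    refine intervalIntegral.integral_mono_on hab (TB2h.F_int hn' hX0.le hab)
      ((TB2h.F_int hn hX0.le hab).const_mul _) fun x hx => ?_
    have hxn := hx0 x hx
    unfold TB2h.F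
    have hsn : 0 < √n := Real.sqrt_pos.2 hn
    have hsn' : 0 < √n' := Real.sqrt_pos.2 hn'
    have hs : √n' ≤ √n * E := by
      rw [Real.sqrt_le_left (by positivity)]
      rw [mul_pow, Real.sq_sqrt hn.le]
      exact h1
    rw [hEi]
    have hphi : phi (2 * Real.arsinh (v * √x / (2 * √n'))) ≤
        phi (2 * Real.arsinh (v * E⁻¹ * √x / (2 * √n))) := by
      refine TB2h.phi_anti (mul_nonneg (by norm_num) (Real.arsinh_nonneg_iff.2 (by positivity)))
        (mul_le_mul_of_nonneg_left (Real.arsinh_le_arsinh.2 ?_) (by norm_num))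
      rw [div_le_div_iff₀ (by positivity) (by positivity)]
      have h3 : 0 ≤ v * √x := by positivity
      calc v * E⁻¹ * √x * (2 * √n') ≤ v * E⁻¹ * √x * (2 * (√n * E)) := by gcongr
        _ = v * √x * (2 * √n) := by field_simp
    have hpos : 0 < 4 * n + x * (v * E⁻¹) ^ 2 := by positivity
    have hpos' : 0 < 4 * n' + x * v ^ 2 := by positivity
    have hden : √(4 * n + x * (v * E⁻¹) ^ 2) ≤ E * √(4 * n' + x * v ^ 2) := by
      rw [Real.sqrt_le_left (by positivity), mul_pow E (√(4 * n' + x * v ^ 2)) 2,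
        Real.sq_sqrt hpos'.le]
      have h4 : (v * E⁻¹) ^ 2 ≤ v ^ 2 * E ^ 2 := by
        rw [mul_pow]
        refine mul_le_mul_of_nonneg_left ?_ (sq_nonneg v)
        have h5 : E⁻¹ ≤ 1 := inv_le_one_of_one_le₀ hE1
        have h6 : 0 ≤ E⁻¹ := by positivity
        nlinarith
      calc 4 * n + x * (v * E⁻¹) ^ 2 ≤ 4 * (n' * E ^ 2) + x * (v ^ 2 * E ^ 2) := by gcongr
        _ = E ^ 2 * (4 * n' + x * v ^ 2) := by ring
    have hq := Real.sqrt_pos.2 hpos
    have hq' := Real.sqrt_pos.2 hpos'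
    calc phi (2 * Real.arsinh (v * √x / (2 * √n'))) * (1 / 2) / √(4 * n' + x * v ^ 2) ≤
        phi (2 * Real.arsinh (v * E⁻¹ * √x / (2 * √n))) * (1 / 2) / √(4 * n' + x * v ^ 2) := by
          gcongr
      _ = E * (phi (2 * Real.arsinh (v * E⁻¹ * √x / (2 * √n))) * (1 / 2) /
          (E * √(4 * n' + x * v ^ 2))) := by field_simp
      _ ≤ E * (phi (2 * Real.arsinh (v * E⁻¹ * √x / (2 * √n))) * (1 / 2) /
          √(4 * n + x * (v * E⁻¹) ^ 2)) := by
          have h7 := TB2h.phi_nonneg (2 * Real.arsinh (v * E⁻¹ * √x / (2 * √n)))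
          gcongr

end Pool.Agent.H38R2.CG
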