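import Pool.Agent.H52.V.S8.H38R2.CG.Stubs

/-!
# Class group project, task TM: assembly of the near collision bound
-/

set_option autoImplicit false

namespace Pool.Agent.H38R2.CG

open Finset Filter
open scoped Classical

namespace TMh

theorem phi_nonneg (t : ℝ) : 0 ≤ phi t := le_max_left _ _

theorem win_nonneg (η' : ℝ) (j : ℤ) (s : Finset ℕ) : 0 ≤ win η' j s := phi_nonneg _

theorem log_of_win {η' : ℝ} (h : 0 < η') {j : ℤ} {s : Finset ℕ} (hs : win η' j s ≠ 0) :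
    |Real.log (prodS s) - η' * j| ≤ η' := by
  have h1 : |Real.log (prodS s) / η' - j| < 1 := by
    by_contra hcon
    have hcon' := not_lt.1 hcon
    exact hs (max_eq_left (by linarith))
  have h2 : Real.log (prodS s) - η' * j = η' * (Real.log (prodS s) / η' - j) := by
    field_simp
  rw [h2, abs_mul, abs_of_pos h]
  nlinarith

theorem chi2_abs (D : ℤ) : |chi2 D| ≤ 1 := by
  unfold chi2
  split_ifs <;> simp

theorem jacobi_abs (a : ℤ) (b : ℕ) : |jacobiSym a b| ≤ 1 := by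
  rcases jacobiSym.trichotomy a b with h | h | h <;> rw [h] <;> simp

theorem chi_abs (D : ℤ) (n : ℕ) : |chi D n| ≤ 1 := by
  unfold chi
  rw [abs_mul, abs_pow]
  exact mul_le_one₀ (pow_le_one₀ (abs_nonneg _) (chi2_abs D)) (abs_nonneg _) (jacobi_abs _ _)

theorem PiR_pos (z r : ℕ) : 0 < PiR z r := by
  unfold PiR
  refine Finset.prod_pos fun l hl => ?_
  have hl2 : 2 ≤ l := (Finset.mem_Icc.1 (Finset.mem_filter.1 hl).1).1
  have hlR : (2 : ℝ) ≤ l := by exact_mod_cast hl2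
  have h1 : (chi r l : ℝ) ≤ 1 := by exact_mod_cast (abs_le.1 (chi_abs r l)).2
  have h2 : (chi r l : ℝ) / l ≤ 1 / l := by gcongr
  have h3 : (1 : ℝ) / l ≤ 1 / 2 := by gcongr
  linarith

theorem Qz_pos (z : ℕ) : 0 < Qz z := by
  unfold Qz
  refine Nat.mul_pos (by norm_num) (Finset.prod_pos fun l hl => ?_)
  exact pow_pos (Finset.mem_filter.1 hl).2.pos 2

theorem prime_dvd_Qz {z p : ℕ} (hz : 2 ≤ z) (hp : p.Prime) (h : p ∣ Qz z) : p ≤ z := by
  unfold Qz at h
  rcases hp.dvd_mul.1 h with h1 | h1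
  · have h2 : p ∣ 2 ^ 4 := by
      norm_num
      exact h1
    have h3 := Nat.le_of_dvd (by norm_num) (hp.dvd_of_dvd_pow h2)
    omega
  · obtain ⟨l, hl, hpl⟩ := (hp.prime.dvd_finsetProd_iff _).1 h1
    have h2 := hp.dvd_of_dvd_pow hpl
    have hl' := Finset.mem_filter.1 hl
    exact (Nat.le_of_dvd hl'.2.pos h2).trans (Finset.mem_Icc.1 hl'.1).2

theorem mem_SX {X : ℕ} {s : Finset ℕ} (hs : s ∈ SX X) {p : ℕ} (hp : p ∈ s) :
    p.Prime ∧ yy X < p := by
  have h1 := (Finset.mem_powersetCard.1 hs).1 hp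
  unfold PX PP at h1
  rw [Finset.mem_filter, Finset.mem_Ioc] at h1
  exact ⟨h1.2, h1.1.1⟩

theorem prodS_pos {X : ℕ} {s : Finset ℕ} (hs : s ∈ SX X) : 0 < prodS s :=
  Finset.prod_pos fun _ hp => (mem_SX hs hp).1.pos

theorem prime_dvd_prodS {p : ℕ} (hp : p.Prime) {s : Finset ℕ} (hs : ∀ q ∈ s, q.Prime)
    (h : p ∣ prodS s) : p ∈ s := by
  obtain ⟨q, hq, hpq⟩ := (hp.prime.dvd_finsetProd_iff _).1 h
  rwa [(Nat.prime_dvd_prime_iff_eq hp (hs q hq)).1 hpq]

theorem subset_of_isSquare {s t : Finset ℕ} (hs : ∀ q ∈ s, q.Prime) (ht : ∀ q ∈ t, q.Prime)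
    (h : IsSquare (prodS s * prodS t)) : s ⊆ t := by
  intro p hp
  by_contra hpt
  obtain ⟨a, ha⟩ := h
  have hpp := hs p hp
  have h1 : prodS s = p * prodS (s.erase p) := (Finset.mul_prod_erase s (fun x => x) hp).symm
  have h2 : p ∣ a * a := by
    rw [← ha, h1, mul_assoc]
    exact dvd_mul_right _ _
  have h3 : p ∣ a := by rcases hpp.dvd_mul.1 h2 with h | h <;> exact h
  have h4 : p * p ∣ prodS s * prodS t := by
    rw [ha]
    exact mul_dvd_mul h3 h3
  rw [h1, mul_assoc] at h4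
  have h5 := Nat.dvd_of_mul_dvd_mul_left hpp.pos h4
  rcases hpp.dvd_mul.1 h5 with h | h
  · have := prime_dvd_prodS hpp (fun q hq => hs q (Finset.mem_of_mem_erase hq)) h
    exact Finset.notMem_erase p s this
  · exact hpt (prime_dvd_prodS hpp ht h)

theorem yy_large (z : ℕ) : ∃ X0 : ℕ, ∀ X ≥ X0, z ≤ yy X := by
  have h : Tendsto (fun X : ℕ => (Real.log X) ^ 6 / 4) atTop atTop := by
    refine Tendsto.atTop_div_const (by norm_num) ?_
    exact (tendsto_pow_atTop (by norm_num)).comp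
      (Real.tendsto_log_atTop.comp tendsto_natCast_atTop_atTop)
  obtain ⟨X0, h0⟩ := (h.eventually_ge_atTop (z : ℝ)).exists_forall_of_atTop
  exact ⟨X0, fun X hX => Nat.le_floor (h0 X hX)⟩

/-- The number of `v` to be considered. -/
noncomputable def VV (X : ℕ) (s t : Finset ℕ) : ℕ :=
  ⌊2 * √(((prodS s * prodS t : ℕ) : ℝ) / X)⌋₊

noncomputable def B0 (z r X : ℕ) (s t : Finset ℕ) : ℝ :=
  ∑ v ∈ Finset.Icc 1 (VV X s t), (rho z r (prodS s * prodS t) v : ℝ)

noncomputable def C0 (z r X : ℕ) (η : ℝ) (s t : Finset ℕ) : ℝ :=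
  ∑ v ∈ Finset.Icc 1 (VV X s t), (rho z r (prodS s * prodS t) v : ℝ) *
    (om X η v (prodS s * prodS t : ℕ) / Qz z)

noncomputable def T0 (z r X : ℕ) (η η' : ℝ) (j : ℤ) (s t : Finset ℕ) : ℝ :=
  ∑ v ∈ Finset.Icc 1 X, (rhoQ z r (prodS s * prodS t) v : ℝ) *
    jprod z (prodS s * prodS t) v *
    (Real.exp η' * om X η (v * Real.exp (-η')) (Real.exp (2 * η' * j)) / Qz z)

theorem step1 (hTB1 : P_TB1) {z r X : ℕ} {η : ℝ} (hr : r < Qz z) (hη : 0 < η) (hη1 : η ≤ 1)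
    (hX : 1 ≤ X) {s t : Finset ℕ} (hs : s ∈ SX X) (ht : t ∈ SX X) :
    ∑ D ∈ DD z r X η, Rsum D (prodS s * prodS t) ≤
      (if s = t then ((DD z r X η).card : ℝ) else 0) + 2 * B0 z r X s t +
        2 * C0 z r X η s t := by
  have h := hTB1 z r X (prodS s * prodS t) η hr hη hη1 hX
    (Nat.mul_pos (prodS_pos hs) (prodS_pos ht))
  have h2 : ∑ v ∈ Finset.Icc 1 ⌊2 * √(((prodS s * prodS t : ℕ) : ℝ) / X)⌋₊,
      (rho z r (prodS s * prodS t) v : ℝ) * (om X η v (prodS s * prodS t : ℕ) / Qz z + 1) =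
      C0 z r X η s t + B0 z r X s t := by
    unfold C0 B0 VV
    rw [← Finset.sum_add_distrib]
    refine Finset.sum_congr rfl fun v _ => ?_
    ring
  rw [h2] at h
  have h3 : (if IsSquare (prodS s * prodS t) then ((DD z r X η).card : ℝ) else 0) ≤
      (if s = t then ((DD z r X η).card : ℝ) else 0) := by
    by_cases hst : s = t
    · rw [if_pos hst]
      split_ifs
      · exact le_refl _
      · exact Nat.cast_nonneg _
    · have hns : ¬ IsSquare (prodS s * prodS t) := by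
        intro hsq
        refine hst (Finset.Subset.antisymm (subset_of_isSquare (fun q hq => (mem_SX hs hq).1)
          (fun q hq => (mem_SX ht hq).1) hsq) (subset_of_isSquare (fun q hq => (mem_SX ht hq).1)
          (fun q hq => (mem_SX hs hq).1) ?_))
        rwa [mul_comm]
      rw [if_neg hns, if_neg hst]
  linarith

theorem VV_le {X : ℕ} (hX : 4 ≤ X) {s t : Finset ℕ}
    (hs : (prodS s : ℝ) ≤ (X : ℝ) ^ (2 / 3 : ℝ)) (ht : (prodS t : ℝ) ≤ (X : ℝ) ^ (2 / 3 : ℝ)) :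
    VV X s t ≤ X := by
  unfold VV
  have hXR : (4 : ℝ) ≤ X := by exact_mod_cast hX
  have hle : (X : ℝ) ^ (2 / 3 : ℝ) ≤ X := by
    calc (X : ℝ) ^ (2 / 3 : ℝ) ≤ (X : ℝ) ^ (1 : ℝ) :=
          Real.rpow_le_rpow_of_exponent_le (by linarith) (by norm_num)
      _ = X := Real.rpow_one _
  have hs' := hs.trans hle
  have ht' := ht.trans hle
  refine Nat.floor_le_of_le ?_
  have h1 : ((prodS s * prodS t : ℕ) : ℝ) ≤ X * X := by
    push_cast
    exact mul_le_mul hs' ht' (Nat.cast_nonneg _) (by linarith)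
  have h2 : ((prodS s * prodS t : ℕ) : ℝ) / X ≤ X := by
    rw [div_le_iff₀ (by linarith)]
    exact h1
  have h3 : √(((prodS s * prodS t : ℕ) : ℝ) / X) ≤ √(X : ℝ) := Real.sqrt_le_sqrt h2
  have h4 : √(X : ℝ) * √(X : ℝ) = X := Real.mul_self_sqrt (by linarith)
  have h5 : 2 ≤ √(X : ℝ) := by
    refine Real.le_sqrt_of_sq_le ?_
    linarith
  nlinarith

theorem T0_nonneg (hTB2 : P_TB2) (hTB3d : P_TB3d) {z r X : ℕ} {η η' : ℝ} {j : ℤ}
    (hX : 1 ≤ X) (hη : 0 < η) (hη1 : η ≤ 1) (s t : Finset ℕ) :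
    0 ≤ T0 z r X η η' j s t := by
  unfold T0
  refine Finset.sum_nonneg fun v hv => ?_
  have h1 := (hTB3d z (prodS s * prodS t) v (Finset.mem_Icc.1 hv).1).1
  have h2 := (hTB2 X η hX hη hη1 (Real.exp (2 * η' * j)) (Real.exp_pos _)).2.1
    (v * Real.exp (-η'))
  positivity

theorem step2 (hTB2 : P_TB2) (hTB3b : P_TB3b) (hTB3d : P_TB3d) {z r X : ℕ} {η η' : ℝ} {j : ℤ}
    (hz : 2 ≤ z) (hX : 4 ≤ X) (hη : 0 < η) (hη1 : η ≤ 1) (hη' : 0 < η') (hy : z ≤ yy X)
    {s t : Finset ℕ} (hs : s ∈ SX X) (ht : t ∈ SX X)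
    (hs' : (prodS s : ℝ) ≤ (X : ℝ) ^ (2 / 3 : ℝ)) (ht' : (prodS t : ℝ) ≤ (X : ℝ) ^ (2 / 3 : ℝ))
    (hd : Disjoint s t) (hws : win η' j s ≠ 0) (hwt : win η' j t ≠ 0) :
    C0 z r X η s t ≤ T0 z r X η η' j s t := by
  have hX1 : 1 ≤ X := by omega
  have hQ : (0 : ℝ) < Qz z := by exact_mod_cast Qz_pos z
  have hV := VV_le hX hs' ht'
  have hn : (0 : ℝ) < ((prodS s * prodS t : ℕ) : ℝ) := by
    exact_mod_cast Nat.mul_pos (prodS_pos hs) (prodS_pos ht)
  have hlog : |Real.log ((prodS s * prodS t : ℕ) : ℝ) - Real.log (Real.exp (2 * η' * j))| ≤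
      2 * η' := by
    have h1 := abs_le.1 (log_of_win hη' hws)
    have h2 := abs_le.1 (log_of_win hη' hwt)
    have h3 : Real.log ((prodS s * prodS t : ℕ) : ℝ) =
        Real.log (prodS s) + Real.log (prodS t) := by
      push_cast
      refine Real.log_mul ?_ ?_
      · exact_mod_cast (prodS_pos hs).ne'
      · exact_mod_cast (prodS_pos ht).ne'
    rw [h3, Real.log_exp, abs_le]
    constructor <;> linarith [h1.1, h1.2, h2.1, h2.2]
  have hpr : ∀ p ∈ s ∪ t, p.Prime ∧ ¬ p ∣ Qz z := by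
    intro p hp
    have h1 : p.Prime ∧ yy X < p := by
      rcases Finset.mem_union.1 hp with h | h
      · exact mem_SX hs h
      · exact mem_SX ht h
    refine ⟨h1.1, fun hdvd => ?_⟩
    have := prime_dvd_Qz hz h1.1 hdvd
    omega
  have hom2 := hTB2 X η hX1 hη hη1 (Real.exp (2 * η' * j)) (Real.exp_pos _)
  have hom3 := (hTB2 X η hX1 hη hη1 _ hn).2.1
  have hterm : ∀ v ∈ Finset.Icc 1 (VV X s t), (rho z r (prodS s * prodS t) v : ℝ) *
      (om X η v (prodS s * prodS t : ℕ) / Qz z) ≤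
      (rhoQ z r (prodS s * prodS t) v : ℝ) * jprod z (prodS s * prodS t) v *
      (Real.exp η' * om X η (v * Real.exp (-η')) (Real.exp (2 * η' * j)) / Qz z) := by
    intro v hv
    have hv1 := (Finset.mem_Icc.1 hv).1
    have h1 := hTB3b z r v s t hv1 hd hpr
    have h2 := hom2.2.2.2.2 v (Nat.cast_nonneg _) _ η' hn hη'.le hlog
    have h3 := (hTB3d z (prodS s * prodS t) v hv1).1
    have h4 := hom3 v
    refine mul_le_mul h1 (by gcongr) (by positivity) (by positivity)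
  unfold C0 T0
  refine (Finset.sum_le_sum hterm).trans ?_
  refine Finset.sum_le_sum_of_subset_of_nonneg (Finset.Icc_subset_Icc_right hV) ?_
  intro v hv _
  have h1 := (hTB3d z (prodS s * prodS t) v (Finset.mem_Icc.1 hv).1).1
  have h2 := hom2.2.1 (v * Real.exp (-η'))
  positivity

end TMh

open TMh in
theorem T_TM : P_SZ → P_TB1 → P_TB2 → P_TB3b → P_TB3d → P_TB4 → P_TB5 → P_TB6 → P_TM := by
  intro hSZ hTB1 hTB2 hTB3b hTB3d hTB4 hTB5 hTB6 z r hz hfr η hη hη1 ε hε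
  have hQ : (0 : ℝ) < Qz z := by exact_mod_cast Qz_pos z
  have hP := PiR_pos z r
  obtain ⟨η0, hη0, h6⟩ := hTB6 z r hz hfr η hη hη1 (ε / 2) (by positivity)
  refine ⟨min η0 1, lt_min hη0 one_pos, ?_⟩
  intro η' hη' hη'1 δ hδ
  have hη'0 : η' < η0 := hη'1.trans_le (min_le_left _ _)
  have hη'2 : η' ≤ 1 := (hη'1.trans_le (min_le_right _ _)).le
  obtain ⟨ε1, hε1⟩ : ∃ ε1 : ℝ, ε1 = ε * PiR z r * η / (20 * Qz z) := ⟨_, rfl⟩
  have hε1p : 0 < ε1 := by
    rw [hε1]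
    positivity
  obtain ⟨X1, h1⟩ := hSZ
  obtain ⟨X4, h4⟩ := hTB4 z r hfr.1 η hη hη1 η' hη' hη'2 δ ε1 hδ hε1p
  obtain ⟨X5, h5⟩ := hTB5 z r hfr.1 η hη hη1 η' hη' hη'2 δ ε1 hδ hε1p
  obtain ⟨X6, h6⟩ := h6 η' hη' hη'0 δ hδ
  obtain ⟨X7, h7⟩ := yy_large z
  refine ⟨max (max X1 X4) (max (max X5 X6) (max X7 4)), ?_⟩
  intro X hX j hj
  simp only [ge_iff_le, max_le_iff] at hX
  obtain ⟨⟨hX1, hX4⟩, ⟨hX5, hX6⟩, hX7, hX8⟩ := hX
  have hX0 : 1 ≤ X := by omega
  obtain ⟨h4a, h4b⟩ := h4 X hX4 j hj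
  have h5' := h5 X hX5 j hj
  have h6' := h6 X hX6 j hj X le_rfl
  have hswap : ∑ D ∈ DD z r X η, SD D (SX X) (win η' j) =
      ∑ s ∈ SX X, ∑ t ∈ SX X, win η' j s * win η' j t * 2 ^ ((s ∩ t).card) *
        ∑ D ∈ DD z r X η, Rsum D (prodS s * prodS t) := by
    unfold SD
    rw [Finset.sum_comm]
    refine Finset.sum_congr rfl fun s _ => ?_
    rw [Finset.sum_comm]
    refine Finset.sum_congr rfl fun t _ => ?_
    rw [Finset.mul_sum]
  have hpt : ∀ s ∈ SX X, ∀ t ∈ SX X,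
      win η' j s * win η' j t * 2 ^ ((s ∩ t).card) *
        ∑ D ∈ DD z r X η, Rsum D (prodS s * prodS t) ≤
      (if s = t then win η' j s * win η' j t * 2 ^ ((s ∩ t).card) *
        ((DD z r X η).card : ℝ) else 0) +
      2 * (win η' j s * win η' j t * 2 ^ ((s ∩ t).card) * B0 z r X s t) +
      2 * (if ¬ Disjoint s t then
        win η' j s * win η' j t * 2 ^ ((s ∩ t).card) * C0 z r X η s t else 0) +
      2 * (win η' j s * win η' j t * T0 z r X η η' j s t) := by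
    intro s hs t ht
    have hws := win_nonneg η' j s
    have hwt := win_nonneg η' j t
    have hW : 0 ≤ win η' j s * win η' j t * 2 ^ ((s ∩ t).card) := by positivity
    have hst := mul_le_mul_of_nonneg_left (step1 hTB1 hfr.1 hη hη1 hX0 hs ht) hW
    have hT := T0_nonneg (z := z) (r := r) (η' := η') (j := j) hTB2 hTB3d hX0 hη hη1 s t
    have hA : win η' j s * win η' j t * 2 ^ ((s ∩ t).card) *
        (if s = t then ((DD z r X η).card : ℝ) else 0) =
        (if s = t then win η' j s * win η' j t * 2 ^ ((s ∩ t).card) *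
          ((DD z r X η).card : ℝ) else 0) := by
      split_ifs
      · rfl
      · exact mul_zero _
    have hC : win η' j s * win η' j t * 2 ^ ((s ∩ t).card) * C0 z r X η s t ≤
        (if ¬ Disjoint s t then
          win η' j s * win η' j t * 2 ^ ((s ∩ t).card) * C0 z r X η s t else 0) +
        win η' j s * win η' j t * T0 z r X η η' j s t := by
      by_cases hd : Disjoint s t
      · rw [if_neg (not_not.2 hd), zero_add, Finset.disjoint_iff_inter_eq_empty.1 hd,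
          Finset.card_empty, pow_zero, mul_one]
        by_cases h0s : win η' j s = 0
        · rw [h0s]
          simp
        by_cases h0t : win η' j t = 0
        · rw [h0t]
          simp
        exact mul_le_mul_of_nonneg_left (step2 hTB2 hTB3b hTB3d hz hX8 hη hη1 hη' (h7 X hX7)
          hs ht (h1 X hX1 s hs).2 (h1 X hX1 t ht).2 hd h0s h0t) (by positivity)
      · rw [if_pos hd]
        have : 0 ≤ win η' j s * win η' j t * T0 z r X η η' j s t := by positivity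
        linarith
    rw [mul_add, mul_add, hA] at hst
    linarith
  have hsum := Finset.sum_le_sum fun s hs => Finset.sum_le_sum fun t ht => hpt s hs t ht
  simp only [Finset.sum_add_distrib, ← Finset.mul_sum] at hsum
  have hE1 : ∑ s ∈ SX X, ∑ t ∈ SX X,
      (if s = t then win η' j s * win η' j t * 2 ^ ((s ∩ t).card) *
        ((DD z r X η).card : ℝ) else 0) =
      ∑ s ∈ SX X, (win η' j s) ^ 2 * 2 ^ (s.card) * ((DD z r X η).card : ℝ) := by
    refine Finset.sum_congr rfl fun s hs => ?_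
    rw [Finset.sum_ite_eq, if_pos hs, Finset.inter_self, sq]
  have hE2 : ∑ s ∈ SX X, ∑ t ∈ SX X, (if ¬ Disjoint s t then
        win η' j s * win η' j t * 2 ^ ((s ∩ t).card) * C0 z r X η s t else 0) =
      ∑ s ∈ SX X, ∑ t ∈ (SX X).filter (fun t => ¬ Disjoint s t),
      win η' j s * win η' j t * 2 ^ ((s ∩ t).card) * C0 z r X η s t := by
    refine Finset.sum_congr rfl fun s hs => ?_
    rw [Finset.sum_filter]
  rw [hE1, hE2] at hsum
  rw [hswap]
  refine hsum.trans ?_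
  have hb4a : ∑ s ∈ SX X, ∑ t ∈ SX X, win η' j s * win η' j t * 2 ^ ((s ∩ t).card) *
      B0 z r X s t ≤ ε1 * √(X : ℝ) * (S1 X η' j) ^ 2 := h4a
  have hb5 : ∑ s ∈ SX X, ∑ t ∈ (SX X).filter (fun t => ¬ Disjoint s t),
      win η' j s * win η' j t * 2 ^ ((s ∩ t).card) * C0 z r X η s t ≤
      ε1 * √(X : ℝ) * (S1 X η' j) ^ 2 := h5'
  have hb6 : ∑ s ∈ SX X, ∑ t ∈ SX X, win η' j s * win η' j t * T0 z r X η η' j s t ≤
      (1 + ε / 2) * (PiR z r / (4 * Qz z)) * η * √(X : ℝ) * (S1 X η' j) ^ 2 := h6'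
  have hfin : (1 + ε) * (PiR z r / (2 * Qz z)) * η * √(X : ℝ) * (S1 X η' j) ^ 2 =
      ε1 * √(X : ℝ) * (S1 X η' j) ^ 2 + 2 * (ε1 * √(X : ℝ) * (S1 X η' j) ^ 2) +
      2 * (ε1 * √(X : ℝ) * (S1 X η' j) ^ 2) +
      2 * ((1 + ε / 2) * (PiR z r / (4 * Qz z)) * η * √(X : ℝ) * (S1 X η' j) ^ 2) := by
    rw [hε1]
    field_simp
    ring
  rw [hfin]
  linarith

end Pool.Agent.H38R2.CG
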