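import Pool.Agent.H52.V.S8.H38R2.CG.Stubs

set_option autoImplicit false

namespace Pool.Agent.H38R2.CG

open Finset Filter NumberField
open scoped Classical

namespace AS1h

lemma Qz_pos (z : ℕ) : 0 < Qz z := by
  unfold Qz
  refine Nat.mul_pos (by norm_num) (Finset.prod_pos ?_)
  intro l hl
  have := (Finset.mem_filter.1 hl).2.pos
  positivity

lemma dvd16 (z : ℕ) : 16 ∣ Qz z := Dvd.intro _ rfl

lemma fundRes (z D : ℕ) (h : IsFund D) : FundRes z (D % Qz z) := by
  refine ⟨Nat.mod_lt _ (Qz_pos z), ?_, ?_⟩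
  · have h4 : D % Qz z % 4 = D % 4 :=
      Nat.mod_mod_of_dvd D (Dvd.dvd.trans (by norm_num) (dvd16 z))
    have h16 : D % Qz z % 16 = D % 16 := Nat.mod_mod_of_dvd D (dvd16 z)
    rw [h4, h16]
    rcases h.2 with h1 | ⟨m, hm, hm', _⟩
    · left; exact h1.1
    · right
      omega
  · intro l hl hdvd
    obtain ⟨hl1, hlp⟩ := Finset.mem_filter.1 hl
    have hl3 := (Finset.mem_Icc.1 hl1).1
    have hlQ : l ^ 2 ∣ Qz z := by
      unfold Qz
      exact Dvd.dvd.mul_left (Finset.dvd_prod_of_mem (fun l => l ^ 2) hl) _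
    have hD : l ^ 2 ∣ D := (Nat.dvd_mod_iff hlQ).1 hdvd
    rcases h.2 with ⟨_, hs⟩ | ⟨m, hm, _, hs⟩
    · have := hs l (by rw [← pow_two]; exact hD)
      rw [Nat.isUnit_iff] at this
      omega
    · have hco : Nat.Coprime (l ^ 2) 4 := by
        have : Nat.Coprime l 2 := by
          rw [Nat.coprime_primes hlp Nat.prime_two]
          omega
        have := Nat.Coprime.pow 2 2 this
        simpa using this
      have hD' : l ^ 2 ∣ m := by
        rw [hm] at hD
        exact hco.dvd_of_dvd_mul_left hD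
      have := hs l (by rw [← pow_two]; exact hD')
      rw [Nat.isUnit_iff] at this
      omega

end AS1h

open AS1h in
theorem T_AS1 : P_AS0 → P_AS1 := by
  intro h ε hε
  obtain ⟨z0, hz0⟩ := h ε hε
  obtain ⟨η1, hη1, H⟩ := hz0 z0 le_rfl
  have hηpos : 0 < min η1 1 := lt_min hη1 one_pos
  refine ⟨min η1 1, hηpos, min_le_right _ _, ?_⟩
  have H' : ∀ r : ℕ, ∃ X0 : ℕ, ∀ X ≥ X0, FundRes z0 r →
      (((FD z0 r X (min η1 1)).filter (fun D => BadX X D)).card : ℝ) ≤
        ε * (min η1 1 * X / Qz z0) := by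
    intro r
    by_cases hr : FundRes z0 r
    · obtain ⟨X0, hX0⟩ := H (min η1 1) hηpos (min_le_left _ _) r hr
      exact ⟨X0, fun X hX _ => hX0 X hX⟩
    · exact ⟨0, fun X _ hr' => absurd hr' hr⟩
  choose X0 hX0 using H'
  refine ⟨(Finset.range (Qz z0)).sup X0, ?_⟩
  intro X hX
  set η := min η1 1 with hη
  set S := (Finset.Ioc X ⌊(1 + η) * X⌋₊).filter (fun D => IsFund D ∧ BadX X D) with hS
  have hcard : S.card = ∑ r ∈ Finset.range (Qz z0), (S.filter (fun D => D % Qz z0 = r)).card := by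
    apply Finset.card_eq_sum_card_fiberwise
    intro D _
    simp only [Finset.coe_range, Set.mem_Iio]
    exact Nat.mod_lt _ (Qz_pos z0)
  have hQ : (0 : ℝ) < Qz z0 := by exact_mod_cast Qz_pos z0
  have hnn : 0 ≤ ε * (η * X / Qz z0) := by positivity
  have hle : ∀ r ∈ Finset.range (Qz z0),
      ((S.filter (fun D => D % Qz z0 = r)).card : ℝ) ≤ ε * (η * X / Qz z0) := by
    intro r hr
    by_cases hfr : FundRes z0 r
    · refine le_trans ?_ (hX0 r X (le_trans (Finset.le_sup hr) hX) hfr)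
      have : (S.filter (fun D => D % Qz z0 = r)) ⊆
          ((FD z0 r X η).filter (fun D => BadX X D)) := by
        intro D hD
        simp only [hS, FD, DD, Finset.mem_filter] at hD ⊢
        exact ⟨⟨⟨hD.1.1, hD.2⟩, hD.1.2.1⟩, hD.1.2.2⟩
      exact_mod_cast Finset.card_le_card this
    · have : (S.filter (fun D => D % Qz z0 = r)) = ∅ := by
        rw [Finset.filter_eq_empty_iff]
        intro D hD hDr
        apply hfr
        rw [← hDr]
        exact fundRes z0 D (Finset.mem_filter.1 hD).2.1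
      rw [this]
      simpa using hnn
  rw [hcard]
  push_cast
  refine le_trans (Finset.sum_le_sum hle) ?_
  rw [Finset.sum_const, Finset.card_range, nsmul_eq_mul]
  have : (Qz z0 : ℝ) * (ε * (η * X / Qz z0)) = ε * η * X := by
    field_simp
  rw [this]

end Pool.Agent.H38R2.CG
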