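import Pool.Agent.H52.V.S8.H38R2.CG.Stubs

/-! Task CC1: elementary symmetric functions of complex numbers with some cancellation. -/

set_option autoImplicit false

namespace Pool.Agent.H38R2.CG.CC1h

open Finset

/-- the elementary symmetric function -/
noncomputable def ek (P : Finset ℕ) (x : ℕ → ℂ) (k : ℕ) : ℂ := ∑ s ∈ P.powersetCard k, ∏ p ∈ s, x p

theorem prod_expand (P : Finset ℕ) (x : ℕ → ℂ) (T : ℂ) :
    ∏ p ∈ P, (1 + x p * T) = ∑ j ∈ range (P.card + 1), ek P x j * T ^ j := by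
  rw [Finset.prod_one_add, Finset.sum_powerset]
  apply Finset.sum_congr rfl
  intro j _
  rw [ek, Finset.sum_mul]
  apply Finset.sum_congr rfl
  intro s hs
  rw [Finset.prod_mul_distrib, Finset.prod_const, (Finset.mem_powersetCard.1 hs).2]

/-- Cauchy estimate. -/
theorem cauchy (P : Finset ℕ) (x : ℕ → ℂ) (k : ℕ) (hk : k ≤ P.card) (r B : ℝ) (hr : 0 < r)
    (hB : ∀ T : ℂ, ‖T‖ = r → ‖∏ p ∈ P, (1 + x p * T)‖ ≤ B) : ‖ek P x k‖ * r ^ k ≤ B := by
  set N : ℕ := P.card + 1 with hN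
  have hN0 : N ≠ 0 := by omega
  have hNr : (0 : ℝ) < N := by positivity
  set ω : ℂ := Complex.exp (2 * Real.pi * Complex.I / N) with hω
  have hprim : IsPrimitiveRoot ω N := Complex.isPrimitiveRoot_exp N hN0
  have hωN : ω ^ N = 1 := hprim.pow_eq_one
  have hω1 : ‖ω‖ = 1 := hprim.norm'_eq_one hN0
  have hω0 : ω ≠ 0 := by
    intro h
    rw [h, norm_zero] at hω1
    exact zero_ne_one hω1
  -- orthogonality
  have horth : ∀ m ∈ range N, ∑ i ∈ range N, (ω ^ m * (ω ^ k)⁻¹) ^ i = if m = k then (N : ℂ) else 0 := by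
    intro m hm
    rw [Finset.mem_range] at hm
    split_ifs with h
    · rw [h, mul_inv_cancel₀ (pow_ne_zero _ hω0)]
      simp
    · have h1 : ω ^ m * (ω ^ k)⁻¹ ≠ 1 := by
        intro h2
        have h3 : ω ^ m = ω ^ k := by
          have := congrArg (· * ω ^ k) h2
          simpa [mul_assoc, inv_mul_cancel₀ (pow_ne_zero k hω0)] using this
        exact h (hprim.pow_inj hm (by omega) h3)
      have h2 : (ω ^ m * (ω ^ k)⁻¹) ^ N = 1 := by
        rw [mul_pow, inv_pow, ← pow_mul, ← pow_mul, mul_comm m, mul_comm k, pow_mul, pow_mul, hωN,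
          one_pow, one_pow, inv_one, mul_one]
      rw [geom_sum_eq h1, h2, sub_self, zero_div]
  have hmain : ∑ i ∈ range N, ((ω ^ k)⁻¹) ^ i * ∏ p ∈ P, (1 + x p * (r * ω ^ i)) =
      N * (ek P x k * r ^ k) := by
    calc ∑ i ∈ range N, ((ω ^ k)⁻¹) ^ i * ∏ p ∈ P, (1 + x p * (r * ω ^ i))
        = ∑ i ∈ range N, ∑ m ∈ range N, (ek P x m * r ^ m) * (ω ^ m * (ω ^ k)⁻¹) ^ i := by
          apply Finset.sum_congr rfl
          intro i _
          rw [prod_expand, Finset.mul_sum]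
          apply Finset.sum_congr rfl
          intro m _
          rw [mul_pow, mul_pow, ← pow_mul, ← pow_mul, mul_comm i m]
          ring
      _ = ∑ m ∈ range N, (ek P x m * r ^ m) * ∑ i ∈ range N, (ω ^ m * (ω ^ k)⁻¹) ^ i := by
          rw [Finset.sum_comm]
          apply Finset.sum_congr rfl
          intro m _
          rw [Finset.mul_sum]
      _ = ∑ m ∈ range N, (ek P x m * r ^ m) * (if m = k then (N : ℂ) else 0) :=
          Finset.sum_congr rfl fun m hm => by rw [horth m hm]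
      _ = _ := by
          rw [Finset.sum_eq_single k]
          · simp; ring
          · intro m _ hm; simp [hm]
          · intro h; exact absurd (Finset.mem_range.2 (by omega)) h
  have h1 : ‖(N : ℂ) * (ek P x k * r ^ k)‖ ≤ ∑ _i ∈ range N, B := by
    rw [← hmain]
    refine (norm_sum_le _ _).trans (Finset.sum_le_sum fun i _ => ?_)
    rw [norm_mul, norm_pow, norm_inv, norm_pow, hω1, one_pow, inv_one, one_pow, one_mul]
    apply hB
    rw [norm_mul, norm_pow, hω1, one_pow, mul_one, Complex.norm_real, Real.norm_of_nonneg hr.le]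
  rw [Finset.sum_const, Finset.card_range, nsmul_eq_mul, norm_mul, norm_mul, norm_pow,
    Complex.norm_natCast, Complex.norm_real, Real.norm_of_nonneg hr.le] at h1
  exact le_of_mul_le_mul_left h1 hNr

theorem norm_one_add_le (w : ℂ) : ‖1 + w‖ ≤ Real.exp (w.re + ‖w‖ ^ 2 / 2) := by
  have h1 : ‖1 + w‖ ^ 2 = 1 + 2 * w.re + ‖w‖ ^ 2 := by
    rw [← Complex.normSq_eq_norm_sq, ← Complex.normSq_eq_norm_sq, Complex.normSq_apply,
      Complex.normSq_apply]
    simp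
    ring
  have h2 : ‖1 + w‖ ^ 2 ≤ Real.exp (w.re + ‖w‖ ^ 2 / 2) ^ 2 := by
    rw [h1, ← Real.exp_nat_mul]
    have h3 := Real.add_one_le_exp (((2 : ℕ) : ℝ) * (w.re + ‖w‖ ^ 2 / 2))
    refine le_trans (le_of_eq ?_) h3
    push_cast
    ring
  exact le_of_sq_le_sq h2 (Real.exp_pos _).le

theorem prod_le (P : Finset ℕ) (x : ℕ → ℂ) (hx : ∀ p ∈ P, ‖x p‖ ≤ 1) (A r : ℝ) (hr : 0 < r)
    (hA : ‖∑ p ∈ P, x p‖ ≤ A) (T : ℂ) (hT : ‖T‖ = r) :
    ‖∏ p ∈ P, (1 + x p * T)‖ ≤ Real.exp (r * A + P.card * (r ^ 2 / 2)) := by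
  rw [norm_prod]
  calc ∏ p ∈ P, ‖1 + x p * T‖ ≤ ∏ p ∈ P, Real.exp ((x p * T).re + r ^ 2 / 2) := by
        apply Finset.prod_le_prod (fun _ _ => norm_nonneg _)
        intro p hp
        refine (norm_one_add_le _).trans (Real.exp_le_exp.2 ?_)
        have h1 : ‖x p * T‖ ≤ r := by
          rw [norm_mul, hT]
          nlinarith [hx p hp]
        have h2 : ‖x p * T‖ ^ 2 ≤ r ^ 2 := pow_le_pow_left₀ (norm_nonneg _) h1 2
        linarith
    _ = Real.exp (((∑ p ∈ P, x p) * T).re + P.card * (r ^ 2 / 2)) := by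
        rw [← Real.exp_sum, Finset.sum_add_distrib, Finset.sum_const, nsmul_eq_mul, Finset.sum_mul,
          Complex.re_sum]
    _ ≤ _ := by
        apply Real.exp_le_exp.2
        have h1 : ((∑ p ∈ P, x p) * T).re ≤ ‖(∑ p ∈ P, x p) * T‖ := Complex.re_le_norm _
        rw [norm_mul, hT] at h1
        nlinarith

/-- `n^j (2n - j^2) ≤ 2 n · n(n-1)...(n-j+1)` -/
theorem desc_lower (n : ℕ) : ∀ j : ℕ, j ≤ n →
    (n : ℝ) ^ j * (2 * n - (j : ℝ) ^ 2) ≤ 2 * n * (n.descFactorial j : ℝ) := by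
  intro j
  induction j with
  | zero => intro _; simp
  | succ j ih =>
    intro hj
    have h1 := ih (by omega)
    have h2 : (j : ℝ) + 1 ≤ n := by exact_mod_cast hj
    rw [Nat.descFactorial_succ, Nat.cast_mul, Nat.cast_sub (by omega)]
    have h3 : (0 : ℝ) ≤ (n : ℝ) - j := by linarith
    have h4 := mul_le_mul_of_nonneg_left h1 h3
    have h5 : (n : ℝ) ^ (j + 1) * (2 * n - ((j + 1 : ℕ) : ℝ) ^ 2) ≤
        ((n : ℝ) - j) * ((n : ℝ) ^ j * (2 * n - (j : ℝ) ^ 2)) := by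
      have h6 : ((n : ℝ) - j) * ((n : ℝ) ^ j * (2 * n - (j : ℝ) ^ 2)) -
          (n : ℝ) ^ (j + 1) * (2 * n - ((j + 1 : ℕ) : ℝ) ^ 2) =
          (n : ℝ) ^ j * ((j : ℝ) ^ 3 + n) := by
        push_cast
        ring
      have h7 : (0 : ℝ) ≤ (n : ℝ) ^ j * ((j : ℝ) ^ 3 + n) := by positivity
      linarith
    calc _ ≤ _ := h5
      _ ≤ _ := h4
      _ = _ := by ring

theorem choose_lower (n k : ℕ) (hn : 1 ≤ n) (hk : k ^ 2 ≤ n) :
    (n : ℝ) ^ k ≤ 2 * (k.factorial : ℝ) * (n.choose k : ℝ) := by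
  have hkn : k ≤ n := by nlinarith
  have h1 := desc_lower n k hkn
  have h2 : (k : ℝ) ^ 2 ≤ n := by exact_mod_cast hk
  have hn' : (0 : ℝ) < n := by exact_mod_cast hn
  have h3 : (n : ℝ) ^ k * n ≤ (n : ℝ) ^ k * (2 * n - (k : ℝ) ^ 2) :=
    mul_le_mul_of_nonneg_left (by linarith) (by positivity)
  have h4 : ((n.descFactorial k : ℕ) : ℝ) = (k.factorial : ℝ) * (n.choose k : ℝ) := by
    rw [Nat.descFactorial_eq_factorial_mul_choose]
    push_cast
    ring
  rw [h4] at h1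
  have h5 : (n : ℝ) ^ k * n ≤ (2 * (k.factorial : ℝ) * (n.choose k : ℝ)) * n := by linarith
  exact le_of_mul_le_mul_right h5 hn'

/-- `k! ≤ e √k (k/e)^k` -/
theorem fact_le (k : ℕ) (hk : 1 ≤ k) :
    (k.factorial : ℝ) ≤ Real.exp 1 * √(k : ℝ) * ((k : ℝ) / Real.exp 1) ^ k := by
  obtain ⟨m, rfl⟩ : ∃ m, k = m + 1 := ⟨k - 1, by omega⟩
  have h1 : Stirling.stirlingSeq (m + 1) ≤ Stirling.stirlingSeq 1 :=
    Stirling.stirlingSeq'_antitone (Nat.zero_le m)
  rw [Stirling.stirlingSeq_one, Stirling.stirlingSeq] at h1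
  have hpos : 0 < √(2 * ((m + 1 : ℕ) : ℝ)) * (((m + 1 : ℕ) : ℝ) / Real.exp 1) ^ (m + 1) := by
    positivity
  rw [div_le_iff₀ hpos] at h1
  refine h1.trans (le_of_eq ?_)
  rw [Real.sqrt_mul (by norm_num)]
  have h2 : √(2 : ℝ) ≠ 0 := by positivity
  field_simp

end Pool.Agent.H38R2.CG.CC1h

namespace Pool.Agent.H38R2.CG

open Finset Filter NumberField
open scoped Classical

theorem T_CC1 : P_CC1 := by
  intro P x c k hx hc hc1 hk hkP hsum
  set n : ℕ := P.card with hn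
  have hkn : k ≤ n := by nlinarith
  have hn1 : 1 ≤ n := by omega
  have hn0 : (0 : ℝ) < n := by exact_mod_cast hn1
  have hk0 : (0 : ℝ) < k := by exact_mod_cast hk
  have hkP' : (k : ℝ) ^ 2 ≤ n := by exact_mod_cast hkP
  have hc' : 1 / 2 ≤ 1 - c := by linarith
  have hc0 : 0 < 1 - c := by linarith
  set A : ℝ := (1 - c) * n with hA
  have hA0 : 0 < A := by positivity
  set r : ℝ := k / A with hr
  have hr0 : 0 < r := by positivity
  have h1 := CC1h.cauchy P x k hkn r (Real.exp (r * A + n * (r ^ 2 / 2))) hr0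
    (fun T hT => CC1h.prod_le P x hx A r hr0 hsum T hT)
  have h2 : r * A = k := by rw [hr]; field_simp
  have h3 : n * (r ^ 2 / 2) ≤ 2 := by
    have e : (n : ℝ) * (r ^ 2 / 2) = (k : ℝ) ^ 2 / (2 * (1 - c) ^ 2 * n) := by
      rw [hr, hA]; field_simp
    rw [e, div_le_iff₀ (by positivity)]
    have h4 : 1 / 4 ≤ (1 - c) ^ 2 := by nlinarith
    nlinarith
  have h5 : CC1h.ek P x k = ∑ s ∈ P.powersetCard k, ∏ p ∈ s, x p := rfl
  rw [← h5]
  have h6 : ‖CC1h.ek P x k‖ * r ^ k ≤ Real.exp k * Real.exp 2 := by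
    refine h1.trans ?_
    rw [← Real.exp_add]
    apply Real.exp_le_exp.2
    linarith
  -- `exp k * (n/k)^k ≤ 2 e √k C(n,k)`
  have h7 := CC1h.choose_lower n k hn1 hkP
  have h8 := CC1h.fact_le k hk
  have h9 : Real.exp k * (n : ℝ) ^ k ≤ 2 * Real.exp 1 * √(k : ℝ) * (n.choose k : ℝ) * (k : ℝ) ^ k := by
    have e1 : ((k : ℝ) / Real.exp 1) ^ k = (k : ℝ) ^ k / Real.exp k := by
      rw [div_pow, ← Real.exp_nat_mul, mul_one]
    rw [e1] at h8
    have h10 : Real.exp k * (k.factorial : ℝ) ≤ Real.exp 1 * √(k : ℝ) * (k : ℝ) ^ k := by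
      calc Real.exp k * (k.factorial : ℝ) ≤
            Real.exp k * (Real.exp 1 * √(k : ℝ) * ((k : ℝ) ^ k / Real.exp k)) := by gcongr
        _ = _ := by
          have := (Real.exp_pos (k : ℝ)).ne'
          field_simp
    calc Real.exp k * (n : ℝ) ^ k ≤ Real.exp k * (2 * (k.factorial : ℝ) * (n.choose k : ℝ)) := by
          gcongr
      _ = 2 * (n.choose k : ℝ) * (Real.exp k * (k.factorial : ℝ)) := by ring
      _ ≤ 2 * (n.choose k : ℝ) * (Real.exp 1 * √(k : ℝ) * (k : ℝ) ^ k) := by gcongr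
      _ = _ := by ring
  have h11 : Real.exp 2 * (2 * Real.exp 1) ≤ 50 := by
    have h12 : Real.exp 2 = Real.exp 1 ^ 2 := by rw [← Real.exp_nat_mul]; norm_num
    have h13 : Real.exp 1 < 2.7182818286 := Real.exp_one_lt_d9
    have h14 := Real.exp_pos 1
    rw [h12]
    have h15 : Real.exp 1 ^ 2 ≤ 2.7182818286 ^ 2 := pow_le_pow_left₀ h14.le h13.le 2
    nlinarith
  have hrk : r ^ k * ((1 - c) ^ k * (n : ℝ) ^ k) = (k : ℝ) ^ k := by
    rw [← mul_pow, ← mul_pow, ← hA, h2]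
  have hfin : ‖CC1h.ek P x k‖ * (k : ℝ) ^ k ≤
      (50 * √(k : ℝ) * (1 - c) ^ k * (n.choose k : ℝ)) * (k : ℝ) ^ k := by
    calc ‖CC1h.ek P x k‖ * (k : ℝ) ^ k =
          (‖CC1h.ek P x k‖ * r ^ k) * ((1 - c) ^ k * (n : ℝ) ^ k) := by rw [← hrk]; ring
      _ ≤ (Real.exp k * Real.exp 2) * ((1 - c) ^ k * (n : ℝ) ^ k) := by gcongr
      _ = (Real.exp 2 * (1 - c) ^ k) * (Real.exp k * (n : ℝ) ^ k) := by ring
      _ ≤ (Real.exp 2 * (1 - c) ^ k) *
          (2 * Real.exp 1 * √(k : ℝ) * (n.choose k : ℝ) * (k : ℝ) ^ k) := by gcongr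
      _ = (Real.exp 2 * (2 * Real.exp 1)) * (√(k : ℝ) * (1 - c) ^ k * (n.choose k : ℝ) * (k : ℝ) ^ k) := by
          ring
      _ ≤ 50 * (√(k : ℝ) * (1 - c) ^ k * (n.choose k : ℝ) * (k : ℝ) ^ k) := by gcongr
      _ = _ := by ring
  exact le_of_mul_le_mul_right hfin (by positivity)

end Pool.Agent.H38R2.CG
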