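import Pool.Agent.H52.V.S8.H38R2.CG.Stubs

/-!
# Task CC3: no correlation with n^{it}
-/

set_option autoImplicit false

namespace Pool.Agent.H38R2.CG

open Finset Filter
open scoped Classical

namespace CC3h

open Complex (I)

theorem norm_exp_sub (a b : ℝ) :
    ‖Complex.exp (a * I) - Complex.exp (b * I)‖ ≤ |a - b| := by
  have h1 : Complex.exp (a * I) - Complex.exp (b * I) =
      Complex.exp (b * I) * (Complex.exp (I * ((a - b : ℝ) : ℂ)) - 1) := by
    rw [mul_sub, mul_one, ← Complex.exp_add]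
    congr 2
    push_cast
    ring
  rw [h1, norm_mul, Complex.norm_exp_ofReal_mul_I, one_mul]
  exact Real.norm_exp_I_mul_ofReal_sub_one_le

theorem near_int {α ε : ℝ} (h : ‖Complex.exp (α * I) - 1‖ ≤ ε) :
    ∃ n : ℤ, |α - 2 * Real.pi * n| ≤ 2 * ε := by
  have hpi := Real.pi_pos
  refine ⟨round (α / (2 * Real.pi)), ?_⟩
  set n := round (α / (2 * Real.pi))
  have h1 : |α / (2 * Real.pi) - n| ≤ 1 / 2 := abs_sub_round _
  set β := α - 2 * Real.pi * n with hβ
  have h2 : β = (α / (2 * Real.pi) - n) * (2 * Real.pi) := by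
    rw [hβ]; field_simp
  have h3 : |β| ≤ Real.pi := by
    rw [h2, abs_mul, abs_of_pos (by positivity : 0 < 2 * Real.pi)]
    nlinarith
  have h4 : Complex.exp (α * I) = Complex.exp (I * (β : ℂ)) := by
    have : (α : ℂ) * I = I * (β : ℂ) + n * (2 * Real.pi * I) := by
      rw [hβ]; push_cast; ring
    rw [this, Complex.exp_add, Complex.exp_int_mul_two_pi_mul_I, mul_one]
  rw [h4, Complex.norm_exp_I_mul_ofReal_sub_one, Real.norm_eq_abs, abs_mul, abs_two] at h
  have h5 : 2 / Real.pi * (|β| / 2) ≤ Real.sin (|β| / 2) :=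
    Real.mul_le_sin (by positivity) (by linarith)
  have h6 : Real.sin (|β| / 2) ≤ |Real.sin (β / 2)| := by
    rcases abs_cases β with ⟨hb, -⟩ | ⟨hb, -⟩
    · rw [hb]; exact le_abs_self _
    · rw [hb, neg_div, Real.sin_neg]; exact neg_le_abs _
  have h7 : 2 * (2 / Real.pi * (|β| / 2)) ≤ ε := by linarith
  have h8 : 2 * (2 / Real.pi * (|β| / 2)) = 2 * |β| / Real.pi := by ring
  rw [h8, div_le_iff₀ hpi] at h7
  have h9 : 0 ≤ ε := (mul_nonneg (by norm_num) (abs_nonneg _)).trans h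
  have h10 := Real.pi_le_four
  nlinarith

theorem norm_pow_sub {z : ℂ} (hz : ‖z‖ ≤ 1) (n : ℕ) : ‖z ^ n - 1‖ ≤ n * ‖z - 1‖ := by
  induction n with
  | zero => simp
  | succ n ih =>
    have h1 : z ^ (n + 1) - 1 = z ^ n * (z - 1) + (z ^ n - 1) := by ring
    rw [h1]
    refine (norm_add_le _ _).trans ?_
    rw [norm_mul, norm_pow]
    have h2 : ‖z‖ ^ n ≤ 1 := pow_le_one₀ (norm_nonneg _) hz
    have h3 : ‖z‖ ^ n * ‖z - 1‖ ≤ 1 * ‖z - 1‖ := mul_le_mul_of_nonneg_right h2 (norm_nonneg _)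
    push_cast
    linarith

theorem card_int_le (s : Finset ℤ) {D : ℝ} (hD : 0 ≤ D)
    (h : ∀ a ∈ s, ∀ b ∈ s, (a : ℝ) - b ≤ D) : (s.card : ℝ) ≤ D + 1 := by
  rcases s.eq_empty_or_nonempty with rfl | hs
  · simp; linarith
  · have hsub : s ⊆ Finset.Icc (s.min' hs) (s.min' hs + ⌊D⌋) := by
      intro a ha
      rw [Finset.mem_Icc]
      refine ⟨s.min'_le a ha, ?_⟩
      have h1 := h a ha _ (s.min'_mem hs)
      have h2 : a - s.min' hs ≤ ⌊D⌋ := by
        rw [Int.le_floor]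
        push_cast
        exact h1
      omega
    have h1 := Finset.card_le_card hsub
    rw [Int.card_Icc] at h1
    have h2 : 0 ≤ ⌊D⌋ := Int.floor_nonneg.2 hD
    have h3 : (s.card : ℤ) ≤ ⌊D⌋ + 1 := by omega
    have h4 : (s.card : ℝ) ≤ (⌊D⌋ : ℝ) + 1 := by exact_mod_cast h3
    have h5 := Int.floor_le D
    linarith

theorem fiber_card {C y1 : ℝ} (hC : 0 < C) (hBT : ∀ x h y : ℝ, y1 ≤ y → y ≤ x → x ≤ 2 * y →
    y ^ (1 / 3 : ℝ) ≤ h →
    (((Finset.Icc ⌈x⌉₊ ⌊x + h⌋₊).filter Nat.Prime).card : ℝ) ≤ C * h / Real.log y)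
    {y : ℕ} (hy1 : y1 ≤ y) (hy3 : 3 ≤ y) {G : Finset ℕ} (hG : G ⊆ PP y) {t : ℝ} (ht0 : 0 ≤ t)
    (ht1 : t ≤ 1) (hcl : ∀ p ∈ G, ∀ q ∈ G, Real.log p - Real.log q ≤ t)
    (hh : (y : ℝ) ^ (1 / 3 : ℝ) ≤ 4 * t * y) : (G.card : ℝ) ≤ C * (4 * t * y) / Real.log y := by
  have hlog : 0 < Real.log y := Real.log_pos (by exact_mod_cast (by omega : 1 < y))
  rcases G.eq_empty_or_nonempty with rfl | hne
  · simp only [Finset.card_empty, Nat.cast_zero]
    positivity
  · set p₀ := G.min' hne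
    have hp₀ : p₀ ∈ G := G.min'_mem hne
    have hp₀' := hG hp₀
    unfold PP at hp₀'
    rw [Finset.mem_filter, Finset.mem_Ioc] at hp₀'
    have e1 : (y : ℝ) ≤ p₀ := by exact_mod_cast hp₀'.1.1.le
    have e2 : (p₀ : ℝ) ≤ 2 * y := by exact_mod_cast hp₀'.1.2
    refine le_trans ?_ (hBT p₀ (4 * t * y) y hy1 e1 e2 hh)
    rw [Nat.cast_le]
    refine Finset.card_le_card fun q hq => ?_
    have hq' := hG hq
    unfold PP at hq'
    rw [Finset.mem_filter, Finset.mem_Ioc] at hq'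
    rw [Finset.mem_filter, Finset.mem_Icc, Nat.ceil_natCast]
    have hp0 : (0 : ℝ) < p₀ := by
      have : (0 : ℝ) < y := by positivity
      linarith
    have hq0 : (0 : ℝ) < q := by exact_mod_cast hq'.2.pos
    refine ⟨⟨G.min'_le q hq, ?_⟩, hq'.2⟩
    rw [Nat.le_floor_iff (by positivity)]
    have h1 := hcl q hq p₀ hp₀
    have h2 : Real.log q ≤ Real.log p₀ + t := by linarith
    have h3 : (q : ℝ) ≤ p₀ * Real.exp t := by
      rw [← Real.exp_log hq0, ← Real.exp_log hp0, ← Real.exp_add]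
      exact Real.exp_le_exp.2 h2
    have h4 : Real.exp t ≤ 1 + 2 * t := by
      have := Real.abs_exp_sub_one_le (x := t) (by rw [abs_of_nonneg ht0]; exact ht1)
      rw [abs_of_nonneg ht0] at this
      have := (abs_le.1 this).2
      linarith
    have h5 : (p₀ : ℝ) * Real.exp t ≤ p₀ * (1 + 2 * t) := mul_le_mul_of_nonneg_left h4 hp0.le
    have h6 : (p₀ : ℝ) * t ≤ 2 * y * t := mul_le_mul_of_nonneg_right e2 ht0
    nlinarith

theorem log_diff {y p q : ℕ} (hy : 1 ≤ y) (hp : p ∈ PP y) (hq : q ∈ Finset.Icc y (2 * y)) :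
    |Real.log p - Real.log q| ≤ 1 := by
  unfold PP at hp
  rw [Finset.mem_filter, Finset.mem_Ioc] at hp
  rw [Finset.mem_Icc] at hq
  have hy0 : (0 : ℝ) < y := by exact_mod_cast hy
  have key : ∀ a : ℕ, y ≤ a → a ≤ 2 * y →
      Real.log y ≤ Real.log a ∧ Real.log a ≤ Real.log y + 1 := by
    intro a h1 h2
    have h1' : (y : ℝ) ≤ a := by exact_mod_cast h1
    have h2' : (a : ℝ) ≤ 2 * y := by exact_mod_cast h2
    refine ⟨Real.log_le_log hy0 h1', ?_⟩
    have h3 := Real.log_le_log (by linarith) h2'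
    rw [Real.log_mul (by norm_num) hy0.ne'] at h3
    have h4 := Real.log_two_lt_d9
    linarith
  have h1 := key p hp.1.1.le hp.1.2
  have h2 := key q hq.1 hq.2
  rw [abs_le]
  constructor <;> linarith [h1.1, h1.2, h2.1, h2.2]

theorem PP_sub {y p : ℕ} (hp : p ∈ PP y) : p ∈ Finset.Icc y (2 * y) := by
  unfold PP at hp
  rw [Finset.mem_filter, Finset.mem_Ioc] at hp
  rw [Finset.mem_Icc]
  exact ⟨hp.1.1.le, hp.1.2⟩

theorem norm_le_one {M : ℕ} (hM : 1 ≤ M) {z : ℂ} (h : z = 0 ∨ z ^ M = 1) : ‖z‖ ≤ 1 := by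
  rcases h with rfl | h
  · simp
  · exact (Complex.norm_eq_one_of_pow_eq_one h (by omega)).le

theorem case1 {y : ℕ} (hy : 1 ≤ y) {x : ℕ → ℂ} (hx : ∀ p ∈ PP y, ‖x p‖ ≤ 1)
    (hs : ‖∑ p ∈ PP y, x p‖ ≤ (9 / 10 : ℝ) * (PP y).card) {ξ : ℝ} (h : |ξ| ≤ 1 / 20) :
    ‖∑ p ∈ PP y, x p * Complex.exp (((ξ * Real.log p : ℝ) : ℂ) * I)‖ ≤
      (19 / 20 : ℝ) * (PP y).card := by
  have e1 : ∑ p ∈ PP y, x p * Complex.exp (((ξ * Real.log p : ℝ) : ℂ) * I) =
      (∑ p ∈ PP y, x p) * Complex.exp (((ξ * Real.log y : ℝ) : ℂ) * I) +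
      ∑ p ∈ PP y, x p * (Complex.exp (((ξ * Real.log p : ℝ) : ℂ) * I) -
        Complex.exp (((ξ * Real.log y : ℝ) : ℂ) * I)) := by
    rw [Finset.sum_mul, ← Finset.sum_add_distrib]
    refine Finset.sum_congr rfl fun p _ => ?_
    ring
  rw [e1]
  refine (norm_add_le _ _).trans ?_
  rw [norm_mul, Complex.norm_exp_ofReal_mul_I, mul_one]
  have e2 : ‖∑ p ∈ PP y, x p * (Complex.exp (((ξ * Real.log p : ℝ) : ℂ) * I) -
        Complex.exp (((ξ * Real.log y : ℝ) : ℂ) * I))‖ ≤ ∑ p ∈ PP y, (1 / 20 : ℝ) := by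
    refine (norm_sum_le _ _).trans (Finset.sum_le_sum fun p hp => ?_)
    rw [norm_mul]
    have h1 := norm_exp_sub (ξ * Real.log p) (ξ * Real.log y)
    have h2 : |ξ * Real.log p - ξ * Real.log y| ≤ 1 / 20 := by
      rw [← mul_sub, abs_mul]
      have h3 := log_diff hy hp (q := y) (Finset.mem_Icc.2 ⟨le_rfl, by omega⟩)
      calc |ξ| * |Real.log p - Real.log y| ≤ 1 / 20 * 1 :=
            mul_le_mul h h3 (abs_nonneg _) (by norm_num)
        _ = 1 / 20 := by norm_num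
    calc ‖x p‖ * _ ≤ 1 * (1 / 20 : ℝ) :=
          mul_le_mul (hx p hp) (h1.trans h2) (norm_nonneg _) (by norm_num)
      _ = 1 / 20 := by norm_num
  rw [Finset.sum_const, nsmul_eq_mul] at e2
  linarith

theorem case2 {M : ℕ} (hM : 1 ≤ M) {C y1 : ℝ} (hC : 0 < C) (hBT : ∀ x h y : ℝ, y1 ≤ y → y ≤ x →
    x ≤ 2 * y → y ^ (1 / 3 : ℝ) ≤ h →
    (((Finset.Icc ⌈x⌉₊ ⌊x + h⌋₊).filter Nat.Prime).card : ℝ) ≤ C * h / Real.log y)
    {δ : ℝ} (hδ : 0 < δ) (hδ1 : 80 * M * δ ≤ 1) (hδ2 : 40 * C * (M + 40) * δ ≤ 1)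
    {y : ℕ} (hy1 : y1 ≤ y) (hy3 : 3 ≤ y) (hy6 : (y : ℝ) ^ (1 / 3 : ℝ) ≤ 16 * δ * √(y : ℝ))
    (hpi : (9 / 10 : ℝ) * y / Real.log y ≤ (PP y).card) {x : ℕ → ℂ}
    (hx : ∀ p ∈ PP y, x p = 0 ∨ x p ^ M = 1) {ξ : ℝ} (h1 : 1 / 20 ≤ |ξ|) (h2 : |ξ| ≤ √(y : ℝ)) :
    ‖∑ p ∈ PP y, x p * Complex.exp (((ξ * Real.log p : ℝ) : ℂ) * I)‖ ≤
      (1 - δ ^ 2 / 8) * (PP y).card := by
  by_contra hcon
  push Not at hcon
  have hy0 : (0 : ℝ) < y := by positivity
  have hlog : 0 < Real.log y := Real.log_pos (by exact_mod_cast (by omega : 1 < y))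
  have hM1 : (1 : ℝ) ≤ M := by exact_mod_cast hM
  have hξ : 0 < |ξ| := by linarith
  have hδ80 : 80 * δ ≤ 1 := by nlinarith
  set P : ℝ := ((PP y).card : ℝ) with hP
  have hPpos : 0 < P := lt_of_lt_of_le (by positivity) hpi
  set S := ∑ p ∈ PP y, x p * Complex.exp (((ξ * Real.log p : ℝ) : ℂ) * I) with hS
  have hS0 : 0 < ‖S‖ := by
    refine lt_of_le_of_lt ?_ hcon
    have : 0 ≤ 1 - δ ^ 2 / 8 := by nlinarith
    positivity
  set w : ℂ := (starRingEnd ℂ) S / (‖S‖ : ℂ) with hw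
  have hwS : w * S = (‖S‖ : ℂ) := by
    rw [hw, div_mul_eq_mul_div, Complex.conj_mul', sq, mul_div_assoc, div_self, mul_one]
    exact_mod_cast hS0.ne'
  have hw1 : ‖w‖ = 1 := by
    rw [hw, norm_div, Complex.norm_conj, Complex.norm_real, norm_norm, div_self hS0.ne']
  set z : ℕ → ℂ := fun p => w * (x p * Complex.exp (((ξ * Real.log p : ℝ) : ℂ) * I)) with hz
  have hz1 : ∀ p ∈ PP y, ‖z p‖ ≤ 1 := by
    intro p hp
    rw [hz]
    simp only [norm_mul, hw1, Complex.norm_exp_ofReal_mul_I, one_mul, mul_one]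
    exact norm_le_one hM (hx p hp)
  have hsum : ∑ p ∈ PP y, (z p).re = ‖S‖ := by
    have : ∑ p ∈ PP y, z p = (‖S‖ : ℂ) := by
      rw [hz, ← Finset.mul_sum, ← hS, hwS]
    rw [← Complex.re_sum, this, Complex.ofReal_re]
  have hre : ∀ p ∈ PP y, (z p).re ≤ 1 := fun p hp => (Complex.re_le_norm _).trans (hz1 p hp)
  have hsum2 : ∑ p ∈ PP y, (1 - (z p).re) < δ ^ 2 / 8 * P := by
    rw [Finset.sum_sub_distrib, hsum, Finset.sum_const, nsmul_eq_mul, mul_one]
    linarith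
  have hsq : ∀ p ∈ PP y, ‖z p - 1‖ ^ 2 ≤ 2 * (1 - (z p).re) := by
    intro p hp
    have h3 : ‖z p - 1‖ ^ 2 = ‖z p‖ ^ 2 - 2 * (z p).re + 1 := by
      rw [Complex.sq_norm, Complex.sq_norm, Complex.normSq_apply, Complex.normSq_apply]
      simp only [Complex.sub_re, Complex.sub_im, Complex.one_re, Complex.one_im]
      ring
    have h4 : ‖z p‖ ^ 2 ≤ 1 := pow_le_one₀ (norm_nonneg _) (hz1 p hp)
    linarith
  set G := (PP y).filter (fun p => ‖z p - 1‖ ≤ δ) with hG
  set B := (PP y).filter (fun p => ¬ ‖z p - 1‖ ≤ δ) with hB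
  have hGB : (G.card : ℝ) + B.card = P := by
    rw [hP, hG, hB]
    exact_mod_cast Finset.card_filter_add_card_filter_not (s := PP y) (fun p => ‖z p - 1‖ ≤ δ)
  -- few bad primes
  have hBc : (B.card : ℝ) ≤ P / 4 := by
    have h3 : ∑ p ∈ B, δ ^ 2 / 2 ≤ ∑ p ∈ B, (1 - (z p).re) := by
      refine Finset.sum_le_sum fun p hp => ?_
      rw [hB, Finset.mem_filter, not_le] at hp
      have h4 := hsq p hp.1
      have h5 : δ ^ 2 ≤ ‖z p - 1‖ ^ 2 := pow_le_pow_left₀ hδ.le hp.2.le 2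
      linarith
    have h4 : ∑ p ∈ B, (1 - (z p).re) ≤ ∑ p ∈ PP y, (1 - (z p).re) := by
      refine Finset.sum_le_sum_of_subset_of_nonneg (Finset.filter_subset _ _) ?_
      intro p hp _
      linarith [hre p hp]
    rw [Finset.sum_const, nsmul_eq_mul] at h3
    have h5 : (B.card : ℝ) * (δ ^ 2 / 2) ≤ P / 4 * (δ ^ 2 / 2) := by
      have : P / 4 * (δ ^ 2 / 2) = δ ^ 2 / 8 * P := by ring
      rw [this]
      linarith
    exact le_of_mul_le_mul_right h5 (by positivity)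
  -- the good primes
  set th := Complex.arg w with hth
  set al : ℕ → ℝ := fun p => M * th + M * (ξ * Real.log p) with hal
  have hgood : ∀ p ∈ G, ∃ n : ℤ, |al p - 2 * Real.pi * n| ≤ 2 * (M * δ) := by
    intro p hp
    rw [hG, Finset.mem_filter] at hp
    apply near_int
    have hx1 : x p ^ M = 1 := by
      rcases hx p hp.1 with h3 | h3
      · exfalso
        have h4 : z p = 0 := by rw [hz]; simp [h3]
        have h5 := hp.2
        rw [h4, zero_sub, norm_neg, norm_one] at h5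
        linarith
      · exact h3
    have hzM : z p ^ M = Complex.exp ((al p : ℂ) * I) := by
      have hwe : w = Complex.exp ((th : ℂ) * I) := by
        have := Complex.norm_mul_exp_arg_mul_I w
        rw [hw1, Complex.ofReal_one, one_mul] at this
        exact this.symm
      have h3 : z p ^ M = w ^ M * (x p ^ M * Complex.exp (((ξ * Real.log p : ℝ) : ℂ) * I) ^ M) := by
        rw [hz]
        simp only [mul_pow]
      rw [h3, hx1, one_mul, hwe, ← Complex.exp_nat_mul, ← Complex.exp_nat_mul, ← Complex.exp_add]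
      congr 1
      rw [hal]
      push_cast
      ring
    rw [← hzM]
    refine (norm_pow_sub (hz1 p hp.1) M).trans ?_
    exact mul_le_mul_of_nonneg_left hp.2 (by positivity)
  choose! n hn using hgood
  set t : ℝ := 4 * δ / |ξ| with ht
  have hMδ : 80 * (M * δ) ≤ 1 := by linarith
  have hdiff : ∀ p ∈ G, ∀ q ∈ G, |(al p - al q)| = M * |ξ| * |Real.log p - Real.log q| := by
    intro p _ q _
    have : al p - al q = M * (ξ * (Real.log p - Real.log q)) := by rw [hal]; ring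
    rw [this, abs_mul, abs_mul, Nat.abs_cast]
    ring
  -- the image
  have himg : ((G.image n).card : ℝ) ≤ (M * |ξ| + 1) + 1 := by
    refine card_int_le _ (by positivity) ?_
    intro a ha b hb
    rw [Finset.mem_image] at ha hb
    obtain ⟨p, hp, rfl⟩ := ha
    obtain ⟨q, hq, rfl⟩ := hb
    have h3 := abs_le.1 (hn p hp)
    have h4 := abs_le.1 (hn q hq)
    have h5 := hdiff p hp q hq
    have h6 : |Real.log p - Real.log q| ≤ 1 := by
      rw [hG, Finset.mem_filter] at hp hq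
      exact log_diff (by omega) hp.1 (PP_sub hq.1)
    have h7 : al p - al q ≤ M * |ξ| := by
      refine (le_abs_self _).trans ?_
      rw [h5]
      calc (M : ℝ) * |ξ| * |Real.log p - Real.log q| ≤ M * |ξ| * 1 :=
            mul_le_mul_of_nonneg_left h6 (by positivity)
        _ = M * |ξ| := mul_one _
    have h8 : 2 * Real.pi * ((n p : ℝ) - n q) ≤ M * |ξ| + 1 := by
      have : 2 * Real.pi * ((n p : ℝ) - n q) = (al p - al q) - (al p - 2 * Real.pi * n p) +
        (al q - 2 * Real.pi * n q) := by ring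
      rw [this]
      linarith [h3.1, h4.2]
    have h9 := Real.pi_gt_three
    rcases le_or_gt ((n p : ℝ) - n q) 0 with h10 | h10
    · have : 0 ≤ M * |ξ| := by positivity
      linarith
    · nlinarith
  -- the fibres
  have ht0 : 0 ≤ t := by rw [ht]; positivity
  have ht1 : t ≤ 1 := by
    rw [ht, div_le_one hξ]
    linarith
  have hfib : ∀ b ∈ G.image n, (((G.filter (fun p => n p = b)).card : ℕ) : ℝ) ≤
      C * (4 * t * y) / Real.log y := by
    intro b _
    refine fiber_card hC hBT hy1 hy3 ?_ ht0 ht1 ?_ ?_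
    · exact (Finset.filter_subset _ _).trans (Finset.filter_subset _ _)
    · intro p hp q hq
      rw [Finset.mem_filter] at hp hq
      have h3 := hn p hp.1
      have h4 := hn q hq.1
      rw [hp.2] at h3
      rw [hq.2] at h4
      have h5 : |al p - al q| ≤ 4 * (M * δ) := by
        have : al p - al q = (al p - 2 * Real.pi * b) - (al q - 2 * Real.pi * b) := by ring
        rw [this]
        refine (abs_sub _ _).trans ?_
        linarith
      rw [hdiff p hp.1 q hq.1] at h5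
      have h6 : |Real.log p - Real.log q| ≤ t := by
        rw [ht, le_div_iff₀ hξ]
        have h7 : (M : ℝ) * (|Real.log p - Real.log q| * |ξ|) ≤ M * (4 * δ) := by linarith
        exact le_of_mul_le_mul_left h7 (by linarith)
      exact (le_abs_self _).trans h6
    · refine hy6.trans ?_
      rw [ht]
      have h3 : √(y : ℝ) * |ξ| ≤ y := by
        calc √(y : ℝ) * |ξ| ≤ √(y : ℝ) * √(y : ℝ) :=
              mul_le_mul_of_nonneg_left h2 (Real.sqrt_nonneg _)
          _ = y := Real.mul_self_sqrt hy0.le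
      have h4 : 4 * (4 * δ / |ξ|) * (y : ℝ) = 16 * δ * (y / |ξ|) := by
        field_simp
        ring
      rw [h4]
      refine mul_le_mul_of_nonneg_left ?_ (by positivity)
      rw [le_div_iff₀ hξ]
      exact h3
  have hGc : (G.card : ℝ) ≤ ((M * |ξ| + 1) + 1) * (C * (4 * t * y) / Real.log y) := by
    have h3 := Finset.card_eq_sum_card_image n G
    have h4 : (G.card : ℝ) = ∑ b ∈ G.image n, ((G.filter (fun p => n p = b)).card : ℝ) := by
      exact_mod_cast h3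
    rw [h4]
    refine (Finset.sum_le_sum hfib).trans ?_
    rw [Finset.sum_const, nsmul_eq_mul]
    exact mul_le_mul_of_nonneg_right himg (by positivity)
  have hGc2 : (G.card : ℝ) ≤ 2 / 5 * (y / Real.log y) := by
    refine hGc.trans ?_
    have h3 : ((M * |ξ| + 1) + 1) * (C * (4 * t * y) / Real.log y) =
        16 * C * δ * (M + 2 / |ξ|) * (y / Real.log y) := by
      rw [ht]
      field_simp
      ring
    rw [h3]
    refine mul_le_mul_of_nonneg_right ?_ (by positivity)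
    have h4 : 2 / |ξ| ≤ 40 := by
      rw [div_le_iff₀ hξ]
      linarith
    have h5 : 16 * C * δ * (M + 2 / |ξ|) ≤ 16 * C * δ * (M + 40) :=
      mul_le_mul_of_nonneg_left (by linarith) (by positivity)
    have h6 : 16 * C * δ * (M + 40) = 2 / 5 * (40 * C * (M + 40) * δ) := by ring
    rw [h6] at h5
    linarith
  have h3 : (9 / 10 : ℝ) * y / Real.log y = 9 / 10 * (y / Real.log y) := by ring
  rw [h3] at hpi
  linarith

end CC3h

open CC3h in
theorem T_CC3 : P_BT → P_NB → P_CC3 := by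
  rintro ⟨C, y1, hC, hBT⟩ ⟨-, y2, hNB⟩ M hM
  have hM1 : (1 : ℝ) ≤ M := by exact_mod_cast hM
  set δ : ℝ := min (1 / (80 * M)) (1 / (40 * C * (M + 40))) with hδd
  have hδ : 0 < δ := lt_min (by positivity) (by positivity)
  have hδ1 : 80 * M * δ ≤ 1 := by
    have h1 : δ ≤ 1 / (80 * M) := min_le_left _ _
    rw [le_div_iff₀ (by positivity)] at h1
    linarith
  have hδ2 : 40 * C * (M + 40) * δ ≤ 1 := by
    have h1 : δ ≤ 1 / (40 * C * (M + 40)) := min_le_right _ _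
    rw [le_div_iff₀ (by positivity)] at h1
    linarith
  have hδ80 : 80 * δ ≤ 1 := by nlinarith
  have hev : ∀ᶠ y : ℕ in atTop, 1 / (16 * δ) ≤ (y : ℝ) ^ (1 / 6 : ℝ) :=
    ((tendsto_rpow_atTop (by norm_num : (0 : ℝ) < 1 / 6)).comp
      tendsto_natCast_atTop_atTop).eventually (eventually_ge_atTop _)
  obtain ⟨y3, hy3⟩ := eventually_atTop.1 hev
  refine ⟨δ ^ 2 / 8, by positivity, by nlinarith, max (max ⌈y1⌉₊ y2) (max y3 3), ?_⟩
  intro y hy x hx hs ξ hξ
  have hya : ⌈y1⌉₊ ≤ y := le_trans (le_trans (le_max_left _ _) (le_max_left _ _)) hy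
  have hyb : y2 ≤ y := le_trans (le_trans (le_max_right _ _) (le_max_left _ _)) hy
  have hyc : y3 ≤ y := le_trans (le_trans (le_max_left _ _) (le_max_right _ _)) hy
  have hyd : 3 ≤ y := le_trans (le_trans (le_max_right _ _) (le_max_right _ _)) hy
  have hy0 : (0 : ℝ) < y := by positivity
  have e1 : ∑ p ∈ PP y, x p * Complex.exp (ξ * Real.log p * Complex.I) =
      ∑ p ∈ PP y, x p * Complex.exp (((ξ * Real.log p : ℝ) : ℂ) * Complex.I) := by
    refine Finset.sum_congr rfl fun p _ => ?_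
    push_cast
    rfl
  rw [e1]
  rcases le_or_gt |ξ| (1 / 20) with h | h
  · refine (case1 (by omega) (fun p hp => norm_le_one hM (hx p hp)) hs h).trans ?_
    refine mul_le_mul_of_nonneg_right ?_ (Nat.cast_nonneg _)
    nlinarith
  · refine case2 hM hC hBT hδ hδ1 hδ2 ((Nat.le_ceil y1).trans (by exact_mod_cast hya)) hyd ?_
      (hNB y hyb).1 hx h.le hξ
    have h1 := hy3 y hyc
    rw [div_le_iff₀ (by positivity)] at h1
    have h2 : √(y : ℝ) = (y : ℝ) ^ (1 / 3 : ℝ) * (y : ℝ) ^ (1 / 6 : ℝ) := by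
      rw [← Real.rpow_add hy0, Real.sqrt_eq_rpow]
      norm_num
    rw [h2]
    have h3 : 0 ≤ (y : ℝ) ^ (1 / 3 : ℝ) := by positivity
    calc (y : ℝ) ^ (1 / 3 : ℝ) = (y : ℝ) ^ (1 / 3 : ℝ) * 1 := (mul_one _).symm
      _ ≤ (y : ℝ) ^ (1 / 3 : ℝ) * ((y : ℝ) ^ (1 / 6 : ℝ) * (16 * δ)) :=
          mul_le_mul_of_nonneg_left h1 h3
      _ = _ := by ring

end Pool.Agent.H38R2.CG
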