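import Pool.Agent.H52.V.S8.H38R2.CG.Stubs
import Pool.Agent.H52.V.S8.H262R3.Lk.SWQ

/-!
# CC6: small f are not bad (Siegel-Walfisz)
-/

set_option autoImplicit false

namespace Pool.Agent.H38R2.CG

namespace CC6h

open Finset

/-- Jacobi symbol as a Dirichlet character. -/
noncomputable def jchar (f : ℕ) [NeZero f] : DirichletCharacter ℂ f where
  toFun a := ((jacobiSym (a.val : ℤ) f : ℤ) : ℂ)
  map_one' := by
    have h : ((1 : ZMod f).val : ℤ) % f = 1 % f := by
      have h1 : (((1 : ZMod f).val : ℕ) : ZMod f) = ((1 : ℕ) : ZMod f) := by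
        rw [ZMod.natCast_zmod_val]; simp
      have h2 := (ZMod.natCast_eq_natCast_iff _ _ _).mp h1
      have h3 : ((1 : ZMod f).val) % f = 1 % f := h2
      exact_mod_cast h3
    rw [jacobiSym.mod_left, h, ← jacobiSym.mod_left]
    simp
  map_mul' a b := by
    have h : (((a * b).val : ℕ) : ℤ) % f = ((a.val : ℤ) * (b.val : ℤ)) % f := by
      have h1 : (((a * b).val : ℕ) : ZMod f) = ((a.val * b.val : ℕ) : ZMod f) := by
        rw [ZMod.natCast_zmod_val]; push_cast; rw [ZMod.natCast_zmod_val, ZMod.natCast_zmod_val]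
      have h2 := (ZMod.natCast_eq_natCast_iff _ _ _).mp h1
      have h3 : ((a * b).val) % f = (a.val * b.val) % f := h2
      exact_mod_cast h3
    rw [jacobiSym.mod_left, h, ← jacobiSym.mod_left, jacobiSym.mul_left]
    push_cast
    ring
  map_nonunit' a ha := by
    have h1 : ¬ (a.val).Coprime f := by
      intro hc
      apply ha
      have := (ZMod.isUnit_iff_coprime a.val f).mpr hc
      rwa [ZMod.natCast_zmod_val] at this
    have h2 : jacobiSym (a.val : ℤ) f = 0 := by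
      rw [jacobiSym.eq_zero_iff_not_coprime, Int.gcd_natCast_natCast]
      exact h1
    rw [h2]; simp

theorem jchar_apply (f : ℕ) [NeZero f] (n : ℕ) :
    jchar f (n : ZMod f) = ((jacobiSym (n : ℤ) f : ℤ) : ℂ) := by
  change ((jacobiSym (((n : ZMod f)).val : ℤ) f : ℤ) : ℂ) = _
  rw [ZMod.val_natCast]
  push_cast
  rw [← jacobiSym.mod_left]

/-- a nonresidue. -/
theorem exists_neg (f : ℕ) (hf : 1 < f) (hs : Squarefree f) (ho : f.Coprime 2) :
    ∃ a : ℕ, jacobiSym (a : ℤ) f = -1 := by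
  obtain ⟨l, hl, hlf⟩ := Nat.exists_prime_and_dvd (by omega : f ≠ 1)
  obtain ⟨g, rfl⟩ := hlf
  have : Fact l.Prime := ⟨hl⟩
  have hl2 : l ≠ 2 := by
    rintro rfl
    have h := Nat.Coprime.coprime_dvd_left (dvd_mul_right 2 g) ho
    norm_num at h
  have hcop : l.Coprime g := Nat.coprime_of_squarefree_mul hs
  obtain ⟨x, hx⟩ := quadraticChar_exists_neg_one (F := ZMod l) (by rw [ZMod.ringChar_zmod_n]; exact hl2)
  obtain ⟨a, ha1, ha2⟩ := Nat.chineseRemainder hcop x.val 1
  refine ⟨a, ?_⟩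
  have hg0 : g ≠ 0 := by rintro rfl; simp at hf
  have : NeZero g := ⟨hg0⟩
  have : NeZero l := ⟨hl.ne_zero⟩
  rw [jacobiSym.mul_right]
  have e1 : jacobiSym (a : ℤ) l = -1 := by
    have h1 : ((a : ℤ)) % l = ((x.val : ℕ) : ℤ) % l := by
      have : a % l = x.val % l := ha1
      exact_mod_cast this
    rw [jacobiSym.mod_left, h1, ← jacobiSym.mod_left, ← jacobiSym.legendreSym.to_jacobiSym]
    unfold legendreSym
    have : (((x.val : ℕ) : ℤ) : ZMod l) = x := by
      rw [Int.cast_natCast, ZMod.natCast_zmod_val]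
    rw [this, hx]
  have e2 : jacobiSym (a : ℤ) g = 1 := by
    have h1 : ((a : ℤ)) % g = ((1 : ℕ) : ℤ) % g := by
      have : a % g = 1 % g := ha2
      exact_mod_cast this
    rw [jacobiSym.mod_left, h1, ← jacobiSym.mod_left]
    simp
  rw [e1, e2]; rfl

/-- the product character. -/
theorem exists_char (M f : ℕ) (hM : 1 ≤ M) (hf : 1 ≤ f) (hs : Squarefree f)
    (hc : f.Coprime (2 * M)) (ψ : DirichletCharacter ℂ M) (hψ : ¬ (ψ = 1 ∧ f = 1)) :
    ∃ (q : ℕ) (χ : DirichletCharacter ℂ q), 1 < q ∧ q ≤ M * f ∧ χ.IsPrimitive ∧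
      ∀ p : ℕ, p.Prime → M * f < p →
        χ (p : ZMod q) = ψ (p : ZMod M) * ((jacobiSym (p : ℤ) f : ℤ) : ℂ) := by
  have : NeZero M := ⟨by omega⟩
  have : NeZero f := ⟨by omega⟩
  have : NeZero (M * f) := ⟨Nat.mul_ne_zero (by omega) (by omega)⟩
  set χ : DirichletCharacter ℂ (M * f) :=
    DirichletCharacter.changeLevel (dvd_mul_right M f) ψ *
      DirichletCharacter.changeLevel (dvd_mul_left f M) (jchar f) with hχ
  have happ : ∀ n : ℕ, n.Coprime (M * f) →
      χ (n : ZMod (M * f)) = ψ (n : ZMod M) * ((jacobiSym (n : ℤ) f : ℤ) : ℂ) := by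
    intro n hn
    have hu : IsUnit ((n : ℕ) : ZMod (M * f)) := (ZMod.isUnit_iff_coprime n (M * f)).mpr hn
    rw [hχ, MulChar.mul_apply]
    obtain ⟨u, hu'⟩ := hu
    rw [← hu', DirichletCharacter.changeLevel_eq_cast_of_dvd,
      DirichletCharacter.changeLevel_eq_cast_of_dvd, hu', ZMod.cast_natCast (dvd_mul_right M f),
      ZMod.cast_natCast (dvd_mul_left f M), jchar_apply]
  have hcM : f.Coprime M := Nat.Coprime.coprime_dvd_right (dvd_mul_left M 2) hc
  have hc2 : f.Coprime 2 := Nat.Coprime.coprime_dvd_right (dvd_mul_right 2 M) hc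
  have hne : χ ≠ 1 := by
    intro h1
    by_cases hf1 : f = 1
    · have hψ1 : ψ ≠ 1 := fun h => hψ ⟨h, hf1⟩
      apply hψ1
      subst hf1
      ext u
      obtain ⟨n, hn⟩ : ∃ n : ℕ, (n : ZMod M) = (u : ZMod M) :=
        ⟨(u : ZMod M).val, ZMod.natCast_zmod_val _⟩
      have hcop : n.Coprime M := by
        rw [← ZMod.isUnit_iff_coprime, hn]; exact u.isUnit
      have h2 := happ n (by simpa using hcop)
      have h3 : χ (n : ZMod (M * 1)) = 1 := by
        rw [h1]
        exact MulChar.one_apply ((ZMod.isUnit_iff_coprime n (M * 1)).mpr (by simpa using hcop))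
      rw [h3] at h2
      rw [← hn, MulChar.one_apply (by rw [hn]; exact u.isUnit)]
      simpa using h2.symm
    · obtain ⟨a, ha⟩ := exists_neg f (by omega) hs hc2
      obtain ⟨b, hb1, hb2⟩ := Nat.chineseRemainder hcM a 1
      have hJ : jacobiSym (b : ℤ) f = -1 := by
        have h1 : ((b : ℤ)) % f = (a : ℤ) % f := by
          have : b % f = a % f := hb1
          exact_mod_cast this
        rw [jacobiSym.mod_left, h1, ← jacobiSym.mod_left, ha]
      have hbM : ((b : ℕ) : ZMod M) = ((1 : ℕ) : ZMod M) :=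
        (ZMod.natCast_eq_natCast_iff _ _ _).mpr hb2
      have hbcM : b.Coprime M := by
        rw [← ZMod.isUnit_iff_coprime, hbM]; simp
      have hbcf : b.Coprime f := by
        by_contra hcon
        have : jacobiSym (b : ℤ) f = 0 := by
          rw [jacobiSym.eq_zero_iff_not_coprime]
          simpa [Int.gcd_natCast_natCast] using hcon
        rw [hJ] at this
        norm_num at this
      have hbc : b.Coprime (M * f) := Nat.Coprime.mul_right hbcM hbcf
      have h2 := happ b hbc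
      have h3 : χ (b : ZMod (M * f)) = 1 := by
        rw [h1]
        exact MulChar.one_apply ((ZMod.isUnit_iff_coprime b (M * f)).mpr hbc)
      rw [h3, hbM, hJ] at h2
      norm_num at h2
  refine ⟨χ.conductor, χ.primitiveCharacter, ?_, ?_, χ.primitiveCharacter_isPrimitive, ?_⟩
  · have h0 : χ.conductor ≠ 0 := by
      intro h
      have := χ.conductor_dvd_level
      rw [h, zero_dvd_iff] at this
      exact (NeZero.ne (M * f)) this
    have h1 : χ.conductor ≠ 1 := by
      intro h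
      apply hne
      exact (DirichletCharacter.eq_one_iff_conductor_eq_one).mpr h
    omega
  · exact Nat.le_of_dvd (Nat.pos_of_ne_zero (NeZero.ne (M * f))) χ.conductor_dvd_level
  · intro p hp hlt
    have hpc : p.Coprime (M * f) := by
      rw [Nat.Prime.coprime_iff_not_dvd hp]
      intro hd
      have := Nat.le_of_dvd (Nat.pos_of_ne_zero (NeZero.ne (M * f))) hd
      omega
    rw [← happ p hpc]
    have hcc : IsCoprime (p : ℤ) ((M * f : ℕ) : ℤ) := Nat.isCoprime_iff_coprime.mpr hpc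
    have := DirichletCharacter.primitiveCharacter_apply_of_isCoprime χ hcc
    simpa using this

open Pool.Agent.H262R3.Lk.SWQ in
theorem sum_PP (y q : ℕ) (χ : DirichletCharacter ℂ q) :
    ∑ p ∈ PP y, χ (p : ZMod q) * ((Real.log p : ℝ) : ℂ) = SS χ (2 * y) - SS χ y := by
  have h1 : Icc 1 (2 * y) = Icc 1 y ∪ Ioc y (2 * y) := by
    ext k; simp only [mem_Icc, mem_union, mem_Ioc]; omega
  have h2 : Disjoint (Icc 1 y) (Ioc y (2 * y)) := by
    rw [disjoint_left]; intro k; simp only [mem_Icc, mem_Ioc]; omega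
  unfold SS
  rw [h1, sum_union h2, add_sub_cancel_left, PP, sum_filter]
  rfl

open Pool.Agent.H262R3.Lk.SWQ in
theorem key (y q : ℕ) (χ : DirichletCharacter ℂ q) (hy : 1 ≤ y)
    (hL : 20 ≤ Real.log y) (hpi : (9 / 10 : ℝ) * y / Real.log y ≤ (PP y).card)
    (h1 : ‖SS χ y‖ ≤ 20 * y / (Real.log y) ^ 2)
    (h2 : ‖SS χ (2 * y)‖ ≤ 20 * ((2 * y : ℕ) : ℝ) / (Real.log ((2 * y : ℕ) : ℝ)) ^ 2) :
    ‖∑ p ∈ PP y, χ (p : ZMod q)‖ ≤ (9 / 10 : ℝ) * (PP y).card := by
  have hy0 : (0 : ℝ) < y := by exact_mod_cast hy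
  set L := Real.log y with hLdef
  have hL0 : 0 < L := by linarith
  set π : ℝ := ((PP y).card : ℝ) with hπ
  have hlog2 : L ≤ Real.log ((2 * y : ℕ) : ℝ) := by
    apply Real.log_le_log hy0
    push_cast; linarith
  have h3 : ‖SS χ (2 * y)‖ ≤ 40 * y / L ^ 2 := by
    refine h2.trans ?_
    push_cast
    rw [show (20 * (2 * (y : ℝ))) = 40 * y by ring]
    apply div_le_div_of_nonneg_left (by positivity) (by positivity)
    have : L ≤ Real.log (2 * (y : ℝ)) := by simpa using hlog2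
    exact pow_le_pow_left₀ hL0.le this 2
  have h4 : ‖∑ p ∈ PP y, χ (p : ZMod q) * ((Real.log p : ℝ) : ℂ)‖ ≤ 60 * y / L ^ 2 := by
    rw [sum_PP]
    refine (norm_sub_le _ _).trans ?_
    have : 60 * (y : ℝ) / L ^ 2 = 40 * y / L ^ 2 + 20 * y / L ^ 2 := by ring
    rw [this]
    exact add_le_add h3 h1
  have h5 : ‖∑ p ∈ PP y, χ (p : ZMod q) * ((Real.log p - L : ℝ) : ℂ)‖ ≤ π := by
    refine (norm_sum_le _ _).trans ?_
    rw [hπ]
    have : ((PP y).card : ℝ) = ∑ p ∈ PP y, (1 : ℝ) := by simp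
    rw [this]
    apply sum_le_sum
    intro p hp
    rw [PP, mem_filter, mem_Ioc] at hp
    obtain ⟨⟨hp1, hp2⟩, hp3⟩ := hp
    have hpy : (y : ℝ) < p := by exact_mod_cast hp1
    have hp2y : (p : ℝ) ≤ 2 * y := by exact_mod_cast hp2
    rw [norm_mul, Complex.norm_real]
    have ha : 0 ≤ Real.log p - L := by
      have := Real.log_le_log hy0 hpy.le
      linarith
    have hb : Real.log p - L ≤ 1 := by
      have h := Real.log_le_log (by linarith : (0 : ℝ) < p) hp2y
      rw [Real.log_mul (by norm_num) (by positivity)] at h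
      have := Real.log_two_lt_d9
      linarith
    rw [Real.norm_of_nonneg ha]
    calc ‖χ (p : ZMod q)‖ * (Real.log p - L) ≤ 1 * 1 :=
          mul_le_mul (DirichletCharacter.norm_le_one χ _) hb ha zero_le_one
      _ = 1 := one_mul 1
  have h6 : (L : ℂ) * ∑ p ∈ PP y, χ (p : ZMod q) =
      ∑ p ∈ PP y, χ (p : ZMod q) * ((Real.log p : ℝ) : ℂ) -
        ∑ p ∈ PP y, χ (p : ZMod q) * ((Real.log p - L : ℝ) : ℂ) := by
    rw [mul_sum, ← sum_sub_distrib]
    apply sum_congr rfl
    intro p _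
    push_cast; ring
  have h7 : L * ‖∑ p ∈ PP y, χ (p : ZMod q)‖ ≤ 60 * y / L ^ 2 + π := by
    have : L * ‖∑ p ∈ PP y, χ (p : ZMod q)‖ = ‖(L : ℂ) * ∑ p ∈ PP y, χ (p : ZMod q)‖ := by
      rw [norm_mul, Complex.norm_real, Real.norm_of_nonneg hL0.le]
    rw [this, h6]
    exact (norm_sub_le _ _).trans (add_le_add h4 h5)
  have hy2 : (y : ℝ) ≤ (10 / 9) * (L * π) := by
    rw [div_le_iff₀ hL0] at hpi
    linarith
  have hπ0 : 0 ≤ π := by rw [hπ]; positivity
  have h8 : 60 * (y : ℝ) / L ^ 2 ≤ 4 * π := by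
    rw [div_le_iff₀ (by positivity)]
    have : 60 * (y : ℝ) ≤ 60 * ((10 / 9) * (L * π)) := by linarith
    have h9 : 20 * (L * π) ≤ L * (L * π) := mul_le_mul_of_nonneg_right hL (by positivity)
    nlinarith
  have h10 : L * ‖∑ p ∈ PP y, χ (p : ZMod q)‖ ≤ L * ((9 / 10) * π) := by
    have : 20 * ((9 / 10) * π) ≤ L * ((9 / 10) * π) :=
      mul_le_mul_of_nonneg_right hL (by positivity)
    linarith
  exact le_of_mul_le_mul_left h10 hL0

end CC6h

open CC6h in
theorem T_CC6 : P_NB → P_CC6 := by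
  intro hNB M hM
  obtain ⟨y1, hy1⟩ := hNB.2
  obtain ⟨n1, hn1⟩ := Pool.Agent.H262R3.Lk.SWQ.SS_bound 4
  have e1 : ∀ᶠ y : ℕ in Filter.atTop, (M : ℝ) + 20 ≤ Real.log y :=
    (Real.tendsto_log_atTop.comp tendsto_natCast_atTop_atTop).eventually_ge_atTop _
  have e2 : ∀ᶠ y : ℕ in Filter.atTop, (Real.log y) ^ 4 < (y : ℝ) := by
    have h := (Real.isLittleO_pow_log_id_atTop (n := 4)).bound (show (0 : ℝ) < 1 / 2 by norm_num)
    have h' := tendsto_natCast_atTop_atTop (R := ℝ) |>.eventually h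
    filter_upwards [h', Filter.eventually_ge_atTop 1] with y hy hy1
    have hy0 : (0 : ℝ) < y := by exact_mod_cast hy1
    simp only [id, Real.norm_eq_abs, abs_of_pos hy0] at hy
    have := le_abs_self ((Real.log y) ^ 4)
    linarith
  obtain ⟨y2, hy2⟩ := Filter.eventually_atTop.mp (e1.and e2)
  refine ⟨max (max y1 n1) (max y2 1), ?_⟩
  intro y hy f hf hfL hs hc
  have hyy1 : y1 ≤ y := ((le_max_left _ _).trans (le_max_left _ _)).trans hy
  have hyn1 : n1 ≤ y := ((le_max_right _ _).trans (le_max_left _ _)).trans hy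
  have hyy2 : y2 ≤ y := ((le_max_left _ _).trans (le_max_right _ _)).trans hy
  have hy1' : 1 ≤ y := ((le_max_right _ _).trans (le_max_right _ _)).trans hy
  obtain ⟨hL, hLy⟩ := hy2 y hyy2
  have hy0 : (0 : ℝ) < y := by exact_mod_cast hy1'
  rintro ⟨ψ, hψ, hlt⟩
  obtain ⟨q, χ, hq1, hqle, hprim, hχ⟩ := exists_char M f hM hf hs hc ψ hψ
  have hM0 : (0 : ℝ) ≤ M := by positivity
  have hL20 : 20 ≤ Real.log y := by linarith
  have hMf : ((M * f : ℕ) : ℝ) ≤ (Real.log y) ^ 4 := by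
    push_cast
    calc (M : ℝ) * f ≤ Real.log y * (Real.log y) ^ 3 :=
          mul_le_mul (by linarith) hfL (by positivity) (by linarith)
      _ = (Real.log y) ^ 4 := by ring
  have hMfy : M * f < y := by
    have : ((M * f : ℕ) : ℝ) < y := lt_of_le_of_lt hMf hLy
    exact_mod_cast this
  have hqL : (q : ℝ) ≤ (Real.log y) ^ 4 := by
    have : (q : ℝ) ≤ ((M * f : ℕ) : ℝ) := by exact_mod_cast hqle
    linarith
  have hqL2 : (q : ℝ) ≤ (Real.log ((2 * y : ℕ) : ℝ)) ^ 4 := by
    refine hqL.trans ?_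
    apply pow_le_pow_left₀ (by linarith)
    apply Real.log_le_log hy0
    push_cast; linarith
  have hkey := key y q χ hy1' hL20 (hy1 y hyy1).1 (hn1 y hyn1 q hq1 hqL χ hprim)
    (hn1 (2 * y) (by omega) q hq1 hqL2 χ hprim)
  have heq : ∑ p ∈ PP y, ψ (p : ZMod M) * ((jacobiSym (p : ℤ) f : ℤ) : ℂ) =
      ∑ p ∈ PP y, χ (p : ZMod q) := by
    apply Finset.sum_congr rfl
    intro p hp
    rw [PP, Finset.mem_filter, Finset.mem_Ioc] at hp
    exact (hχ p hp.2 (by omega)).symm
  rw [heq] at hlt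
  linarith

end Pool.Agent.H38R2.CG
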