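import Pool.Agent.H52.V.S8.H38R2.CG.Stubs

/-! KF: finiteness of the near collision set. -/

set_option autoImplicit false

namespace Pool.Agent.H38R2.CG

open Finset Filter NumberField
open scoped Classical

theorem T_KF : P_KF := by
  intro K _ _ D hD h2 hdisc e A B hA hB
  have hD1 : (1 : ℝ) ≤ D := by
    have := hD.1
    exact_mod_cast this.le
  have hs1 : (1 : ℝ) ≤ √(D : ℝ) := Real.one_le_sqrt.2 hD1
  have hnA : 0 < Ideal.absNorm A := Nat.pos_of_ne_zero (Ideal.absNorm_eq_zero_iff.not.2 hA)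
  obtain ⟨n, hn⟩ : ∃ n : ℕ, n = Ideal.absNorm A := ⟨_, rfl⟩
  have hn0 : (0 : ℝ) < n := by rw [hn]; exact_mod_cast hnA
  obtain ⟨c, hc⟩ : ∃ c : ℝ, c = (Ideal.absNorm B : ℝ) / n := ⟨_, rfl⟩
  have hc0 : 0 ≤ c := by rw [hc]; positivity
  obtain ⟨M, hM⟩ : ∃ M : ℝ, M = Real.exp 1 * c + 1 := ⟨_, rfl⟩
  have hM0 : 0 ≤ M := by rw [hM]; positivity
  obtain ⟨T, hT⟩ := exists_nat_gt (2 * n * M)
  have hfin : (Set.image (fun p : ℤ × ℤ => ((p.1 : ℝ) + p.2 * √(D : ℝ)) / 2 / n)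
      ((Set.Icc (-(T : ℤ)) T) ×ˢ (Set.Icc (-(T : ℤ)) T))).Finite :=
    ((Set.finite_Icc _ _).prod (Set.finite_Icc _ _)).image _
  refine (hfin.preimage (f := e.σ) (fun x _ y _ h => e.σ.injective h)).subset ?_
  rintro x ⟨⟨hx1, hx2, hx3⟩, hx4⟩
  have hx4 : |Real.log (e.σ x / e.τ x)| ≤ 1 := hx4
  -- the norm
  have hnorm : e.σ x * e.τ x = c := by
    have h1 := congrArg FractionalIdeal.absNorm hx3
    rw [map_mul, FractionalIdeal.absNorm_span_singleton, FractionalIdeal.coeIdeal_absNorm,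
      FractionalIdeal.coeIdeal_absNorm] at h1
    have h2 : ((|(Algebra.norm ℚ) x| * (Ideal.absNorm A : ℚ) : ℚ) : ℝ) = ((Ideal.absNorm B : ℚ) : ℝ) := by
      rw [h1]
    push_cast at h2
    rw [e.nrm, abs_of_pos (mul_pos hx1 hx2)] at h2
    rw [hc, hn, eq_div_iff (by exact_mod_cast hnA.ne')]
    exact h2
  have hle : ∀ a b : ℝ, 0 < a → 0 < b → a * b = c → Real.log (a / b) ≤ 1 → a ≤ M := by
    intro a b ha hb hab hl
    have h1 : a / b ≤ Real.exp 1 := by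
      rw [← Real.exp_log (div_pos ha hb)]
      exact Real.exp_le_exp.2 hl
    rw [div_le_iff₀ hb] at h1
    have h2 : a * a ≤ Real.exp 1 * c := by
      calc a * a ≤ a * (Real.exp 1 * b) := mul_le_mul_of_nonneg_left h1 ha.le
        _ = Real.exp 1 * c := by rw [← hab]; ring
    rw [hM]
    nlinarith [sq_nonneg (a - 1 / 2)]
  have hσ : e.σ x ≤ M := hle _ _ hx1 hx2 hnorm (le_trans (le_abs_self _) hx4)
  have hτ : e.τ x ≤ M := by
    refine hle _ _ hx2 hx1 (by rw [mul_comm]; exact hnorm) ?_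
    have h1 : Real.log (e.τ x / e.σ x) = - Real.log (e.σ x / e.τ x) := by
      rw [← Real.log_inv, inv_div]
    rw [h1]
    exact le_trans (neg_le_abs _) hx4
  -- integrality
  obtain ⟨y, hy⟩ : ∃ y : 𝓞 K, (y : K) = x * (n : K) := by
    have h1 : x * ((n : 𝓞 K) : K) ∈ (B : FractionalIdeal (nonZeroDivisors (𝓞 K)) K) := by
      rw [← hx3]
      apply FractionalIdeal.mul_mem_mul
      · exact FractionalIdeal.mem_spanSingleton_self _ _
      · rw [FractionalIdeal.mem_coeIdeal]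
        exact ⟨(n : 𝓞 K), by rw [hn]; exact Ideal.absNorm_mem A, rfl⟩
    rw [FractionalIdeal.mem_coeIdeal] at h1
    obtain ⟨y, _, hy⟩ := h1
    refine ⟨y, ?_⟩
    have h2 : ((n : 𝓞 K) : K) = (n : K) := by simp
    rw [h2] at hy
    exact hy
  obtain ⟨u, v, _, hu, hv⟩ := e.int1 y
  rw [hy, map_mul, map_natCast] at hu hv
  have hnσ : 0 < e.σ x * n := mul_pos hx1 hn0
  have hnτ : 0 < e.τ x * n := mul_pos hx2 hn0
  have hnσ2 : e.σ x * n ≤ M * n := mul_le_mul_of_nonneg_right hσ hn0.le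
  have hnτ2 : e.τ x * n ≤ M * n := mul_le_mul_of_nonneg_right hτ hn0.le
  have hub : |(u : ℝ)| ≤ T := by
    rw [abs_le]
    constructor <;> nlinarith
  have hvb : |(v : ℝ)| ≤ T := by
    have h1 : |(v : ℝ)| * 1 ≤ |(v : ℝ)| * √(D : ℝ) := mul_le_mul_of_nonneg_left hs1 (abs_nonneg _)
    have h2 : |(v : ℝ)| * √(D : ℝ) = |(v : ℝ) * √(D : ℝ)| := by
      rw [abs_mul, abs_of_nonneg (Real.sqrt_nonneg _)]
    have h3 : |(v : ℝ) * √(D : ℝ)| ≤ T := by
      rw [abs_le]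
      constructor <;> nlinarith
    linarith
  rw [Set.mem_preimage, Set.mem_image]
  refine ⟨(u, v), ⟨?_, ?_⟩, ?_⟩
  · rw [abs_le] at hub
    exact ⟨by exact_mod_cast hub.1, by exact_mod_cast hub.2⟩
  · rw [abs_le] at hvb
    exact ⟨by exact_mod_cast hvb.1, by exact_mod_cast hvb.2⟩
  · show ((u : ℝ) + v * √(D : ℝ)) / 2 / n = e.σ x
    rw [← hu]
    field_simp

end Pool.Agent.H38R2.CG
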