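import Pool.Agent.H52.V.S8.H38R2.CG.Stubs

/-! Task N0: coordinates in a real quadratic field of discriminant `D`. -/
set_option autoImplicit false
set_option maxHeartbeats 400000

namespace Pool.Agent.H38R2.CG

open NumberField
namespace N0h

variable {K : Type} [Field K] [NumberField K]

/-- integral basis `1, w` -/
theorem exists_basis (h2 : Module.finrank ℚ K = 2) :
    ∃ (B : Module.Basis (Fin 2) ℤ (𝓞 K)), B 0 = 1 := by
  have hr : Module.finrank ℤ (𝓞 K) = 2 := by rw [NumberField.RingOfIntegers.rank, h2]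
  let b := Module.finBasisOfFinrankEq ℤ (𝓞 K) hr
  obtain ⟨m, n, hmn⟩ : ∃ m n : ℤ, (1 : 𝓞 K) = m • b 0 + n • b 1 := ⟨b.repr 1 0, b.repr 1 1, by
    rw [← Fin.sum_univ_two (fun i => b.repr 1 i • b i)]; exact (b.sum_repr 1).symm⟩
  have hg : IsCoprime m n := by
    rw [Int.isCoprime_iff_gcd_eq_one]
    obtain ⟨m', hm'⟩ := Int.gcd_dvd_left (a := m) (b := n)
    obtain ⟨n', hn'⟩ := Int.gcd_dvd_right (a := m) (b := n)
    set g : ℤ := (Int.gcd m n : ℤ) with hgdef
    have h1 : algebraMap ℤ (𝓞 K) g * (m' • b 0 + n' • b 1) = 1 := by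
      rw [hmn]
      conv_rhs => rw [hm', hn']
      rw [mul_smul, mul_smul, ← smul_add, Algebra.smul_def g]
    have h3 : g ^ 2 * Algebra.norm ℤ (m' • b 0 + n' • b 1) = 1 := by
      have h := congrArg (Algebra.norm ℤ) h1
      rw [map_mul, Algebra.norm_algebraMap, hr] at h
      rw [h]
      exact map_one (Algebra.norm ℤ)
    have h4 : IsUnit g := isUnit_of_dvd_one ⟨g * Algebra.norm ℤ (m' • b 0 + n' • b 1), by
      rw [← h3]; ring⟩
    rcases Int.isUnit_iff.1 h4 with h | h
    · rw [hgdef] at h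
      exact_mod_cast h
    · omega
  obtain ⟨x, y, hxy⟩ := hg
  set w : 𝓞 K := (-y) • b 0 + x • b 1 with hw
  have hli : LinearIndependent ℤ ![(1 : 𝓞 K), w] := by
    rw [LinearIndependent.pair_iff]
    intro s t hst
    have hb := b.linearIndependent
    have h5 : (s * m - t * y) • b 0 + (s * n + t * x) • b 1 = 0 := by
      rw [hmn, hw] at hst
      rw [← hst]
      module
    have h6 := Fintype.linearIndependent_iff.1 hb ![s * m - t * y, s * n + t * x] (by
      rw [Fin.sum_univ_two]; simpa using h5)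
    have h7 := h6 0
    have h8 := h6 1
    simp only [Matrix.cons_val_zero, Matrix.cons_val_one] at h7 h8
    constructor
    · linear_combination x * h7 + y * h8 - s * hxy
    · linear_combination (-n) * h7 + m * h8 - t * hxy
  have hsp : ⊤ ≤ Submodule.span ℤ (Set.range ![(1 : 𝓞 K), w]) := by
    intro z _
    have hz : z = (b.repr z 0) • b 0 + (b.repr z 1) • b 1 := by
      rw [← Fin.sum_univ_two (fun i => b.repr z i • b i)]; exact (b.sum_repr z).symm
    set s := b.repr z 0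
    set t := b.repr z 1
    have hz2 : z = (s * x + t * y) • (1 : 𝓞 K) + (m * t - n * s) • w := by
      rw [hz, hmn, hw]
      have e1 : s = (s * x + t * y) * m + (m * t - n * s) * (-y) := by
        linear_combination -s * hxy
      have e2 : t = (s * x + t * y) * n + (m * t - n * s) * x := by
        linear_combination -t * hxy
      conv_lhs => rw [e1, e2]
      module
    rw [hz2]
    refine Submodule.add_mem _ (Submodule.smul_mem _ _ (Submodule.subset_span ⟨0, rfl⟩))
      (Submodule.smul_mem _ _ (Submodule.subset_span ⟨1, rfl⟩))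
  refine ⟨Module.Basis.mk hli hsp, ?_⟩
  rw [Module.Basis.mk_apply]
  rfl

theorem coords (B : Module.Basis (Fin 2) ℤ (𝓞 K)) (hB : B 0 = 1) (x : 𝓞 K) :
    x = (B.repr x 0 : 𝓞 K) + (B.repr x 1 : 𝓞 K) * B 1 := by
  conv_lhs => rw [← B.sum_repr x, Fin.sum_univ_two, hB]
  rw [zsmul_one, zsmul_eq_mul]

theorem disc_eq {D : ℕ} (hdisc : NumberField.discr K = (D : ℤ))
    (B : Module.Basis (Fin 2) ℤ (𝓞 K)) (hB : B 0 = 1) (a b : ℤ)
    (hww : B 1 * B 1 = (b : 𝓞 K) + (a : 𝓞 K) * B 1) : (D : ℤ) = a ^ 2 + 4 * b := by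
  have hM : ∀ s t : ℤ, Algebra.leftMulMatrix B ((s : 𝓞 K) + (t : 𝓞 K) * B 1) =
      !![s, t * b; t, s + t * a] := by
    intro s t
    ext i j
    rw [Algebra.leftMulMatrix_eq_repr_mul]
    have e0 : ((s : 𝓞 K) + (t : 𝓞 K) * B 1) * B 0 = s • B 0 + t • B 1 := by
      rw [hB, zsmul_one, zsmul_eq_mul, mul_one]
    have e1 : ((s : 𝓞 K) + (t : 𝓞 K) * B 1) * B 1 = (t * b) • B 0 + (s + t * a) • B 1 := by
      rw [hB, zsmul_one, zsmul_eq_mul]
      push_cast
      linear_combination (t : 𝓞 K) * hww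
    fin_cases j
    · change B.repr (_ * B 0) i = _
      rw [e0, map_add, map_smul, map_smul, B.repr_self, B.repr_self]
      fin_cases i <;> simp
    · change B.repr (_ * B 1) i = _
      rw [e1, map_add, map_smul, map_smul, B.repr_self, B.repr_self]
      fin_cases i <;> simp
  have htr : ∀ s t : ℤ, Algebra.trace ℤ (𝓞 K) ((s : 𝓞 K) + (t : 𝓞 K) * B 1) = 2 * s + t * a := by
    intro s t
    rw [Algebra.trace_eq_matrix_trace B, hM, Matrix.trace_fin_two_of]
    ring
  rw [← hdisc, ← NumberField.discr_eq_discr K B, Algebra.discr_def, Matrix.det_fin_two]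
  simp only [Algebra.traceMatrix_apply, Algebra.traceForm_apply]
  rw [hB, mul_one, mul_one, one_mul, hww, htr]
  have h1 := htr 1 0
  have h3 := htr 0 1
  simp only [Int.cast_one, Int.cast_zero, zero_mul, add_zero, mul_one, one_mul, zero_add,
    mul_zero] at h1 h3
  rw [h1, h3]
  ring

end N0h

namespace N0h

theorem embs {K : Type} [Field K] [Algebra ℚ K] (BK : Module.Basis (Fin 2) ℚ K) (hBK0 : BK 0 = 1)
    (a b : ℤ) (hwwK : BK 1 * BK 1 = (b : K) + (a : K) * BK 1) (D : ℝ)
    (hsq : √D ^ 2 = (a : ℝ) ^ 2 + 4 * b) :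
    ∃ σ τ : K →ₐ[ℚ] ℝ, σ (BK 1) = (a + √D) / 2 ∧ τ (BK 1) = (a - √D) / 2 := by
  haveI : FiniteDimensional ℚ K := BK.finiteDimensional_of_finite
  let pb : PowerBasis ℚ K :=
    { gen := BK 1
      dim := 2
      basis := BK
      basis_eq_pow := by
        intro i
        fin_cases i
        · simpa using hBK0
        · simp }
  have hmin : minpoly ℚ (BK 1) = Polynomial.X ^ 2 - Polynomial.C (a : ℚ) * Polynomial.X
      - Polynomial.C (b : ℚ) := by
    have hmonic : (Polynomial.X ^ 2 - Polynomial.C (a : ℚ) * Polynomial.X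
      - Polynomial.C (b : ℚ)).Monic := by monicity!
    have hdeg : (Polynomial.X ^ 2 - Polynomial.C (a : ℚ) * Polynomial.X
      - Polynomial.C (b : ℚ)).natDegree = 2 := by compute_degree!
    have hdvd : minpoly ℚ (BK 1) ∣ Polynomial.X ^ 2 - Polynomial.C (a : ℚ) * Polynomial.X
      - Polynomial.C (b : ℚ) := by
      apply minpoly.dvd
      simp only [map_sub, map_pow, Polynomial.aeval_X, map_mul, Polynomial.aeval_C, map_intCast]
      linear_combination hwwK
    have hm : (minpoly ℚ (BK 1)).Monic := minpoly.monic (Algebra.IsIntegral.isIntegral _)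
    have hle : (Polynomial.X ^ 2 - Polynomial.C (a : ℚ) * Polynomial.X
      - Polynomial.C (b : ℚ)).natDegree ≤ (minpoly ℚ (BK 1)).natDegree := by
      rw [hdeg]
      exact (pb.natDegree_minpoly).ge
    exact (Polynomial.eq_of_monic_of_dvd_of_natDegree_le hm hmonic hdvd hle).symm
  have hroot : ∀ ω : ℝ, ω ^ 2 = a * ω + b → Polynomial.aeval ω (minpoly ℚ pb.gen) = 0 := by
    intro ω hω
    change Polynomial.aeval ω (minpoly ℚ (BK 1)) = 0
    rw [hmin]
    simp only [map_sub, map_pow, Polynomial.aeval_X, map_mul, Polynomial.aeval_C, map_intCast]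
    linear_combination hω
  refine ⟨pb.lift ((a + √D) / 2) (hroot _ (by linear_combination (1 / 4) * hsq)),
    pb.lift ((a - √D) / 2) (hroot _ (by linear_combination (1 / 4) * hsq)),
    pb.lift_gen _ _, pb.lift_gen _ _⟩

theorem norm_eq {K : Type} [Field K] [Algebra ℚ K] (BK : Module.Basis (Fin 2) ℚ K)
    (hBK0 : BK 0 = 1)
    (a b : ℤ) (hwwK : BK 1 * BK 1 = (b : K) + (a : K) * BK 1) (D : ℝ)
    (hsq : √D ^ 2 = (a : ℝ) ^ 2 + 4 * b)
    (σ τ : K →ₐ[ℚ] ℝ) (hσw : σ (BK 1) = (a + √D) / 2) (hτw : τ (BK 1) = (a - √D) / 2) (x : K) :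
    ((Algebra.norm ℚ x : ℚ) : ℝ) = σ x * τ x := by
  have hx : x = algebraMap ℚ K (BK.repr x 0) + algebraMap ℚ K (BK.repr x 1) * BK 1 := by
    conv_lhs => rw [← BK.sum_repr x, Fin.sum_univ_two, hBK0]
    rw [Algebra.smul_def, Algebra.smul_def, mul_one]
  generalize BK.repr x 0 = s at hx
  generalize BK.repr x 1 = t at hx
  subst hx
  have hMK : Algebra.leftMulMatrix BK (algebraMap ℚ K s + algebraMap ℚ K t * BK 1) =
      !![s, t * b; t, s + t * a] := by
    ext i j
    rw [Algebra.leftMulMatrix_eq_repr_mul]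
    have e0 : (algebraMap ℚ K s + algebraMap ℚ K t * BK 1) * BK 0 = s • BK 0 + t • BK 1 := by
      rw [hBK0, mul_one, Algebra.smul_def, Algebra.smul_def, mul_one]
    have e1 : (algebraMap ℚ K s + algebraMap ℚ K t * BK 1) * BK 1 =
        (t * b) • BK 0 + (s + t * a) • BK 1 := by
      rw [hBK0, Algebra.smul_def, Algebra.smul_def, mul_one, map_mul, map_add, map_mul,
        map_intCast, map_intCast]
      linear_combination (algebraMap ℚ K t) * hwwK
    fin_cases j
    · change BK.repr (_ * BK 0) i = _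
      rw [e0, map_add, map_smul, map_smul, BK.repr_self, BK.repr_self]
      fin_cases i <;> simp
    · change BK.repr (_ * BK 1) i = _
      rw [e1, map_add, map_smul, map_smul, BK.repr_self, BK.repr_self]
      fin_cases i <;> simp
  rw [Algebra.norm_eq_matrix_det BK, hMK, Matrix.det_fin_two_of]
  have e1 : σ (algebraMap ℚ K s + algebraMap ℚ K t * BK 1) = s + t * ((a + √D) / 2) := by
    rw [map_add, map_mul, hσw, AlgHom.commutes, AlgHom.commutes]
    rfl
  have e2 : τ (algebraMap ℚ K s + algebraMap ℚ K t * BK 1) = s + t * ((a - √D) / 2) := by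
    rw [map_add, map_mul, hτw, AlgHom.commutes, AlgHom.commutes]
    rfl
  rw [e1, e2]
  push_cast
  linear_combination (t : ℝ) ^ 2 / 4 * hsq

theorem main {K : Type} [Field K] [NumberField K] {D : ℕ} (hD : 0 < D)
    (h2 : Module.finrank ℚ K = 2)
    (hdisc : NumberField.discr K = (D : ℤ)) : Nonempty (Emb K D) := by
  obtain ⟨B, hB⟩ := exists_basis h2
  obtain ⟨a, b, hww⟩ : ∃ a b : ℤ, B 1 * B 1 = (b : 𝓞 K) + (a : 𝓞 K) * B 1 :=
    ⟨_, _, coords B hB (B 1 * B 1)⟩
  have hDab : (D : ℤ) = a ^ 2 + 4 * b := disc_eq hdisc B hB a b hww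
  have hDpos : (0 : ℝ) < D := by exact_mod_cast hD
  have hsq : √(D : ℝ) ^ 2 = (a : ℝ) ^ 2 + 4 * b := by
    rw [Real.sq_sqrt hDpos.le]; exact_mod_cast hDab
  obtain ⟨BK, hBK⟩ : ∃ BK : Module.Basis (Fin 2) ℚ K, ∀ i, BK i = ((B i : 𝓞 K) : K) :=
    ⟨B.localizationLocalization ℚ (nonZeroDivisors ℤ) K, fun i =>
      Module.Basis.localizationLocalization_apply _ _ _ _ _⟩
  have hBK0 : BK 0 = 1 := by rw [hBK, hB]; rfl
  have hwwK : BK 1 * BK 1 = (b : K) + (a : K) * BK 1 := by
    rw [hBK]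
    have := congrArg (algebraMap (𝓞 K) K) hww
    simpa using this
  obtain ⟨σ, τ, hσw, hτw⟩ := embs BK hBK0 a b hwwK D hsq
  have hnrm := norm_eq BK hBK0 a b hwwK D hsq σ τ hσw hτw
  have hσ : ∀ s t : ℤ, σ ((s : K) + (t : K) * BK 1) =
      ((2 * s + t * a : ℤ) + (t : ℤ) * √(D : ℝ)) / 2 := by
    intro s t
    rw [map_add, map_mul, hσw, map_intCast, map_intCast]
    push_cast
    ring
  have hτ : ∀ s t : ℤ, τ ((s : K) + (t : K) * BK 1) =
      ((2 * s + t * a : ℤ) - (t : ℤ) * √(D : ℝ)) / 2 := by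
    intro s t
    rw [map_add, map_mul, hτw, map_intCast, map_intCast]
    push_cast
    ring
  have hcoe : ∀ x : 𝓞 K, (x : K) = ((B.repr x 0 : ℤ) : K) + ((B.repr x 1 : ℤ) : K) * BK 1 := by
    intro x
    rw [hBK]
    have := congrArg (algebraMap (𝓞 K) K) (coords B hB x)
    simpa using this
  have hpar : (2 : ℤ) ∣ a - D := by
    rw [hDab]
    have h1 : (2 : ℤ) ∣ a * (a - 1) := by
      rcases Int.even_or_odd a with h | h
      · exact Dvd.dvd.mul_right h.two_dvd _
      · exact Dvd.dvd.mul_left (by obtain ⟨k, hk⟩ := h; exact ⟨k, by omega⟩) _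
    have h3 : a - (a ^ 2 + 4 * b) = -(a * (a - 1)) + 2 * (-2 * b) := by ring
    rw [h3]
    exact Int.dvd_add ((Int.dvd_neg).2 h1) ⟨_, rfl⟩
  refine ⟨{ σ := σ, τ := τ, ne := ?_, int1 := ?_, int2 := ?_, nrm := hnrm }⟩
  · intro h
    have h1 : σ (BK 1) = τ (BK 1) := congrArg (fun f : K →+* ℝ => f (BK 1)) h
    rw [hσw, hτw] at h1
    have : 0 < √(D : ℝ) := Real.sqrt_pos.2 hDpos
    linarith
  · intro x
    refine ⟨2 * B.repr x 0 + B.repr x 1 * a, B.repr x 1, ?_, ?_, ?_⟩
    · have : 2 * B.repr x 0 + B.repr x 1 * a - D * B.repr x 1 =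
        2 * B.repr x 0 + B.repr x 1 * (a - D) := by ring
      rw [this]
      exact Int.dvd_add ⟨_, rfl⟩ (Dvd.dvd.mul_left hpar _)
    · change σ (x : K) = _
      rw [hcoe x]; exact hσ _ _
    · change τ (x : K) = _
      rw [hcoe x]; exact hτ _ _
  · intro u v huv
    obtain ⟨k, hk⟩ := huv
    obtain ⟨l, hl⟩ := hpar
    have hs : u = 2 * (k - v * l) + v * a := by
      linear_combination hk - v * hl
    have hx : (((k - v * l : ℤ) : 𝓞 K) + (v : 𝓞 K) * B 1 : 𝓞 K) =
        (((k - v * l : ℤ) : K) + (v : K) * BK 1 : K) := by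
      rw [hBK]; simp
    refine ⟨((k - v * l : ℤ) : 𝓞 K) + (v : 𝓞 K) * B 1, ?_, ?_⟩
    · rw [hx]
      have := hσ (k - v * l) v
      rw [← hs] at this
      exact this
    · rw [hx]
      have := hτ (k - v * l) v
      rw [← hs] at this
      exact this

end N0h

theorem T_N0 : P_N0 := by
  intro K _ _ D hD h2 hd
  exact N0h.main (by have := hD.1; omega) h2 hd

end Pool.Agent.H38R2.CG
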