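import Pool.Agent.H52.V.S8.H38R2.CG.Stubs

/-!
# Mean value of the divisor convolution of a quadratic character
-/

set_option autoImplicit false

namespace Pool.Agent.H38R2.CG

open Finset Filter

namespace N3bh

/-- swapping the sum over divisors -/
theorem swap (f : ℕ → ℝ) (N : ℕ) :
    ∑ n ∈ Finset.Icc 1 N, ∑ m ∈ n.divisors, f m =
      ∑ m ∈ Finset.Icc 1 N, ((N / m : ℕ) : ℝ) * f m := by
  have h1 : ∀ n ∈ Finset.Icc 1 N, ∑ m ∈ n.divisors, f m =
      ∑ m ∈ Finset.Icc 1 N, if m ∣ n then f m else 0 := by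
    intro n hn
    rw [Finset.mem_Icc] at hn
    rw [← Finset.sum_filter]
    apply Finset.sum_congr
    · ext m
      simp only [Nat.mem_divisors, Finset.mem_filter, Finset.mem_Icc]
      constructor
      · rintro ⟨h, h0⟩
        exact ⟨⟨Nat.pos_of_dvd_of_pos h hn.1, (Nat.le_of_dvd hn.1 h).trans hn.2⟩, h⟩
      · rintro ⟨_, h⟩
        exact ⟨h, by omega⟩
    · intro _ _
      rfl
  rw [Finset.sum_congr rfl h1, Finset.sum_comm]
  apply Finset.sum_congr rfl
  intro m hm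
  rw [← Finset.sum_filter, Finset.sum_const, nsmul_eq_mul]
  congr 2
  have := Nat.Ioc_filter_dvd_card_eq_div N m
  rw [← this]
  rfl

/-- the part of the sum with large divisors -/
theorem large (f : ℕ → ℝ) (N M : ℕ) (hM : 1 ≤ M) :
    ∑ m ∈ Finset.Ioc M N, ((N / m : ℕ) : ℝ) * f m =
      ∑ j ∈ Finset.Icc 1 (N / M), ∑ m ∈ Finset.Ioc M (N / j), f m := by
  have h1 : ∀ m ∈ Finset.Ioc M N, ((N / m : ℕ) : ℝ) * f m =
      ∑ j ∈ Finset.Icc 1 (N / M), if j * m ≤ N then f m else 0 := by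
    intro m hm
    rw [Finset.mem_Ioc] at hm
    rw [← Finset.sum_filter, Finset.sum_const, nsmul_eq_mul]
    congr 2
    have : (Finset.Icc 1 (N / M)).filter (fun j => j * m ≤ N) = Finset.Icc 1 (N / m) := by
      ext j
      simp only [Finset.mem_filter, Finset.mem_Icc]
      rw [← Nat.le_div_iff_mul_le (by omega)]
      constructor
      · rintro ⟨⟨h, _⟩, h2⟩
        exact ⟨h, h2⟩
      · rintro ⟨h, h2⟩
        exact ⟨⟨h, h2.trans (Nat.div_le_div_left hm.1.le hM)⟩, h2⟩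
    rw [this]
    simp
  rw [Finset.sum_congr rfl h1, Finset.sum_comm]
  apply Finset.sum_congr rfl
  intro j hj
  rw [Finset.mem_Icc] at hj
  rw [← Finset.sum_filter]
  apply Finset.sum_congr
  · ext m
    simp only [Finset.mem_filter, Finset.mem_Ioc]
    rw [Nat.le_div_iff_mul_le (by omega)]
    constructor
    · rintro ⟨⟨h, _⟩, h2⟩
      exact ⟨h, by rwa [mul_comm]⟩
    · rintro ⟨h, h2⟩
      refine ⟨⟨h, ?_⟩, by rwa [mul_comm]⟩
      calc m = m * 1 := (mul_one m).symm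
        _ ≤ m * j := Nat.mul_le_mul_left m hj.1
        _ ≤ N := h2
  · intro _ _
    rfl

theorem bound (f : ℕ → ℝ) (B L : ℝ) (hB : 0 ≤ B) (hf : ∀ n : ℕ, 1 ≤ n → |f n| ≤ 1)
    (hs : ∀ a b : ℕ, |∑ n ∈ Finset.Ioc a b, f n| ≤ B)
    (hL : ∀ N : ℕ, 1 ≤ N → |L - ∑ n ∈ Finset.Icc 1 N, f n / n| ≤ B / N)
    (N : ℕ) (hN : 1 ≤ N) :
    |(∑ n ∈ Finset.Icc 1 N, ∑ m ∈ n.divisors, f m) / N - L| ≤ (4 * B + 1) / (Nat.sqrt N : ℝ) := by
  set M := Nat.sqrt N with hMd
  have hM1 : 1 ≤ M := by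
    rw [hMd, Nat.le_sqrt]
    simpa using hN
  have hMN : M ≤ N := Nat.sqrt_le_self N
  have hMM : M * M ≤ N := Nat.sqrt_le N
  have hNM : N ≤ M * M + M + M := Nat.sqrt_le_add N
  have hq : N / M ≤ M + 2 := by
    have : N / M < M + 3 := by
      rw [Nat.div_lt_iff_lt_mul (by omega)]
      nlinarith
    omega
  have hMr : (1 : ℝ) ≤ M := by exact_mod_cast hM1
  have hNr : (1 : ℝ) ≤ N := by exact_mod_cast hN
  have hMMr : (M : ℝ) * M ≤ N := by exact_mod_cast hMM
  have hNp : (0 : ℝ) < N := by linarith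
  have hMp : (0 : ℝ) < M := by linarith
  rw [swap f N]
  have hsplit : ∑ m ∈ Finset.Icc 1 N, ((N / m : ℕ) : ℝ) * f m =
      ∑ m ∈ Finset.Icc 1 M, ((N / m : ℕ) : ℝ) * f m +
        ∑ m ∈ Finset.Ioc M N, ((N / m : ℕ) : ℝ) * f m := by
    rw [← Finset.sum_union]
    · congr 1
      ext m
      simp only [Finset.mem_union, Finset.mem_Icc, Finset.mem_Ioc]
      omega
    · rw [Finset.disjoint_left]
      intro m h1 h2
      rw [Finset.mem_Icc] at h1
      rw [Finset.mem_Ioc] at h2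
      omega
  have hlarge : |∑ m ∈ Finset.Ioc M N, ((N / m : ℕ) : ℝ) * f m| ≤ (M + 2) * B := by
    rw [large f N M hM1]
    calc |∑ j ∈ Finset.Icc 1 (N / M), ∑ m ∈ Finset.Ioc M (N / j), f m|
        ≤ ∑ j ∈ Finset.Icc 1 (N / M), |∑ m ∈ Finset.Ioc M (N / j), f m| :=
          Finset.abs_sum_le_sum_abs _ _
      _ ≤ ∑ j ∈ Finset.Icc 1 (N / M), B := Finset.sum_le_sum (fun j _ => hs _ _)
      _ = ((N / M : ℕ) : ℝ) * B := by
          rw [Finset.sum_const, nsmul_eq_mul, Nat.card_Icc]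
          simp
      _ ≤ (M + 2) * B := by
          apply mul_le_mul_of_nonneg_right _ hB
          exact_mod_cast hq
  have hsmall : |∑ m ∈ Finset.Icc 1 M, ((N / m : ℕ) : ℝ) * f m -
      N * ∑ m ∈ Finset.Icc 1 M, f m / m| ≤ M := by
    rw [Finset.mul_sum, ← Finset.sum_sub_distrib]
    calc |∑ m ∈ Finset.Icc 1 M, (((N / m : ℕ) : ℝ) * f m - N * (f m / m))|
        ≤ ∑ m ∈ Finset.Icc 1 M, |((N / m : ℕ) : ℝ) * f m - N * (f m / m)| :=
          Finset.abs_sum_le_sum_abs _ _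
      _ ≤ ∑ m ∈ Finset.Icc 1 M, (1 : ℝ) := by
          apply Finset.sum_le_sum
          intro m hm
          rw [Finset.mem_Icc] at hm
          have hmp : (0 : ℝ) < m := by exact_mod_cast hm.1
          have e : ((N / m : ℕ) : ℝ) * f m - N * (f m / m) =
              (((N / m : ℕ) : ℝ) - N / m) * f m := by
            field_simp
          rw [e, abs_mul]
          have h1 : |((N / m : ℕ) : ℝ) - N / m| ≤ 1 := by
            rw [abs_le]
            constructor
            · have := Nat.lt_div_mul_add (a := N) (b := m) hm.1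
              have h2 : (N : ℝ) < ((N / m : ℕ) : ℝ) * m + m := by exact_mod_cast this
              have h3 : (N : ℝ) / m < ((N / m : ℕ) : ℝ) + 1 := by
                rw [div_lt_iff₀ hmp]
                linarith
              linarith
            · have := @Nat.cast_div_le ℝ _ _ _ N m
              linarith
          calc |((N / m : ℕ) : ℝ) - N / m| * |f m| ≤ 1 * 1 :=
                mul_le_mul h1 (hf m hm.1) (abs_nonneg _) zero_le_one
            _ = 1 := one_mul 1
      _ = M := by simp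
  have hLM := hL M hM1
  rw [hsplit]
  set A := ∑ m ∈ Finset.Icc 1 M, ((N / m : ℕ) : ℝ) * f m
  set A2 := ∑ m ∈ Finset.Ioc M N, ((N / m : ℕ) : ℝ) * f m
  set T := ∑ m ∈ Finset.Icc 1 M, f m / m
  have e : (A + A2) / N - L = (A - N * T) / N + A2 / N + (T - L) := by
    field_simp
    ring
  rw [e]
  have h1 : |(A - N * T) / N| ≤ 1 / M := by
    rw [abs_div, abs_of_pos hNp, div_le_div_iff₀ hNp hMp]
    nlinarith
  have h2 : |A2 / N| ≤ 3 * B / M := by
    rw [abs_div, abs_of_pos hNp, div_le_div_iff₀ hNp hMp]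
    calc |A2| * M ≤ ((M + 2) * B) * M := mul_le_mul_of_nonneg_right hlarge hMp.le
      _ ≤ ((3 * M) * B) * M := by
          apply mul_le_mul_of_nonneg_right _ hMp.le
          apply mul_le_mul_of_nonneg_right _ hB
          linarith
      _ = 3 * B * (M * M) := by ring
      _ ≤ 3 * B * N := mul_le_mul_of_nonneg_left hMMr (by linarith)
  have h3 : |T - L| ≤ B / M := by
    rw [abs_sub_comm]
    exact hLM
  calc |(A - N * T) / N + A2 / N + (T - L)| ≤ |(A - N * T) / N| + |A2 / N| + |T - L| :=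
        abs_add_three _ _ _
    _ ≤ 1 / M + 3 * B / M + B / M := by linarith
    _ = (4 * B + 1) / M := by ring

theorem core (f : ℕ → ℝ) (B L : ℝ) (hB : 0 ≤ B) (hf : ∀ n : ℕ, 1 ≤ n → |f n| ≤ 1)
    (hs : ∀ a b : ℕ, |∑ n ∈ Finset.Ioc a b, f n| ≤ B)
    (hL : ∀ N : ℕ, 1 ≤ N → |L - ∑ n ∈ Finset.Icc 1 N, f n / n| ≤ B / N) :
    Tendsto (fun N : ℕ => (∑ n ∈ Finset.Icc 1 N, ∑ m ∈ n.divisors, f m) / N) atTop (nhds L) := by
  have hsq : Tendsto (fun N : ℕ => Nat.sqrt N) atTop atTop := by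
    rw [tendsto_atTop_atTop]
    intro b
    exact ⟨b * b, fun a ha => Nat.le_sqrt.mpr ha⟩
  have hsqr : Tendsto (fun N : ℕ => (4 * B + 1) / (Nat.sqrt N : ℝ)) atTop (nhds 0) :=
    (tendsto_const_div_atTop_nhds_zero_nat (4 * B + 1)).comp hsq
  rw [tendsto_iff_norm_sub_tendsto_zero]
  refine squeeze_zero' (Eventually.of_forall fun N => norm_nonneg _) ?_ hsqr
  filter_upwards [eventually_ge_atTop 1] with N hN
  rw [Real.norm_eq_abs]
  exact bound f B L hB hf hs hL N hN

end N3bh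

theorem T_N3b : P_KR → P_PV → P_N3a → P_N3b := by
  intro hKR hPV hN3a D hD
  obtain ⟨χ, hχ1, hχ⟩ := hKR D hD
  obtain ⟨C, hC, hPV⟩ := hPV
  obtain ⟨C', hC', hN⟩ := hN3a
  have hD1 : 1 < D := hD.1
  have hDr : (1 : ℝ) < D := by exact_mod_cast hD1
  have hlog : 0 < Real.log D := Real.log_pos hDr
  have hsq : 0 < √(D : ℝ) := Real.sqrt_pos.mpr (by linarith)
  have hB1 : 0 < C * √(D : ℝ) * Real.log D := by positivity
  have hB2 : 0 < C' * √(D : ℝ) * Real.log D := by positivity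
  apply N3bh.core (fun m => (chi D m : ℝ))
    (C * √(D : ℝ) * Real.log D + C' * √(D : ℝ) * Real.log D) (Lone D) (by linarith)
  · intro n hn
    have h := DirichletCharacter.norm_le_one χ (n : ZMod D)
    rw [hχ n hn, Complex.norm_intCast] at h
    exact_mod_cast h
  · intro a b
    have h := hPV D χ hD1 hχ1 a b
    have e : ∑ n ∈ Finset.Ioc a b, χ (n : ZMod D) =
        ((∑ n ∈ Finset.Ioc a b, (chi D n : ℝ) : ℝ) : ℂ) := by
      push_cast
      apply Finset.sum_congr rfl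
      intro n hn
      rw [Finset.mem_Ioc] at hn
      exact hχ n (by omega)
    rw [e, Complex.norm_real, Real.norm_eq_abs] at h
    linarith
  · intro N hN1
    have h := hN D hD N hN1
    refine h.trans ?_
    apply div_le_div_of_nonneg_right _ (by positivity)
    linarith

end Pool.Agent.H38R2.CG
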