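import Pool.Agent.H52.V.S8.H38R2.CG.Stubs

/-!
# N4: totally positive elements of `A⁻¹` in a hyperbolic sector (helper794)
-/

set_option autoImplicit false

namespace Pool.Agent.H38R2.CG

open Finset Filter NumberField
open scoped Classical

theorem T_N4 : P_N4a → P_N4b → P_N4 := by
  intro h4a h4b K _ _ D hD h2 hdisc e A hA α β hαβ
  obtain ⟨b1, b2, hmem, hdet⟩ := h4a K D hD h2 hdisc e A hA
  have hκn : Ideal.absNorm A ≠ 0 := fun h => hA (Ideal.absNorm_eq_zero_iff.1 h)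
  have hκ : (0 : ℝ) < (Ideal.absNorm A : ℝ) := by exact_mod_cast Nat.pos_of_ne_zero hκn
  have hD1 : (1 : ℝ) < (D : ℝ) := by exact_mod_cast hD.1
  have hsD : 0 < √(D : ℝ) := Real.sqrt_pos.2 (by linarith)
  have hdet0 : e.σ b1 * e.τ b2 - e.σ b2 * e.τ b1 ≠ 0 := by
    intro h
    rw [h, abs_zero] at hdet
    have : 0 < √(D : ℝ) / (Ideal.absNorm A : ℝ) := div_pos hsD hκ
    linarith
  obtain ⟨hfin, hlim⟩ := h4b (e.σ b1) (e.σ b2) (e.τ b1) (e.τ b2) α β (Ideal.absNorm A : ℝ)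
    hdet0 hαβ hκ
  set f : ℤ × ℤ → K := fun x => x.1 * b1 + x.2 * b2 with hf
  have hσf : ∀ x : ℤ × ℤ, e.σ (f x) = x.1 * e.σ b1 + x.2 * e.σ b2 := by
    intro x; simp [hf]
  have hτf : ∀ x : ℤ × ℤ, e.τ (f x) = x.1 * e.τ b1 + x.2 * e.τ b2 := by
    intro x; simp [hf]
  have hinj : Function.Injective f := by
    intro x y hxy
    have h1 := congrArg e.σ hxy
    have h3 := congrArg e.τ hxy
    rw [hσf, hσf] at h1
    rw [hτf, hτf] at h3
    have e1 : ((x.1 : ℝ) - y.1) * (e.σ b1 * e.τ b2 - e.σ b2 * e.τ b1) = 0 := by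
      linear_combination (e.τ b2) * h1 - (e.σ b2) * h3
    have e2 : ((x.2 : ℝ) - y.2) * (e.σ b1 * e.τ b2 - e.σ b2 * e.τ b1) = 0 := by
      linear_combination (e.σ b1) * h3 - (e.τ b1) * h1
    have e3 : (x.1 : ℝ) = y.1 := by
      rcases mul_eq_zero.1 e1 with h | h
      · linarith
      · exact absurd h hdet0
    have e4 : (x.2 : ℝ) = y.2 := by
      rcases mul_eq_zero.1 e2 with h | h
      · linarith
      · exact absurd h hdet0
    exact Prod.ext (by exact_mod_cast e3) (by exact_mod_cast e4)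
  have hset : ∀ Y : ℝ, latSet e A α β Y = f '' {x : ℤ × ℤ |
      0 < x.1 * e.σ b1 + x.2 * e.σ b2 ∧ 0 < x.1 * e.τ b1 + x.2 * e.τ b2 ∧
      α ≤ Real.log ((x.1 * e.σ b1 + x.2 * e.σ b2) / (x.1 * e.τ b1 + x.2 * e.τ b2)) ∧
      Real.log ((x.1 * e.σ b1 + x.2 * e.σ b2) / (x.1 * e.τ b1 + x.2 * e.τ b2)) < β ∧
      (x.1 * e.σ b1 + x.2 * e.σ b2) * (x.1 * e.τ b1 + x.2 * e.τ b2) * (Ideal.absNorm A : ℝ)
        ≤ Y} := by
    intro Y
    ext x
    constructor
    · rintro ⟨p1, p2, p3, p4, p5, p6⟩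
      obtain ⟨m, n, rfl⟩ := (hmem x).1 p5
      refine ⟨(m, n), ?_, rfl⟩
      have hs := hσf (m, n)
      have ht := hτf (m, n)
      simp only [hf] at hs ht
      rw [hs] at p1 p3 p4 p6
      rw [ht] at p2 p3 p4 p6
      exact ⟨p1, p2, p3, p4, p6⟩
    · rintro ⟨⟨m, n⟩, ⟨p1, p2, p3, p4, p6⟩, rfl⟩
      have hs := hσf (m, n)
      have ht := hτf (m, n)
      refine ⟨?_, ?_, ?_, ?_, ?_, ?_⟩
      · rw [hs]; exact p1
      · rw [ht]; exact p2
      · rw [hs, ht]; exact p3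
      · rw [hs, ht]; exact p4
      · exact (hmem _).2 ⟨m, n, rfl⟩
      · rw [hs, ht]; exact p6
  refine ⟨fun Y => ?_, ?_⟩
  · rw [hset Y]
    exact (hfin Y).image f
  · have hval : (β - α) / (2 * (Ideal.absNorm A : ℝ) * |e.σ b1 * e.τ b2 - e.σ b2 * e.τ b1|) =
        (β - α) / (2 * √(D : ℝ)) := by
      rw [hdet]
      congr 1
      field_simp
    rw [hval] at hlim
    refine hlim.congr (fun N => ?_)
    rw [hset, Set.ncard_image_of_injective _ hinj]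

end Pool.Agent.H38R2.CG
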