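import Pool.Agent.H52.V.S8.H38R2.CG.Stubs

set_option autoImplicit false

namespace Pool.Agent.H38R2.CG

open Finset Filter
open scoped Classical NumberField

namespace N5h

theorem KAB_nonneg {K : Type} [Field K] [NumberField K] {D : ℕ} (e : Emb K D)
    (A B : Ideal (𝓞 K)) : 0 ≤ KAB e A B := by
  unfold KAB
  refine finsum_nonneg fun x => ?_
  refine finsum_nonneg fun _ => ?_
  unfold phi
  exact le_max_left _ _

end N5h

theorem T_N5 : P_N3 → P_N4 → P_N5a → P_N5b → P_N5 := by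
  intro h3 h4 h5a h5b K _ _ D hD hK hdisc e ι _ A w hw
  have hD1 : 1 < D := hD.1
  have hDr : (0 : ℝ) < D := by exact_mod_cast (by omega : 0 < D)
  have hsq : 0 < √(D : ℝ) := Real.sqrt_pos.mpr hDr
  have hss : √(D : ℝ) * √(D : ℝ) = D := Real.mul_self_sqrt hDr.le
  obtain ⟨hL0, hLt, hLH⟩ := h3 K D hD hK hdisc
  have hA0 : ∀ i, (A i : Ideal (𝓞 K)) ≠ ⊥ := fun i => nonZeroDivisors.coe_ne_zero (A i)
  set Sg : ℝ := ∑ i, ∑ j, w i * w j * KAB e (A i : Ideal (𝓞 K)) (A j : Ideal (𝓞 K)) with hSg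
  have hSg0 : 0 ≤ Sg := Finset.sum_nonneg fun i _ => Finset.sum_nonneg fun j _ =>
    mul_nonneg (mul_nonneg (hw i) (hw j)) (N5h.KAB_nonneg e _ _)
  have key : ∀ (H : Subgroup (ClassGroup (𝓞 K))) (L : ℝ), (∀ i, ClassGroup.mk0 (A i) ∈ H) →
      Tendsto (fun N : ℕ => (Nat.card {I : nonZeroDivisors (Ideal (𝓞 K)) //
        Ideal.absNorm (I : Ideal (𝓞 K)) ≤ N ∧ ClassGroup.mk0 I ∈ H} : ℝ) / N) atTop (nhds L) →
      (∑ i, w i) ^ 2 ≤ 2 * √(D : ℝ) * L * Sg := by
    intro H L hAH hL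
    have hl1 : Tendsto (fun N : ℕ => (∑ i, w i *
        (((latSet e (A i : Ideal (𝓞 K)) 0 1 N).ncard : ℝ) / N)) ^ 2) atTop
        (nhds ((∑ i, w i * ((1 - 0) / (2 * √(D : ℝ)))) ^ 2)) := by
      refine Tendsto.pow ?_ 2
      refine tendsto_finsetSum _ fun i _ => ?_
      exact ((h4 K D hD hK hdisc e (A i) (hA0 i) 0 1 one_pos).2).const_mul (w i)
    have hl2 : Tendsto (fun N : ℕ => ((Nat.card {I : nonZeroDivisors (Ideal (𝓞 K)) //
        Ideal.absNorm (I : Ideal (𝓞 K)) ≤ N ∧ ClassGroup.mk0 I ∈ H} : ℝ) / N) *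
        ∑ i, ∑ j, w i * w j * (Vij e (A i : Ideal (𝓞 K)) (A j : Ideal (𝓞 K)) N / N)) atTop
        (nhds (L * ∑ i, ∑ j, w i * w j *
          (KAB e (A i : Ideal (𝓞 K)) (A j : Ideal (𝓞 K)) / (2 * √(D : ℝ))))) := by
      refine hL.mul ?_
      refine tendsto_finsetSum _ fun i _ => tendsto_finsetSum _ fun j _ => ?_
      exact (h5b K D hD hK hdisc e (A i) (A j) (hA0 i) (hA0 j)).const_mul (w i * w j)
    have hle := le_of_tendsto_of_tendsto' hl1 hl2 (by
      intro N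
      have h := h5a K D hD hK hdisc e ι A w hw H hAH N
      have e1 : (∑ i, w i * (((latSet e (A i : Ideal (𝓞 K)) 0 1 N).ncard : ℝ) / N)) ^ 2 =
          (∑ i, w i * ((latSet e (A i : Ideal (𝓞 K)) 0 1 N).ncard : ℝ)) ^ 2 / (N : ℝ) ^ 2 := by
        rw [← div_pow, Finset.sum_div]
        congr 1
        refine Finset.sum_congr rfl fun i _ => ?_
        ring
      have e2 : ((Nat.card {I : nonZeroDivisors (Ideal (𝓞 K)) //
          Ideal.absNorm (I : Ideal (𝓞 K)) ≤ N ∧ ClassGroup.mk0 I ∈ H} : ℝ) / N) *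
          ∑ i, ∑ j, w i * w j * (Vij e (A i : Ideal (𝓞 K)) (A j : Ideal (𝓞 K)) N / N) =
          ((Nat.card {I : nonZeroDivisors (Ideal (𝓞 K)) //
          Ideal.absNorm (I : Ideal (𝓞 K)) ≤ N ∧ ClassGroup.mk0 I ∈ H} : ℝ) *
          ∑ i, ∑ j, w i * w j * Vij e (A i : Ideal (𝓞 K)) (A j : Ideal (𝓞 K)) N) /
            (N : ℝ) ^ 2 := by
        have e3 : ∑ i, ∑ j, w i * w j * (Vij e (A i : Ideal (𝓞 K)) (A j : Ideal (𝓞 K)) N / N) =
            (∑ i, ∑ j, w i * w j * Vij e (A i : Ideal (𝓞 K)) (A j : Ideal (𝓞 K)) N) / N := by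
          rw [Finset.sum_div]
          refine Finset.sum_congr rfl fun i _ => ?_
          rw [Finset.sum_div]
          refine Finset.sum_congr rfl fun j _ => ?_
          ring
        rw [e3]
        ring
      rw [e1, e2]
      gcongr)
    have e4 : (∑ i, w i * ((1 - 0) / (2 * √(D : ℝ)))) ^ 2 = (∑ i, w i) ^ 2 / (4 * D) := by
      rw [← Finset.sum_mul, mul_pow]
      have : (((1 : ℝ) - 0) / (2 * √(D : ℝ))) ^ 2 = 1 / (4 * D) := by
        rw [div_pow, mul_pow, Real.sq_sqrt hDr.le]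
        norm_num
      rw [this]
      ring
    have e5 : ∑ i, ∑ j, w i * w j *
          (KAB e (A i : Ideal (𝓞 K)) (A j : Ideal (𝓞 K)) / (2 * √(D : ℝ))) =
          Sg / (2 * √(D : ℝ)) := by
      rw [hSg, Finset.sum_div]
      refine Finset.sum_congr rfl fun i _ => ?_
      rw [Finset.sum_div]
      refine Finset.sum_congr rfl fun j _ => ?_
      ring
    rw [e4, e5] at hle
    rw [div_le_iff₀ (by positivity)] at hle
    have e6 : L * (Sg / (2 * √(D : ℝ))) * (4 * D) = 2 * √(D : ℝ) * L * Sg := by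
      have : (4 * (D : ℝ)) = 4 * (√(D : ℝ) * √(D : ℝ)) := by rw [hss]
      rw [this]
      field_simp
      ring
    rw [e6] at hle
    exact hle
  refine ⟨?_, ?_⟩
  · refine key ⊤ (Lone D) (fun i => Subgroup.mem_top _) ?_
    refine hLt.congr fun N => ?_
    simp only [Subgroup.mem_top, and_true]
  · intro H hH hAH
    obtain ⟨L', hL', hLt'⟩ := hLH H hH
    have h := key H L' hAH hLt'
    have : L' * Sg ≤ Lone D / 2 * Sg := mul_le_mul_of_nonneg_right hL' hSg0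
    have h2 : 2 * √(D : ℝ) * L' * Sg ≤ 2 * √(D : ℝ) * (Lone D / 2) * Sg := by
      have := mul_le_mul_of_nonneg_left this (by positivity : (0 : ℝ) ≤ 2 * √(D : ℝ))
      linarith
    linarith

end Pool.Agent.H38R2.CG
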