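import Pool.Agent.H52.V.S8.H38R2.CG.Stubs
import Pool.Agent.H52.V.S8.Helper923.PNT

/-!
Task NB: number of primes in (y, 2y] and the size of the family.
-/

set_option autoImplicit false

namespace Pool.Agent.H38R2.CG

open Finset Filter
open scoped Classical

namespace NBh

theorem card_PP (y : ℕ) : (PP y).card + Nat.primeCounting y = Nat.primeCounting (2 * y) := by
  unfold PP Nat.primeCounting Nat.primeCounting'
  rw [Nat.count_eq_card_filter_range, Nat.count_eq_card_filter_range]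
  rw [← Finset.card_union_of_disjoint]
  · congr 1
    ext p
    simp only [Finset.mem_union, Finset.mem_filter, Finset.mem_Ioc, Finset.mem_range]
    constructor
    · rintro (⟨h1, h2⟩ | ⟨h1, h2⟩)
      · exact ⟨by omega, h2⟩
      · exact ⟨by omega, h2⟩
    · rintro ⟨h1, h2⟩
      by_cases h : y < p
      · exact Or.inl ⟨⟨h, by omega⟩, h2⟩
      · exact Or.inr ⟨by omega, h2⟩
  · rw [Finset.disjoint_left]
    intro p hp hp2
    simp only [Finset.mem_filter, Finset.mem_Ioc, Finset.mem_range] at hp hp2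
    omega

theorem tendsto_PP : Tendsto (fun y : ℕ => ((PP y).card : ℝ) * Real.log y / y) atTop (nhds 1) := by
  have h := Pool.Agent.Helper923.PNT.pi_tendsto
  have h1 : Tendsto (fun y : ℕ => (Nat.primeCounting y : ℝ) * Real.log y / y) atTop (nhds 1) := by
    refine (h.comp tendsto_natCast_atTop_atTop).congr fun y => ?_
    simp only [Function.comp, Nat.floor_natCast]
  have h2y : Tendsto (fun y : ℕ => (((2 * y : ℕ)) : ℝ)) atTop atTop :=
    tendsto_natCast_atTop_atTop.comp (tendsto_id.const_mul_atTop' (by norm_num))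
  have h2 : Tendsto (fun y : ℕ => (Nat.primeCounting (2 * y) : ℝ) * Real.log ((2 * y : ℕ) : ℝ) /
      ((2 * y : ℕ) : ℝ)) atTop (nhds 1) := by
    refine (h.comp h2y).congr fun y => ?_
    simp only [Function.comp, Nat.floor_natCast]
  -- log y / log (2y) → 1
  have h3 : Tendsto (fun y : ℕ => Real.log y / Real.log ((2 * y : ℕ) : ℝ)) atTop (nhds 1) := by
    have hl : Tendsto (fun y : ℕ => Real.log 2 / Real.log ((2 * y : ℕ) : ℝ)) atTop (nhds 0) :=
      tendsto_const_nhds.div_atTop (Real.tendsto_log_atTop.comp h2y)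
    have h4 : Tendsto (fun y : ℕ => 1 - Real.log 2 / Real.log ((2 * y : ℕ) : ℝ)) atTop
        (nhds (1 - 0)) := tendsto_const_nhds.sub hl
    rw [sub_zero] at h4
    refine h4.congr' ?_
    filter_upwards [eventually_ge_atTop 1] with y hy
    have hy' : (1 : ℝ) ≤ y := by exact_mod_cast hy
    have hlog : Real.log ((2 * y : ℕ) : ℝ) = Real.log 2 + Real.log y := by
      push_cast
      rw [Real.log_mul (by norm_num) (by positivity)]
    have hpos : 0 < Real.log ((2 * y : ℕ) : ℝ) := by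
      rw [hlog]
      have := Real.log_pos (by norm_num : (1 : ℝ) < 2)
      have := Real.log_nonneg hy'
      linarith
    rw [eq_div_iff hpos.ne', sub_mul, div_mul_cancel₀ _ hpos.ne', hlog]
    ring
  have h5 := (((h2.mul h3).const_mul 2).sub h1)
  have h6 : (2 * (1 * 1) - 1 : ℝ) = 1 := by norm_num
  rw [h6] at h5
  refine h5.congr' ?_
  filter_upwards [eventually_ge_atTop 1] with y hy
  have hy' : (1 : ℝ) ≤ y := by exact_mod_cast hy
  have hlog : Real.log ((2 * y : ℕ) : ℝ) = Real.log 2 + Real.log y := by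
    push_cast
    rw [Real.log_mul (by norm_num) (by positivity)]
  have hpos : 0 < Real.log ((2 * y : ℕ) : ℝ) := by
    rw [hlog]
    have := Real.log_pos (by norm_num : (1 : ℝ) < 2)
    have := Real.log_nonneg hy'
    linarith
  have hc : ((PP y).card : ℝ) = (Nat.primeCounting (2 * y) : ℝ) - (Nat.primeCounting y : ℝ) := by
    have := card_PP y
    rw [← this]
    push_cast
    ring
  rw [hc]
  have hy0 : (y : ℝ) ≠ 0 := by positivity
  have h2y0 : ((2 * y : ℕ) : ℝ) = 2 * y := by push_cast; ring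
  have e1 : (Nat.primeCounting (2 * y) : ℝ) * Real.log ((2 * y : ℕ) : ℝ) /
      ((2 * y : ℕ) : ℝ) * (Real.log y / Real.log ((2 * y : ℕ) : ℝ)) =
      (Nat.primeCounting (2 * y) : ℝ) * Real.log y / (2 * y) := by
    rw [div_mul_div_comm, h2y0]
    rw [div_eq_div_iff (by rw [h2y0] at hpos; positivity) (by positivity)]
    ring
  rw [e1]
  field_simp

theorem part2 : ∃ y0 : ℕ, ∀ y ≥ y0, (9 / 10 : ℝ) * y / Real.log y ≤ (PP y).card ∧
    ((PP y).card : ℝ) ≤ (11 / 10 : ℝ) * y / Real.log y := by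
  have h := tendsto_PP
  have h1 := h.eventually_const_le (show (9 / 10 : ℝ) < 1 by norm_num)
  have h2 := h.eventually_le_const (show (1 : ℝ) < 11 / 10 by norm_num)
  obtain ⟨y0, hy0⟩ := eventually_atTop.mp ((h1.and h2).and (eventually_ge_atTop 2))
  refine ⟨y0, fun y hy => ?_⟩
  obtain ⟨⟨ha, hb⟩, hc⟩ := hy0 y hy
  have hy' : (2 : ℝ) ≤ y := by exact_mod_cast hc
  have hlog : 0 < Real.log y := Real.log_pos (by linarith)
  have hypos : (0 : ℝ) < y := by linarith
  rw [le_div_iff₀ hypos] at ha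
  rw [div_le_iff₀ hypos] at hb
  constructor
  · rw [div_le_iff₀ hlog]
    exact ha
  · rw [le_div_iff₀ hlog]
    exact hb

/-- the elementary inequality -/
theorem choose_bound (P k y : ℕ) (l : ℝ) (hk : 1 ≤ k) (hl : 8 ≤ l) (hy : l ^ 5 ≤ y)
    (hP : (9 / 10 : ℝ) * y / Real.log y ≤ P)
    (hk1 : (13 / 20 : ℝ) * l ≤ k * Real.log y)
    (hk2 : (k : ℝ) * Real.log y ≤ (8 / 10 : ℝ) * l) :
    Real.exp ((13 / 25 : ℝ) * l) ≤ (P.choose k : ℝ) := by
  have hl0 : 0 < l := by linarith
  have hk' : (1 : ℝ) ≤ k := by exact_mod_cast hk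
  have hl4 : (4096 : ℝ) ≤ l ^ 4 := by
    have := pow_le_pow_left₀ (by norm_num : (0 : ℝ) ≤ 8) hl 4
    norm_num at this
    exact this
  have hy1 : 4096 * l ≤ y := by
    refine le_trans ?_ hy
    have : l ^ 5 = l ^ 4 * l := by ring
    rw [this]
    exact mul_le_mul_of_nonneg_right hl4 hl0.le
  have hypos : (0 : ℝ) < y := by nlinarith
  have hylog : 0 < Real.log y := Real.log_pos (by nlinarith)
  -- P + 1 - k ≥ (8/10) y / log y
  have hkP : (k : ℝ) ≤ (1 / 10 : ℝ) * y / Real.log y := by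
    rw [le_div_iff₀ hylog]
    nlinarith
  have hPk : (8 / 10 : ℝ) * y / Real.log y ≤ (P : ℝ) - k := by
    have : (8 / 10 : ℝ) * y / Real.log y =
        (9 / 10 : ℝ) * y / Real.log y - (1 / 10 : ℝ) * y / Real.log y := by ring
    linarith
  have hkleP : k ≤ P := by
    have h0 : 0 ≤ (8 / 10 : ℝ) * y / Real.log y := by positivity
    have : (k : ℝ) ≤ P := by linarith
    exact_mod_cast this
  have hch := Nat.pow_le_choose (α := ℝ) k P
  have hfac : ((k.factorial : ℕ) : ℝ) ≤ (k : ℝ) ^ k := by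
    exact_mod_cast Nat.factorial_le_pow k
  have hcast : ((P + 1 - k : ℕ) : ℝ) = (P : ℝ) + 1 - k := by
    rw [Nat.cast_sub (by omega)]
    push_cast
    ring
  have hbase : (y : ℝ) ^ (4 / 5 : ℝ) ≤ ((P : ℝ) + 1 - k) / k := by
    have h1 : (8 / 10 : ℝ) * y / Real.log y / k ≤ ((P : ℝ) + 1 - k) / k :=
      div_le_div_of_nonneg_right (by linarith) (by linarith)
    refine le_trans ?_ h1
    rw [div_div]
    have h2 : (8 / 10 : ℝ) * y / ((8 / 10 : ℝ) * l) ≤ (8 / 10 : ℝ) * y / (Real.log y * k) := by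
      refine div_le_div_of_nonneg_left (by positivity) (by positivity) ?_
      linarith [hk2, mul_comm (Real.log (y : ℝ)) (k : ℝ)]
    refine le_trans ?_ h2
    rw [mul_div_mul_left _ _ (by norm_num : (8 / 10 : ℝ) ≠ 0), le_div_iff₀ hl0]
    have h3 : l ≤ (y : ℝ) ^ (1 / 5 : ℝ) := by
      have h4 : (l ^ 5) ^ (1 / 5 : ℝ) ≤ (y : ℝ) ^ (1 / 5 : ℝ) :=
        Real.rpow_le_rpow (by positivity) hy (by norm_num)
      have h5 : (l ^ 5) ^ (1 / 5 : ℝ) = l := by
        rw [← Real.rpow_natCast, ← Real.rpow_mul hl0.le]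
        norm_num
      rwa [h5] at h4
    calc (y : ℝ) ^ (4 / 5 : ℝ) * l ≤ (y : ℝ) ^ (4 / 5 : ℝ) * (y : ℝ) ^ (1 / 5 : ℝ) :=
          mul_le_mul_of_nonneg_left h3 (by positivity)
      _ = y := by
          rw [← Real.rpow_add hypos]
          norm_num
  calc Real.exp ((13 / 25 : ℝ) * l) ≤ Real.exp ((4 / 5 : ℝ) * (k * Real.log y)) := by
        refine Real.exp_le_exp.mpr ?_
        nlinarith
    _ = ((y : ℝ) ^ (4 / 5 : ℝ)) ^ k := by
        rw [← Real.rpow_natCast, ← Real.rpow_mul hypos.le, Real.rpow_def_of_pos hypos]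
        congr 1
        ring
    _ ≤ (((P : ℝ) + 1 - k) / k) ^ k := pow_le_pow_left₀ (by positivity) hbase k
    _ = ((P : ℝ) + 1 - k) ^ k / (k : ℝ) ^ k := div_pow _ _ _
    _ ≤ ((P : ℝ) + 1 - k) ^ k / ((k.factorial : ℕ) : ℝ) := by
        refine div_le_div_of_nonneg_left ?_ (by exact_mod_cast Nat.factorial_pos k) hfac
        have : 0 ≤ (P : ℝ) + 1 - k := by
          have : (k : ℝ) ≤ P := by exact_mod_cast hkleP
          linarith
        positivity
    _ ≤ (P.choose k : ℝ) := by
        rw [← hcast]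
        exact_mod_cast hch

theorem part1 : ∃ X0 : ℕ, ∀ X ≥ X0, (X : ℝ) ^ (13 / 25 : ℝ) ≤ NX X := by
  obtain ⟨y0, hy0⟩ := part2
  have hlog : Tendsto (fun X : ℕ => Real.log X) atTop atTop :=
    Real.tendsto_log_atTop.comp tendsto_natCast_atTop_atTop
  have hll : ∀ᶠ l : ℝ in atTop, 6 * Real.log l ≤ (3 / 20 : ℝ) * l := by
    have h := Real.isLittleO_log_id_atTop.def (show (0 : ℝ) < 1 / 40 by norm_num)
    filter_upwards [h, eventually_ge_atTop 1] with l hl hl1
    rw [Real.norm_eq_abs, Real.norm_eq_abs, id, abs_of_nonneg (Real.log_nonneg hl1),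
      abs_of_nonneg (by linarith : (0 : ℝ) ≤ l)] at hl
    linarith
  have hev : ∀ᶠ X : ℕ in atTop, (X : ℝ) ^ (13 / 25 : ℝ) ≤ NX X := by
    filter_upwards [hlog.eventually hll, hlog.eventually_ge_atTop 8,
      hlog.eventually_ge_atTop (y0 : ℝ), eventually_ge_atTop 1] with X h1 h2 h3 h4
    set l := Real.log X with hl
    have hXpos : (0 : ℝ) < X := by exact_mod_cast h4
    have hXe : (X : ℝ) ^ (13 / 25 : ℝ) = Real.exp ((13 / 25 : ℝ) * l) := by
      rw [Real.rpow_def_of_pos hXpos, hl]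
      ring_nf
    rw [hXe]
    have hl0 : 0 < l := by linarith
    set y := yy X with hy
    have hyfloor : (y : ℝ) ≤ l ^ 6 / 4 := Nat.floor_le (by positivity)
    have hyfloor2 : l ^ 6 / 4 - 1 < y := Nat.sub_one_lt_floor _
    have hl5 : (32768 : ℝ) ≤ l ^ 5 := by
      have := pow_le_pow_left₀ (by norm_num : (0 : ℝ) ≤ 8) h2 5
      norm_num at this
      exact this
    have hy5 : l ^ 5 ≤ y := by
      have : l ^ 6 / 4 = l ^ 5 * (l / 4) := by ring
      have h7 : 2 ≤ l / 4 := by linarith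
      nlinarith
    have hyl : l ≤ y := by
      have hl4 : (1 : ℝ) ≤ l ^ 4 := by
        have := pow_le_pow_left₀ (by norm_num : (0 : ℝ) ≤ 8) h2 4
        norm_num at this
        linarith
      have : l ^ 5 = l ^ 4 * l := by ring
      nlinarith
    have hypos : (0 : ℝ) < y := by linarith
    have hy1 : (1 : ℝ) < y := by linarith
    have hylog : 0 < Real.log y := Real.log_pos hy1
    have hyy0 : y0 ≤ y := by
      have : (y0 : ℝ) ≤ y := h3.trans hyl
      exact_mod_cast this
    have hlogy : Real.log y ≤ (3 / 20 : ℝ) * l := by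
      refine le_trans ?_ h1
      have : (y : ℝ) ≤ l ^ 6 := by
        have : 0 < l ^ 6 := by positivity
        linarith
      calc Real.log y ≤ Real.log (l ^ 6) := Real.log_le_log hypos this
        _ = 6 * Real.log l := by rw [Real.log_pow]; norm_num
    unfold NX
    have hkk : kk X = ⌊(13 / 20 : ℝ) * l / Real.log y⌋₊ + 1 := by
      unfold kk
      rw [← hy, ← hl]
    refine choose_bound (PX X).card (kk X) y l (by rw [hkk]; omega) h2 hy5 ?_ ?_ ?_
    · exact (hy0 y hyy0).1
    · have h8 : (13 / 20 : ℝ) * l / Real.log y < (kk X : ℝ) := by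
        rw [hkk]
        push_cast
        exact Nat.lt_floor_add_one _
      rw [div_lt_iff₀ hylog] at h8
      exact h8.le
    · have h9 : (kk X : ℝ) ≤ (13 / 20 : ℝ) * l / Real.log y + 1 := by
        rw [hkk]
        push_cast
        have := Nat.floor_le (show 0 ≤ (13 / 20 : ℝ) * l / Real.log y by positivity)
        linarith
      calc (kk X : ℝ) * Real.log y ≤ ((13 / 20 : ℝ) * l / Real.log y + 1) * Real.log y :=
            mul_le_mul_of_nonneg_right h9 hylog.le
        _ = (13 / 20 : ℝ) * l + Real.log y := by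
            field_simp
        _ ≤ (8 / 10 : ℝ) * l := by linarith
  exact eventually_atTop.mp hev

end NBh

theorem T_NB : P_NB := ⟨NBh.part1, NBh.part2⟩

end Pool.Agent.H38R2.CG
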