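import Pool.Agent.H52.V.S8.H38R2.CG.Stubs

/-!
# NF: assembly of the number field part
-/

set_option autoImplicit false

namespace Pool.Agent.H38R2.CG

open Finset Filter NumberField
open scoped Classical

namespace NFh

/-- the ideals of given norm as a finite set -/
noncomputable def U (K : Type) [Field K] [NumberField K] (n : ℕ) : Finset (Ideal (𝓞 K)) :=
  (Ideal.finite_setOfPred_absNorm_eq (S := 𝓞 K) n).toFinset

theorem mem_U {K : Type} [Field K] [NumberField K] {n : ℕ} {I : Ideal (𝓞 K)} :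
    I ∈ U K n ↔ Ideal.absNorm I = n := by
  simp [U]

theorem card_U (K : Type) [Field K] [NumberField K] (n : ℕ) :
    (U K n).card = Nat.card {I : Ideal (𝓞 K) // Ideal.absNorm I = n} := by
  have h : Nat.card {I : Ideal (𝓞 K) // I ∈ U K n} = (U K n).card := by
    rw [Nat.card_eq_fintype_card, Fintype.card_coe]
  rw [← h]
  exact Nat.card_congr (Equiv.subtypeEquivRight fun I => mem_U)

theorem prodS_pos {s : Finset ℕ} (hs : ∀ p ∈ s, p.Prime) : 0 < prodS s :=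
  Finset.prod_pos fun p hp => (hs p hp).pos

theorem mem_of_dvd {s : Finset ℕ} (hs : ∀ p ∈ s, p.Prime) {p : ℕ} (hp : p.Prime)
    (h : p ∣ prodS s) : p ∈ s := by
  unfold prodS at h
  obtain ⟨q, hq, hpq⟩ := (Prime.dvd_finsetProd_iff hp.prime _).mp h
  rw [(Nat.prime_dvd_prime_iff_eq hp (hs q hq)).mp hpq]
  exact hq

theorem not_sq_dvd {s : Finset ℕ} (hs : ∀ p ∈ s, p.Prime) {p : ℕ} (hp : p.Prime) :
    ¬ p ^ 2 ∣ prodS s := by
  intro h
  have hps : p ∈ s := mem_of_dvd hs hp (dvd_trans (dvd_pow_self p (by norm_num)) h)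
  have h1 : prodS s = p * prodS (s.erase p) := by
    unfold prodS
    rw [Finset.mul_prod_erase s (fun p => p) hps]
  rw [h1, pow_two] at h
  have h2 : p ∣ prodS (s.erase p) := Nat.dvd_of_mul_dvd_mul_left hp.pos h
  have h3 := mem_of_dvd (fun q hq => hs q (Finset.mem_of_mem_erase hq)) hp h2
  exact Finset.notMem_erase p s h3

/-- the norm of a prime ideal dividing an ideal of norm `prodS s` belongs to `s` -/
theorem norm_mem {K : Type} [Field K] [NumberField K] {s : Finset ℕ} (hs : ∀ p ∈ s, p.Prime)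
    {A : Ideal (𝓞 K)} (hA : Ideal.absNorm A = prodS s) {Q : Ideal (𝓞 K)} (hQ : Prime Q)
    (hQA : Q ∣ A) : Ideal.absNorm Q ∈ s := by
  have hp : Q.IsPrime := Ideal.isPrime_of_prime hQ
  have hm : Q.IsMaximal := hp.isMaximal hQ.ne_zero
  obtain ⟨p, n, hn, -, hpp, hN⟩ := Ideal.exists_prime_and_absNorm_eq_pow Q
  have hdvd : p ^ n ∣ prodS s := by
    rw [← hN, ← hA]
    exact map_dvd Ideal.absNorm hQA
  have hn1 : n = 1 := by
    by_contra hne
    have h2 : 2 ≤ n := by omega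
    exact not_sq_dvd hs hpp (dvd_trans (pow_dvd_pow p h2) hdvd)
  rw [hN, hn1, pow_one]
  rw [hn1, pow_one] at hdvd
  exact mem_of_dvd hs hpp hdvd

/-- classes of ideals whose prime factors have small norm -/
theorem mk0_mem {K : Type} [Field K] [NumberField K] {B : ℝ}
    {H : Subgroup (ClassGroup (𝓞 K))}
    (hH : ∀ P : nonZeroDivisors (Ideal (𝓞 K)), (P : Ideal (𝓞 K)).IsPrime →
      ((Ideal.absNorm (P : Ideal (𝓞 K)) : ℕ) : ℝ) ≤ B → ClassGroup.mk0 P ∈ H)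
    (A : Ideal (𝓞 K)) : ∀ hA : A ∈ nonZeroDivisors (Ideal (𝓞 K)),
      (∀ Q : Ideal (𝓞 K), Prime Q → Q ∣ A → ((Ideal.absNorm Q : ℕ) : ℝ) ≤ B) →
      ClassGroup.mk0 ⟨A, hA⟩ ∈ H := by
  induction A using UniqueFactorizationMonoid.induction_on_prime with
  | h₁ =>
    intro hA
    exact absurd hA zero_notMem_nonZeroDivisors
  | h₂ I hI =>
    intro hA _
    have h1 : I = 1 := by
      rw [Ideal.one_eq_top]
      exact Ideal.isUnit_iff.mp hI
    have h2 : (⟨I, hA⟩ : nonZeroDivisors (Ideal (𝓞 K))) = 1 := Subtype.ext h1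
    rw [h2, map_one]
    exact H.one_mem
  | h₃ I P hI hP IH =>
    intro hA hQ
    have hI' : I ∈ nonZeroDivisors (Ideal (𝓞 K)) := mem_nonZeroDivisors_of_ne_zero hI
    have hP' : P ∈ nonZeroDivisors (Ideal (𝓞 K)) := mem_nonZeroDivisors_of_ne_zero hP.ne_zero
    have h1 : (⟨P * I, hA⟩ : nonZeroDivisors (Ideal (𝓞 K))) = ⟨P, hP'⟩ * ⟨I, hI'⟩ :=
      Subtype.ext rfl
    rw [h1, map_mul]
    refine H.mul_mem ?_ ?_
    · exact hH _ (Ideal.isPrime_of_prime hP) (hQ P hP (dvd_mul_right P I))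
    · exact IH hI' fun Q hQp hQI => hQ Q hQp (dvd_mul_of_dvd_right hQI P)

theorem sum_sig {α β M : Type*} [AddCommMonoid M] (S : Finset α) (V : α → Finset β)
    (F : α → β → M) :
    ∑ i : (Σ s : {s // s ∈ S}, {A // A ∈ V s}), F i.1 i.2 = ∑ s ∈ S, ∑ A ∈ V s, F s A := by
  rw [Fintype.sum_sigma, ← Finset.sum_coe_sort S]
  refine Finset.sum_congr rfl fun s _ => ?_
  exact Finset.sum_coe_sort (V s) (F s)

/-- the two inequalities in terms of a weighted family of ideals -/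
theorem key (hN1 : P_N1) (hN3 : P_N3) (hN5 : P_N5) (hN6 : P_N6) {K : Type} [Field K]
    [NumberField K] {D : ℕ} (hD : IsFund D) (h2 : Module.finrank ℚ K = 2)
    (hK : NumberField.discr K = (D : ℤ)) (e : Emb K D) (S : Finset (Finset ℕ))
    (f : Finset ℕ → ℝ) (hf : ∀ s ∈ S, 0 ≤ f s ∧ ∀ p ∈ s, p.Prime ∧ p ≠ 2) :
    (MD D S f) ^ 2 ≤ 2 * √(D : ℝ) * Lone D * SD D S f ∧
    ∀ H : Subgroup (ClassGroup (𝓞 K)), H ≠ ⊤ →
      (∀ s ∈ S, ∀ A : nonZeroDivisors (Ideal (𝓞 K)),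
        Ideal.absNorm (A : Ideal (𝓞 K)) = prodS s → ClassGroup.mk0 A ∈ H) →
      2 * (MD D S f) ^ 2 ≤ 2 * √(D : ℝ) * Lone D * SD D S f := by
  have hL : 0 ≤ Lone D := (hN3 K D hD h2 hK).1
  let V : Finset ℕ → Finset (Ideal (𝓞 K)) := fun s => U K (prodS s)
  let ι : Type := Σ s : {s // s ∈ S}, {A // A ∈ V s}
  have hne : ∀ i : ι, (i.2 : Ideal (𝓞 K)) ∈ nonZeroDivisors (Ideal (𝓞 K)) := by
    intro i
    rw [← Ideal.absNorm_ne_zero_iff_mem_nonZeroDivisors, mem_U.mp i.2.2]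
    exact (prodS_pos fun p hp => ((hf i.1 i.1.2).2 p hp).1).ne'
  let A : ι → nonZeroDivisors (Ideal (𝓞 K)) := fun i => ⟨i.2, hne i⟩
  let w : ι → ℝ := fun i => f i.1
  have hw : ∀ i, 0 ≤ w i := fun i => (hf i.1 i.1.2).1
  have hsum : ∑ i, w i = MD D S f := by
    have h := sum_sig S V (fun s _ => f s)
    change ∑ i : (Σ s : {s // s ∈ S}, {A // A ∈ V s}), f i.1 = MD D S f
    rw [h]
    unfold MD
    refine Finset.sum_congr rfl fun s hs => ?_
    rw [Finset.sum_const, nsmul_eq_mul, mul_comm]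
    congr 1
    have h1 := hN1 K D hD h2 hK s (hf s hs).2
    have h3 : ((V s).card : ℤ) = ∏ p ∈ s, (1 + chi D p) := by
      rw [← h1, ← card_U]
    have h4 : (((V s).card : ℤ) : ℝ) = ((∏ p ∈ s, (1 + chi D p) : ℤ) : ℝ) := by rw [h3]
    push_cast at h4
    exact h4
  have hdouble : ∑ i, ∑ j, w i * w j * KAB e (A i : Ideal (𝓞 K)) (A j : Ideal (𝓞 K)) ≤
      SD D S f := by
    have h : ∑ i, ∑ j, w i * w j * KAB e (A i : Ideal (𝓞 K)) (A j : Ideal (𝓞 K)) =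
        ∑ s ∈ S, ∑ X ∈ V s, ∑ t ∈ S, ∑ Y ∈ V t, f s * f t * KAB e X Y := by
      rw [← sum_sig S V (fun s X => ∑ t ∈ S, ∑ Y ∈ V t, f s * f t * KAB e X Y)]
      refine Finset.sum_congr rfl fun i _ => ?_
      exact sum_sig S V (fun t Y => f i.1 * f t * KAB e (i.2 : Ideal (𝓞 K)) Y)
    rw [h]
    unfold SD
    refine Finset.sum_le_sum fun s hs => ?_
    rw [Finset.sum_comm]
    refine Finset.sum_le_sum fun t ht => ?_
    have h3 : ∑ X ∈ V s, ∑ Y ∈ V t, f s * f t * KAB e X Y =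
        f s * f t * ∑ X ∈ V s, ∑ Y ∈ V t, KAB e X Y := by
      rw [Finset.mul_sum]
      refine Finset.sum_congr rfl fun X _ => ?_
      rw [Finset.mul_sum]
    rw [h3]
    have h4 := hN6 K D hD h2 hK e s t (hf s hs).2 (hf t ht).2 (V s) (V t)
      (fun X hX => mem_U.mp hX) (fun Y hY => mem_U.mp hY)
    have h5 : 0 ≤ f s * f t := mul_nonneg (hf s hs).1 (hf t ht).1
    calc f s * f t * ∑ X ∈ V s, ∑ Y ∈ V t, KAB e X Y
        ≤ f s * f t * (2 ^ ((s ∩ t).card) * Rsum D (prodS s * prodS t)) :=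
          mul_le_mul_of_nonneg_left h4 h5
      _ = _ := by ring
  have hc : 0 ≤ 2 * √(D : ℝ) * Lone D := by positivity
  obtain ⟨h5a, h5b⟩ := hN5 K D hD h2 hK e ι A w hw
  rw [hsum] at h5a h5b
  refine ⟨h5a.trans (mul_le_mul_of_nonneg_left hdouble hc), ?_⟩
  intro H hH hmem
  refine (h5b H hH ?_).trans (mul_le_mul_of_nonneg_left hdouble hc)
  intro i
  exact hmem i.1 i.1.2 (A i) (mem_U.mp i.2.2)

end NFh

open NFh in
/-- task NF -/
theorem T_NF : P_N0 → P_N0e → P_N1 → P_N3 → P_N5 → P_N6 → P_NF := by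
  intro hN0 hN0e hN1 hN3 hN5 hN6 D hD
  obtain ⟨K0, i1, i2, h2, hK⟩ := hN0e D hD
  obtain ⟨e0⟩ := hN0 K0 D hD h2 hK
  refine ⟨(hN3 K0 D hD h2 hK).1, ?_, ?_⟩
  · intro S f hf
    exact (key hN1 hN3 hN5 hN6 hD h2 hK e0 S f hf).1
  · rintro B ⟨K, j1, j2, k2, kK, hsm⟩ S f hf
    obtain ⟨e⟩ := hN0 K D hD k2 kK
    refine (key hN1 hN3 hN5 hN6 hD k2 kK e S f
      (fun s hs => ⟨(hf s hs).1, fun p hp => ⟨((hf s hs).2 p hp).1, ((hf s hs).2 p hp).2.1⟩⟩)).2
      _ hsm ?_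
    intro s hs A hA
    refine mk0_mem (B := B) ?_ (A : Ideal (𝓞 K)) A.2 ?_
    · intro P hP hPB
      exact Subgroup.subset_closure ⟨P, hP, hPB, rfl⟩
    · intro Q hQ hQA
      have hmem := norm_mem (fun p hp => ((hf s hs).2 p hp).1) hA hQ hQA
      exact ((hf s hs).2 _ hmem).2.2

end Pool.Agent.H38R2.CG
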