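import Pool.Agent.H52.V.S8.H38R2.CG.Stubs

/-! # TB3a: crude bound for the number of roots -/

set_option autoImplicit false

namespace Pool.Agent.H38R2.CG

namespace TB3ah

open Finset

/-- number of roots of u^2 = a mod M -/
def R (M a : ℕ) : ℕ := ((Finset.range M).filter (fun u => u ^ 2 ≡ a [MOD M])).card

lemma R_mul {M N : ℕ} (a : ℕ) (h : M.Coprime N) : R (M * N) a ≤ R M a * R N a := by
  classical
  unfold R
  rw [← Finset.card_product]
  apply Finset.card_le_card_of_injOn (fun u => (u % M, u % N))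
  · intro u hu
    simp only [Finset.coe_filter, Finset.mem_range, Set.mem_ofPred_eq] at hu
    obtain ⟨hu1, hu2⟩ := hu
    have hM : 0 < M := Nat.pos_of_ne_zero (by rintro rfl; simp at hu1)
    have hN : 0 < N := Nat.pos_of_ne_zero (by rintro rfl; simp at hu1)
    simp only [Finset.coe_product, Finset.coe_filter, Finset.mem_range, Set.mem_prod,
      Set.mem_ofPred_eq]
    refine ⟨⟨Nat.mod_lt _ hM, ?_⟩, ⟨Nat.mod_lt _ hN, ?_⟩⟩
    · exact ((Nat.mod_modEq u M).pow 2).trans (hu2.of_dvd (Dvd.intro _ rfl))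
    · exact ((Nat.mod_modEq u N).pow 2).trans (hu2.of_dvd (Dvd.intro_left _ rfl))
  · intro u hu w hw huw
    simp only [Finset.coe_filter, Finset.mem_range, Set.mem_ofPred_eq] at hu hw
    simp only [Prod.mk.injEq] at huw
    have h1 : u ≡ w [MOD M * N] :=
      (Nat.modEq_and_modEq_iff_modEq_mul h).1 ⟨huw.1, huw.2⟩
    exact Nat.ModEq.eq_of_lt_of_lt h1 hu.1 hw.1

lemma cntmod (M K : ℕ) (c : ℤ) :
    ((Finset.range (M * K)).filter (fun w : ℕ => (M : ℤ) ∣ (w : ℤ) - c)).card ≤ K := by
  classical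
  calc ((Finset.range (M * K)).filter (fun w : ℕ => (M : ℤ) ∣ (w : ℤ) - c)).card
      ≤ (Finset.range K).card := by
        apply Finset.card_le_card_of_injOn (fun w => w / M)
        · intro w hw
          simp only [Finset.coe_filter, Finset.mem_range, Set.mem_ofPred_eq] at hw
          simp only [Finset.coe_range, Set.mem_Iio]
          exact Nat.div_lt_of_lt_mul hw.1
        · intro u hu w hw huw
          simp only [Finset.coe_filter, Finset.mem_range, Set.mem_ofPred_eq] at hu hw
          have h1 : (M : ℤ) ∣ (w : ℤ) - u := by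
            have := dvd_sub hw.2 hu.2
            simpa using this
          have h2 : u % M = w % M := (Nat.modEq_iff_dvd.2 h1)
          have h3 : u / M = w / M := huw
          rw [← Nat.div_add_mod u M, ← Nat.div_add_mod w M, h2, h3]
    _ = K := Finset.card_range K

lemma pp_bound (p e G m : ℕ) (hp : p.Prime) (hG : 1 ≤ G) (hm : Squarefree m) :
    R ((p ^ e) ^ 2) (G ^ 2 * m) ≤ (if p = 2 then 4 else 2) * Nat.gcd G (p ^ e) := by
  classical
  have hp0 : 0 < p := hp.pos
  obtain ⟨i, G', hG', hGe⟩ := Nat.exists_eq_pow_mul_and_not_dvd (n := G) (by omega) p hp.ne_one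
  by_cases hie : e ≤ i
  · -- all roots are divisible by p^e
    have hdG : p ^ e ∣ G := by
      rw [hGe]; exact Dvd.dvd.mul_right (pow_dvd_pow p hie) _
    have hgcd : Nat.gcd G (p ^ e) = p ^ e := Nat.gcd_eq_right hdG
    rw [hgcd]
    have hcard : R ((p ^ e) ^ 2) (G ^ 2 * m) ≤ p ^ e := by
      unfold R
      have hsub : (Finset.range ((p ^ e) ^ 2)).filter
          (fun u => u ^ 2 ≡ G ^ 2 * m [MOD (p ^ e) ^ 2]) ⊆
          (Finset.range (p ^ e * p ^ e)).filter (fun w : ℕ => ((p ^ e : ℕ) : ℤ) ∣ (w : ℤ) - 0) := by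
        intro u hu
        simp only [Finset.mem_filter, Finset.mem_range] at hu ⊢
        refine ⟨by rw [← sq]; exact hu.1, ?_⟩
        have h1 : (p ^ e) ^ 2 ∣ G ^ 2 * m := Dvd.dvd.mul_right (pow_dvd_pow_of_dvd hdG 2) _
        have h2 : (p ^ e) ^ 2 ∣ u ^ 2 := (hu.2.dvd_iff dvd_rfl).2 h1
        have h3 : p ^ e ∣ u := (Nat.pow_dvd_pow_iff two_ne_zero).1 h2
        rw [sub_zero]
        exact_mod_cast h3
      exact (Finset.card_le_card hsub).trans (cntmod _ _ _)
    refine hcard.trans ?_
    split_ifs <;> nlinarith [pow_pos hp0 e]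
  · push Not at hie
    have hgcd : Nat.gcd G (p ^ e) = p ^ i := by
      rw [hGe]
      have h1 : p ^ e = p ^ i * p ^ (e - i) := by
        rw [← pow_add]; congr 1; omega
      rw [h1, Nat.gcd_mul_left]
      have h2 : Nat.Coprime G' (p ^ (e - i)) :=
        Nat.Coprime.pow_right _ ((Nat.Prime.coprime_iff_not_dvd hp).2 hG').symm
      rw [h2.gcd_eq_one, mul_one]
    rw [hgcd]
    set k := 2 * (e - i) with hk
    -- elements of the set
    set S := (Finset.range ((p ^ e) ^ 2)).filter
          (fun u => u ^ 2 ≡ G ^ 2 * m [MOD (p ^ e) ^ 2]) with hS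
    have hpe : (p ^ e) ^ 2 = (p ^ i) ^ 2 * p ^ k := by
      rw [← pow_mul, ← pow_mul, ← pow_add]; congr 1; omega
    have key : ∀ u ∈ S, ∃ w, u = p ^ i * w ∧ w ^ 2 ≡ G' ^ 2 * m [MOD p ^ k] := by
      intro u hu
      rw [hS, Finset.mem_filter] at hu
      have h0 : (p ^ i) ^ 2 ∣ (p ^ e) ^ 2 := by rw [hpe]; exact Dvd.intro _ rfl
      have h1 : (p ^ i) ^ 2 ∣ G ^ 2 * m := by
        rw [hGe, mul_pow, mul_assoc]; exact Dvd.intro _ rfl
      have h2 : (p ^ i) ^ 2 ∣ u ^ 2 := (hu.2.dvd_iff h0).2 h1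
      obtain ⟨w, hw⟩ := (Nat.pow_dvd_pow_iff two_ne_zero).1 h2
      refine ⟨w, hw, ?_⟩
      have h3 := hu.2
      rw [hw, hGe, hpe, mul_pow, mul_pow, mul_assoc] at h3
      exact Nat.ModEq.mul_left_cancel' (pow_ne_zero _ (pow_ne_zero _ hp0.ne')) h3
    have hpk2 : p ^ 2 ∣ p ^ k := pow_dvd_pow p (by omega)
    by_cases hpm : p ∣ m
    · -- no roots
      have hempty : S = ∅ := by
        rw [Finset.eq_empty_iff_forall_notMem]
        intro u hu
        obtain ⟨w, -, hw⟩ := key u hu
        have h1 : p ∣ G' ^ 2 * m := Dvd.dvd.mul_left hpm _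
        have h2 : p ∣ w ^ 2 := (hw.dvd_iff ((dvd_pow_self p two_ne_zero).trans hpk2)).2 h1
        have h3 : p ∣ w := hp.dvd_of_dvd_pow h2
        have h4 : p ^ 2 ∣ G' ^ 2 * m := (hw.dvd_iff hpk2).1 (pow_dvd_pow_of_dvd h3 2)
        have h5 : Nat.Coprime (p ^ 2) (G' ^ 2) :=
          Nat.Coprime.pow 2 2 ((Nat.Prime.coprime_iff_not_dvd hp).2 hG')
        have h6 : p ^ 2 ∣ m := h5.dvd_of_dvd_mul_left h4
        have h7 := hm p (by rwa [← sq])
        exact hp.one_lt.ne' (Nat.isUnit_iff.1 h7)
      unfold R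
      rw [← hS, hempty]
      simp
    · -- unit case
      have hunit : ∀ w : ℕ, w ^ 2 ≡ G' ^ 2 * m [MOD p ^ k] → ¬ p ∣ w := by
        intro w hw hpw
        have h2 : p ∣ w ^ 2 := dvd_pow hpw two_ne_zero
        have h3 : p ∣ G' ^ 2 * m := (hw.dvd_iff ((dvd_pow_self p two_ne_zero).trans hpk2)).1 h2
        rcases (hp.dvd_mul).1 h3 with h4 | h4
        · exact hG' (hp.dvd_of_dvd_pow h4)
        · exact hpm h4
      unfold R
      rw [← hS]
      rcases S.eq_empty_or_nonempty with hE | ⟨u0, hu0⟩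
      · rw [hE]; simp
      obtain ⟨w0, hw0, hw0'⟩ := key u0 hu0
      have hw0u := hunit w0 hw0'
      -- the exponent k'
      set k' := if p = 2 then k - 1 else k with hk'
      have hdisj : ∀ w : ℕ, w ^ 2 ≡ G' ^ 2 * m [MOD p ^ k] →
          ((p ^ k' : ℕ) : ℤ) ∣ (w : ℤ) - w0 ∨ ((p ^ k' : ℕ) : ℤ) ∣ (w : ℤ) - (-(w0 : ℤ)) := by
        intro w hw
        have hwu := hunit w hw
        have h1 : w0 ^ 2 ≡ w ^ 2 [MOD p ^ k] := hw0'.trans hw.symm
        have h2 : ((p ^ k : ℕ) : ℤ) ∣ (w : ℤ) ^ 2 - (w0 : ℤ) ^ 2 := by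
          have := Nat.modEq_iff_dvd.1 h1
          push_cast at this ⊢
          exact this
        have h3 : (w : ℤ) ^ 2 - (w0 : ℤ) ^ 2 = ((w : ℤ) - w0) * ((w : ℤ) + w0) := by ring
        rw [h3] at h2
        have hpI : Prime (p : ℤ) := Nat.prime_iff_prime_int.1 hp
        by_cases hp2 : p = 2
        · -- p = 2
          have hkk : k' = k - 1 := by rw [hk', if_pos hp2]
          rw [hkk]
          subst hp2
          have hk2 : k = (k - 1) + 1 := by omega
          have h4 : ((2 ^ k : ℕ) : ℤ) = 2 * ((2 ^ (k - 1) : ℕ) : ℤ) := by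
            conv_lhs => rw [hk2]
            push_cast; ring
          have hwodd : (w : ℤ) % 2 = 1 := by omega
          have hw0odd : (w0 : ℤ) % 2 = 1 := by omega
          have hcop : ∀ x : ℤ, x % 2 = 1 → IsCoprime ((2 ^ (k - 1) : ℕ) : ℤ) x := by
            intro x hx
            push_cast
            apply IsCoprime.pow_left
            rw [Int.isCoprime_iff_gcd_eq_one]
            have : ¬ (2 : ℤ) ∣ x := by omega
            exact Int.isCoprime_iff_gcd_eq_one.1
              ((Prime.coprime_iff_not_dvd Int.prime_two).2 this)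
          rcases (by omega : ((w : ℤ) - w0) % 4 = 2 ∨ ((w : ℤ) + w0) % 4 = 2) with h5 | h5
          · right
            obtain ⟨x, hx⟩ : ∃ x, (w : ℤ) - w0 = 2 * x := ⟨((w : ℤ) - w0) / 2, by omega⟩
            have hxo : x % 2 = 1 := by omega
            rw [h4, hx, mul_assoc] at h2
            have h6 := (mul_dvd_mul_iff_left (by norm_num : (2 : ℤ) ≠ 0)).1 h2
            have h7 := (hcop x hxo).dvd_of_dvd_mul_left h6
            rw [sub_neg_eq_add]; exact h7
          · left
            obtain ⟨x, hx⟩ : ∃ x, (w : ℤ) + w0 = 2 * x := ⟨((w : ℤ) + w0) / 2, by omega⟩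
            have hxo : x % 2 = 1 := by omega
            rw [h4, hx, mul_left_comm] at h2
            have h6 := (mul_dvd_mul_iff_left (by norm_num : (2 : ℤ) ≠ 0)).1 h2
            exact (hcop x hxo).dvd_of_dvd_mul_right h6
        · have hkk : k' = k := by rw [hk', if_neg hp2]
          rw [hkk]
          have hcop : ∀ x : ℤ, ¬ (p : ℤ) ∣ x → IsCoprime ((p ^ k : ℕ) : ℤ) x := by
            intro x hx
            push_cast
            exact IsCoprime.pow_left ((Prime.coprime_iff_not_dvd hpI).2 hx)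
          by_cases h5 : (p : ℤ) ∣ (w : ℤ) - w0
          · left
            have h6 : ¬ (p : ℤ) ∣ (w : ℤ) + w0 := by
              intro h6
              have h7 : (p : ℤ) ∣ 2 * (w : ℤ) := by
                have := dvd_add h5 h6
                have e : (w : ℤ) - w0 + ((w : ℤ) + w0) = 2 * w := by ring
                rwa [e] at this
              rcases hpI.dvd_mul.1 h7 with h8 | h8
              · have h9 : p ∣ 2 := by exact_mod_cast h8
                exact hp2 ((Nat.prime_dvd_prime_iff_eq hp Nat.prime_two).1 h9)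
              · exact hwu (by exact_mod_cast h8)
            exact (hcop _ h6).dvd_of_dvd_mul_right h2
          · right
            rw [sub_neg_eq_add]
            exact (hcop _ h5).dvd_of_dvd_mul_left h2
      -- counting
      have hk'k : k' ≤ k := by rw [hk']; split_ifs <;> omega
      have hcards : S.card ≤ (((Finset.range (p ^ k' * (p ^ (k - k') * p ^ i))).filter
            (fun w : ℕ => ((p ^ k' : ℕ) : ℤ) ∣ (w : ℤ) - (w0 : ℤ))) ∪
          ((Finset.range (p ^ k' * (p ^ (k - k') * p ^ i))).filter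
            (fun w : ℕ => ((p ^ k' : ℕ) : ℤ) ∣ (w : ℤ) - (-(w0 : ℤ))))).card := by
        apply Finset.card_le_card_of_injOn (fun u => u / p ^ i)
        · intro u hu
          have hu' : u ∈ S := hu
          obtain ⟨w, hw, hw'⟩ := key u hu'
          have hpi : 0 < p ^ i := pow_pos hp0 i
          have hdiv : u / p ^ i = w := by rw [hw, Nat.mul_div_cancel_left _ hpi]
          have hlt : w < p ^ k' * (p ^ (k - k') * p ^ i) := by
            have h1 : u < (p ^ e) ^ 2 := by
              rw [hS, Finset.mem_filter, Finset.mem_range] at hu'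
              exact hu'.1
            have h2 : p ^ k' * (p ^ (k - k') * p ^ i) = p ^ i * p ^ k := by
              rw [← mul_assoc, ← pow_add, Nat.add_sub_cancel' hk'k, mul_comm]
            rw [h2]
            rw [hw, hpe, sq, mul_assoc] at h1
            exact Nat.lt_of_mul_lt_mul_left h1
          simp only [Finset.coe_union, Finset.coe_filter, Finset.mem_range, Set.mem_union,
            Set.mem_ofPred_eq]
          rw [hdiv]
          rcases hdisj w hw' with h | h
          · exact Or.inl ⟨hlt, h⟩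
          · exact Or.inr ⟨hlt, h⟩
        · intro u hu u' hu' huu
          obtain ⟨w, hw, -⟩ := key u hu
          obtain ⟨w', hw', -⟩ := key u' hu'
          have hpi : 0 < p ^ i := pow_pos hp0 i
          simp only at huu
          rw [hw, hw', Nat.mul_div_cancel_left _ hpi, Nat.mul_div_cancel_left _ hpi] at huu
          rw [hw, hw', huu]
      have hfin : S.card ≤ 2 * (p ^ (k - k') * p ^ i) := by
        refine hcards.trans ((Finset.card_union_le _ _).trans ?_)
        have h1 := cntmod (p ^ k') (p ^ (k - k') * p ^ i) (w0 : ℤ)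
        have h2 := cntmod (p ^ k') (p ^ (k - k') * p ^ i) (-(w0 : ℤ))
        omega
      refine hfin.trans ?_
      by_cases hp2 : p = 2
      · have h1 : k - k' = 1 := by rw [hk', if_pos hp2]; omega
        rw [h1, if_pos hp2, hp2]; ring_nf; exact le_refl _
      · have h1 : k - k' = 0 := by rw [hk', if_neg hp2]; omega
        rw [h1, if_neg hp2]; simp

lemma main_bound (G m : ℕ) (hG : 1 ≤ G) (hm : Squarefree m) (v : ℕ) :
    1 ≤ v → R (v ^ 2) (G ^ 2 * m) ≤ (if 2 ∣ v then 2 else 1) * v.divisors.card * Nat.gcd G v := by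
  induction v using Nat.recOnPosPrimePosCoprime with
  | prime_pow p n hp hn =>
    intro _
    refine (pp_bound p n G m hp hG hm).trans ?_
    rw [Nat.divisors_prime_pow hp, Finset.card_map, Finset.card_range]
    by_cases hp2 : p = 2
    · subst hp2
      rw [if_pos rfl, if_pos (dvd_pow_self 2 hn.ne')]
      apply Nat.mul_le_mul_right
      omega
    · have h2 : ¬ 2 ∣ p ^ n := by
        intro h
        exact hp2 ((Nat.prime_dvd_prime_iff_eq Nat.prime_two hp).1
          (Nat.prime_two.dvd_of_dvd_pow h)).symm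
      rw [if_neg hp2, if_neg h2]
      apply Nat.mul_le_mul_right
      omega
  | zero => intro h; omega
  | one =>
    intro _
    have : R (1 ^ 2) (G ^ 2 * m) ≤ 1 := by
      unfold R
      refine (Finset.card_filter_le _ _).trans ?_
      simp
    simpa using this
  | coprime a b ha hb hab iha ihb =>
    intro _
    rw [mul_pow]
    refine (R_mul _ (Nat.Coprime.pow 2 2 hab)).trans ?_
    refine (Nat.mul_le_mul (iha (by omega)) (ihb (by omega))).trans ?_
    rw [Nat.Coprime.card_divisors_mul hab, Nat.Coprime.gcd_mul G hab]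
    by_cases h2a : 2 ∣ a
    · have h2b : ¬ 2 ∣ b := by
        intro h
        have := Nat.dvd_gcd h2a h
        rw [hab.gcd_eq_one] at this
        omega
      rw [if_pos h2a, if_neg h2b, if_pos (Dvd.dvd.mul_right h2a b)]
      apply le_of_eq; ring
    · by_cases h2b : 2 ∣ b
      · rw [if_neg h2a, if_pos h2b, if_pos (Dvd.dvd.mul_left h2b a)]
        apply le_of_eq; ring
      · have h2 : ¬ 2 ∣ a * b := by
          intro h
          rcases (Nat.prime_two.dvd_mul).1 h with h | h
          · exact h2a h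
          · exact h2b h
        rw [if_neg h2a, if_neg h2b, if_neg h2]
        apply le_of_eq; ring

lemma rho_le (z r n v : ℕ) (hv : 1 ≤ v) :
    rho z r n v ≤ Qz z * R (v ^ 2) (4 * n) := by
  classical
  unfold rho R
  rw [← Finset.card_range (Qz z), ← Finset.card_product, Finset.card_range]
  have hv2 : 0 < v ^ 2 := pow_pos (by omega) 2
  apply Finset.card_le_card_of_injOn (fun u => (u / v ^ 2, u % v ^ 2))
  · intro u hu
    simp only [Finset.coe_filter, Finset.mem_range, Set.mem_ofPred_eq] at hu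
    simp only [Finset.coe_product, Finset.coe_range, Finset.coe_filter, Finset.mem_range,
      Set.mem_prod, Set.mem_Iio, Set.mem_ofPred_eq]
    refine ⟨Nat.div_lt_of_lt_mul (by rw [mul_comm]; exact hu.1), Nat.mod_lt _ hv2, ?_⟩
    have h1 : u ^ 2 ≡ 4 * n + r * v ^ 2 [MOD v ^ 2] := hu.2.of_dvd (Dvd.intro_left _ rfl)
    have h2 : 4 * n + r * v ^ 2 ≡ 4 * n [MOD v ^ 2] := by
      have : r * v ^ 2 ≡ 0 [MOD v ^ 2] := (Nat.modEq_zero_iff_dvd).2 (Dvd.intro_left _ rfl)
      simpa using (Nat.ModEq.refl (4 * n)).add this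
    exact ((Nat.mod_modEq u (v ^ 2)).pow 2).trans (h1.trans h2)
  · intro u hu w hw huw
    simp only [Prod.mk.injEq] at huw
    rw [← Nat.div_add_mod u (v ^ 2), ← Nat.div_add_mod w (v ^ 2), huw.1, huw.2]

end TB3ah

theorem T_TB3a : P_TB3a := by
  intro z r n v g m hn hm hg hv
  have h1 := TB3ah.rho_le z r n v hv
  have h2 := TB3ah.main_bound (2 * g) m (by omega) hm v hv
  have h3 : (2 * g) ^ 2 * m = 4 * n := by rw [hn]; ring
  rw [h3] at h2
  have h4 : Nat.gcd (2 * g) v ≤ 2 * Nat.gcd g v := by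
    have h5 : Nat.gcd (2 * g) v ∣ 2 * Nat.gcd g v := by
      rw [← Nat.gcd_mul_left]
      exact Nat.dvd_gcd (Nat.gcd_dvd_left _ _) ((Nat.gcd_dvd_right _ _).trans (Dvd.intro_left 2 rfl))
    have h6 : 0 < Nat.gcd g v := Nat.gcd_pos_of_pos_left _ (by omega)
    exact Nat.le_of_dvd (by omega) h5
  have h5 : (if 2 ∣ v then 2 else 1) ≤ 2 := by split_ifs <;> omega
  calc rho z r n v ≤ Qz z * TB3ah.R (v ^ 2) (4 * n) := h1
    _ ≤ Qz z * ((if 2 ∣ v then 2 else 1) * v.divisors.card * Nat.gcd (2 * g) v) :=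
        Nat.mul_le_mul_left _ h2
    _ ≤ Qz z * (2 * v.divisors.card * (2 * Nat.gcd g v)) := by
        apply Nat.mul_le_mul_left
        exact Nat.mul_le_mul (Nat.mul_le_mul_right _ h5) h4
    _ ≤ 16 * Qz z * v.divisors.card * Nat.gcd g v := by
        have : Qz z * (2 * v.divisors.card * (2 * Nat.gcd g v)) =
          4 * (Qz z * v.divisors.card * Nat.gcd g v) := by ring
        rw [this]
        have h7 : 16 * Qz z * v.divisors.card * Nat.gcd g v =
          16 * (Qz z * v.divisors.card * Nat.gcd g v) := by ring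
        rw [h7]
        omega

end Pool.Agent.H38R2.CG
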