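import Pool.Agent.H52.V.S8.H38R2.CG.Stubs

set_option autoImplicit false

namespace Pool.Agent.H38R2.CG

open Finset

namespace TB3ch

/-- number of square roots of c modulo m -/
def cnt (c m : ℕ) : ℕ := ((Finset.range m).filter (fun u => u ^ 2 ≡ c [MOD m])).card

theorem cnt_mul (c a b : ℕ) (ha : 0 < a) (hb : 0 < b) (hab : a.Coprime b) :
    cnt c (a * b) ≤ cnt c a * cnt c b := by
  unfold cnt
  rw [← Finset.card_product]
  refine Finset.card_le_card_of_injOn (fun u => (u % a, u % b)) ?_ ?_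
  · intro u hu
    simp only [Finset.coe_filter, Finset.mem_range, Set.mem_ofPred_eq] at hu
    simp only [Finset.coe_product, Finset.coe_filter, Finset.mem_range, Set.mem_prod,
      Set.mem_ofPred_eq]
    have h1 := (Nat.modEq_and_modEq_iff_modEq_mul hab).2 hu.2
    refine ⟨⟨Nat.mod_lt _ ha, ?_⟩, ⟨Nat.mod_lt _ hb, ?_⟩⟩
    · exact ((Nat.mod_modEq u a).pow 2).trans h1.1
    · exact ((Nat.mod_modEq u b).pow 2).trans h1.2
  · intro v hv w hw h
    simp only [Finset.coe_filter, Finset.mem_range, Set.mem_ofPred_eq] at hv hw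
    simp only [Prod.mk.injEq] at h
    have h1 : v ≡ w [MOD a * b] := (Nat.modEq_and_modEq_iff_modEq_mul hab).1 ⟨h.1, h.2⟩
    exact Nat.ModEq.eq_of_lt_of_lt h1 hv.1 hw.1

theorem cnt_prod (c : ℕ) (S : Finset ℕ) (hS : ∀ l ∈ S, l.Prime) (e : ℕ → ℕ) :
    cnt c (∏ p ∈ S, p ^ e p) ≤ ∏ p ∈ S, cnt c (p ^ e p) := by
  classical
  induction S using Finset.induction_on with
  | empty =>
    simp only [Finset.prod_empty]
    unfold cnt
    exact (Finset.card_filter_le _ _).trans (by simp)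
  | insert p S hpS ih =>
    rw [Finset.prod_insert hpS, Finset.prod_insert hpS]
    have hS' : ∀ l ∈ S, l.Prime := fun l hl => hS l (Finset.mem_insert_of_mem hl)
    have hpp : p.Prime := hS p (Finset.mem_insert_self _ _)
    refine (cnt_mul c _ _ (pow_pos hpp.pos _)
      (Finset.prod_pos fun l hl => pow_pos (hS' l hl).pos _) ?_).trans
      (Nat.mul_le_mul_left _ (ih hS'))
    apply Nat.Coprime.prod_right
    intro l hl
    apply Nat.Coprime.pow
    rw [Nat.coprime_primes hpp (hS' l hl)]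
    rintro rfl
    exact hpS hl

theorem cnt_odd (c p k : ℕ) (hp : p.Prime) (hp2 : p ≠ 2) (hc : ¬ p ∣ c) : cnt c (p ^ k) ≤ 2 := by
  rcases Nat.eq_zero_or_pos k with rfl | hk
  · unfold cnt
    refine (Finset.card_filter_le _ _).trans (by simp)
  unfold cnt
  by_cases hE : ((Finset.range (p ^ k)).filter (fun u => u ^ 2 ≡ c [MOD p ^ k])) = ∅
  · rw [hE]; simp
  obtain ⟨b, hb⟩ := Finset.nonempty_iff_ne_empty.2 hE
  rw [Finset.mem_filter, Finset.mem_range] at hb
  have hpb : ¬ p ∣ b := by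
    intro h
    apply hc
    have h1 : b ^ 2 ≡ c [MOD p] := hb.2.of_dvd (dvd_pow_self p hk.ne')
    exact (h1.dvd_iff (dvd_refl p)).1 (Dvd.dvd.pow h (by norm_num))
  have hpi : Prime (p : ℤ) := Nat.prime_iff_prime_int.1 hp
  have hsub : ((Finset.range (p ^ k)).filter (fun u => u ^ 2 ≡ c [MOD p ^ k])) ⊆
      ({b, p ^ k - b} : Finset ℕ) := by
    intro u hu
    rw [Finset.mem_filter, Finset.mem_range] at hu
    have h1 : u ^ 2 ≡ b ^ 2 [MOD p ^ k] := hu.2.trans hb.2.symm
    have h2 : ((p : ℤ) ^ k) ∣ ((b : ℤ) - u) * (b + u) := by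
      have := (Nat.modEq_iff_dvd.1 h1)
      push_cast at this
      have e : ((b : ℤ) - u) * (b + u) = b ^ 2 - u ^ 2 := by ring
      rw [e]
      exact this
    have h3 : ¬ ((p : ℤ) ∣ ((b : ℤ) - u) ∧ (p : ℤ) ∣ ((b : ℤ) + u)) := by
      rintro ⟨h4, h5⟩
      have h6 : (p : ℤ) ∣ 2 * b := by
        have := dvd_add h4 h5
        have e : (b : ℤ) - u + (b + u) = 2 * b := by ring
        rwa [e] at this
      rcases hpi.dvd_or_dvd h6 with h7 | h7
      · have h8 : p ∣ 2 := by exact_mod_cast h7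
        exact hp2 ((Nat.prime_dvd_prime_iff_eq hp Nat.prime_two).1 h8)
      · exact hpb (by exact_mod_cast h7)
    simp only [Finset.mem_insert, Finset.mem_singleton]
    have hcases : ((p : ℤ) ^ k) ∣ ((b : ℤ) - u) ∨ ((p : ℤ) ^ k) ∣ ((b : ℤ) + u) := by
      by_cases h4 : (p : ℤ) ∣ ((b : ℤ) - u)
      · left
        have h5 : ¬ (p : ℤ) ∣ ((b : ℤ) + u) := fun h => h3 ⟨h4, h⟩
        exact (IsCoprime.pow_left ((Prime.coprime_iff_not_dvd hpi).2 h5)).dvd_of_dvd_mul_right h2
      · right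
        exact (IsCoprime.pow_left ((Prime.coprime_iff_not_dvd hpi).2 h4)).dvd_of_dvd_mul_left h2
    rcases hcases with h4 | h4
    · left
      have : u ≡ b [MOD p ^ k] := by
        rw [Nat.modEq_iff_dvd]
        exact_mod_cast h4
      exact Nat.ModEq.eq_of_lt_of_lt this hu.1 hb.1
    · right
      have h5 : p ^ k ∣ b + u := by exact_mod_cast h4
      obtain ⟨t, ht⟩ := h5
      have hb0 : 0 < b := by
        rcases Nat.eq_zero_or_pos b with h | h
        · exact absurd (h ▸ dvd_zero p) hpb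
        · exact h
      have ht1 : t = 1 := by
        have h6 : b + u < p ^ k * 2 := by omega
        have h7 : 0 < p ^ k * t := by omega
        rw [ht] at h6
        have h8 : t < 2 := Nat.lt_of_mul_lt_mul_left h6
        have h9 : 0 < t := Nat.pos_of_mul_pos_left h7 |> fun h => h
        omega
      subst ht1
      omega
  exact (Finset.card_le_card hsub).trans (Finset.card_le_two)

theorem cnt_two (n e : ℕ) (hn : ¬ 2 ∣ n) : cnt (4 * n) (2 ^ (2 * e)) ≤ 8 := by
  rcases Nat.lt_or_ge e 2 with he | he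
  · unfold cnt
    refine (Finset.card_filter_le _ _).trans ?_
    rw [Finset.card_range]
    interval_cases e <;> norm_num
  obtain ⟨k, hk, hk2⟩ : ∃ k, 2 * e = k + 2 ∧ 2 ≤ k := ⟨2 * e - 2, by omega, by omega⟩
  rw [hk]
  unfold cnt
  by_cases hE : ((Finset.range (2 ^ (k + 2))).filter
      (fun u => u ^ 2 ≡ 4 * n [MOD 2 ^ (k + 2)])) = ∅
  · rw [hE]; simp
  obtain ⟨b, hb⟩ := Finset.nonempty_iff_ne_empty.2 hE
  rw [Finset.mem_filter, Finset.mem_range] at hb
  have form : ∀ u, u ^ 2 ≡ 4 * n [MOD 2 ^ (k + 2)] → ∃ a, u = 2 * a ∧ a % 2 = 1 ∧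
      a ^ 2 ≡ n [MOD 2 ^ k] := by
    intro u hu
    have h1 : u ^ 2 ≡ 4 * n [MOD 2] := hu.of_dvd (dvd_pow_self 2 (by omega))
    have h2 : 2 ∣ u := by
      have h3 : 2 ∣ u ^ 2 := (h1.dvd_iff (dvd_refl 2)).2 ⟨2 * n, by ring⟩
      exact Nat.prime_two.dvd_of_dvd_pow h3
    obtain ⟨a, rfl⟩ := h2
    have h4 : a ^ 2 ≡ n [MOD 2 ^ k] := by
      have e1 : (2 * a) ^ 2 = 4 * a ^ 2 := by ring
      have e2 : 2 ^ (k + 2) = 4 * 2 ^ k := by ring
      rw [e1, e2] at hu
      exact Nat.ModEq.mul_left_cancel' (by norm_num) hu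
    refine ⟨a, rfl, ?_, h4⟩
    by_contra h5
    have h6 : 2 ∣ a := by omega
    apply hn
    have h7 : a ^ 2 ≡ n [MOD 2] := h4.of_dvd (dvd_pow_self 2 (by omega))
    exact (h7.dvd_iff (dvd_refl 2)).1 (Dvd.dvd.pow h6 (by norm_num))
  obtain ⟨b', hbb, hb1, hb2⟩ := form b hb.2
  set M := 2 ^ k with hM
  have hMpos : 0 < M := by positivity
  have hM4 : 2 ^ (k + 2) = M * 4 := by rw [hM]; ring
  have key : ∀ u, u ^ 2 ≡ 4 * n [MOD 2 ^ (k + 2)] → u ≡ b [MOD M] ∨ M ∣ u + b := by
    intro u hu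
    obtain ⟨a, rfl, ha1, ha2⟩ := form u hu
    have h1 : a ^ 2 ≡ b' ^ 2 [MOD M] := ha2.trans hb2.symm
    have h2 : ((M : ℕ) : ℤ) ∣ ((b' : ℤ) - a) * (b' + a) := by
      have := (Nat.modEq_iff_dvd.1 h1)
      push_cast at this
      have e : ((b' : ℤ) - a) * (b' + a) = b' ^ 2 - a ^ 2 := by ring
      rw [e]
      exact_mod_cast this
    obtain ⟨s, hs⟩ : ∃ s : ℤ, (b' : ℤ) - a = 2 * s := ⟨((b' : ℤ) - a) / 2, by omega⟩
    obtain ⟨t, ht⟩ : ∃ t : ℤ, (b' : ℤ) + a = 2 * t := ⟨((b' : ℤ) + a) / 2, by omega⟩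
    have hst : ¬ (2 ∣ s ∧ 2 ∣ t) := by
      rintro ⟨⟨s', hs'⟩, ⟨t', ht'⟩⟩
      omega
    have h3 : ((2 : ℤ) ^ (k - 2)) ∣ s * t := by
      rw [hs, ht] at h2
      have e1 : (2 * s) * (2 * t) = 4 * (s * t) := by ring
      have e2 : ((M : ℕ) : ℤ) = 4 * 2 ^ (k - 2) := by
        rw [hM]
        obtain ⟨j, rfl⟩ : ∃ j, k = j + 2 := ⟨k - 2, by omega⟩
        push_cast
        rw [pow_add]
        ring
      rw [e1, e2] at h2
      exact (mul_dvd_mul_iff_left (by norm_num)).1 h2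
    have h2p : Prime (2 : ℤ) := Int.prime_two
    have e3 : ((M : ℕ) : ℤ) = 4 * 2 ^ (k - 2) := by
      rw [hM]
      obtain ⟨j, rfl⟩ : ∃ j, k = j + 2 := ⟨k - 2, by omega⟩
      push_cast
      rw [pow_add]
      ring
    by_cases h4 : (2 : ℤ) ∣ s
    · left
      have h5 : ¬ (2 : ℤ) ∣ t := fun h => hst ⟨h4, h⟩
      have h6 : ((2 : ℤ) ^ (k - 2)) ∣ s :=
        (IsCoprime.pow_left ((Prime.coprime_iff_not_dvd h2p).2 h5)).dvd_of_dvd_mul_right h3
      rw [Nat.modEq_iff_dvd, e3]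
      obtain ⟨q, hq⟩ := h6
      refine ⟨q, ?_⟩
      rw [hbb]
      push_cast
      linear_combination 2 * hs + 4 * hq
    · right
      have h6 : ((2 : ℤ) ^ (k - 2)) ∣ t :=
        (IsCoprime.pow_left ((Prime.coprime_iff_not_dvd h2p).2 h4)).dvd_of_dvd_mul_left h3
      obtain ⟨q, hq⟩ := h6
      have h7 : ((M : ℕ) : ℤ) ∣ ((2 * a + b : ℕ) : ℤ) := by
        rw [e3]
        refine ⟨q, ?_⟩
        rw [hbb]
        push_cast
        linear_combination 2 * ht + 4 * hq
      exact_mod_cast h7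
  have hA : ((Finset.range (M * 4)).filter (fun u => u ≡ b [MOD M])).card ≤ 4 := by
    have : ((Finset.range (M * 4)).filter (fun u => u ≡ b [MOD M])).card ≤
        (Finset.range 4).card := by
      refine Finset.card_le_card_of_injOn (fun u => u / M) ?_ ?_
      · intro u hu
        simp only [Finset.coe_filter, Finset.mem_range, Set.mem_ofPred_eq] at hu
        simp only [Finset.coe_range, Set.mem_Iio]
        exact Nat.div_lt_of_lt_mul hu.1
      · intro u hu w hw h
        simp only [Finset.coe_filter, Finset.mem_range, Set.mem_ofPred_eq] at hu hw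
        simp only at h
        have h1 : u % M = w % M := hu.2.trans hw.2.symm
        rw [← Nat.div_add_mod u M, ← Nat.div_add_mod w M, h, h1]
    simpa using this
  have hB : ((Finset.range (M * 4)).filter (fun u => M ∣ u + b)).card ≤ 4 := by
    have : ((Finset.range (M * 4)).filter (fun u => M ∣ u + b)).card ≤
        (Finset.range 4).card := by
      refine Finset.card_le_card_of_injOn (fun u => u / M) ?_ ?_
      · intro u hu
        simp only [Finset.coe_filter, Finset.mem_range, Set.mem_ofPred_eq] at hu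
        simp only [Finset.coe_range, Set.mem_Iio]
        exact Nat.div_lt_of_lt_mul hu.1
      · intro u hu w hw h
        simp only [Finset.coe_filter, Finset.mem_range, Set.mem_ofPred_eq] at hu hw
        simp only at h
        have h0 : u + b ≡ w + b [MOD M] :=
          ((Nat.modEq_zero_iff_dvd).2 hu.2).trans ((Nat.modEq_zero_iff_dvd).2 hw.2).symm
        have h1 : u % M = w % M := Nat.ModEq.add_right_cancel' b h0
        rw [← Nat.div_add_mod u M, ← Nat.div_add_mod w M, h, h1]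
    simpa using this
  have hsub : ((Finset.range (2 ^ (k + 2))).filter
      (fun u => u ^ 2 ≡ 4 * n [MOD 2 ^ (k + 2)])) ⊆
      ((Finset.range (M * 4)).filter (fun u => u ≡ b [MOD M])) ∪
      ((Finset.range (M * 4)).filter (fun u => M ∣ u + b)) := by
    intro u hu
    rw [Finset.mem_filter, Finset.mem_range] at hu
    rw [Finset.mem_union, Finset.mem_filter, Finset.mem_filter, Finset.mem_range, ← hM4]
    rcases key u hu.2 with h | h
    · exact Or.inl ⟨hu.1, h⟩
    · exact Or.inr ⟨hu.1, h⟩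
  calc _ ≤ _ := Finset.card_le_card hsub
    _ ≤ _ := Finset.card_union_le _ _
    _ ≤ 4 + 4 := Nat.add_le_add hA hB
    _ = 8 := by norm_num

theorem cnt_big (c Q m : ℕ) (hm : 0 < m) :
    ((Finset.range (Q * m)).filter (fun u => u ^ 2 ≡ c [MOD m])).card ≤ Q * cnt c m := by
  unfold cnt
  rw [← Finset.card_range Q, ← Finset.card_product, Finset.card_range]
  refine Finset.card_le_card_of_injOn (fun u => (u / m, u % m)) ?_ ?_
  · intro u hu
    simp only [Finset.coe_filter, Finset.mem_range, Set.mem_ofPred_eq] at hu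
    simp only [Finset.coe_product, Finset.coe_range, Finset.coe_filter, Finset.mem_range,
      Set.mem_prod, Set.mem_Iio, Set.mem_ofPred_eq]
    refine ⟨Nat.div_lt_of_lt_mul (by rw [Nat.mul_comm]; exact hu.1), Nat.mod_lt _ hm, ?_⟩
    exact ((Nat.mod_modEq u m).pow 2).trans hu.2
  · intro v hv w hw h
    simp only [Prod.mk.injEq] at h
    rw [← Nat.div_add_mod v m, ← Nat.div_add_mod w m, h.1, h.2]

theorem prime_dvd_Qz (z p : ℕ) (hp : p.Prime) (h : p ∣ Qz z) (hp2 : p ≠ 2) : 3 ≤ p ∧ p ≤ z := by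
  unfold Qz at h
  have h3 : 3 ≤ p := by
    have := hp.two_le
    omega
  rcases (Nat.Prime.dvd_mul hp).1 h with h1 | h1
  · exfalso
    have : p ∣ 2 ^ 4 := by norm_num; exact h1
    exact hp2 ((Nat.prime_dvd_prime_iff_eq hp Nat.prime_two).1 (hp.dvd_of_dvd_pow this))
  · refine ⟨h3, ?_⟩
    obtain ⟨l, hl, hd⟩ := (Prime.dvd_finsetProd_iff hp.prime _).1 h1
    rw [Finset.mem_filter, Finset.mem_Icc] at hl
    have := (Nat.prime_dvd_prime_iff_eq hp hl.2).1 (hp.dvd_of_dvd_pow hd)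
    omega

end TB3ch

open TB3ch in
theorem T_TB3c : P_TB3c := by
  intro z r n v hv hn
  set P := v.primeFactors.filter (fun p => p ∣ Qz z) with hP
  have hPp : ∀ p ∈ P, p.Prime := fun p hp => Nat.prime_of_mem_primeFactors (Finset.mem_filter.1 hp).1
  have hPd : ∀ p ∈ P, p ∣ Qz z := fun p hp => (Finset.mem_filter.1 hp).2
  have hPn : ∀ p ∈ P, ¬ p ∣ n := by
    intro p hp hd
    have := Nat.dvd_gcd hd (hPd p hp)
    rw [hn] at this
    exact (hPp p hp).one_lt.ne' (Nat.dvd_one.1 this)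
  have hw : qpart z v = ∏ p ∈ P, p ^ (v.factorization p) := rfl
  have hwpos : 0 < qpart z v := by
    rw [hw]
    exact Finset.prod_pos fun l hl => pow_pos (hPp l hl).pos _
  have hwv : qpart z v ∣ v := by
    have h1 : ∏ p ∈ v.primeFactors, p ^ (v.factorization p) = v :=
      Nat.prod_factorization_pow_eq_self (by omega)
    rw [hw]
    conv_rhs => rw [← h1]
    exact Finset.prod_dvd_prod_of_subset _ _ _ (Finset.filter_subset _ _)
  have hw2 : (qpart z v) ^ 2 = ∏ p ∈ P, p ^ (2 * v.factorization p) := by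
    rw [hw, ← Finset.prod_pow]
    apply Finset.prod_congr rfl
    intro p _
    rw [← pow_mul, Nat.mul_comm]
  have hm : 0 < (qpart z v) ^ 2 := by positivity
  have h1 : rhoQ z r n v ≤ Qz z * cnt (4 * n) ((qpart z v) ^ 2) := by
    refine le_trans ?_ (cnt_big (4 * n) (Qz z) ((qpart z v) ^ 2) hm)
    unfold rhoQ
    apply Finset.card_le_card
    intro u hu
    rw [Finset.mem_filter] at hu ⊢
    refine ⟨hu.1, ?_⟩
    have h2 : u ^ 2 ≡ 4 * n + r * v ^ 2 [MOD (qpart z v) ^ 2] := hu.2.of_dvd (Dvd.intro_left _ rfl)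
    have h3 : r * v ^ 2 ≡ 0 [MOD (qpart z v) ^ 2] :=
      (Nat.modEq_zero_iff_dvd).2 (Dvd.dvd.mul_left (pow_dvd_pow_of_dvd hwv 2) r)
    have h4 := h2.trans (h3.add_left (4 * n))
    simpa using h4
  have h2 : cnt (4 * n) ((qpart z v) ^ 2) ≤ 8 * 2 ^ z := by
    rw [hw2]
    refine (cnt_prod (4 * n) P hPp _).trans ?_
    have h3 : ∏ p ∈ P, cnt (4 * n) (p ^ (2 * v.factorization p)) ≤
        ∏ p ∈ P, (2 * (if p = 2 then 4 else 1)) := by
      apply Finset.prod_le_prod'
      intro p hp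
      split_ifs with h
      · subst h
        exact cnt_two n _ (hPn 2 hp)
      · refine cnt_odd _ p _ (hPp p hp) h ?_
        intro hd
        rcases (Nat.Prime.dvd_mul (hPp p hp)).1 hd with h4 | h4
        · have : p ∣ 2 ^ 2 := by norm_num; exact h4
          exact h ((Nat.prime_dvd_prime_iff_eq (hPp p hp) Nat.prime_two).1
            ((hPp p hp).dvd_of_dvd_pow this))
        · exact hPn p hp h4
    refine h3.trans ?_
    rw [Finset.prod_mul_distrib, Finset.prod_const, Finset.prod_ite_eq']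
    have h5 : P.card ≤ z + 1 := by
      have h6 : (P.erase 2).card ≤ (Finset.Icc 1 z).card := by
        apply Finset.card_le_card
        intro p hp
        rw [Finset.mem_erase] at hp
        have := prime_dvd_Qz z p (hPp p hp.2) (hPd p hp.2) hp.1
        rw [Finset.mem_Icc]
        omega
      rw [Nat.card_Icc] at h6
      have h7 := Finset.pred_card_le_card_erase (s := P) (a := 2)
      omega
    have h8 : (2 : ℕ) ^ P.card ≤ 2 ^ (z + 1) := Nat.pow_le_pow_right (by norm_num) h5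
    calc 2 ^ P.card * (if 2 ∈ P then 4 else 1) ≤ 2 ^ (z + 1) * 4 := by
          apply Nat.mul_le_mul h8
          split_ifs <;> norm_num
      _ = 8 * 2 ^ z := by ring
  calc rhoQ z r n v ≤ Qz z * cnt (4 * n) ((qpart z v) ^ 2) := h1
    _ ≤ Qz z * (8 * 2 ^ z) := Nat.mul_le_mul_left _ h2
    _ = Qz z * 8 * 2 ^ z := by ring

end Pool.Agent.H38R2.CG
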