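import Pool.Agent.H52.V.S8.H38R2.CG.Stubs

/-! Task TB6a: mean of `rhoQ` over `n` coprime to `Q`. -/

set_option autoImplicit false

open Finset Filter
open scoped Classical

namespace Pool.Agent.H38R2.CG.TB6ah

lemma sum_periodic (a k : ℕ) (f : ℕ → ℝ) (hf : ∀ u, f (u + a) = f u) :
    ∑ u ∈ range (k * a), f u = k * ∑ u ∈ range a, f u := by
  have hp : Function.Periodic f a := hf
  induction k with
  | zero => simp
  | succ k ih =>
    rw [add_mul, one_mul, sum_range_add, ih]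
    have h1 : ∀ x, f (k * a + x) = f x := by
      intro x
      rw [add_comm]
      exact hp.nat_mul k x
    simp only [h1]
    push_cast
    ring

lemma sum_coprime (a b : ℕ) (hab : a.Coprime b) (ha : 0 < a) (hb : 0 < b) (f g : ℕ → ℝ)
    (hf : ∀ u, f (u + a) = f u) (hg : ∀ u, g (u + b) = g u) :
    ∑ u ∈ range (a * b), f u * g u = (∑ u ∈ range a, f u) * ∑ u ∈ range b, g u := by
  have hpf : Function.Periodic f a := hf
  have hpg : Function.Periodic g b := hg
  rw [sum_mul_sum, ← sum_product']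
  refine sum_nbij' (fun u => (u % a, u % b)) (fun p => (Nat.chineseRemainder hab p.1 p.2 : ℕ))
    ?_ ?_ ?_ ?_ ?_
  · intro u _
    simp only [mem_product, mem_range]
    exact ⟨Nat.mod_lt _ ha, Nat.mod_lt _ hb⟩
  · intro p _
    exact mem_range.2 (Nat.chineseRemainder_lt_mul hab _ _ ha.ne' hb.ne')
  · intro u hu
    have h1 : u ≡ Nat.chineseRemainder hab (u % a) (u % b) [MOD a * b] :=
      Nat.chineseRemainder_modEq_unique hab (Nat.mod_modEq u a).symm (Nat.mod_modEq u b).symm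
    exact (Nat.ModEq.eq_of_lt_of_lt h1 (mem_range.1 hu)
      (Nat.chineseRemainder_lt_mul hab _ _ ha.ne' hb.ne')).symm
  · intro p hp
    rw [mem_product, mem_range, mem_range] at hp
    obtain ⟨h1, h2⟩ := (Nat.chineseRemainder hab p.1 p.2).2
    unfold Nat.ModEq at h1 h2
    exact Prod.ext (h1.trans (Nat.mod_eq_of_lt hp.1)) (h2.trans (Nat.mod_eq_of_lt hp.2))
  · intro u _
    simp only
    rw [hpf.map_mod_nat, hpg.map_mod_nat]

/-- the condition at the prime `l` -/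
noncomputable def ind (l : ℕ) (r v u : ℕ) : ℝ := if (l : ℤ) ∣ (u : ℤ) ^ 2 - r * v ^ 2 then 0 else 1

/-- the condition at `2` -/
noncomputable def ind2 (r v u : ℕ) : ℝ := if ((u : ℤ) ^ 2 - r * v ^ 2) % 8 = 4 then 1 else 0

lemma ind_periodic (l r v u : ℕ) : ind l r v (u + l) = ind l r v u := by
  unfold ind
  have h : (l : ℤ) ∣ ((u + l : ℕ) : ℤ) ^ 2 - r * v ^ 2 ↔ (l : ℤ) ∣ (u : ℤ) ^ 2 - r * v ^ 2 := by
    have e : ((u + l : ℕ) : ℤ) ^ 2 - r * v ^ 2 = ((u : ℤ) ^ 2 - r * v ^ 2) + l * (2 * u + l) := by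
      push_cast
      ring
    rw [e]
    exact Int.dvd_add_left (Dvd.intro _ rfl)
  simp only [h]

lemma ind2_periodic (r v u : ℕ) : ind2 r v (u + 8) = ind2 r v u := by
  unfold ind2
  have e : ((u + 8 : ℕ) : ℤ) ^ 2 - r * v ^ 2 = ((u : ℤ) ^ 2 - r * v ^ 2) + 8 * (2 * u + 8) := by
    push_cast
    ring
  rw [e, Int.add_mul_emod_self_left]

lemma prod_periodic (P : Finset ℕ) (r v u : ℕ) :
    ∏ l ∈ P, ind l r v (u + ∏ l ∈ P, l) = ∏ l ∈ P, ind l r v u := by
  apply prod_congr rfl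
  intro l hl
  obtain ⟨k, hk⟩ := dvd_prod_of_mem (fun l => l) hl
  rw [hk, mul_comm]
  have hp : Function.Periodic (ind l r v) l := ind_periodic l r v
  exact hp.nat_mul k u

lemma count_prod (P : Finset ℕ) (hP : ∀ l ∈ P, l.Prime) (r v : ℕ) :
    ∑ u ∈ range (∏ l ∈ P, l), ∏ l ∈ P, ind l r v u = ∏ l ∈ P, ∑ u ∈ range l, ind l r v u := by
  induction P using Finset.induction_on with
  | empty => simp
  | insert p P hp ih =>
    have hP' : ∀ l ∈ P, l.Prime := fun l hl => hP l (mem_insert_of_mem hl)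
    have hpp := hP p (mem_insert_self _ _)
    simp only [prod_insert hp]
    rw [sum_coprime p (∏ l ∈ P, l) _ hpp.pos (prod_pos fun l hl => (hP' l hl).pos) (ind p r v)
      (fun u => ∏ l ∈ P, ind l r v u) (ind_periodic p r v) (prod_periodic P r v), ih hP']
    apply Nat.Coprime.prod_right
    intro l hl
    exact (Nat.coprime_primes hpp (hP' l hl)).2 (fun h => hp (h ▸ hl))

lemma count_l (l : ℕ) (hl : l.Prime) (hl2 : l ≠ 2) (r v : ℕ) :
    ∑ u ∈ range l, ind l r v u = ((l : ℝ) - 1) * (1 - if l ∣ v then 0 else (chi r l : ℝ) / ((l : ℝ) - 1)) := by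
  have : Fact l.Prime := ⟨hl⟩
  have hl1 : (1 : ℝ) < l := by exact_mod_cast hl.one_lt
  have hne : (l : ℝ) - 1 ≠ 0 := by linarith
  have hchi : (chi r l : ℝ) = (legendreSym l r : ℝ) := by
    unfold chi
    have h1 : padicValNat 2 l = 0 := by
      apply padicValNat.eq_zero_of_not_dvd
      intro h
      exact hl2 ((Nat.prime_dvd_prime_iff_eq Nat.prime_two hl).1 h).symm
    rw [h1, pow_zero, one_mul, pow_zero, Nat.div_one, jacobiSym.legendreSym.to_jacobiSym]
  have hcount : ∑ u ∈ range l, ind l r v u =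
      (l : ℝ) - ((Finset.univ.filter (fun x : ZMod l => x ^ 2 = ((r * v ^ 2 : ℤ) : ZMod l))).card : ℝ) := by
    have h1 : ∑ u ∈ range l, ind l r v u =
        ∑ x : ZMod l, (if x ^ 2 = ((r * v ^ 2 : ℤ) : ZMod l) then (0 : ℝ) else 1) := by
      refine sum_nbij' (fun u => (u : ZMod l)) (fun x => x.val) ?_ ?_ ?_ ?_ ?_
      · intro u _
        exact mem_univ _
      · intro x _
        exact mem_range.2 (ZMod.val_lt x)
      · intro u hu
        exact ZMod.val_cast_of_lt (mem_range.1 hu)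
      · intro x _
        exact ZMod.natCast_zmod_val x
      · intro u _
        unfold ind
        have h2 : (l : ℤ) ∣ (u : ℤ) ^ 2 - r * v ^ 2 ↔ (u : ZMod l) ^ 2 = ((r * v ^ 2 : ℤ) : ZMod l) := by
          rw [← ZMod.intCast_zmod_eq_zero_iff_dvd]
          push_cast
          rw [sub_eq_zero]
        simp only [h2]
    rw [h1]
    have h3 : ∀ x : ZMod l, (if x ^ 2 = ((r * v ^ 2 : ℤ) : ZMod l) then (0 : ℝ) else 1) =
        1 - (if x ^ 2 = ((r * v ^ 2 : ℤ) : ZMod l) then (1 : ℝ) else 0) := by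
      intro x
      split_ifs <;> norm_num
    simp only [h3, sum_sub_distrib, sum_boole]
    simp [ZMod.card]
  rw [hcount]
  have hleg := legendreSym.card_sqrts l hl2 (r * v ^ 2 : ℤ)
  have hcard : ((Finset.univ.filter (fun x : ZMod l => x ^ 2 = ((r * v ^ 2 : ℤ) : ZMod l))).card : ℤ) =
      legendreSym l (r * v ^ 2 : ℤ) + 1 := by
    rw [← hleg]
    congr 2
    ext x
    simp
  have hcardR : ((Finset.univ.filter (fun x : ZMod l => x ^ 2 = ((r * v ^ 2 : ℤ) : ZMod l))).card : ℝ) =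
      (legendreSym l (r * v ^ 2 : ℤ) : ℝ) + 1 := by exact_mod_cast hcard
  rw [hcardR]
  by_cases hv : l ∣ v
  · rw [if_pos hv]
    have h1 : legendreSym l (r * v ^ 2 : ℤ) = 0 := by
      rw [legendreSym.eq_zero_iff]
      rw [ZMod.intCast_zmod_eq_zero_iff_dvd]
      have : (l : ℤ) ∣ v := by exact_mod_cast hv
      exact Dvd.dvd.mul_left (dvd_pow this (by norm_num)) _
    rw [h1]
    push_cast
    ring
  · rw [if_neg hv]
    have h1 : legendreSym l (r * v ^ 2 : ℤ) = legendreSym l r := by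
      rw [legendreSym.mul]
      have h2 : ((v : ℤ) : ZMod l) ≠ 0 := by
        intro h
        rw [ZMod.intCast_zmod_eq_zero_iff_dvd] at h
        exact hv (by exact_mod_cast h)
      have h3 := legendreSym.sq_one' l h2
      rw [h3, mul_one]
    rw [h1, hchi]
    field_simp
    ring

lemma count_2 (z r v : ℕ) (hr : r % 4 = 1 ∨ r % 16 = 8 ∨ r % 16 = 12) :
    ∑ u ∈ range 8, ind2 r v u = 2 * (1 - if 2 ∣ v then 0 else (chi r 2 : ℝ) / ((2 : ℝ) - 1)) := by
  have hchi : (chi r 2 : ℝ) = (chi2 r : ℝ) := by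
    unfold chi
    have h1 : padicValNat 2 2 = 1 := padicValNat_self
    rw [h1]
    norm_num
  have hmod : ∀ u : ℕ, ((u : ℤ) ^ 2 - r * v ^ 2) % 8 =
      ((u : ℤ) ^ 2 - ((r % 8 : ℕ) : ℤ) * ((v % 8 : ℕ) : ℤ) ^ 2) % 8 := by
    intro u
    push_cast
    rw [Int.sub_emod, Int.mul_emod, pow_two (v : ℤ), Int.mul_emod (v : ℤ)]
    conv_rhs => rw [Int.sub_emod, Int.mul_emod, pow_two ((v : ℤ) % 8), Int.mul_emod ((v : ℤ) % 8)]
    simp only [Int.emod_emod_of_dvd, dvd_refl, Int.emod_emod]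
  have hr8 : r % 8 = 1 ∨ r % 8 = 5 ∨ r % 8 = 0 ∨ r % 8 = 4 := by omega
  have hc2 : (chi2 r : ℝ) = if r % 8 = 1 then 1 else if r % 8 = 5 then -1 else 0 := by
    unfold chi2
    have e1 : ((r : ℤ) % 8 = 1) ↔ r % 8 = 1 := by omega
    have e2 : ((r : ℤ) % 8 = 5) ↔ r % 8 = 5 := by omega
    simp only [e1, e2]
    split_ifs <;> simp
  have hdv : (2 ∣ v) ↔ (2 ∣ v % 8) := by omega
  have hv8 : v % 8 < 8 := Nat.mod_lt _ (by norm_num)
  rw [hchi, hc2]
  unfold ind2
  simp only [hmod, hdv]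
  generalize v % 8 = w at hv8 ⊢
  rcases hr8 with h | h | h | h <;> rw [h] <;> interval_cases w <;>
    simp only [sum_range_succ, sum_range_zero] <;> norm_num

/-- odd primes up to `z` -/
def OP (z : ℕ) : Finset ℕ := (Finset.Icc 3 z).filter Nat.Prime

lemma OP_prime {z l : ℕ} (h : l ∈ OP z) : l.Prime := (mem_filter.1 h).2

lemma OP_ge {z l : ℕ} (h : l ∈ OP z) : 3 ≤ l := (mem_Icc.1 (mem_filter.1 h).1).1

lemma Qz_eq (z : ℕ) : Qz z = 16 * ∏ l ∈ OP z, l ^ 2 := rfl

lemma Icc2 {z : ℕ} (hz : 2 ≤ z) : (Finset.Icc 2 z).filter Nat.Prime = insert 2 (OP z) := by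
  ext l
  simp only [OP, mem_filter, mem_Icc, mem_insert]
  constructor
  · rintro ⟨⟨h1, h2⟩, h3⟩
    by_cases h : l = 2
    · exact Or.inl h
    · exact Or.inr ⟨⟨by omega, h2⟩, h3⟩
  · rintro (h | ⟨⟨h1, h2⟩, h3⟩)
    · subst h
      exact ⟨⟨le_rfl, hz⟩, Nat.prime_two⟩
    · exact ⟨⟨by omega, h2⟩, h3⟩

lemma two_notMem (z : ℕ) : 2 ∉ OP z := fun h => by
  have := OP_ge h
  omega

lemma dvd_Qz {z l : ℕ} (hz : 2 ≤ z) (hl : l.Prime) : l ∣ Qz z ↔ l = 2 ∨ l ∈ OP z := by
  rw [Qz_eq, hl.dvd_mul]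
  constructor
  · rintro (h | h)
    · left
      have h2 : l ∣ 2 ^ 4 := by norm_num; exact h
      exact (Nat.prime_dvd_prime_iff_eq hl Nat.prime_two).1 (hl.dvd_of_dvd_pow h2)
    · right
      rw [hl.prime.dvd_finsetProd_iff] at h
      obtain ⟨a, ha, h⟩ := h
      have h3 := (Nat.prime_dvd_prime_iff_eq hl (OP_prime ha)).1 (hl.dvd_of_dvd_pow h)
      rw [h3]
      exact ha
  · rintro (h | h)
    · left
      rw [h]
      norm_num
    · right
      exact (dvd_pow_self l (by norm_num)).trans (dvd_prod_of_mem (fun l => l ^ 2) h)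

lemma Qz_pos (z : ℕ) : 0 < Qz z := by
  rw [Qz_eq]
  exact Nat.mul_pos (by norm_num) (prod_pos fun l hl => pow_pos (OP_prime hl).pos 2)

lemma qpart_pos (z v : ℕ) : 0 < qpart z v :=
  prod_pos fun p hp => pow_pos (Nat.prime_of_mem_primeFactors (mem_filter.1 hp).1).pos _

lemma primeFactors_M {z v : ℕ} (hz : 2 ≤ z) :
    (Qz z * (qpart z v) ^ 2).primeFactors = insert 2 (OP z) := by
  have h0 : Qz z * (qpart z v) ^ 2 ≠ 0 := (Nat.mul_pos (Qz_pos z) (pow_pos (qpart_pos z v) 2)).ne'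
  ext l
  rw [Nat.mem_primeFactors, mem_insert]
  constructor
  · rintro ⟨hl, h, -⟩
    rw [hl.dvd_mul] at h
    rcases h with h | h
    · exact (dvd_Qz hz hl).1 h
    · have h1 := hl.dvd_of_dvd_pow h
      unfold qpart at h1
      rw [hl.prime.dvd_finsetProd_iff] at h1
      obtain ⟨p, hp, h2⟩ := h1
      obtain ⟨hp1, hp2⟩ := mem_filter.1 hp
      have h3 := (Nat.prime_dvd_prime_iff_eq hl (Nat.prime_of_mem_primeFactors hp1)).1
        (hl.dvd_of_dvd_pow h2)
      rw [← h3] at hp2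
      exact (dvd_Qz hz hl).1 hp2
  · intro h
    have hl : l.Prime := by
      rcases h with h | h
      · rw [h]; exact Nat.prime_two
      · exact OP_prime h
    exact ⟨hl, Dvd.dvd.mul_right ((dvd_Qz hz hl).2 h) _, h0⟩

lemma totient_M {z v : ℕ} (hz : 2 ≤ z) :
    ((Nat.totient (Qz z * (qpart z v) ^ 2) : ℕ) : ℝ) =
      ((Qz z * (qpart z v) ^ 2 : ℕ) : ℝ) * ((1 / 2) * ∏ l ∈ OP z, (((l : ℝ) - 1) / l)) := by
  have h := Nat.totient_eq_mul_prod_factors (Qz z * (qpart z v) ^ 2)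
  rw [primeFactors_M hz, prod_insert (two_notMem z)] at h
  have h2 : ((Nat.totient (Qz z * (qpart z v) ^ 2) : ℕ) : ℝ) =
      (((Nat.totient (Qz z * (qpart z v) ^ 2) : ℕ) : ℚ) : ℝ) := by norm_cast
  rw [h2, h]
  push_cast
  have h3 : ∀ l ∈ OP z, (1 - (l : ℝ)⁻¹) = ((l : ℝ) - 1) / l := by
    intro l hl
    have : (l : ℝ) ≠ 0 := by exact_mod_cast (OP_prime hl).ne_zero
    field_simp
  rw [prod_congr rfl h3]
  norm_num

/-- the good residues -/
noncomputable def good (z r v u : ℕ) : ℝ := ind2 r v u * ∏ l ∈ OP z, ind l r v u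

lemma good_sum {z r v : ℕ} (hz : 2 ≤ z) (hr : FundRes z r) :
    ∑ u ∈ range (Qz z * (qpart z v) ^ 2), good z r v u =
      ((Qz z * (qpart z v) ^ 2 : ℕ) : ℝ) * ((rbar z r v / 8) * ∏ l ∈ OP z, (((l : ℝ) - 1) / l)) := by
  set Pr := ∏ l ∈ OP z, l with hPr
  have hPpos : 0 < Pr := prod_pos fun l hl => (OP_prime hl).pos
  have hcop : (8 : ℕ).Coprime Pr := by
    apply Nat.Coprime.prod_right
    intro l hl
    have h2 : Nat.Coprime 2 l := (Nat.coprime_primes Nat.prime_two (OP_prime hl)).2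
      (fun h => by have := OP_ge hl; omega)
    exact Nat.Coprime.pow_left 3 h2
  have hM : Qz z * (qpart z v) ^ 2 = (2 * Pr * (qpart z v) ^ 2) * (8 * Pr) := by
    rw [Qz_eq, prod_pow]
    ring
  have hper : ∀ u, good z r v (u + 8 * Pr) = good z r v u := by
    intro u
    unfold good
    have p1 : Function.Periodic (ind2 r v) 8 := ind2_periodic r v
    have p2 : Function.Periodic (fun u => ∏ l ∈ OP z, ind l r v u) Pr := prod_periodic (OP z) r v
    have h1 : ind2 r v (u + 8 * Pr) = ind2 r v u := by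
      rw [mul_comm]
      exact p1.nat_mul Pr u
    have h2 := p2.nat_mul 8 u
    simp only [Nat.cast_ofNat] at h2
    rw [h1]
    congr 1
  have h8 : ∑ u ∈ range (8 * Pr), good z r v u =
      (∑ u ∈ range 8, ind2 r v u) * ∏ l ∈ OP z, ∑ u ∈ range l, ind l r v u := by
    unfold good
    rw [sum_coprime 8 Pr hcop (by norm_num) hPpos (ind2 r v) (fun u => ∏ l ∈ OP z, ind l r v u)
      (ind2_periodic r v) (prod_periodic (OP z) r v), count_prod (OP z) (fun l hl => OP_prime hl)]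
  rw [hM, sum_periodic _ _ _ hper, h8, count_2 z r v hr.2.1]
  rw [prod_congr rfl (fun l hl => count_l l (OP_prime hl) (fun h => two_notMem z (h ▸ hl)) r v),
    prod_mul_distrib]
  unfold rbar
  rw [Icc2 hz, prod_insert (two_notMem z), prod_div_distrib]
  have hPr2 : ((∏ l ∈ OP z, (l : ℝ))) = (Pr : ℝ) := by rw [hPr]; push_cast; rfl
  rw [hPr2]
  have hne : (Pr : ℝ) ≠ 0 := by exact_mod_cast hPpos.ne'
  push_cast
  field_simp

lemma coprime_iff {z r v n u : ℕ} (hz : 2 ≤ z)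
    (h : u ^ 2 ≡ 4 * n + r * v ^ 2 [MOD Qz z * (qpart z v) ^ 2]) :
    n.Coprime (Qz z) ↔ good z r v u = 1 := by
  have hc : ∀ d : ℕ, d ∣ Qz z → (d : ℤ) ∣ ((u : ℤ) ^ 2 - r * v ^ 2) - 4 * n := by
    intro d hd
    have h1 : u ^ 2 ≡ 4 * n + r * v ^ 2 [MOD d] := h.of_dvd (hd.mul_right _)
    have h2 := (Nat.modEq_iff_dvd.1 h1.symm)
    push_cast at h2
    have e : ((u : ℤ) ^ 2 - r * v ^ 2) - 4 * n = (u : ℤ) ^ 2 - (4 * n + r * v ^ 2) := by ring
    rw [e]
    exact h2
  have h16 := hc 16 (by rw [Qz_eq]; exact Dvd.intro _ rfl)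
  have e2 : ind2 r v u = 1 ↔ ¬ 2 ∣ n := by
    unfold ind2
    have : ((u : ℤ) ^ 2 - r * v ^ 2) % 8 = 4 ↔ ¬ 2 ∣ n := by
      generalize (u : ℤ) ^ 2 - r * v ^ 2 = c at h16
      push_cast at h16
      omega
    by_cases h : ((u : ℤ) ^ 2 - r * v ^ 2) % 8 = 4
    · simp [h, this.1 h]
    · simp only [h, if_false, zero_ne_one, false_iff, not_not]
      by_contra h'
      exact h (this.2 h')
  have el : ∀ l ∈ OP z, (ind l r v u = 1 ↔ ¬ l ∣ n) := by
    intro l hl
    have hlp := OP_prime hl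
    have h1 := hc l ((dvd_Qz hz hlp).2 (Or.inr hl))
    have h2 : (l : ℤ) ∣ (u : ℤ) ^ 2 - r * v ^ 2 ↔ l ∣ n := by
      constructor
      · intro h3
        have h4 : (l : ℤ) ∣ 4 * n := by
          have := dvd_sub h3 h1
          simpa using this
        have h5 : l ∣ 4 * n := by exact_mod_cast h4
        rcases hlp.dvd_mul.1 h5 with h6 | h6
        · exfalso
          have h7 : l ∣ 2 ^ 2 := by norm_num; exact h6
          have h8 := (Nat.prime_dvd_prime_iff_eq hlp Nat.prime_two).1 (hlp.dvd_of_dvd_pow h7)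
          have := OP_ge hl
          omega
        · exact h6
      · intro h3
        have h4 : (l : ℤ) ∣ 4 * n := Dvd.dvd.mul_left (by exact_mod_cast h3) _
        have := dvd_add h1 h4
        simpa using this
    unfold ind
    by_cases h : (l : ℤ) ∣ (u : ℤ) ^ 2 - r * v ^ 2
    · simp [h, h2.1 h]
    · simp only [h, if_false, true_iff]
      exact fun h' => h (h2.2 h')
  have hcop : n.Coprime (Qz z) ↔ ¬ 2 ∣ n ∧ ∀ l ∈ OP z, ¬ l ∣ n := by
    constructor
    · intro h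
      refine ⟨fun h2 => ?_, fun l hl h2 => ?_⟩
      · exact Nat.Prime.not_coprime_iff_dvd.2 ⟨2, Nat.prime_two, h2,
          (dvd_Qz hz Nat.prime_two).2 (Or.inl rfl)⟩ h
      · exact Nat.Prime.not_coprime_iff_dvd.2 ⟨l, OP_prime hl, h2,
          (dvd_Qz hz (OP_prime hl)).2 (Or.inr hl)⟩ h
    · rintro ⟨h1, h2⟩
      by_contra h3
      obtain ⟨p, hp, hp1, hp2⟩ := Nat.Prime.not_coprime_iff_dvd.1 h3
      rcases (dvd_Qz hz hp).1 hp2 with h4 | h4
      · exact h1 (h4 ▸ hp1)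
      · exact h2 p h4 hp1
  rw [hcop]
  have v2 : ind2 r v u = 0 ∨ ind2 r v u = 1 := by
    unfold ind2
    split_ifs <;> simp
  have vl : ∀ l, ind l r v u = 0 ∨ ind l r v u = 1 := by
    intro l
    unfold ind
    split_ifs <;> simp
  unfold good
  constructor
  · rintro ⟨h1, h2⟩
    rw [e2.2 h1, one_mul]
    apply prod_eq_one
    intro l hl
    exact (el l hl).2 (h2 l hl)
  · intro h1
    have h2 : ind2 r v u ≠ 0 := fun h => by rw [h, zero_mul] at h1; exact zero_ne_one h1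
    have h3 : ∀ l ∈ OP z, ind l r v u ≠ 0 := by
      intro l hl h
      rw [prod_eq_zero hl h, mul_zero] at h1
      exact zero_ne_one h1
    refine ⟨e2.1 (v2.resolve_left h2), fun l hl => (el l hl).1 ((vl l).resolve_left (h3 l hl))⟩

lemma good_01 (z r v u : ℕ) : good z r v u = 0 ∨ good z r v u = 1 := by
  have v2 : ind2 r v u = 0 ∨ ind2 r v u = 1 := by
    unfold ind2
    split_ifs <;> simp
  have vl : ∀ l, ind l r v u = 0 ∨ ind l r v u = 1 := by
    intro l
    unfold ind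
    split_ifs <;> simp
  unfold good
  by_cases h : ∃ l ∈ OP z, ind l r v u = 0
  · obtain ⟨l, hl, h⟩ := h
    left
    rw [prod_eq_zero hl h, mul_zero]
  · push Not at h
    rw [prod_eq_one (fun l hl => (vl l).resolve_left (h l hl)), mul_one]
    exact v2

/-- number of `n` for a good `u` -/
lemma count_n {z r v u : ℕ} (hu : good z r v u = 1) :
    ∑ n ∈ range (Qz z * (qpart z v) ^ 2),
      (if u ^ 2 ≡ 4 * n + r * v ^ 2 [MOD Qz z * (qpart z v) ^ 2] then (1 : ℝ) else 0) = 4 := by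
  obtain ⟨M', hM'⟩ : ∃ M', Qz z * (qpart z v) ^ 2 = 4 * M' :=
    ⟨4 * (∏ l ∈ OP z, l ^ 2) * (qpart z v) ^ 2, by rw [Qz_eq]; ring⟩
  have hMpos : 0 < M' := by
    have := Nat.mul_pos (Qz_pos z) (pow_pos (qpart_pos z v) 2)
    rw [hM'] at this
    omega
  rw [hM']
  have h4 : (4 : ℤ) ∣ (u : ℤ) ^ 2 - r * v ^ 2 := by
    have h2 : ind2 r v u ≠ 0 := by
      intro h
      unfold good at hu
      rw [h, zero_mul] at hu
      exact zero_ne_one hu
    unfold ind2 at h2
    by_contra h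
    apply h2
    rw [if_neg]
    omega
  obtain ⟨c, hc⟩ := h4
  have hiff : ∀ n : ℕ, (u ^ 2 ≡ 4 * n + r * v ^ 2 [MOD 4 * M']) ↔ ((n : ℤ) - c) % M' = 0 := by
    intro n
    rw [Nat.modEq_iff_dvd]
    push_cast
    have e : (4 * (n : ℤ) + r * v ^ 2) - (u : ℤ) ^ 2 = 4 * ((n : ℤ) - c) := by
      rw [mul_sub, ← hc]
      ring
    rw [e, mul_dvd_mul_iff_left (by norm_num : (4 : ℤ) ≠ 0)]
    exact Int.dvd_iff_emod_eq_zero
  simp only [hiff]
  have hper : ∀ n : ℕ, (if (((n + M' : ℕ) : ℤ) - c) % M' = 0 then (1 : ℝ) else 0) =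
      if ((n : ℤ) - c) % M' = 0 then (1 : ℝ) else 0 := by
    intro n
    have : (((n + M' : ℕ) : ℤ) - c) % M' = ((n : ℤ) - c) % M' := by
      push_cast
      have e : (n : ℤ) + M' - c = (n : ℤ) - c + M' := by ring
      rw [e, Int.add_emod_right]
    rw [this]
  rw [sum_periodic M' 4 _ hper]
  have h1 : ∑ n ∈ range M', (if ((n : ℤ) - c) % M' = 0 then (1 : ℝ) else 0) = 1 := by
    have hM'z : (0 : ℤ) < M' := by exact_mod_cast hMpos
    have hc0 : 0 ≤ c % M' := Int.emod_nonneg _ hM'z.ne'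
    have hc1 : c % M' < M' := Int.emod_lt_of_pos _ hM'z
    rw [sum_eq_single (c % M').toNat]
    · rw [if_pos]
      rw [Int.toNat_of_nonneg hc0]
      exact Int.emod_eq_zero_of_dvd ((Int.dvd_iff_emod_eq_zero).2 (by
        rw [Int.sub_emod, Int.emod_emod_of_dvd _ (dvd_refl _), sub_self, Int.zero_emod]))
    · intro n hn hne
      rw [if_neg]
      intro h
      apply hne
      have h2 : (n : ℤ) % M' = c % M' := Int.emod_eq_emod_iff_emod_sub_eq_zero.2 h
      rw [Int.emod_eq_of_lt (by positivity) (by exact_mod_cast mem_range.1 hn)] at h2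
      rw [← h2]
      simp
    · intro h
      exfalso
      apply h
      rw [mem_range]
      have : ((c % M').toNat : ℤ) < M' := by rw [Int.toNat_of_nonneg hc0]; exact hc1
      exact_mod_cast this
  rw [h1]
  norm_num

end Pool.Agent.H38R2.CG.TB6ah

namespace Pool.Agent.H38R2.CG

open TB6ah

theorem T_TB6a : P_TB6a := by
  intro z r v hz hr hv
  set M := Qz z * (qpart z v) ^ 2 with hM
  have h1 : ∀ n, (rhoQ z r n v : ℝ) =
      ∑ u ∈ range M, (if u ^ 2 ≡ 4 * n + r * v ^ 2 [MOD M] then (1 : ℝ) else 0) := by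
    intro n
    unfold rhoQ
    rw [← hM, Finset.card_filter]
    push_cast
    rfl
  have h2 : ∑ n ∈ (range M).filter (fun n => n.Coprime (Qz z)), (rhoQ z r n v : ℝ) =
      ∑ u ∈ range M, ∑ n ∈ range M, (if n.Coprime (Qz z) then
        (if u ^ 2 ≡ 4 * n + r * v ^ 2 [MOD M] then (1 : ℝ) else 0) else 0) := by
    rw [sum_comm, sum_filter]
    apply sum_congr rfl
    intro n _
    by_cases h : n.Coprime (Qz z)
    · simp only [if_pos h]
      exact h1 n
    · simp only [if_neg h, sum_const_zero]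
  rw [h2]
  have h3 : ∀ u ∈ range M, ∑ n ∈ range M, (if n.Coprime (Qz z) then
        (if u ^ 2 ≡ 4 * n + r * v ^ 2 [MOD M] then (1 : ℝ) else 0) else 0) = 4 * good z r v u := by
    intro u _
    rcases good_01 z r v u with h | h
    · rw [h, mul_zero]
      apply sum_eq_zero
      intro n _
      by_cases h4 : u ^ 2 ≡ 4 * n + r * v ^ 2 [MOD M]
      · have h5 := (coprime_iff hz h4).not.2 (by rw [h]; exact zero_ne_one)
        rw [if_neg h5]
      · rw [if_neg h4]
        simp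
    · rw [h, mul_one, ← count_n h]
      apply sum_congr rfl
      intro n _
      by_cases h4 : u ^ 2 ≡ 4 * n + r * v ^ 2 [MOD M]
      · rw [if_pos ((coprime_iff hz h4).2 h)]
      · rw [if_neg h4]
        simp [hM ▸ h4]
  rw [sum_congr rfl h3, ← mul_sum, good_sum hz hr, totient_M hz]
  ring

end Pool.Agent.H38R2.CG
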