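import Pool.Agent.H52.V.S8.H38R2.CG.Stubs

/-!
# CC4: bound for twisted windowed sums
-/

set_option autoImplicit false

namespace Pool.Agent.H38R2.CG

open Finset Filter
open scoped Classical

namespace CC4h

lemma log_large (A : ℝ) : ∃ X0 : ℕ, ∀ X : ℕ, X0 ≤ X → A ≤ Real.log X := by
  have h : Tendsto (fun X : ℕ => Real.log (X : ℝ)) atTop atTop :=
    Real.tendsto_log_atTop.comp tendsto_natCast_atTop_atTop
  exact eventually_atTop.mp (h.eventually_ge_atTop A)

lemma yy_ge (X : ℕ) (h : 2 ≤ Real.log X) : (Real.log X) ^ 6 / 8 ≤ (yy X : ℝ) := by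
  unfold yy
  have h1 := Nat.lt_floor_add_one ((Real.log X) ^ 6 / 4)
  have h8 : (8 : ℝ) ≤ (Real.log X) ^ 6 := by
    calc (8 : ℝ) ≤ 2 ^ 6 := by norm_num
      _ ≤ _ := pow_le_pow_left₀ (by norm_num) h 6
  linarith

lemma yy_ge_eight (X : ℕ) (h : 2 ≤ Real.log X) : (8 : ℝ) ≤ (yy X : ℝ) := by
  have h1 := yy_ge X h
  have h8 : (64 : ℝ) ≤ (Real.log X) ^ 6 := by
    calc (64 : ℝ) = 2 ^ 6 := by norm_num
      _ ≤ _ := pow_le_pow_left₀ (by norm_num) h 6
  linarith

lemma log_yy_ge (X : ℕ) (h : 2 ≤ Real.log X) : 1 ≤ Real.log (yy X) := by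
  have h1 := yy_ge_eight X h
  rw [Real.le_log_iff_exp_le (by linarith)]
  have := Real.exp_one_lt_d9
  linarith

lemma kk_le (X : ℕ) (h : 4 ≤ Real.log X) : (kk X : ℝ) ≤ Real.log X := by
  have h1 := log_yy_ge X (by linarith)
  unfold kk
  push_cast
  have h2 : (13 / 20 : ℝ) * Real.log X / Real.log (yy X) ≤ (13 / 20 : ℝ) * Real.log X := by
    apply div_le_self (by linarith) h1
  have h3 : (⌊(13 / 20 : ℝ) * Real.log X / Real.log (yy X)⌋₊ : ℝ) ≤
      (13 / 20 : ℝ) * Real.log X / Real.log (yy X) :=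
    Nat.floor_le (by positivity)
  linarith

lemma log_le_two_sqrt (y : ℝ) (hy : 0 < y) : Real.log y ≤ 2 * √y := by
  have h1 : Real.log y = 2 * Real.log (√y) := by
    rw [Real.log_sqrt hy.le]; ring
  rw [h1]
  have h2 := Real.log_le_sub_one_of_pos (Real.sqrt_pos.mpr hy)
  linarith

lemma kk_sq_le (y0 : ℕ) (hc : ∀ y ≥ y0, (9 / 10 : ℝ) * y / Real.log y ≤ (PP y).card) (X : ℕ)
    (h : 26 ≤ Real.log X) (hy : y0 ≤ yy X) : kk X ^ 2 ≤ (PP (yy X)).card := by
  have h1 := hc (yy X) hy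
  have hk := kk_le X (by linarith)
  have hy1 := yy_ge X (by linarith)
  have hl := log_yy_ge X (by linarith)
  have hy8 := yy_ge_eight X (by linarith)
  have hs := log_le_two_sqrt (yy X) (by linarith)
  set L := Real.log X with hL
  set y : ℝ := (yy X : ℝ) with hy'
  have hsq : √y * √y = y := Real.mul_self_sqrt (by linarith)
  have hs0 : 0 < √y := Real.sqrt_pos.mpr (by linarith)
  have h2 : (9 / 20 : ℝ) * √y ≤ (9 / 10 : ℝ) * y / Real.log y := by
    rw [le_div_iff₀ (by linarith)]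
    nlinarith
  have h3 : L ^ 3 / 3 ≤ √y := by
    apply Real.le_sqrt_of_sq_le
    have : (L ^ 3 / 3) ^ 2 = L ^ 6 / 9 := by ring
    rw [this]
    have : 0 ≤ L ^ 6 := by positivity
    linarith
  have h4 : L ^ 2 ≤ (9 / 20 : ℝ) * (L ^ 3 / 3) := by
    have : 0 ≤ L ^ 2 := by positivity
    nlinarith
  have h5 : (kk X : ℝ) ^ 2 ≤ L ^ 2 := pow_le_pow_left₀ (Nat.cast_nonneg _) hk 2
  have h6 : ((kk X ^ 2 : ℕ) : ℝ) ≤ ((PP (yy X)).card : ℝ) := by
    push_cast
    linarith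
  exact_mod_cast h6

/-- The value at a prime. -/
noncomputable def xv (M : ℕ) (ψ : DirichletCharacter ℂ M) (f : ℕ) (p : ℕ) : ℂ :=
  ψ (p : ZMod M) * ((jacobiSym (p : ℤ) f : ℤ) : ℂ)

lemma xv_root (M : ℕ) (_hM : 1 ≤ M) (ψ : DirichletCharacter ℂ M) (f p : ℕ) :
    xv M ψ f p = 0 ∨ xv M ψ f p ^ (2 * M.totient) = 1 := by
  unfold xv
  by_cases hu : IsUnit (p : ZMod M)
  · rcases jacobiSym.trichotomy (p : ℤ) f with hj | hj | hj
    · left; rw [hj]; simp
    · right
      rw [hj]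
      simp only [Int.cast_one, mul_one]
      rw [mul_comm 2, pow_mul]
      obtain ⟨u, hu⟩ := hu
      rw [← hu, ← map_pow, ← Units.val_pow_eq_pow_val, ZMod.pow_totient]
      simp
    · right
      rw [hj, mul_pow]
      obtain ⟨u, hu⟩ := hu
      rw [mul_comm 2, pow_mul, ← hu, ← map_pow, ← Units.val_pow_eq_pow_val, ZMod.pow_totient,
        mul_comm, pow_mul, ← pow_mul, mul_comm _ 2, pow_mul]
      simp
  · left
    rw [MulChar.map_nonunit _ hu, zero_mul]

lemma norm_xv (M : ℕ) (ψ : DirichletCharacter ℂ M) (f p : ℕ) : ‖xv M ψ f p‖ ≤ 1 := by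
  unfold xv
  rw [norm_mul]
  have h1 : ‖ψ (p : ZMod M)‖ ≤ 1 := DirichletCharacter.norm_le_one ψ _
  have h2 : ‖((jacobiSym (p : ℤ) f : ℤ) : ℂ)‖ ≤ 1 := by
    rcases jacobiSym.trichotomy (p : ℤ) f with hj | hj | hj <;> rw [hj] <;> simp
  calc ‖ψ (p : ZMod M)‖ * ‖((jacobiSym (p : ℤ) f : ℤ) : ℂ)‖ ≤ 1 * 1 :=
        mul_le_mul h1 h2 (norm_nonneg _) (by norm_num)
    _ = 1 := by norm_num

lemma jacobi_prod (s : Finset ℕ) (f : ℕ) :
    jacobiSym ((∏ p ∈ s, p : ℕ) : ℤ) f = ∏ p ∈ s, jacobiSym (p : ℤ) f := by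
  induction s using Finset.induction_on with
  | empty => simp
  | insert a s ha ih =>
    rw [Finset.prod_insert ha, Finset.prod_insert ha, ← ih]
    push_cast
    rw [jacobiSym.mul_left]

lemma prod_xv (M : ℕ) (ψ : DirichletCharacter ℂ M) (f : ℕ) (s : Finset ℕ) :
    ψ (prodS s : ZMod M) * ((jacobiSym (prodS s : ℤ) f : ℤ) : ℂ) = ∏ p ∈ s, xv M ψ f p := by
  unfold prodS xv
  rw [jacobi_prod, Finset.prod_mul_distrib]
  push_cast
  rw [map_prod]

lemma prod_exp (s : Finset ℕ) (hs : ∀ p ∈ s, p ≠ 0) (ξ : ℝ) :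
    ∏ p ∈ s, Complex.exp (ξ * Real.log p * Complex.I) =
      Complex.exp (ξ * (Real.log (prodS s) : ℝ) * Complex.I) := by
  rw [← Complex.exp_sum]
  congr 1
  unfold prodS
  rw [← Finset.sum_mul, ← Finset.mul_sum]
  congr 2
  push_cast
  rw [Real.log_prod (fun p hp => by exact_mod_cast hs p hp)]
  push_cast
  rfl

end CC4h

open CC4h in
theorem T_CC4 : P_CC1 → P_CC2 → P_CC3 → P_NB → P_CC4 := by
  intro h1 h2 h3 hNB M hM
  have hφ : 1 ≤ 2 * M.totient := by
    have := Nat.totient_pos.mpr hM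
    omega
  obtain ⟨c, hc0, hc1, y0, hy0⟩ := h3 (2 * M.totient) hφ
  obtain ⟨-, y1, hy1⟩ := hNB
  obtain ⟨X1, hX1⟩ := log_large (max 26 (8 * (max y0 y1 : ℕ)))
  refine ⟨c, hc0, hc1, X1, fun X hX η' j ψ f hη hsf hcop hsum => ?_⟩
  have hL := hX1 X hX
  have hL26 : 26 ≤ Real.log X := (le_max_left _ _).trans hL
  have hLy : (8 * (max y0 y1 : ℕ) : ℝ) ≤ Real.log X := (le_max_right _ _).trans hL
  have hy8 := yy_ge_eight X (by linarith)
  have hyy : max y0 y1 ≤ yy X := by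
    have h5 := yy_ge X (by linarith)
    have h6 : Real.log X ≤ (Real.log X) ^ 6 := by
      calc Real.log X = Real.log X ^ 1 := (pow_one _).symm
        _ ≤ _ := pow_le_pow_right₀ (by linarith) (by norm_num)
    have h7 : ((max y0 y1 : ℕ) : ℝ) ≤ (yy X : ℝ) := by linarith
    exact_mod_cast h7
  have hk2 := kk_sq_le y1 (fun y hy => (hy1 y hy).1) X hL26 ((le_max_right _ _).trans hyy)
  have hk1 : 1 ≤ kk X := by unfold kk; omega
  set y : ℝ := (yy X : ℝ) with hy
  have hs0 : 0 < √y := Real.sqrt_pos.mpr (by linarith)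
  have hpi := Real.pi_pos
  have hpi4 := Real.pi_lt_four
  -- bound for the exponential sums over the family
  have hB : ∀ ξ : ℝ, |ξ| ≤ √y →
      ‖∑ s ∈ SX X, (∏ p ∈ s, xv M ψ f p) *
        Complex.exp (ξ * (Real.log (prodS s) : ℝ) * Complex.I)‖ ≤
        50 * √(kk X : ℝ) * (1 - c) ^ (kk X) * NX X := by
    intro ξ hξ
    have h4 := hy0 (yy X) ((le_max_left _ _).trans hyy) (xv M ψ f)
      (fun p _ => xv_root M hM ψ f p) hsum ξ hξ
    have h5 := h1 (PP (yy X)) (fun p => xv M ψ f p * Complex.exp (ξ * Real.log p * Complex.I)) c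
      (kk X) (by
        intro p _
        rw [norm_mul]
        have : ‖Complex.exp (ξ * Real.log p * Complex.I)‖ = 1 := by
          have := Complex.norm_exp_ofReal_mul_I (ξ * Real.log p)
          rw [Complex.ofReal_mul] at this
          exact this
        rw [this, mul_one]
        exact norm_xv M ψ f p) hc0 hc1 hk1 hk2 h4
    have h6 : ∑ s ∈ SX X, (∏ p ∈ s, xv M ψ f p) *
        Complex.exp (ξ * (Real.log (prodS s) : ℝ) * Complex.I) =
        ∑ s ∈ (PP (yy X)).powersetCard (kk X),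
          ∏ p ∈ s, xv M ψ f p * Complex.exp (ξ * Real.log p * Complex.I) := by
      unfold SX PX
      refine Finset.sum_congr rfl fun s hs => ?_
      rw [Finset.prod_mul_distrib, prod_exp s]
      intro p hp
      have := (Finset.mem_powersetCard.mp hs).1 hp
      unfold PP at this
      exact (Finset.mem_filter.mp this).2.ne_zero
    rw [h6]
    exact h5
  have hΘ : 0 < η' * √y / (2 * Real.pi) := by positivity
  have h7 := h2 (Finset ℕ) (SX X) (fun s => Real.log (prodS s)) (fun s => ∏ p ∈ s, xv M ψ f p) η'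
    (η' * √y / (2 * Real.pi)) (50 * √(kk X : ℝ) * (1 - c) ^ (kk X) * NX X) j hη hΘ
    (by
      intro s _
      rw [norm_prod]
      exact Finset.prod_le_one (fun _ _ => norm_nonneg _) fun p _ => norm_xv M ψ f p)
    (by
      intro ξ hξ
      apply hB
      refine hξ.trans (le_of_eq ?_)
      field_simp)
  have h8 : Sch X η' j M ψ f = ∑ s ∈ SX X,
      ((phi (Real.log (prodS s) / η' - j) : ℝ) : ℂ) * ∏ p ∈ s, xv M ψ f p := by
    unfold Sch win
    refine Finset.sum_congr rfl fun s _ => ?_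
    rw [mul_assoc, prod_xv]
  rw [h8]
  refine h7.trans ?_
  have hcard : ((SX X).card : ℝ) = NX X := by
    unfold SX NX PX
    rw [Finset.card_powersetCard]
  have hNX : 0 ≤ NX X := by unfold NX; positivity
  rw [hcard]
  have h9 : NX X / (η' * √y / (2 * Real.pi)) ≤ NX X * (8 / (η' * √y)) := by
    have : NX X / (η' * √y / (2 * Real.pi)) = NX X * ((2 * Real.pi) / (η' * √y)) := by
      field_simp
    rw [this]
    apply mul_le_mul_of_nonneg_left _ hNX
    apply div_le_div_of_nonneg_right _ (by positivity)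
    linarith
  linarith [h9, mul_comm (50 * √(kk X : ℝ) * (1 - c) ^ (kk X)) (NX X),
    mul_add (NX X) (50 * √(kk X : ℝ) * (1 - c) ^ (kk X)) (8 / (η' * √y))]

end Pool.Agent.H38R2.CG
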