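import Pool.Agent.H52.V.S8.H38R2.CG.Stubs
import Pool.Agent.H52.V.S8.H692R2.USS.T1

set_option autoImplicit false

/-! Task BT: Brun-Titchmarsh with some constant. -/

namespace Pool.Agent.H38R2.CG

theorem T_BT : P_BT := by
  refine ⟨132, 8, by norm_num, ?_⟩
  intro x h y hy hyx _ hh
  have hy0 : (0 : ℝ) < y := by linarith
  have hx0 : (0 : ℝ) < x := by linarith
  have h8 : (2 : ℝ) ≤ y ^ (1 / 3 : ℝ) := by
    have e : (2 : ℝ) = (8 : ℝ) ^ (1 / 3 : ℝ) := by
      rw [show (8 : ℝ) = 2 ^ (3 : ℝ) by norm_num, ← Real.rpow_mul (by norm_num)]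
      norm_num
    rw [e]
    exact Real.rpow_le_rpow (by norm_num) hy (by norm_num)
  have hh2 : 2 ≤ h := h8.trans hh
  have hh0 : 0 < h := by linarith
  set N : ℕ := ⌊h⌋₊ + 2 with hN
  have hN1 : (N : ℝ) ≤ 2 * h := by
    rw [hN]; push_cast
    have := Nat.floor_le hh0.le
    linarith
  have hN2 : h ≤ (N : ℝ) := by
    rw [hN]; push_cast
    have := (Nat.lt_floor_add_one h).le
    linarith
  have hbt := Pool.Agent.H692R2.USS.t1_brun_titchmarsh ⌈x⌉₊ 1 N (by omega) le_rfl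
  have hsub : (((Finset.Icc ⌈x⌉₊ ⌊x + h⌋₊).filter Nat.Prime).card : ℝ) ≤
      (((Finset.range N).filter (fun k => (⌈x⌉₊ + k * 1).Prime)).card : ℝ) := by
    have hle : ((Finset.Icc ⌈x⌉₊ ⌊x + h⌋₊).filter Nat.Prime) ⊆
        ((Finset.range N).filter (fun k => (⌈x⌉₊ + k * 1).Prime)).image (fun k => ⌈x⌉₊ + k) := by
      intro p hp
      rw [Finset.mem_filter, Finset.mem_Icc] at hp
      rw [Finset.mem_image]
      refine ⟨p - ⌈x⌉₊, ?_, by omega⟩
      rw [Finset.mem_filter, Finset.mem_range]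
      refine ⟨?_, ?_⟩
      · have h1 : (p : ℝ) ≤ x + h :=
          (Nat.le_floor_iff (by linarith)).mp hp.1.2
        have h2 : x ≤ (⌈x⌉₊ : ℝ) := Nat.le_ceil x
        have h3 : ((p - ⌈x⌉₊ : ℕ) : ℝ) ≤ h := by
          rw [Nat.cast_sub hp.1.1]
          linarith
        have h4 : p - ⌈x⌉₊ ≤ ⌊h⌋₊ := Nat.le_floor h3
        omega
      · have e : ⌈x⌉₊ + (p - ⌈x⌉₊) * 1 = p := by omega
        rw [e]; exact hp.2
    have h1 := (Finset.card_le_card hle).trans Finset.card_image_le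
    exact_mod_cast h1
  have hlogh : 1 / 3 * Real.log y ≤ Real.log h := by
    rw [← Real.log_rpow hy0]
    exact Real.log_le_log (by positivity) hh
  have hlogN : Real.log h ≤ Real.log N := Real.log_le_log hh0 hN2
  have hlogy : 0 < Real.log y := Real.log_pos (by linarith)
  have hlogN0 : 0 < Real.log N := by linarith
  refine hsub.trans (hbt.trans ?_)
  rw [Nat.totient_one]
  have e1 : 22 * (((1 : ℕ) : ℝ) / ((1 : ℕ) : ℝ)) * N / Real.log N = 22 * (N : ℝ) / Real.log N := by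
    norm_num
  rw [e1, div_le_div_iff₀ hlogN0 hlogy]
  calc 22 * (N : ℝ) * Real.log y ≤ 22 * (2 * h) * Real.log y := by
        apply mul_le_mul_of_nonneg_right _ hlogy.le
        linarith
    _ ≤ 22 * (2 * h) * (3 * Real.log N) := by
        apply mul_le_mul_of_nonneg_left _ (by positivity)
        linarith
    _ = 132 * h * Real.log N := by ring

end Pool.Agent.H38R2.CG
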