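import Pool.Agent.H52.V.S8.H38R2.CG.Stubs

/-!
# N0e: existence of the quadratic field of discriminant D
-/

set_option autoImplicit false

namespace Pool.Agent.H38R2.CG

theorem N0eh.irr (d : ℕ) (hd : 1 < d) (hs : Squarefree d) :
    Irreducible (Polynomial.X ^ 2 - Polynomial.C (d : ℚ)) := by
  apply X_pow_sub_C_irreducible_of_prime Nat.prime_two
  intro b hb
  have h1 : IsSquare (d : ℚ) := ⟨b, by rw [← hb, sq]⟩
  rw [Rat.isSquare_natCast_iff] at h1
  obtain ⟨c, hc⟩ := h1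
  have h2 : IsUnit c := hs c ⟨1, by rw [hc, mul_one]⟩
  rw [Nat.isUnit_iff] at h2
  subst h2
  omega

theorem N0eh.finrank_eq (K : Type) [Field K] [CharZero K] (i : Algebra ℚ K)
    (h : @Module.finrank ℚ K _ _ i.toModule = 2) : Module.finrank ℚ K = 2 := by
  have e : i = DivisionRing.toRatAlgebra := Subsingleton.elim _ _
  subst e
  exact h

theorem N0eh.exists_field (d : ℕ) (hd : 1 < d) (hs : Squarefree d) :
    ∃ (K : Type) (_ : Field K) (_ : NumberField K),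
      Module.finrank ℚ K = 2 ∧ ∃ x : K, x ^ 2 = (d : K) := by
  have hF : Fact (Irreducible (Polynomial.X ^ 2 - Polynomial.C (d : ℚ))) := ⟨N0eh.irr d hd hs⟩
  refine ⟨AdjoinRoot (Polynomial.X ^ 2 - Polynomial.C (d : ℚ)), inferInstance, inferInstance, ?_,
    AdjoinRoot.root _, ?_⟩
  · have h1 := (AdjoinRoot.powerBasis (N0eh.irr d hd hs).ne_zero).finrank
    rw [AdjoinRoot.powerBasis_dim, Polynomial.natDegree_X_pow_sub_C] at h1
    exact N0eh.finrank_eq (AdjoinRoot (Polynomial.X ^ 2 - Polynomial.C (d : ℚ)))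
      (AdjoinRoot.instAlgebra (Polynomial.X ^ 2 - Polynomial.C (d : ℚ))) h1
  · have h1 := AdjoinRoot.eval₂_root (Polynomial.X ^ 2 - Polynomial.C (d : ℚ))
    rw [Polynomial.eval₂_sub, Polynomial.eval₂_X_pow, Polynomial.eval₂_C, sub_eq_zero] at h1
    have h2 : (AdjoinRoot.of (Polynomial.X ^ 2 - Polynomial.C (d : ℚ))) (d : ℚ) =
        (d : AdjoinRoot (Polynomial.X ^ 2 - Polynomial.C (d : ℚ))) := map_natCast _ d
    exact h1.trans h2

theorem T_N0e : P_N0d → P_N0e := by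
  intro h D hD
  obtain ⟨h1, h2 | ⟨m, hm, hm4, hms⟩⟩ := hD
  · obtain ⟨K, i1, i2, hK, hx⟩ := N0eh.exists_field D h1 h2.2
    refine ⟨K, i1, i2, hK, ?_⟩
    rw [h K D h1 h2.2 hK hx, if_pos h2.1]
  · have hm1 : 1 < m := by omega
    obtain ⟨K, i1, i2, hK, hx⟩ := N0eh.exists_field m hm1 hms
    refine ⟨K, i1, i2, hK, ?_⟩
    rw [h K m hm1 hms hK hx, if_neg (by omega), hm]
    push_cast
    rfl

end Pool.Agent.H38R2.CG
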