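import Pool.Agent.H52.V.S8.H38R2.CG.Stubs

/-!
# Task TB6c: periodic weights times an antitone function
-/

set_option autoImplicit false

namespace Pool.Agent.H38R2.CG

open Finset Filter
open scoped Classical

namespace TB6ch

theorem period {h : ℕ → ℝ} {q : ℕ} (hp : ∀ v, h (v + q) = h v) (n v : ℕ) :
    h (n * q + v) = h v := by
  induction n with
  | zero => simp
  | succ n ih =>
    have : (n + 1) * q + v = (n * q + v) + q := by ring
    rw [this, hp, ih]

theorem block {h : ℕ → ℝ} {q : ℕ} (hp : ∀ v, h (v + q) = h v) (n : ℕ) :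
    ∑ v ∈ range q, h (n * q + v + 1) = ∑ v ∈ range q, h v := by
  have h1 : ∀ v, h (n * q + v + 1) = h (v + 1) := fun v => by
    rw [add_assoc, period hp]
  simp only [h1]
  have h2 := Finset.sum_range_succ h q
  have h3 := Finset.sum_range_succ' h q
  have h4 := hp 0
  rw [zero_add] at h4
  rw [h2, h4] at h3
  linarith

theorem main {q : ℕ} {h : ℕ → ℝ} {F : ℝ → ℝ} {a : ℝ} (h0 : ∀ v, 0 ≤ h v)
    (hp : ∀ v, h (v + q) = h v) (hs : ∑ v ∈ range q, h v = a * q)
    (hF : AntitoneOn F (Set.Ici 0)) (n : ℕ) :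
    ∑ v ∈ range (n * q), h (v + 1) * F ((v + 1 : ℕ) : ℝ) ≤
      ∑ i ∈ range n, a * q * F ((i : ℝ) * q) := by
  induction n with
  | zero => simp
  | succ n ih =>
    rw [Finset.sum_range_succ, Nat.succ_mul, Finset.sum_range_add]
    refine add_le_add ih ?_
    have h1 : ∀ v ∈ range q, h (n * q + v + 1) * F ((n * q + v + 1 : ℕ) : ℝ) ≤
        h (n * q + v + 1) * F ((n : ℝ) * q) := by
      intro v _
      refine mul_le_mul_of_nonneg_left (hF ?_ ?_ ?_) (h0 _)
      · exact Set.mem_Ici.2 (by positivity)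
      · exact Set.mem_Ici.2 (by positivity)
      · push_cast
        have : (0 : ℝ) ≤ v := Nat.cast_nonneg v
        linarith
    refine (Finset.sum_le_sum h1).trans ?_
    rw [← Finset.sum_mul, block hp, hs]

end TB6ch

open TB6ch in
theorem T_TB6c : P_TB6c := by
  intro q h F I a hq h0 hp hs hF hF0 hI V
  have hq0 : (0 : ℝ) < q := by exact_mod_cast hq
  have ha : 0 ≤ a := by
    have : 0 ≤ a * q := by rw [← hs]; exact Finset.sum_nonneg fun v _ => h0 v
    exact nonneg_of_mul_nonneg_left this hq0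
  obtain ⟨m, hm⟩ : ∃ m, V < (m + 1) * q := ⟨V, by nlinarith⟩
  -- enlarge the range
  have e1 : ∑ v ∈ Finset.Icc 1 V, h v * F v =
      ∑ v ∈ range V, h (v + 1) * F ((v + 1 : ℕ) : ℝ) := by
    rw [Finset.range_eq_Ico, Finset.sum_Ico_add' (fun v => h v * F (v : ℝ)) 0 V 1]
    rfl
  have e2 : ∑ v ∈ range V, h (v + 1) * F ((v + 1 : ℕ) : ℝ) ≤
      ∑ v ∈ range ((m + 1) * q), h (v + 1) * F ((v + 1 : ℕ) : ℝ) := by
    refine Finset.sum_le_sum_of_subset_of_nonneg ?_ fun v _ _ => mul_nonneg (h0 _) (hF0 _)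
    exact Finset.range_subset_range.2 hm.le
  have e3 := main h0 hp hs hF (m + 1)
  rw [Finset.sum_range_succ'] at e3
  -- the integral
  have e4 : ∑ i ∈ range m, F (((i + 1 : ℕ) : ℝ) * q) ≤ ∫ x in (0 : ℝ)..m, F (q * x) := by
    have hG : AntitoneOn (fun x : ℝ => F (q * x)) (Set.Icc 0 (0 + (m : ℝ))) := by
      intro x hx y hy hxy
      refine hF ?_ ?_ (mul_le_mul_of_nonneg_left hxy hq0.le)
      · exact Set.mem_Ici.2 (mul_nonneg hq0.le hx.1)
      · exact Set.mem_Ici.2 (mul_nonneg hq0.le hy.1)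
    have h1 := hG.sum_le_integral
    rw [zero_add] at h1
    refine le_trans (le_of_eq ?_) h1
    refine Finset.sum_congr rfl fun i _ => ?_
    rw [zero_add, mul_comm]
  have e5 : (q : ℝ) * ∫ x in (0 : ℝ)..m, F (q * x) ≤ I := by
    have h1 := intervalIntegral.mul_integral_comp_mul_left (f := F) (a := (0 : ℝ)) (b := (m : ℝ))
      (c := (q : ℝ))
    rw [h1, mul_zero]
    exact hI _ (by positivity)
  have e6 : ∑ i ∈ range m, a * q * F (((i + 1 : ℕ) : ℝ) * q) ≤ a * I := by
    rw [← Finset.mul_sum, mul_assoc]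
    refine mul_le_mul_of_nonneg_left ?_ ha
    exact (mul_le_mul_of_nonneg_left e4 hq0.le).trans e5
  have e7 : a * q * F (((0 : ℕ) : ℝ) * q) = a * (q * F 0) := by
    rw [Nat.cast_zero, zero_mul, mul_assoc]
  rw [e1]
  calc _ ≤ _ := e2
    _ ≤ _ := e3
    _ ≤ a * I + a * (q * F 0) := by rw [e7]; exact add_le_add e6 le_rfl
    _ = _ := by ring

end Pool.Agent.H38R2.CG
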